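import Pool.Agent.MP_f18a41_lc.BOX

-- ======== part 0: formerly Pool.Agent.MP_f18a41_lc.CHAIN
section MrgPart0

/-! Row CHAIN: compactness, the cut generated by an assignment, and bounded appending. -/

namespace Pool.Agent.MP_f18a41_lc

open Function

namespace chain

variable {b : Bool}

/-- the value of `t` at the constants `1, 2, ...` is at most the constant `0` -/
def gam (t : Tm) : EFm := .le ((t.ren (· + 1)).e.cl []) (.cst 0)

theorem ev_gam (t : Tm) (N : Mdl b) (c : ℕ → N) (X : ℕ → N → Prop) (w : ℕ → N) :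
    (gam t).ev N.toStr c X w ↔ t.ev N.toStr (fun i => c (i + 1)) ≤ c 0 := by
  have e : ((t.ren (· + 1)).e.cl []).ev N.toStr c w = t.ev N.toStr (fun i => c (i + 1)) := by
    rw [ETm.ev_cl, Tm.ev_e, Tm.ev_ren]
    simp
  show ((t.ren (· + 1)).e.cl []).ev N.toStr c w ≤ c 0 ↔ _
  rw [e]

/-- the bounds for the terms below `T` -/
def below (b : Bool) (T : Tm) : Set EFm :=
  {γ | ∃ t : Tm, (∀ (M : Mdl b) (v : ℕ → M), t.ev M.toStr v ≤ T.ev M.toStr v) ∧ γ = gam t}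

theorem below_left (S T : Tm) : below b S ⊆ below b (S.add T) := by
  rintro _ ⟨t, ht, rfl⟩
  exact ⟨t, fun M v => (ht M v).trans (by rw [Tm.ev_add]; exact le_self_add), rfl⟩

theorem below_right (S T : Tm) : below b T ⊆ below b (S.add T) := by
  rintro _ ⟨t, ht, rfl⟩
  exact ⟨t, fun M v => (ht M v).trans (by rw [Tm.ev_add]; exact le_add_self), rfl⟩

/-- a derivation uses only the bounds for the terms below one term -/
theorem supp {φ : EFm} (h : EPrv b (Set.range gam) φ) : ∃ T : Tm, EPrv b (below b T) φ := by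
  induction h with
  | hyp h =>
    obtain ⟨t, rfl⟩ := h
    exact ⟨t, .hyp ⟨t, fun _ _ => le_rfl, rfl⟩⟩
  | k => exact ⟨.zero, .k ..⟩
  | s => exact ⟨.zero, .s ..⟩
  | dn => exact ⟨.zero, .dn ..⟩
  | inst x u φ h => exact ⟨.zero, .inst x u φ h⟩
  | dist => exact ⟨.zero, .dist ..⟩
  | vac x φ h => exact ⟨.zero, .vac x φ h⟩
  | mp _ _ i1 i2 =>
    obtain ⟨S, hS⟩ := i1
    obtain ⟨T, hT⟩ := i2
    exact ⟨S.add T, .mp (hS.mono (below_left S T)) (hT.mono (below_right S T))⟩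
  | gen x _ ih =>
    obtain ⟨T, hT⟩ := ih
    exact ⟨T, .gen x hT⟩
  | ax h => exact ⟨.zero, .ax h⟩
  | ind x h => exact ⟨.zero, .ind x h⟩
  | cong k => exact ⟨.zero, .cong k⟩

theorem tall (hc : COMP b) : TALL b := by
  intro P hP h M v
  obtain ⟨ψ, hψ⟩ := hP.out
  have e : ∀ (N : Mdl b) (c : ℕ → N) (X : ℕ → N → Prop) (w : ℕ → N),
      ((ψ.ren (· + 1)).e.cl []).ev N.toStr c X w ↔ P N (fun i => c (i + 1)) := by
    intro N c X w
    rw [EFm.ev_cl_nil, Fm.ev_e, Fm.ev_ren (add_left_injective 1), hψ]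
  obtain ⟨T, hT⟩ := supp (hc (Set.range gam) ((ψ.ren (· + 1)).e.cl [])
    fun N c X hΓ w => (e N c X w).2
      (h N _ (c 0) fun t => (ev_gam t N c X w).1 (hΓ _ ⟨t, rfl⟩ w)))
  refine (e M (cons (T.ev M.toStr v) v) (fun _ _ => False) v).1 (hT.sound M _ _ ?_ v)
  rintro _ ⟨t, ht, rfl⟩ w
  exact (ev_gam t M _ _ w).2 (ht M v)

theorem fnJ {J : ∀ M : Mdl b, M → (ℕ → M) → M}
    (hJ : UFn fun M v => J M (v 0) (fun i => v (i + 1))) {f : UFun b} (hf : UFn f) (k : ℕ) :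
    UFn fun M v => J M (f M v) (fun i => v (i + k)) :=
  hJ.comp (cons f fun i _ v => v (i + k)) (by rintro (_ | i); exacts [hf, UFn.var _])

/-- one step of the chain has a derivation below the bound -/
theorem step [HasPost b] (pb : POSTB b) {J : ∀ M : Mdl b, M → (ℕ → M) → M} {C : UPred b}
    (hJ : UFn fun M v => J M (v 0) (fun i => v (i + 1))) (hC : USig C)
    (hs : ∀ (M : Mdl b) (v : ℕ → M) (y : M) (D : M → Prop), Th D → C M v → y ≠ 0 → y ≤ v 0 →
      D (J M (half y) v) → D (J M y v))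
    {M : Mdl b} {v : ℕ → M} {B : M} (hB : ∀ t : Tm, t.ev M.toStr v ≤ B) (hv : C M v) {y : M}
    (h0 : y ≠ 0) (hy : y ≤ v 0) :
    ∃ s ≤ B, ∃ a, HDer (fun j => j = J M (half y) v) s a ∧ Mem (J M y v) s a := by
  have h := isCut_gen v
  let v' : ℕ → h.mdl := fun i => h.elt (v i) ⟨.var i, le_rfl⟩
  let y' : h.mdl := h.elt y ⟨.var 0, hy⟩
  have h1 : C h.mdl v' := (h.abs hC.out v').2 hv
  have h2 : y' ≠ 0 := fun e => h0 (h.val_inj.2 e)
  obtain ⟨s, a, h3, h4⟩ := hs h.mdl v' y' (HD fun j => j = J h.mdl (half y') v')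
    ⟨pb.clo _, fun _ hz => hz.hd _⟩ h1 h2 hy (pb.hyp rfl)
  have e1 : h.val (J h.mdl (half y') v') = J M (half y) v := h.abs_fn hJ (cons (half y') v')
  have e2 : h.val (J h.mdl y' v') = J M y v := h.abs_fn hJ (cons y' v')
  obtain ⟨t, ht⟩ := h.val_mem s
  refine ⟨h.val s, ht.trans (hB t), h.val a, ?_, ?_⟩
  · rw [← e1]
    exact (h.abs (inferInstance : USig fun (_ : Mdl b) w =>
      HDer (fun j => j = w 0) (w 1) (w 2)).out
      (cons (J h.mdl (half y') v') (cons s fun _ => a))).1 h3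
  · rw [← e2]
    exact (h.abs (inferInstance : USig fun (_ : Mdl b) w => Mem (w 0) (w 1) (w 2)).out
      (cons (J h.mdl y' v') (cons s fun _ => a))).1 h4

theorem len_bd {M : Mdl b} (c B y : M) :
    len (smash (2 * B + 1) y * pw c) = (len B + 1) * len y + 1 + len c := by
  rw [len_mul_pw (smash_ne_zero _ _), len_smash, len_two_mul_add_one]

end chain

open chain in
theorem row_CHAIN : R_CHAIN := by
  intro b hp hc pb J C hJ hC hs
  have f0 : UFn fun M v => J M 0 v := fnJ hJ UFn.zero 0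
  have f1 : UFn fun M v => J M (v 0) v := fnJ hJ (UFn.var 0) 0
  refine tall hc (fun M v => C M v → Dv (J M 0 v) → Dv (J M (v 0) v)) inferInstance ?_
  rintro M v B hB hv ⟨s0, a0, d1, d2⟩
  obtain ⟨s1, b1, d3, -, d4⟩ := pb.app (H := fun _ => False) (H' := fun _ => False)
    (W := B + s0) (c := 0) (s := 0) (fun i _ => Or.inl (row_zero _ _)) (smash_pos _ _) d1
    (le_add_self.trans_lt (lt_pw _)) fun _ h => h.elim
  have f2 : UFn fun M v => J M (v 1) (fun i => v (i + 5)) := fnJ hJ (UFn.var 1) 5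
  have key := pind_sig (fun M y w => y ≤ w 3 → ∃ s < smash (w 0) (smash (w 2) y * pw (w 1)),
    HDer (fun _ => False) s (w 0) ∧ Mem (J M y (fun i => w (i + 3))) s (w 0))
    (cons (B + s0) (cons (pw 0 * pw s0) (cons (2 * B + 1) v))) ?_ ?_ (v 0) le_rfl
  · obtain ⟨s, -, h1, h2⟩ := key
    exact ⟨s, B + s0, h1, h2⟩
  · intro _
    refine ⟨s1, b1.trans_le (smash_mono_len le_rfl ?_), d3, d4 _ d2⟩
    show len (pw 0 * pw s0) ≤ len (smash (2 * B + 1) 0 * pw (pw 0 * pw s0))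
    rw [len_bd]
    exact le_add_self
  · intro y h0 ih hy
    change y ≤ v 0 at hy
    obtain ⟨s, b2, h1, h2⟩ := ih ((half_le y).trans hy)
    change s < smash (B + s0) (smash (2 * B + 1) (half y) * pw (pw 0 * pw s0)) at b2
    change HDer (fun _ => False) s (B + s0) at h1
    change Mem (J M (half y) v) s (B + s0) at h2
    obtain ⟨s', b3, a', h3, h4⟩ := step pb hJ hC hs hB hv h0 hy
    obtain ⟨s'', b4, h5, -, h6⟩ := pb.app h1 b2 h3 ((b3.trans le_self_add).trans_lt (lt_pw _))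
      fun j hj => Or.inr (hj ▸ h2)
    refine ⟨s'', b4.trans_le (smash_mono_len le_rfl ?_), h5, h6 _ h4⟩
    show _ ≤ len (smash (2 * B + 1) y * pw (pw 0 * pw s0))
    have h7 := len_mono b3
    rw [len_pw_mul_pw, len_bd, len_bd, len_half h0]
    zify at h7 ⊢
    linarith

end Pool.Agent.MP_f18a41_lc

end MrgPart0

-- ======== part 1: formerly Pool.Agent.MP_f18a41_lc.SEMA
section MrgPart1

/-! The clauses of a truth class come from a one-occurrence operator. -/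

namespace Pool.Agent.MP_f18a41_lc

namespace sema

variable {b : Bool} {M : Mdl b}

/-- clauses for terms; `K` receives the two subqueries -/
def BT (K : M → M → Prop) (c a y : M) : Prop :=
  (∃ x, c = cVar x ∧ y = look a x ∧ K 0 0) ∨
  (∃ t z, K (qT t a z) 0 ∧ (c = pr 2 t ∧ y = z + 1 ∨ c = pr 3 t ∧ y = len z ∨
    c = pr 4 t ∧ y = half z)) ∨
  (∃ s t z w, K (qT s a z) (qT t a w) ∧ (c = pr 5 (pr s t) ∧ y = z + w ∨
    c = pr 6 (pr s t) ∧ y = z * w ∨ c = pr 7 (pr s t) ∧ y = smash z w)) ∨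
  (NT c ∧ y = 0 ∧ K 0 0)

/-- clauses for true formulas -/
def BP (K : M → M → Prop) (c a : M) : Prop :=
  (∃ s t z w, K (qT s a z) (qT t a w) ∧ (c = cEq s t ∧ z = w ∨ c = cLe s t ∧ z ≤ w)) ∨
  (∃ d e, c = cImp d e ∧ (K (qF d a 0) 0 ∨ K (qF e a 1) 0)) ∨
  (∃ x d, c = cAll x d ∧ K 0 0)

/-- clauses for false formulas -/
def BN (K : M → M → Prop) (c a : M) : Prop :=
  (∃ s t z w, K (qT s a z) (qT t a w) ∧ (c = cEq s t ∧ z ≠ w ∨ c = cLe s t ∧ w < z)) ∨
  (∃ d e, c = cImp d e ∧ K (qF d a 1) (qF e a 0)) ∨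
  (∃ x d a', c = cAll x d ∧ Jc a' ∧ Upd a x a' ∧ K (qF d a' 0) 0) ∨ (NF c ∧ K 0 0)

def BB (K : M → M → Prop) (q : M) : Prop :=
  (∃ c a y, q = qT c a y ∧ BT K c a y) ∨ (∃ c a, q = qF c a 1 ∧ BP K c a) ∨
    (∃ c a, q = qF c a 0 ∧ BN K c a)

/-- the subqueries of a true generalisation -/
def Al (q q' : M) : Prop :=
  ∃ x e a a', q = qF (cAll x e) a 1 ∧ Jc a' ∧ Upd a x a' ∧ q' = qF e a' 1

def Node (q d : M) : Prop := BB (fun s t => d = pr s t) q
def Sub (q d q' : M) : Prop := q' ≠ 0 ∧ (q' = fst d ∨ q' = snd d ∨ Al q q')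
noncomputable def rk (q : M) : M := len (fst (fst q))

theorem l1 (k t : M) : len t < len (pr k t) := len_lt_pr_right k t
theorem l2 (k s t : M) : len s < len (pr k (pr s t)) :=
  (len_lt_pr_left s t).trans (len_lt_pr_right _ _)
theorem l3 (k s t : M) : len t < len (pr k (pr s t)) :=
  (len_lt_pr_right s t).trans (len_lt_pr_right _ _)

theorem BB.elim {K : M → M → Prop} {q : M} (h : BB K q) : ∃ s t, K s t ∧ (s ≠ 0 → rk s < rk q) ∧
    (t ≠ 0 → rk t < rk q) ∧ ∀ K', K' s t → BB K' q := by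
  rcases h with ⟨c, a, y, rfl, h⟩ | ⟨c, a, rfl, h⟩ | ⟨c, a, rfl, h⟩
  · rcases h with ⟨x, h1, h2, h3⟩ | ⟨t, z, h1, h2⟩ | ⟨s, t, z, w, h1, h2⟩ | ⟨h1, h2, h3⟩
    · exact ⟨_, _, h3, by simp, by simp, fun _ k => .inl ⟨_, _, _, rfl, .inl ⟨x, h1, h2, k⟩⟩⟩
    · refine ⟨_, _, h1, ?_, by simp, fun _ k => .inl ⟨_, _, _, rfl, .inr (.inl ⟨t, z, k, h2⟩)⟩⟩
      rcases h2 with ⟨rfl, -⟩ | ⟨rfl, -⟩ | ⟨rfl, -⟩ <;> simp [rk, l1]
    · refine ⟨_, _, h1, ?_, ?_,
        fun _ k => .inl ⟨_, _, _, rfl, .inr (.inr (.inl ⟨s, t, z, w, k, h2⟩))⟩⟩ <;>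
      rcases h2 with ⟨rfl, -⟩ | ⟨rfl, -⟩ | ⟨rfl, -⟩ <;> simp [rk, l2, l3]
    · exact ⟨_, _, h3, by simp, by simp, fun _ k => .inl ⟨_, _, _, rfl, .inr (.inr (.inr ⟨h1, h2, k⟩))⟩⟩
  · rcases h with ⟨s, t, z, w, h1, h2⟩ | ⟨d, e, rfl, h1 | h1⟩ | ⟨x, d, h1, h2⟩
    · refine ⟨_, _, h1, ?_, ?_, fun _ k => .inr (.inl ⟨_, _, rfl, .inl ⟨s, t, z, w, k, h2⟩⟩)⟩ <;>
      rcases h2 with ⟨rfl, -⟩ | ⟨rfl, -⟩ <;> simp [rk, l2, l3]
    · exact ⟨_, _, h1, by simp [rk, l2], by simp,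
        fun _ k => .inr (.inl ⟨_, _, rfl, .inr (.inl ⟨d, e, rfl, .inl k⟩)⟩)⟩
    · exact ⟨_, _, h1, by simp [rk, l3], by simp,
        fun _ k => .inr (.inl ⟨_, _, rfl, .inr (.inl ⟨d, e, rfl, .inr k⟩)⟩)⟩
    · exact ⟨_, _, h2, by simp, by simp, fun _ k => .inr (.inl ⟨_, _, rfl, .inr (.inr ⟨x, d, h1, k⟩)⟩)⟩
  · rcases h with ⟨s, t, z, w, h1, h2⟩ | ⟨d, e, rfl, h1⟩ | ⟨x, d, a', rfl, h1, h2, h3⟩ | ⟨h1, h2⟩
    · refine ⟨_, _, h1, ?_, ?_, fun _ k => .inr (.inr ⟨_, _, rfl, .inl ⟨s, t, z, w, k, h2⟩⟩)⟩ <;>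
      rcases h2 with ⟨rfl, -⟩ | ⟨rfl, -⟩ <;> simp [rk, l2, l3]
    · exact ⟨_, _, h1, by simp [rk, l2], by simp [rk, l3],
        fun _ k => .inr (.inr ⟨_, _, rfl, .inr (.inl ⟨d, e, rfl, k⟩)⟩)⟩
    · exact ⟨_, _, h3, by simp [rk, l3], by simp,
        fun _ k => .inr (.inr ⟨_, _, rfl, .inr (.inr (.inl ⟨x, d, a', rfl, h1, h2, k⟩))⟩)⟩
    · exact ⟨_, _, h2, by simp, by simp, fun _ k => .inr (.inr ⟨_, _, rfl, .inr (.inr (.inr ⟨h1, k⟩))⟩)⟩

theorem rk_lt {q d q' : M} (h : Node q d) (h' : Sub q d q') : rk q' < rk q := by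
  obtain ⟨s, t, rfl, h1, h2, -⟩ := h.elim
  obtain ⟨h0, e | e | ⟨x, e, a, a', rfl, -, -, rfl⟩⟩ := h'
  · rw [fst_pr] at e; subst e; exact h1 h0
  · rw [snd_pr] at e; subst e; exact h2 h0
  · simp [rk, l3]

theorem gam_iff (X : M → Prop) (q : M) : Gam Node Sub X q ↔
    BB (fun s t => (s ≠ 0 → X s) ∧ (t ≠ 0 → X t) ∧ ∀ q', Al q q' → X q') q := by
  constructor
  · rintro ⟨d, h, h'⟩
    obtain ⟨s, t, rfl, -, -, k⟩ := h.elim
    refine k _ ⟨fun h0 => h' _ ⟨h0, .inl (fst_pr _ _).symm⟩,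
      fun h0 => h' _ ⟨h0, .inr (.inl (snd_pr _ _).symm)⟩, fun q' hq => h' _ ⟨?_, .inr (.inr hq)⟩⟩
    obtain ⟨_, _, _, _, -, -, -, rfl⟩ := hq
    simp
  · intro h
    obtain ⟨s, t, ⟨h1, h2, h3⟩, -, -, k⟩ := h.elim
    refine ⟨pr s t, k _ rfl, ?_⟩
    rintro q' ⟨h0, e | e | e⟩
    · rw [fst_pr] at e; subst e; exact h1 h0
    · rw [snd_pr] at e; subst e; exact h2 h0
    · exact h3 _ e

theorem bb_T (K : M → M → Prop) (c a y : M) : BB K (qT c a y) ↔ BT K c a y := by simp [BB]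
theorem bb_P (K : M → M → Prop) (c a : M) : BB K (qF c a 1) ↔ BP K c a := by simp [BB]
theorem bb_N (K : M → M → Prop) (c a : M) : BB K (qF c a 0) ↔ BN K c a := by simp [BB]

theorem cl {X : M → Prop} {n : M} (h : Tar Node Sub rk X n) : Cl X n := by
  refine ⟨fun c a y hc => ?_, fun c a hc => ?_, fun c a hc => ?_⟩
  · rw [Val, h _ (by simpa [rk] using hc), gam_iff, bb_T]
    simp [BT, Al, Val, and_assoc]
  · rw [h _ (by simpa [rk] using hc), gam_iff, bb_P]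
    refine or_congr ?_ (or_congr ?_ ?_)
    · refine exists₄_congr fun s t z w => ⟨fun ⟨k, e⟩ => ⟨k.1 (by simp), k.2.1 (by simp), e⟩,
        fun ⟨h1, h2, e⟩ => ⟨⟨fun _ => h1, fun _ => h2, ?_⟩, e⟩⟩
      rcases e with ⟨rfl, -⟩ | ⟨rfl, -⟩ <;> simp [Al]
    · exact exists₂_congr fun d e => and_congr_right fun e => by simp [e, Al]
    · refine exists₂_congr fun x d => and_congr_right fun e => ?_
      subst e
      refine ⟨fun k a' h1 h2 => k.2.2 _ ⟨x, d, a, a', rfl, h1, h2, rfl⟩,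
        fun k => ⟨by simp, by simp, ?_⟩⟩
      rintro _ ⟨x', d', a1, a', e, h1, h2, rfl⟩
      simp only [pr_inj, true_and, and_true] at e
      obtain ⟨⟨rfl, rfl⟩, rfl⟩ := e
      exact k a' h1 h2
  · rw [h _ (by simpa [rk] using hc), gam_iff, bb_N]
    simp [BN, Al, Val, and_assoc]

section Inst
variable {f g h k : UFun b}

set_option synthInstance.maxSize 1024 in
instance ufNT [hf : UFn f] : UF fun M _ v => NT (f M v) :=
  UF.app1 (T := fun _ _ c => NT c) (by unfold NT; infer_instance) hf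
set_option synthInstance.maxSize 1024 in
instance ufNF [hf : UFn f] : UF fun M _ v => NF (f M v) :=
  UF.app1 (T := fun _ _ c => NF c) (by unfold NF; infer_instance) hf
set_option synthInstance.maxSize 2048 in
instance ufBT [hf : UFn f] [hg : UFn g] [hh : UFn h] [hk : UFn k] :
    UF fun M _ v => BT (fun s t => f M v = pr s t) (g M v) (h M v) (k M v) :=
  UF.app4 (T := fun _ _ d c a y => BT (fun s t => d = pr s t) c a y)
    (by unfold BT; infer_instance) hf hg hh hk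
set_option synthInstance.maxSize 2048 in
instance ufBP [hf : UFn f] [hg : UFn g] [hh : UFn h] :
    UF fun M _ v => BP (fun s t => f M v = pr s t) (g M v) (h M v) :=
  UF.app3 (T := fun _ _ d c a => BP (fun s t => d = pr s t) c a)
    (by unfold BP; infer_instance) hf hg hh
set_option synthInstance.maxSize 2048 in
instance ufBN [hf : UFn f] [hg : UFn g] [hh : UFn h] :
    UF fun M _ v => BN (fun s t => f M v = pr s t) (g M v) (h M v) :=
  UF.app3 (T := fun _ _ d c a => BN (fun s t => d = pr s t) c a)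
    (by unfold BN; infer_instance) hf hg hh
set_option synthInstance.maxSize 1024 in
instance ufAl [hf : UFn f] [hg : UFn g] : UF fun M _ v => Al (f M v) (g M v) :=
  UF.app2 (T := fun _ _ q q' => Al q q') (by unfold Al; infer_instance) hf hg

set_option synthInstance.maxSize 1024 in
theorem upNode : UP fun (_ : Mdl b) v => Node (v 0) (v 1) := by
  unfold Node BB; infer_instance
set_option synthInstance.maxSize 1024 in
theorem upSub : UP fun (_ : Mdl b) v => Sub (v 0) (v 1) (v 2) := by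
  unfold Sub; infer_instance

end Inst

end sema

theorem row_SEMA : R_SEMA := fun _ =>
  ⟨fun _ => sema.Node, fun _ => sema.Sub, fun _ => sema.rk, sema.upNode, sema.upSub,
    by unfold sema.rk; infer_instance, fun _ _ _ _ => sema.rk_lt, fun _ _ _ => sema.cl⟩

end Pool.Agent.MP_f18a41_lc

end MrgPart1

-- ======== part 2: formerly Pool.Agent.MP_f18a41_lc.SEMB
section MrgPart2

/-! Induction on the rank turns the raw clauses into a truth class. -/

namespace Pool.Agent.MP_f18a41_lc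

namespace SEMB

variable {b : Bool} {M : Mdl b}

/-- the properties of one code which are carried through the induction -/
def Gd (X : M → Prop) (c : M) : Prop :=
  (∀ a, ∃ y, Val X c a y) ∧ (∀ a y y', Val X c a y → Val X c a y' → y = y') ∧
  (∀ a, Sat X c a ↔ ¬ X (qF c a 0)) ∧
  (∀ a a' y, (∀ j, look a' j = look a j) → Val X c a y → Val X c a' y) ∧
  (∀ a a', (∀ j, look a' j = look a j) → Sat X c a → Sat X c a') ∧
  (∀ A, Jc A → ∃ B s, Jc B ∧ ∀ a, a ≤ A → Val X c a (row s B a))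

/-- the induction predicate -/
def Psi (X : M → Prop) (i : M) : Prop := ∀ c, len c < i → Gd X c

set_option synthInstance.maxSize 1024 in
instance ufGd (k : ℕ) {f : UFun b} [hf : UFn f] : UF fun M X v => Gd (X k) (f M v) :=
  UF.app1 (T := fun _ X c => Gd (X k) c) (by unfold Gd; infer_instance) hf

theorem ufPsi : UF fun (N : Mdl b) X v => Psi (X 0) (v 0) := by
  unfold Psi; infer_instance

/-! ### Inversion of the clauses -/

section Inv
variable {X : M → Prop} {n : M} (h : Cl X n)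
include h

theorem val_var {x : M} (hc : len (cVar x) < n) (a y : M) :
    Val X (cVar x) a y ↔ y = look a x := by
  rw [h.val _ a y hc]
  constructor
  · rintro (⟨x', e, rfl⟩ | ⟨t, z, -, e⟩ | ⟨s, t, z, w, -, -, e⟩ | ⟨e, -⟩)
    · rw [(pr_inj.1 e).2]
    · simp at e
    · simp at e
    · exact absurd rfl (e 0 x).1
  · exact fun e => Or.inl ⟨x, rfl, e⟩

theorem val_suc {t : M} (hc : len (pr 2 t) < n) (a y : M) :
    Val X (pr 2 t) a y ↔ ∃ z, Val X t a z ∧ y = z + 1 := by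
  rw [h.val _ a y hc]
  constructor
  · rintro (⟨x', e, rfl⟩ | ⟨t, z, h1, e⟩ | ⟨s, t, z, w, -, -, e⟩ | ⟨e, -⟩)
    · simp at e
    · norm_num at e
      obtain ⟨rfl, rfl⟩ := e
      exact ⟨z, h1, rfl⟩
    · norm_num at e
    · exact absurd rfl (e 0 t).2.1
  · exact fun ⟨z, h1, e⟩ => Or.inr (Or.inl ⟨t, z, h1, Or.inl ⟨rfl, e⟩⟩)

theorem val_ln {t : M} (hc : len (pr 3 t) < n) (a y : M) :
    Val X (pr 3 t) a y ↔ ∃ z, Val X t a z ∧ y = len z := by
  rw [h.val _ a y hc]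
  constructor
  · rintro (⟨x', e, rfl⟩ | ⟨t, z, h1, e⟩ | ⟨s, t, z, w, -, -, e⟩ | ⟨e, -⟩)
    · simp at e
    · norm_num at e
      obtain ⟨rfl, rfl⟩ := e
      exact ⟨z, h1, rfl⟩
    · norm_num at e
    · exact absurd rfl (e 0 t).2.2.1
  · exact fun ⟨z, h1, e⟩ => Or.inr (Or.inl ⟨t, z, h1, Or.inr (Or.inl ⟨rfl, e⟩)⟩)

theorem val_hf {t : M} (hc : len (pr 4 t) < n) (a y : M) :
    Val X (pr 4 t) a y ↔ ∃ z, Val X t a z ∧ y = half z := by
  rw [h.val _ a y hc]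
  constructor
  · rintro (⟨x', e, rfl⟩ | ⟨t, z, h1, e⟩ | ⟨s, t, z, w, -, -, e⟩ | ⟨e, -⟩)
    · simp at e
    · norm_num at e
      obtain ⟨rfl, rfl⟩ := e
      exact ⟨z, h1, rfl⟩
    · norm_num at e
    · exact absurd rfl (e 0 t).2.2.2.1
  · exact fun ⟨z, h1, e⟩ => Or.inr (Or.inl ⟨t, z, h1, Or.inr (Or.inr ⟨rfl, e⟩)⟩)

theorem val_add {s t : M} (hc : len (pr 5 (pr s t)) < n) (a y : M) :
    Val X (pr 5 (pr s t)) a y ↔ ∃ z w, Val X s a z ∧ Val X t a w ∧ y = z + w := by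
  rw [h.val _ a y hc]
  constructor
  · rintro (⟨x', e, rfl⟩ | ⟨t, z, -, e⟩ | ⟨s, t, z, w, h1, h2, e⟩ | ⟨e, -⟩)
    · simp at e
    · norm_num at e
    · norm_num at e
      obtain ⟨⟨rfl, rfl⟩, rfl⟩ := e
      exact ⟨z, w, h1, h2, rfl⟩
    · exact absurd rfl (e s t).2.2.2.2.1
  · exact fun ⟨z, w, h1, h2, e⟩ =>
      Or.inr (Or.inr (Or.inl ⟨s, t, z, w, h1, h2, Or.inl ⟨rfl, e⟩⟩))

theorem val_mul {s t : M} (hc : len (pr 6 (pr s t)) < n) (a y : M) :
    Val X (pr 6 (pr s t)) a y ↔ ∃ z w, Val X s a z ∧ Val X t a w ∧ y = z * w := by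
  rw [h.val _ a y hc]
  constructor
  · rintro (⟨x', e, rfl⟩ | ⟨t, z, -, e⟩ | ⟨s, t, z, w, h1, h2, e⟩ | ⟨e, -⟩)
    · simp at e
    · norm_num at e
    · norm_num at e
      obtain ⟨⟨rfl, rfl⟩, rfl⟩ := e
      exact ⟨z, w, h1, h2, rfl⟩
    · exact absurd rfl (e s t).2.2.2.2.2.1
  · exact fun ⟨z, w, h1, h2, e⟩ =>
      Or.inr (Or.inr (Or.inl ⟨s, t, z, w, h1, h2, Or.inr (Or.inl ⟨rfl, e⟩)⟩))

theorem val_sm {s t : M} (hc : len (pr 7 (pr s t)) < n) (a y : M) :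
    Val X (pr 7 (pr s t)) a y ↔ ∃ z w, Val X s a z ∧ Val X t a w ∧ y = smash z w := by
  rw [h.val _ a y hc]
  constructor
  · rintro (⟨x', e, rfl⟩ | ⟨t, z, -, e⟩ | ⟨s, t, z, w, h1, h2, e⟩ | ⟨e, -⟩)
    · simp at e
    · norm_num at e
    · norm_num at e
      obtain ⟨⟨rfl, rfl⟩, rfl⟩ := e
      exact ⟨z, w, h1, h2, rfl⟩
    · exact absurd rfl (e s t).2.2.2.2.2.2
  · exact fun ⟨z, w, h1, h2, e⟩ =>
      Or.inr (Or.inr (Or.inl ⟨s, t, z, w, h1, h2, Or.inr (Or.inr ⟨rfl, e⟩)⟩))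

theorem val_nt {c : M} (hc : len c < n) (hn : NT c) (a y : M) : Val X c a y ↔ y = 0 := by
  rw [h.val _ a y hc]
  constructor
  · rintro (⟨x', e, rfl⟩ | ⟨t, z, -, e⟩ | ⟨s, t, z, w, -, -, e⟩ | ⟨-, e⟩)
    · exact absurd e (hn 0 x').1
    · obtain ⟨-, h1, h2, h3, -⟩ := hn 0 t
      rcases e with e | e | e
      exacts [absurd e.1 h1, absurd e.1 h2, absurd e.1 h3]
    · obtain ⟨-, -, -, -, h1, h2, h3⟩ := hn s t
      rcases e with e | e | e
      exacts [absurd e.1 h1, absurd e.1 h2, absurd e.1 h3]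
    · exact e
  · exact fun e => Or.inr (Or.inr (Or.inr ⟨hn, e⟩))

theorem pos_eq {s t : M} (hc : len (cEq s t) < n) (a : M) :
    Sat X (cEq s t) a ↔ ∃ z w, Val X s a z ∧ Val X t a w ∧ z = w := by
  rw [Sat, h.pos _ a hc]
  constructor
  · rintro (⟨s, t, z, w, h1, h2, e⟩ | ⟨d, e, e', -⟩ | ⟨x, d, e, -⟩)
    · norm_num at e
      obtain ⟨⟨rfl, rfl⟩, rfl⟩ := e
      exact ⟨z, z, h1, h2, rfl⟩
    · norm_num at e'
    · norm_num at e
  · exact fun ⟨z, w, h1, h2, e⟩ => Or.inl ⟨s, t, z, w, h1, h2, Or.inl ⟨rfl, e⟩⟩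

theorem neg_eq {s t : M} (hc : len (cEq s t) < n) (a : M) :
    X (qF (cEq s t) a 0) ↔ ∃ z w, Val X s a z ∧ Val X t a w ∧ ¬ z = w := by
  rw [h.neg _ a hc]
  constructor
  · rintro (⟨s, t, z, w, h1, h2, e⟩ | ⟨d, e, e', -⟩ | ⟨x, d, a', e, -⟩ | e)
    · norm_num at e
      obtain ⟨⟨rfl, rfl⟩, e⟩ := e
      exact ⟨z, w, h1, h2, e⟩
    · norm_num at e'
    · norm_num at e
    · exact absurd rfl (e s t).1
  · exact fun ⟨z, w, h1, h2, e⟩ => Or.inl ⟨s, t, z, w, h1, h2, Or.inl ⟨rfl, e⟩⟩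

theorem pos_le {s t : M} (hc : len (cLe s t) < n) (a : M) :
    Sat X (cLe s t) a ↔ ∃ z w, Val X s a z ∧ Val X t a w ∧ z ≤ w := by
  rw [Sat, h.pos _ a hc]
  constructor
  · rintro (⟨s, t, z, w, h1, h2, e⟩ | ⟨d, e, e', -⟩ | ⟨x, d, e, -⟩)
    · norm_num at e
      obtain ⟨⟨rfl, rfl⟩, e⟩ := e
      exact ⟨z, w, h1, h2, e⟩
    · norm_num at e'
    · norm_num at e
  · exact fun ⟨z, w, h1, h2, e⟩ => Or.inl ⟨s, t, z, w, h1, h2, Or.inr ⟨rfl, e⟩⟩

theorem neg_le {s t : M} (hc : len (cLe s t) < n) (a : M) :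
    X (qF (cLe s t) a 0) ↔ ∃ z w, Val X s a z ∧ Val X t a w ∧ ¬ z ≤ w := by
  rw [h.neg _ a hc]
  constructor
  · rintro (⟨s, t, z, w, h1, h2, e⟩ | ⟨d, e, e', -⟩ | ⟨x, d, a', e, -⟩ | e)
    · norm_num at e
      obtain ⟨⟨rfl, rfl⟩, e⟩ := e
      exact ⟨z, w, h1, h2, not_le.2 e⟩
    · norm_num at e'
    · norm_num at e
    · exact absurd rfl (e s t).2.1
  · exact fun ⟨z, w, h1, h2, e⟩ => Or.inl ⟨s, t, z, w, h1, h2, Or.inr ⟨rfl, not_le.1 e⟩⟩

theorem pos_imp {d e : M} (hc : len (cImp d e) < n) (a : M) :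
    Sat X (cImp d e) a ↔ X (qF d a 0) ∨ Sat X e a := by
  rw [Sat, h.pos _ a hc]
  constructor
  · rintro (⟨s, t, z, w, -, -, e⟩ | ⟨d, e, e', h1⟩ | ⟨x, d, e, -⟩)
    · norm_num at e
    · norm_num at e'
      obtain ⟨rfl, rfl⟩ := e'
      exact h1
    · norm_num at e
  · exact fun h1 => Or.inr (Or.inl ⟨d, e, rfl, h1⟩)

theorem neg_imp {d e : M} (hc : len (cImp d e) < n) (a : M) :
    X (qF (cImp d e) a 0) ↔ Sat X d a ∧ X (qF e a 0) := by
  rw [h.neg _ a hc]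
  constructor
  · rintro (⟨s, t, z, w, -, -, e⟩ | ⟨d, e, e', h1⟩ | ⟨x, d, a', e, -⟩ | e')
    · norm_num at e
    · norm_num at e'
      obtain ⟨rfl, rfl⟩ := e'
      exact h1
    · norm_num at e
    · exact absurd rfl (e' d e).2.2.1
  · exact fun h1 => Or.inr (Or.inl ⟨d, e, rfl, h1⟩)

theorem pos_all {x d : M} (hc : len (cAll x d) < n) (a : M) :
    Sat X (cAll x d) a ↔ ∀ a', Jc a' → Upd a x a' → Sat X d a' := by
  rw [Sat, h.pos _ a hc]
  constructor
  · rintro (⟨s, t, z, w, -, -, e⟩ | ⟨d, e, e', -⟩ | ⟨x, d, e, h1⟩)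
    · norm_num at e
    · norm_num at e'
    · norm_num at e
      obtain ⟨rfl, rfl⟩ := e
      exact h1
  · exact fun h1 => Or.inr (Or.inr ⟨x, d, rfl, h1⟩)

theorem neg_all {x d : M} (hc : len (cAll x d) < n) (a : M) :
    X (qF (cAll x d) a 0) ↔ ∃ a', Jc a' ∧ Upd a x a' ∧ X (qF d a' 0) := by
  rw [h.neg _ a hc]
  constructor
  · rintro (⟨s, t, z, w, -, -, e⟩ | ⟨d, e, e', -⟩ | ⟨x, d, a', e, h1⟩ | e)
    · norm_num at e
    · norm_num at e'
    · norm_num at e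
      obtain ⟨rfl, rfl⟩ := e
      exact ⟨a', h1⟩
    · exact absurd rfl (e x d).2.2.2
  · exact fun ⟨a', h1⟩ => Or.inr (Or.inr (Or.inl ⟨x, d, a', rfl, h1⟩))

theorem pos_nf {c : M} (hc : len c < n) (hn : NF c) (a : M) : ¬ Sat X c a := by
  rw [Sat, h.pos _ a hc]
  rintro (⟨s, t, z, w, -, -, e | e⟩ | ⟨d, e, e', -⟩ | ⟨x, d, e, -⟩)
  exacts [(hn s t).1 e.1, (hn s t).2.1 e.1, (hn d e).2.2.1 e', (hn x d).2.2.2 e]

theorem neg_nf {c : M} (hc : len c < n) (hn : NF c) (a : M) : X (qF c a 0) :=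
  (h.neg _ a hc).2 (Or.inr (Or.inr (Or.inr hn)))

end Inv

/-! ### Tables -/

/-- the unary operation maps tables to tables -/
def Tb1 (f : M → M) : Prop := ∀ B s E : M, Jc B →
  ∃ B' s', Jc B' ∧ ∀ i < len E, row s' B' i = f (row s B i)
/-- the binary operation maps tables to tables -/
def Tb2 (g : M → M → M) : Prop := ∀ B s C r E : M, Jc B → Jc C →
  ∃ B' s', Jc B' ∧ ∀ i < len E, row s' B' i = g (row s B i) (row r C i)

theorem tb1 (f : ∀ M : Mdl b, M → M) [hf : UFn fun M v => f M (v 0)]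
    (hm : ∀ z : M, f M z ≤ z + 1) : Tb1 (f M) := by
  intro B s E hB
  have : UFn fun M v => f M (row (v 1) (v 2) (v 0)) := UFn.app1 hf inferInstance
  obtain ⟨s', -, h⟩ := arr_fn (fun M i v => f M (row (v 0) (v 1) i)) (vec [s, B]) (pw B) E
    fun i _ => len_mono ((hm _).trans (succ_le_iff.2 (row_lt s B i)))
  exact ⟨pw B, s', isCut_Jc.pw hB, h⟩

theorem tb2 (g : ∀ M : Mdl b, M → M → M) [hg : UFn fun M v => g M (v 0) (v 1)]
    (hm : ∀ z z' w w' : M, z ≤ z' → w ≤ w' → g M z w ≤ g M z' w')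
    (hJ : ∀ z w : M, Jc z → Jc w → Jc (g M z w)) : Tb2 (g M) := by
  intro B s C r E hB hC
  have : UFn fun M v => g M (row (v 1) (v 2) (v 0)) (row (v 3) (v 4) (v 0)) :=
    UFn.app2 hg inferInstance inferInstance
  obtain ⟨s', -, h⟩ := arr_fn (fun M i v => g M (row (v 0) (v 1) i) (row (v 2) (v 3) i))
    (vec [s, B, r, C]) (g M (pw B) (pw C)) E
    fun i _ => len_mono (hm _ _ _ _ (row_lt s B i).le (row_lt r C i).le)
  exact ⟨_, s', hJ _ _ (isCut_Jc.pw hB) (isCut_Jc.pw hC), h⟩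

theorem tb_suc : Tb1 fun z : M => z + 1 := tb1 (fun _ z => z + 1) fun _ => le_rfl
theorem tb_ln : Tb1 fun z : M => len z :=
  tb1 (fun _ z => len z) fun z => (len_le z).trans le_self_add
theorem tb_hf : Tb1 fun z : M => half z :=
  tb1 (fun _ z => half z) fun z => (half_le z).trans le_self_add
theorem tb_add : Tb2 fun z w : M => z + w :=
  tb2 (fun _ z w => z + w) (fun _ _ _ _ h h' => add_le_add h h') fun _ _ => isCut_Jc.add
theorem tb_mul : Tb2 fun z w : M => z * w :=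
  tb2 (fun _ z w => z * w) (fun _ _ _ _ h h' => by gcongr) fun _ _ => isCut_Jc.mul
theorem tb_sm : Tb2 fun z w : M => smash z w :=
  tb2 (fun _ z w => smash z w) (fun _ _ _ _ h h' => smash_mono h h') fun _ _ => isCut_Jc.smash

theorem tb_var (x : M) {A : M} (hA : Jc A) : ∃ s, ∀ a, a ≤ A → row s A a = look a x := by
  classical
  obtain ⟨E, hE⟩ := hA.log
  obtain ⟨s, -, h⟩ := arr_fn (fun _ i v => if i ≤ v 1 then look i (v 0) else 0) (vec [x, A]) A E
    fun i _ => len_mono (by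
      show (if i ≤ A then look i x else 0) ≤ A
      split_ifs with h1
      · exact (look_le _ _).trans h1
      · exact zero_le' _)
  change ∀ i < len E, row s A i = if i ≤ A then look i x else 0 at h
  exact ⟨s, fun a ha => by rw [h a (ha.trans_lt hE), if_pos ha]⟩

/-! ### Shapes -/

/-- the shape of a code read as a term -/
def ShT (X : M → Prop) (c : M) : Prop :=
  (∃ x, ∀ a y, Val X c a y ↔ y = look a x) ∨
  (∃ t, ∃ f : M → M, len t < len c ∧ Tb1 f ∧ ∀ a y, Val X c a y ↔ ∃ z, Val X t a z ∧ y = f z) ∨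
  (∃ s t, ∃ g : M → M → M, len s < len c ∧ len t < len c ∧ Tb2 g ∧
    ∀ a y, Val X c a y ↔ ∃ z w, Val X s a z ∧ Val X t a w ∧ y = g z w) ∨
  ∀ a y, Val X c a y ↔ y = 0

/-- the shape of a code read as a formula -/
def ShF (X : M → Prop) (c : M) : Prop :=
  (∃ s t, ∃ R : M → M → Prop, len s < len c ∧ len t < len c ∧
    (∀ a, Sat X c a ↔ ∃ z w, Val X s a z ∧ Val X t a w ∧ R z w) ∧
    ∀ a, X (qF c a 0) ↔ ∃ z w, Val X s a z ∧ Val X t a w ∧ ¬ R z w) ∨
  (∃ d e, len d < len c ∧ len e < len c ∧ (∀ a, Sat X c a ↔ X (qF d a 0) ∨ Sat X e a) ∧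
    ∀ a, X (qF c a 0) ↔ Sat X d a ∧ X (qF e a 0)) ∨
  (∃ x d, len d < len c ∧ (∀ a, Sat X c a ↔ ∀ a', Jc a' → Upd a x a' → Sat X d a') ∧
    ∀ a, X (qF c a 0) ↔ ∃ a', Jc a' ∧ Upd a x a' ∧ X (qF d a' 0)) ∨
  ∀ a, ¬ Sat X c a ∧ X (qF c a 0)

theorem len_l (k s t : M) : len s < len (pr k (pr s t)) :=
  (len_lt_pr_left s t).trans (len_lt_pr_right _ _)
theorem len_r (k s t : M) : len t < len (pr k (pr s t)) :=
  (len_lt_pr_right s t).trans (len_lt_pr_right _ _)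

theorem shT {X : M → Prop} {n c : M} (h : Cl X n) (hc : len c < n) : ShT X c := by
  by_cases hn : NT c
  · exact Or.inr (Or.inr (Or.inr (val_nt h hc hn)))
  · simp only [NT, not_forall, not_and_or, not_not] at hn
    obtain ⟨s, t, rfl | rfl | rfl | rfl | rfl | rfl | rfl⟩ := hn
    · exact Or.inl ⟨t, val_var h hc⟩
    · exact Or.inr (Or.inl ⟨t, _, len_lt_pr_right _ _, tb_suc, val_suc h hc⟩)
    · exact Or.inr (Or.inl ⟨t, _, len_lt_pr_right _ _, tb_ln, val_ln h hc⟩)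
    · exact Or.inr (Or.inl ⟨t, _, len_lt_pr_right _ _, tb_hf, val_hf h hc⟩)
    · exact Or.inr (Or.inr (Or.inl ⟨s, t, _, len_l _ _ _, len_r _ _ _, tb_add, val_add h hc⟩))
    · exact Or.inr (Or.inr (Or.inl ⟨s, t, _, len_l _ _ _, len_r _ _ _, tb_mul, val_mul h hc⟩))
    · exact Or.inr (Or.inr (Or.inl ⟨s, t, _, len_l _ _ _, len_r _ _ _, tb_sm, val_sm h hc⟩))

theorem shF {X : M → Prop} {n c : M} (h : Cl X n) (hc : len c < n) : ShF X c := by
  by_cases hn : NF c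
  · exact Or.inr (Or.inr (Or.inr fun a => ⟨pos_nf h hc hn a, neg_nf h hc hn a⟩))
  · simp only [NF, not_forall, not_and_or, not_not] at hn
    obtain ⟨s, t, rfl | rfl | rfl | rfl⟩ := hn
    · exact Or.inl ⟨s, t, fun z w => z = w, len_l _ _ _, len_r _ _ _, pos_eq h hc, neg_eq h hc⟩
    · exact Or.inl ⟨s, t, fun z w => z ≤ w, len_l _ _ _, len_r _ _ _, pos_le h hc, neg_le h hc⟩
    · exact Or.inr (Or.inl ⟨s, t, len_l _ _ _, len_r _ _ _, pos_imp h hc, neg_imp h hc⟩)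
    · exact Or.inr (Or.inr (Or.inl ⟨s, t, len_r _ _ _, pos_all h hc, neg_all h hc⟩))

/-! ### The induction step -/

section Step
variable {X : M → Prop} {c : M}

theorem step_ex (h : ShT X c) (ih : ∀ d, len d < len c → Gd X d) (a : M) : ∃ y, Val X c a y := by
  rcases h with ⟨x, h⟩ | ⟨t, f, ht, -, h⟩ | ⟨s, t, g, hs, ht, -, h⟩ | h
  · exact ⟨_, (h a _).2 rfl⟩
  · obtain ⟨z, hz⟩ := (ih t ht).1 a
    exact ⟨_, (h a _).2 ⟨z, hz, rfl⟩⟩
  · obtain ⟨z, hz⟩ := (ih s hs).1 a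
    obtain ⟨w, hw⟩ := (ih t ht).1 a
    exact ⟨_, (h a _).2 ⟨z, w, hz, hw, rfl⟩⟩
  · exact ⟨_, (h a _).2 rfl⟩

theorem step_uniq (h : ShT X c) (ih : ∀ d, len d < len c → Gd X d) (a y y' : M)
    (h1 : Val X c a y) (h2 : Val X c a y') : y = y' := by
  rcases h with ⟨x, h⟩ | ⟨t, f, ht, -, h⟩ | ⟨s, t, g, hs, ht, -, h⟩ | h
  · rw [(h a _).1 h1, (h a _).1 h2]
  · obtain ⟨z, hz, rfl⟩ := (h a _).1 h1
    obtain ⟨z', hz', rfl⟩ := (h a _).1 h2
    rw [(ih t ht).2.1 a _ _ hz hz']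
  · obtain ⟨z, w, hz, hw, rfl⟩ := (h a _).1 h1
    obtain ⟨z', w', hz', hw', rfl⟩ := (h a _).1 h2
    rw [(ih s hs).2.1 a _ _ hz hz', (ih t ht).2.1 a _ _ hw hw']
  · rw [(h a _).1 h1, (h a _).1 h2]

theorem step_invT (h : ShT X c) (ih : ∀ d, len d < len c → Gd X d) (a a' y : M)
    (e : ∀ j, look a' j = look a j) (h1 : Val X c a y) : Val X c a' y := by
  rcases h with ⟨x, h⟩ | ⟨t, f, ht, -, h⟩ | ⟨s, t, g, hs, ht, -, h⟩ | h
  · rw [h] at h1 ⊢
    rw [h1, e]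
  · obtain ⟨z, hz, rfl⟩ := (h a _).1 h1
    exact (h a' _).2 ⟨z, (ih t ht).2.2.2.1 a a' z e hz, rfl⟩
  · obtain ⟨z, w, hz, hw, rfl⟩ := (h a _).1 h1
    exact (h a' _).2 ⟨z, w, (ih s hs).2.2.2.1 a a' z e hz, (ih t ht).2.2.2.1 a a' w e hw, rfl⟩
  · exact (h a' _).2 ((h a _).1 h1)

theorem step_tab (h : ShT X c) (ih : ∀ d, len d < len c → Gd X d) (A : M) (hA : Jc A) :
    ∃ B s, Jc B ∧ ∀ a, a ≤ A → Val X c a (row s B a) := by
  obtain ⟨E, hE⟩ := hA.log
  rcases h with ⟨x, h⟩ | ⟨t, f, ht, hf, h⟩ | ⟨s, t, g, hs, ht, hg, h⟩ | h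
  · obtain ⟨s, hs⟩ := tb_var x hA
    exact ⟨A, s, hA, fun a ha => (h a _).2 (hs a ha)⟩
  · obtain ⟨B, r, hB, h1⟩ := (ih t ht).2.2.2.2.2 A hA
    obtain ⟨B', s', hB', h2⟩ := hf B r E hB
    exact ⟨B', s', hB', fun a ha => (h a _).2 ⟨_, h1 a ha, h2 a (ha.trans_lt hE)⟩⟩
  · obtain ⟨B, r, hB, h1⟩ := (ih s hs).2.2.2.2.2 A hA
    obtain ⟨C, r', hC, h1'⟩ := (ih t ht).2.2.2.2.2 A hA
    obtain ⟨B', s', hB', h2⟩ := hg B r C r' E hB hC
    exact ⟨B', s', hB', fun a ha => (h a _).2 ⟨_, _, h1 a ha, h1' a ha, h2 a (ha.trans_lt hE)⟩⟩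
  · exact ⟨0, 0, isCut_Jc.zero, fun a _ => (h a _).2 (row_zero _ _)⟩

theorem step_neg (h : ShF X c) (ih : ∀ d, len d < len c → Gd X d) (a : M) :
    Sat X c a ↔ ¬ X (qF c a 0) := by
  rcases h with ⟨s, t, R, hs, ht, h, h'⟩ | ⟨d, e, hd, he, h, h'⟩ | ⟨x, d, hd, h, h'⟩ | h
  · rw [h, h']
    obtain ⟨z, hz⟩ := (ih s hs).1 a
    obtain ⟨w, hw⟩ := (ih t ht).1 a
    constructor
    · rintro ⟨z1, w1, p1, p2, p3⟩ ⟨z2, w2, q1, q2, q3⟩
      rw [(ih s hs).2.1 a _ _ q1 p1, (ih t ht).2.1 a _ _ q2 p2] at q3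
      exact q3 p3
    · intro hn
      exact ⟨z, w, hz, hw, by_contra fun hR => hn ⟨z, w, hz, hw, hR⟩⟩
  · rw [h, h', (ih d hd).2.2.1 a, (ih e he).2.2.1 a]
    tauto
  · rw [h, h']
    constructor
    · rintro h1 ⟨a', p1, p2, p3⟩
      exact ((ih d hd).2.2.1 a').1 (h1 a' p1 p2) p3
    · exact fun hn a' p1 p2 => ((ih d hd).2.2.1 a').2 fun p3 => hn ⟨a', p1, p2, p3⟩
  · exact iff_of_false (h a).1 (not_not.2 (h a).2)

theorem step_invF (h : ShF X c) (ih : ∀ d, len d < len c → Gd X d) (a a' : M)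
    (e : ∀ j, look a' j = look a j) (h1 : Sat X c a) : Sat X c a' := by
  rcases h with ⟨s, t, R, hs, ht, h, -⟩ | ⟨d, d', hd, he, h, -⟩ | ⟨x, d, hd, h, -⟩ | h
  · obtain ⟨z, w, hz, hw, hR⟩ := (h a).1 h1
    exact (h a').2 ⟨z, w, (ih s hs).2.2.2.1 a a' z e hz, (ih t ht).2.2.2.1 a a' w e hw, hR⟩
  · rw [h] at h1 ⊢
    rcases h1 with h1 | h1
    · refine Or.inl (by_contra fun hn => ?_)
      exact ((ih d hd).2.2.1 a).1 ((ih d hd).2.2.2.2.1 a' a (fun j => (e j).symm)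
        (((ih d hd).2.2.1 a').2 hn)) h1
    · exact Or.inr ((ih d' he).2.2.2.2.1 a a' e h1)
  · rw [h] at h1 ⊢
    exact fun a'' p1 p2 => h1 a'' p1 fun i hi => (p2 i hi).trans (e i)
  · exact absurd h1 (h a).1

end Step

theorem step {X : M → Prop} {n c : M} (h : Cl X n) (hc : len c < n)
    (ih : ∀ d, len d < len c → Gd X d) : Gd X c :=
  ⟨step_ex (shT h hc) ih, step_uniq (shT h hc) ih, step_neg (shF h hc) ih,
    step_invT (shT h hc) ih, step_invF (shF h hc) ih, step_tab (shT h hc) ih⟩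

theorem final {X : M → Prop} {n : M} (h : Cl X n) (hP : Psi X n) : TS X n where
  ex a hc := (hP _ hc).1 a
  uniq hc := (hP _ hc).2.1 _ _ _
  var a hc := (val_var h hc a _).2 rfl
  suc hc h1 := (val_suc h hc _ _).2 ⟨_, h1, rfl⟩
  ln hc h1 := (val_ln h hc _ _).2 ⟨_, h1, rfl⟩
  hf hc h1 := (val_hf h hc _ _).2 ⟨_, h1, rfl⟩
  add hc h1 h2 := (val_add h hc _ _).2 ⟨_, _, h1, h2, rfl⟩
  mul hc h1 h2 := (val_mul h hc _ _).2 ⟨_, _, h1, h2, rfl⟩
  sm hc h1 h2 := (val_sm h hc _ _).2 ⟨_, _, h1, h2, rfl⟩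
  nt a hc hn := (val_nt h hc hn a _).2 rfl
  eq hc h1 h2 := by
    rw [pos_eq h hc]
    refine ⟨fun ⟨z', w', p1, p2, p3⟩ => ?_, fun e => ⟨_, _, h1, h2, e⟩⟩
    rw [(hP _ ((len_l _ _ _).trans hc)).2.1 _ _ _ h1 p1,
      (hP _ ((len_r _ _ _).trans hc)).2.1 _ _ _ h2 p2, p3]
  le hc h1 h2 := by
    rw [pos_le h hc]
    refine ⟨fun ⟨z', w', p1, p2, p3⟩ => ?_, fun e => ⟨_, _, h1, h2, e⟩⟩
    rw [(hP _ ((len_l _ _ _).trans hc)).2.1 _ _ _ h1 p1,
      (hP _ ((len_r _ _ _).trans hc)).2.1 _ _ _ h2 p2]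
    exact p3
  imp a hc := by
    rw [pos_imp h hc, (hP _ ((len_l _ _ _).trans hc)).2.2.1 a]
    tauto
  all a hc := pos_all h hc a
  nf a hc hn := pos_nf h hc hn a
  invT hc e h1 := (hP _ hc).2.2.2.1 _ _ _ e h1
  invF hc e h1 := (hP _ hc).2.2.2.2.1 _ _ e h1
  tab hc hA := (hP _ hc).2.2.2.2.2 _ hA

end SEMB

theorem row_SEMB : R_SEMB := fun _ =>
  ⟨fun _ X i => SEMB.Psi X i, SEMB.ufPsi, fun _ _ _ h =>
    ⟨fun _ hc => absurd hc (not_lt.2 (zero_le' _)),
      fun _ hi ih _ hc => SEMB.step h ((lt_succ_iff.1 hc).trans_lt hi)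
        fun d hd => ih d (hd.trans_le (lt_succ_iff.1 hc)),
      SEMB.final h⟩⟩

end Pool.Agent.MP_f18a41_lc

end MrgPart2

-- ======== part 3: formerly Pool.Agent.MP_f18a41_lc.VAL1
section MrgPart3

/-! Validity of the judgements `jT` and `jN`. -/

namespace Pool.Agent.MP_f18a41_lc

namespace val1

variable {b : Bool} {N : Mdl b} {X : N → Prop} {n x c d : N}

theorem vn_tm (ts : TS X n) (hc : len c < n) (nf : NF c)
    (h : ∀ a a', Jc a → Jc a' → Upd a x a' → ∃ y, Val X c a y ∧ Val X c a' y) : VN X x c := by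
  intro a a' ha ha' hu
  obtain ⟨y, h1, h2⟩ := h a a' ha ha' hu
  exact ⟨fun z hz => ts.uniq hc h1 hz ▸ h2, fun hs => (ts.nf a hc nf hs).elim⟩

theorem vn_fm (ts : TS X n) (hc : len c < n) (nt : NT c)
    (h : ∀ a a', Jc a → Jc a' → Upd a x a' → Sat X c a → Sat X c a') : VN X x c :=
  fun a a' ha ha' hu =>
    ⟨fun _ hz => ts.uniq hc (ts.nt a hc nt) hz ▸ ts.nt a' hc nt, h a a' ha ha' hu⟩

theorem nf_of {k : ℕ} (hk : k < 9) (c : N) : NF (pr (k : N) c) := by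
  intro s t
  refine ⟨?_, ?_, ?_, ?_⟩ <;> intro e <;> have e' := (pr_inj.1 e).1 <;> norm_cast at e' <;> omega

theorem nt_of {k : ℕ} (hk : k = 1 ∨ 7 < k) (c : N) : NT (pr (k : N) c) := by
  intro s t
  refine ⟨?_, ?_, ?_, ?_, ?_, ?_, ?_⟩ <;> intro e <;> have e' := (pr_inj.1 e).1 <;>
    norm_cast at e' <;> omega

theorem l1 {k : N} (h : len (pr k c) < n) : len c < n := (len_lt_pr_right _ _).trans h
theorem l2 {k : N} (h : len (pr k (pr c d)) < n) : len c < n := (len_lt_pr_left _ _).trans (l1 h)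
theorem l3 {k : N} (h : len (pr k (pr c d)) < n) : len d < n := l1 (l1 h)

theorem both (ts : TS X n) (hc : len c < n) (h : VN X x c) {a a' : N} (ha : Jc a) (ha' : Jc a')
    (hu : Upd a x a') : ∃ y, Val X c a y ∧ Val X c a' y :=
  (ts.ex a hc).imp fun y hy => ⟨hy, (h a a' ha ha' hu).1 y hy⟩

theorem n1 (ts : TS X n) {k : ℕ} (hk : k ∈ [2, 3, 4]) (hl : len (pr (k : N) c) < n)
    (h : VN X x c) : VN X x (pr k c) := by
  simp only [List.mem_cons, List.not_mem_nil, or_false] at hk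
  refine vn_tm ts hl (nf_of (by omega) c) fun a a' ha ha' hu => ?_
  obtain ⟨z, h1, h2⟩ := both ts (l1 hl) h ha ha' hu
  rcases hk with rfl | rfl | rfl
  · exact ⟨_, ts.suc hl h1, ts.suc hl h2⟩
  · exact ⟨_, ts.ln hl h1, ts.ln hl h2⟩
  · exact ⟨_, ts.hf hl h1, ts.hf hl h2⟩

theorem n2 (ts : TS X n) {k : ℕ} (hk : k ∈ [5, 6, 7, 9, 10, 11])
    (hl : len (pr (k : N) (pr c d)) < n) (h : VN X x c) (h' : VN X x d) :
    VN X x (pr k (pr c d)) := by
  simp only [List.mem_cons, List.not_mem_nil, or_false] at hk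
  by_cases h8 : k < 9
  · refine vn_tm ts hl (nf_of h8 _) fun a a' ha ha' hu => ?_
    obtain ⟨z, h1, h2⟩ := both ts (l2 hl) h ha ha' hu
    obtain ⟨w, h3, h4⟩ := both ts (l3 hl) h' ha ha' hu
    rcases hk with rfl | rfl | rfl | rfl | rfl | rfl
    · exact ⟨_, ts.add hl h1 h3, ts.add hl h2 h4⟩
    · exact ⟨_, ts.mul hl h1 h3, ts.mul hl h2 h4⟩
    · exact ⟨_, ts.sm hl h1 h3, ts.sm hl h2 h4⟩
    all_goals omega
  · refine vn_fm ts hl (nt_of (by omega) _) fun a a' ha ha' hu hs => ?_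
    obtain ⟨z, h1, h2⟩ := both ts (l2 hl) h ha ha' hu
    obtain ⟨w, h3, h4⟩ := both ts (l3 hl) h' ha ha' hu
    rcases hk with rfl | rfl | rfl | rfl | rfl | rfl
    · omega
    · omega
    · omega
    · exact (ts.eq hl h2 h4).2 ((ts.eq hl h1 h3).1 hs)
    · exact (ts.le hl h2 h4).2 ((ts.le hl h1 h3).1 hs)
    · exact (ts.imp a' hl).2 fun hc => (h' a a' ha ha' hu).2
        ((ts.imp a hl).1 hs ((h a' a ha' ha hu.symm).2 hc))

theorem nself (ts : TS X n) (hl : len (cAll x c) < n) : VN X x (cAll x c) :=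
  vn_fm ts hl (nt_of (k := 12) (by omega) _) fun a a' _ _ hu hs =>
    (ts.all a' hl).2 fun a'' h1 h2 => (ts.all a hl).1 hs a'' h1 (hu.trans h2)

theorem nall (ts : TS X n) (hl : len (cAll c d) < n) (hc : Kc c) (h : VN X x d) :
    VN X x (cAll c d) := by
  refine vn_fm ts hl (nt_of (k := 12) (by omega) _) fun a a' ha _ hu hs =>
    (ts.all a' hl).2 fun a'' h1 h2 => ?_
  obtain ⟨e, h3, h4, h5⟩ := upd_J ha (h1.look c) hc
  refine (h e a'' h3 h1 fun i hi => ?_).2 ((ts.all a hl).1 hs e h3 h4)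
  by_cases hi' : i = c
  · rw [hi', h5]
  · rw [h2 i hi', hu i hi, h4 i hi']

theorem jt {Pm : N → Prop} {j : N} (h : Rl Pm j) : ∀ c, j = jT c → fst c < 8 := by
  cases h with
  | tVar a => intro c e; rw [← (pr_inj.1 e).2]; simp
  | tZero => intro c e; rw [← (pr_inj.1 e).2]; simp
  | t1 k hk =>
    intro c e
    simp only [List.mem_cons, List.not_mem_nil, or_false] at hk
    rw [← (pr_inj.1 e).2, fst_pr]
    exact_mod_cast (show k < 8 by omega)
  | t2 k hk =>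
    intro c e
    simp only [List.mem_cons, List.not_mem_nil, or_false] at hk
    rw [← (pr_inj.1 e).2, fst_pr]
    exact_mod_cast (show k < 8 by omega)
  | kBot σ | kEq σ | kLe σ | kImp σ => intro c e; cases σ <;> simp at e
  | _ => intro c e; simp at e

theorem jn {y j : N} (ts : TS X (len y)) (kc : Kc y)
    (h : Rl (fun i => Vd X i ∧ len i ≤ len y) j) (hj : len j ≤ len y) :
    ∀ x c, j = jN x c → VN X x c := by
  have hl : ∀ {x c : N}, len (jN x c) ≤ len y → len c < len y := fun h =>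
    ((len_lt_pr_right _ _).trans (len_lt_pr_right _ _)).trans_le h
  cases h with
  | nVar hne =>
    intro x c e
    obtain ⟨rfl, rfl⟩ := pr_inj.1 (pr_inj.1 e).2
    refine vn_tm ts (hl hj) (by simpa using nf_of (k := 0) (by omega) _) fun a a' _ _ hu =>
      ⟨_, ts.var a (hl hj), ?_⟩
    rw [← hu _ hne.symm]
    exact ts.var a' (hl hj)
  | nZero =>
    intro x c e
    obtain ⟨rfl, rfl⟩ := pr_inj.1 (pr_inj.1 e).2
    have nt : NT (cZero : N) := by simpa using nt_of (N := N) (k := 1) (by omega) 0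
    exact vn_tm ts (hl hj) (by simpa using nf_of (N := N) (k := 1) (by omega) 0)
      fun a a' _ _ _ => ⟨0, ts.nt a (hl hj) nt, ts.nt a' (hl hj) nt⟩
  | nBot =>
    intro x c e
    obtain ⟨rfl, rfl⟩ := pr_inj.1 (pr_inj.1 e).2
    have nt : NT (cBot : N) := nt_of (k := 8) (by omega) 0
    exact vn_tm ts (hl hj) (nf_of (k := 8) (by omega) 0)
      fun a a' _ _ _ => ⟨0, ts.nt a (hl hj) nt, ts.nt a' (hl hj) nt⟩
  | nSelf =>
    intro x c e
    obtain ⟨rfl, rfl⟩ := pr_inj.1 (pr_inj.1 e).2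
    exact nself ts (hl hj)
  | nAll z h0 =>
    intro x c e
    obtain ⟨rfl, rfl⟩ := pr_inj.1 (pr_inj.1 e).2
    exact nall ts (hl hj) (kc.down (lt_of_len_lt (l2 (hl hj))).le) (h0.1.n _ _ rfl)
  | n1 k hk h0 =>
    intro x c e
    obtain ⟨rfl, rfl⟩ := pr_inj.1 (pr_inj.1 e).2
    exact n1 ts hk (hl hj) (h0.1.n _ _ rfl)
  | n2 k hk h0 h1 =>
    intro x c e
    obtain ⟨rfl, rfl⟩ := pr_inj.1 (pr_inj.1 e).2
    exact n2 ts hk (hl hj) (h0.1.n _ _ rfl) (h1.1.n _ _ rfl)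
  | kBot σ | kEq σ | kLe σ | kImp σ => intro x c e; cases σ <;> simp at e
  | _ => intro x c e; simp at e

end val1

theorem row_VAL1 : R_VAL1 := fun _ _ _ _ _ h => ⟨val1.jt h.rl, val1.jn h.ts h.kc h.rl h.le⟩

end Pool.Agent.MP_f18a41_lc

end MrgPart3

-- ======== part 4: formerly Pool.Agent.MP_f18a41_lc.VAL3
section MrgPart4

/-! Truth tables for the formulas of the bounded classes. -/

namespace Pool.Agent.MP_f18a41_lc

namespace val3

variable {b : Bool} {M : Mdl b} {X : M → Prop} {n : M}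

theorem table (P : ∀ M : Mdl b, M → (ℕ → M) → Prop)
    [USig fun M v => P M (v 0) (fun i => v (i + 1))]
    [UPi fun M v => P M (v 0) (fun i => v (i + 1))] (v : ℕ → M) {A : M} (hA : Jc A) :
    ∃ s, ∀ a ≤ A, (row s 1 a = 1 ↔ P M a v) := by
  classical
  obtain ⟨E, hE⟩ := hA.log
  obtain ⟨s, -, h⟩ := arr_fn (fun M i v => if P M i v then 1 else 0) v 1 E (fun i _ => by
    split_ifs <;> simp)
  refine ⟨s, fun a ha => ?_⟩
  rw [h a (ha.trans_lt hE)]
  split_ifs with e <;> simp [e]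

theorem l1 {k s t : M} (h : len (pr k (pr s t)) < n) : len s < n :=
  ((len_lt_pr_left s t).trans (len_lt_pr_right _ _)).trans h

theorem l2 {k s t : M} (h : len (pr k (pr s t)) < n) : len t < n :=
  ((len_lt_pr_right s t).trans (len_lt_pr_right _ _)).trans h

theorem bot (ts : TS X n) (h : len (cBot : M) < n) : VC X cBot := fun A _ =>
  ⟨0, fun a _ => by
    have := ts.nf a h fun s t => by simp
    simp [this]⟩

theorem eq (ts : TS X n) {s t : M} (h : len (cEq s t) < n) : VC X (cEq s t) := fun A hA => by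
  obtain ⟨B, u, -, h1⟩ := ts.tab (l1 h) hA
  obtain ⟨B', u', -, h2⟩ := ts.tab (l2 h) hA
  obtain ⟨r, hr⟩ := table (fun _ a v => row (v 0) (v 1) a = row (v 2) (v 3) a)
    (vec [u, B, u', B']) hA
  exact ⟨r, fun a ha => (hr a ha).trans (ts.eq h (h1 a ha) (h2 a ha)).symm⟩

theorem le (ts : TS X n) {s t : M} (h : len (cLe s t) < n) : VC X (cLe s t) := fun A hA => by
  obtain ⟨B, u, -, h1⟩ := ts.tab (l1 h) hA
  obtain ⟨B', u', -, h2⟩ := ts.tab (l2 h) hA
  obtain ⟨r, hr⟩ := table (fun _ a v => row (v 0) (v 1) a ≤ row (v 2) (v 3) a)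
    (vec [u, B, u', B']) hA
  exact ⟨r, fun a ha => (hr a ha).trans (ts.le h (h1 a ha) (h2 a ha)).symm⟩

theorem imp (ts : TS X n) {c d : M} (h : len (cImp c d) < n) (hc : VC X c) (hd : VC X d) :
    VC X (cImp c d) := fun A hA => by
  obtain ⟨u, h1⟩ := hc A hA
  obtain ⟨u', h2⟩ := hd A hA
  obtain ⟨r, hr⟩ := table (fun _ a v => row (v 0) 1 a = 1 → row (v 1) 1 a = 1) (vec [u, u']) hA
  exact ⟨r, fun a ha => (hr a ha).trans ((imp_congr (h1 a ha) (h2 a ha)).trans (ts.imp a h).symm)⟩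

theorem ball (ts : TS X n) {x t c : M} (h : len (cBall x t c) < n) (hx : Kc x)
    (ht : ∀ a a', Jc a → Jc a' → Upd a x a' → ∀ y, Val X t a y → Val X t a' y) (hc : VC X c) :
    VC X (cBall x t c) := fun A hA => by
  have J := isCut_Jc (M := M)
  have h1 := l2 h
  have h2 := l1 h1
  obtain ⟨B, s, hB, hs⟩ := ts.tab (l2 h2) hA
  obtain ⟨A', hA', hu⟩ := upd_bd hA (J.pw hB) hx
  obtain ⟨s', hs'⟩ := hc A' hA'
  obtain ⟨E, hE⟩ := hA'.log
  obtain ⟨r, hr⟩ := table (fun _ a v => ∀ a' ≤ len (v 0), a' ≤ v 1 → Upd a (v 2) a' →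
    look a' (v 2) ≤ row (v 3) (v 4) a → row (v 5) 1 a' = 1) (vec [E, A', x, s, B, s']) hA
  refine ⟨r, fun a ha => (hr a ha).trans ?_⟩
  show (∀ a' ≤ len E, a' ≤ A' → Upd a x a' → look a' x ≤ row s B a → row s' 1 a' = 1) ↔ _
  have key : ∀ a', Jc a' → Upd a x a' →
      (Sat X (cImp (cLe (cVar x) t) c) a' ↔ (look a' x ≤ row s B a → Sat X c a')) :=
    fun a' j u => by
      rw [ts.imp a' h1, ts.le h2 (ts.var a' (l1 h2)) (ht a a' (J.down ha hA) j u _ (hs a ha))]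
  rw [ts.all a h]
  constructor
  · intro H a' j u
    refine (key a' j u).2 fun e => ?_
    obtain ⟨a'', b1, b2, b3⟩ := hu a ha _ (e.trans (row_lt s B a).le)
    exact ts.invF (l2 h1) ((b2.symm.trans u).ext b3.symm)
      ((hs' a'' b1).1 (H a'' (b1.trans hE.le) b1 b2 (b3 ▸ e)))
  · intro H a' _ b1 u e
    exact (hs' a' b1).2 ((key a' (J.down b1 hA') u).1 (H a' (J.down b1 hA') u) e)

end val3

open val3 in
theorem row_VAL3 : R_VAL3 := by
  intro b N X y j ⟨ts, kc, rl, hl⟩ σ c e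
  have hc : len c < len y := (len_lt_pr_right _ c).trans_le (e ▸ hl)
  have kx : ∀ {x t d : N}, len (cBall x t d) < len y → Kc x := fun h =>
    kc.down (lt_of_len_lt (l1 h)).le
  cases rl with
  | kBot τ => rw [← (pr_inj.1 e).2] at hc ⊢; exact bot ts hc
  | kEq τ => rw [← (pr_inj.1 e).2] at hc ⊢; exact eq ts hc
  | kLe τ => rw [← (pr_inj.1 e).2] at hc ⊢; exact le ts hc
  | kImp τ h1 h2 =>
    rw [← (pr_inj.1 e).2] at hc ⊢
    exact imp ts hc (h1.1.c _ _ rfl) (h2.1.c _ _ rfl)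
  | kBall _ h1 h2 | kWide _ _ h1 h2 =>
    rw [← (pr_inj.1 e).2] at hc ⊢
    exact ball ts hc (kx hc) (fun a a' j j' u => (h1.1.n _ _ rfl a a' j j' u).1) (h2.1.c _ _ rfl)
  | kSharp _ h1 h2 =>
    rw [← (pr_inj.1 e).2] at hc ⊢
    refine ball ts hc (kx hc) (fun a a' j j' u z hz => ?_) (h2.1.c _ _ rfl)
    have h3 := l2 (l1 (l2 hc))
    obtain ⟨w, hw⟩ := ts.ex a ((len_lt_pr_right _ _).trans h3)
    rw [ts.uniq h3 hz (ts.ln h3 hw)]
    exact ts.ln h3 ((h1.1.n _ _ rfl a a' j j' u).1 w hw)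
  | _ => cases σ <;> simp at e

end Pool.Agent.MP_f18a41_lc

end MrgPart4

-- ======== part 5: formerly Pool.Agent.MP_f18a41_lc.VALS
section MrgPart5

/-! A truth class is correct on the codes of standard formulas. -/

namespace Pool.Agent.MP_f18a41_lc

open Function

namespace vals

variable {b : Bool} {N : Mdl b} {X : N → Prop} {n : N}

theorem l1 {k t : N} (h : len (pr k t) < n) : len t < n := (len_lt_pr_right k t).trans h
theorem l2 {k s t : N} (h : len (pr k (pr s t)) < n) : len s < n :=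
  (len_lt_pr_left s t).trans (l1 h)
theorem l3 {k s t : N} (h : len (pr k (pr s t)) < n) : len t < n := l1 (l1 h)

theorem tm (ts : TS X n) (a : N) (t : Tm) (h : len ((t.code : ℕ) : N) < n) :
    Val X ((t.code : ℕ) : N) a (t.ev N.toStr fun i => look a i) := by
  induction t with
  | var x =>
    simp only [Tm.code, cast_npr, Nat.cast_zero] at h ⊢
    exact ts.var a h
  | zero =>
    refine ts.nt a h fun s t => ?_
    simp [Tm.code, cast_npr]
  | succ t ih =>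
    simp only [Tm.code, cast_npr, Nat.cast_ofNat, Tm.ev_succ] at h ⊢
    exact ts.suc h (ih (l1 h))
  | len t ih =>
    simp only [Tm.code, cast_npr, Nat.cast_ofNat] at h ⊢
    exact ts.ln h (ih (l1 h))
  | half t ih =>
    simp only [Tm.code, cast_npr, Nat.cast_ofNat] at h ⊢
    exact ts.hf h (ih (l1 h))
  | add s t i1 i2 =>
    simp only [Tm.code, cast_npr, Nat.cast_ofNat] at h ⊢
    exact ts.add h (i1 (l2 h)) (i2 (l3 h))
  | mul s t i1 i2 =>
    simp only [Tm.code, cast_npr, Nat.cast_ofNat] at h ⊢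
    exact ts.mul h (i1 (l2 h)) (i2 (l3 h))
  | smash s t i1 i2 =>
    simp only [Tm.code, cast_npr, Nat.cast_ofNat] at h ⊢
    exact ts.sm h (i1 (l2 h)) (i2 (l3 h))

theorem upd {a a' : N} {x : ℕ} {v : ℕ → N.J} {u : N.J}
    (hv : ∀ i, isCut_Jc.val (v i) = look a (i : N)) (h : Upd a (x : N) a')
    (e : look a' (x : N) = isCut_Jc.val u) (i : ℕ) :
    isCut_Jc.val (update v x u i) = look a' (i : N) := by
  by_cases hi : i = x
  · rw [hi, update_self, e]
  · rw [update_of_ne hi, hv, h _ fun q => hi (Nat.cast_injective q)]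

theorem fm {y : N} (ts : TS X (len y)) (hy : Kc y) (θ : Fm) :
    len ((θ.code : ℕ) : N) < len y → ∀ a : N, Jc a → ∀ v : ℕ → N.J,
      (∀ i, isCut_Jc.val (v i) = look a (i : N)) →
      (Sat X ((θ.code : ℕ) : N) a ↔ θ.ev N.J.toStr v) := by
  induction θ with
  | bot =>
    intro h a _ v _
    refine iff_of_false (ts.nf a h fun s t => ?_) id
    simp [Fm.code, cast_npr]
  | eq s t =>
    intro h a _ v hv
    simp only [Fm.code, cast_npr, Nat.cast_ofNat] at h ⊢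
    rw [ts.eq h (tm ts a s (l2 h)) (tm ts a t (l3 h)), ← funext hv, ← isCut_Jc.val_tm,
      ← isCut_Jc.val_tm]
    exact isCut_Jc.val_inj
  | le s t =>
    intro h a _ v hv
    simp only [Fm.code, cast_npr, Nat.cast_ofNat] at h ⊢
    rw [ts.le h (tm ts a s (l2 h)) (tm ts a t (l3 h)), ← funext hv, ← isCut_Jc.val_tm,
      ← isCut_Jc.val_tm]
    exact isCut_Jc.val_le
  | imp φ ψ i1 i2 =>
    intro h a ha v hv
    simp only [Fm.code, cast_npr, Nat.cast_ofNat] at h ⊢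
    rw [ts.imp a h, i1 (l2 h) a ha v hv, i2 (l3 h) a ha v hv]
    rfl
  | all x φ ih =>
    intro h a ha v hv
    simp only [Fm.code, cast_npr, Nat.cast_ofNat] at h ⊢
    rw [ts.all a h]
    refine ⟨fun H u => ?_, fun H a' ha' hu => ?_⟩
    · obtain ⟨a', h1, h2, h3⟩ := upd_J ha (isCut_Jc.val_mem u)
        (hy.down (lt_of_len_lt (l2 h)).le)
      exact (ih (l3 h) a' h1 _ (upd hv h2 h3)).1 (H a' h1 h2)
    · exact (ih (l3 h) a' ha' _ (upd (u := isCut_Jc.elt _ (ha'.look x)) hv hu rfl)).2 (H _)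

end vals

theorem row_VALS : R_VALS := fun _ _ _ _ ts hy θ h a ha => vals.fm ts hy θ h a ha _ fun _ => rfl

end Pool.Agent.MP_f18a41_lc

end MrgPart5

-- ======== part 6: formerly Pool.Agent.MP_f18a41_lc.VAL4
section MrgPart6

/-! Validity of the judgements `jP c`. -/

namespace Pool.Agent.MP_f18a41_lc

open Function

namespace val4

variable {b : Bool} {N : Mdl b} {X : N → Prop} {n y : N}

theorem l2 {k s : N} (h : len (pr k s) < n) : len s < n := (len_lt_pr_right k s).trans h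
theorem l2' {k s : N} (h : len (pr k s) ≤ n) : len s < n := (len_lt_pr_right k s).trans_le h
theorem ll {k s t : N} (h : len (pr k (pr s t)) < n) : len s < n :=
  (len_lt_pr_left s t).trans (l2 h)
theorem lr {k s t : N} (h : len (pr k (pr s t)) < n) : len t < n := l2 (l2 h)

theorem kc_of (hy : Kc y) {x : N} (h : len x < len y) : Kc x := hy.down (lt_of_len_lt h).le

theorem nf_bot : NF (cBot : N) := fun s t => by
  refine ⟨?_, ?_, ?_, ?_⟩ <;> intro h <;> have := (pr_inj.1 h).1 <;> norm_num at this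

theorem nt_zero : NT (cZero : N) := fun s t => by
  refine ⟨?_, ?_, ?_, ?_, ?_, ?_, ?_⟩ <;> intro h <;> have := (pr_inj.1 h).1 <;> norm_num at this

theorem vK (ts : TS X n) {a c : N} (h : len (cImp a (cImp c a)) < n) :
    VP X (cImp a (cImp c a)) := fun α _ =>
  (ts.imp α h).2 fun h1 => (ts.imp α (lr h)).2 fun _ => h1

theorem vS (ts : TS X n) {a c d : N}
    (h : len (cImp (cImp a (cImp c d)) (cImp (cImp a c) (cImp a d))) < n) :
    VP X (cImp (cImp a (cImp c d)) (cImp (cImp a c) (cImp a d))) := fun α _ =>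
  (ts.imp α h).2 fun h1 => (ts.imp α (lr h)).2 fun h2 => (ts.imp α (lr (lr h))).2 fun h3 =>
    (ts.imp α (lr (ll h))).1 ((ts.imp α (ll h)).1 h1 h3) ((ts.imp α (ll (lr h))).1 h2 h3)

theorem vDn (ts : TS X n) {a : N} (h : len (cImp (cNeg (cNeg a)) a) < n) :
    VP X (cImp (cNeg (cNeg a)) a) := fun α _ =>
  (ts.imp α h).2 fun h1 => by
    by_contra h2
    exact ts.nf α (lr (ll h)) nf_bot
      ((ts.imp α (ll h)).1 h1 ((ts.imp α (ll (ll h))).2 fun h3 => absurd h3 h2))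

theorem val_J (ts : TS X n) {u α : N} (hu : len u < n) (hα : Jc α) :
    ∃ z, Jc z ∧ Val X u α z := by
  obtain ⟨B, s, hB, h⟩ := ts.tab hu hα
  exact ⟨_, isCut_Jc.down (row_lt s B α).le (isCut_Jc.pw hB), h α le_rfl⟩

theorem vInst (ts : TS X (len y)) (hy : Kc y) {a u c d : N} (hu : len u < len y) (h8 : fst u < 8)
    (hs : VS X a u c d) (h : len (cImp (cAll a c) d) < len y) : VP X (cImp (cAll a c) d) :=
  fun α hα => (ts.imp α h).2 fun h1 => by
    obtain ⟨z, hz, hv⟩ := val_J ts hu hα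
    obtain ⟨α', h2, h3, h4⟩ := upd_J hα hz (kc_of hy (ll (ll h)))
    exact (hs h8 α α' hα h2 h3 (h4 ▸ hv)).2.2 ((ts.all α (ll h)).1 h1 α' h2 h3)

theorem vDist (ts : TS X n) {a c d : N}
    (h : len (cImp (cAll a (cImp c d)) (cImp (cAll a c) (cAll a d))) < n) :
    VP X (cImp (cAll a (cImp c d)) (cImp (cAll a c) (cAll a d))) := fun α _ =>
  (ts.imp α h).2 fun h1 => (ts.imp α (lr h)).2 fun h2 => (ts.all α (lr (lr h))).2 fun α' h3 h4 =>
    (ts.imp α' (lr (ll h))).1 ((ts.all α (ll h)).1 h1 α' h3 h4)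
      ((ts.all α (ll (lr h))).1 h2 α' h3 h4)

theorem vVac (ts : TS X n) {a c : N} (hn : VN X a c) (h : len (cImp c (cAll a c)) < n) :
    VP X (cImp c (cAll a c)) := fun α hα =>
  (ts.imp α h).2 fun h1 => (ts.all α (lr h)).2 fun α' h3 h4 => (hn α α' hα h3 h4).2 h1

theorem vGen (ts : TS X n) {a c : N} (hc : VP X c) (h : len (cAll a c) < n) : VP X (cAll a c) :=
  fun α _ => (ts.all α h).2 fun α' h3 _ => hc α' h3

set_option synthInstance.maxSize 1024 in
theorem ind_aux {α x A s u : N}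
    (h0 : ∃ a ≤ A, Upd α x a ∧ look a x = 0 ∧ row s 1 a = 1)
    (hs : ∀ w ≤ u, (∃ a ≤ A, Upd α x a ∧ look a x = half w ∧ row s 1 a = 1) →
      ∃ a ≤ A, Upd α x a ∧ look a x = w ∧ row s 1 a = 1) :
    ∃ a ≤ A, Upd α x a ∧ look a x = u ∧ row s 1 a = 1 := by
  refine pind_sig (fun M w v => w ≤ v 4 →
    ∃ a ≤ v 2, Upd (v 0) (v 1) a ∧ look a (v 1) = w ∧ row (v 3) 1 a = 1)
    (vec [α, x, A, s, u]) (fun _ => h0) ?_ u le_rfl
  intro w _ ih hw
  exact hs w hw (ih ((half_le w).trans hw))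

theorem vInd (ts : TS X (len y)) (hy : Kc y) {a c d e : N} (hc : VC X c)
    (h0 : VS X a cZero c d) (l0 : len (cZero : N) < len y)
    (h1 : VS X a (pr 4 (cVar a)) c e) (l1 : len (pr 4 (cVar a)) < len y)
    (h : len (cImp d (cImp (cAll a (cImp e c)) (cAll a c))) < len y) :
    VP X (cImp d (cImp (cAll a (cImp e c)) (cAll a c))) := fun α hα =>
  (ts.imp α h).2 fun hd => (ts.imp α (lr h)).2 fun hst =>
    (ts.all α (lr (lr h))).2 fun α' hα' hu => by
    have J := isCut_Jc (M := N)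
    obtain ⟨A, hA, hbd⟩ := upd_bd hα (hα'.look a) (kc_of hy (ll (lr (lr h))))
    obtain ⟨s, htab⟩ := hc A hA
    have f0 : fst (cZero : N) < 8 := by rw [fst_pr]; norm_num
    have f1 : fst (pr 4 (cVar a) : N) < 8 := by rw [fst_pr]; norm_num
    obtain ⟨a', ha', h2, h3, h4⟩ := ind_aux (α := α) (x := a) (A := A) (s := s) (u := look α' a)
      (by
        obtain ⟨a', ha', h2, h3⟩ := hbd α le_rfl 0 (zero_le' _)
        exact ⟨a', ha', h2, h3, (htab a' ha').2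
          ((h0 f0 α a' hα (J.down ha' hA) h2 (h3 ▸ ts.nt α l0 nt_zero)).2.1 hd)⟩)
      (by
        rintro w hw ⟨a1, ha1, h2, h3, h4⟩
        obtain ⟨a2, ha2, h5, h6⟩ := hbd α le_rfl w hw
        refine ⟨a2, ha2, h5, h6, (htab a2 ha2).2 ?_⟩
        have hv : Val X (pr 4 (cVar a)) a2 (look a1 a) := by
          rw [h3, ← h6]
          exact ts.hf l1 (ts.var a2 (l2 l1))
        exact (ts.imp a2 (lr (ll (lr h)))).1 ((ts.all α (ll (lr h))).1 hst a2 (J.down ha2 hA) h5)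
          ((h1 f1 a2 a1 (J.down ha2 hA) (J.down ha1 hA) (h5.symm.trans h2) hv).2.2
            ((htab a1 ha1).1 h4)))
    exact ts.invF (lr (lr (lr h))) ((h2.symm.trans hu).ext h3.symm) ((htab a' ha').1 h4)

end val4

open val4 in
theorem row_VAL4 : R_VAL4 := by
  intro b hV N X y j hs
  obtain ⟨ts, kc, rl, le⟩ := hs
  have key : ∀ {c c' : N}, jP c = jP c' → VP X c → VP X c' := fun e h => (pr_inj.1 e).2 ▸ h
  cases rl with
  | pK => exact fun c e => key e (vK ts (l2' le))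
  | pS => exact fun c e => key e (vS ts (l2' le))
  | pDn => exact fun c e => key e (vDn ts (l2' le))
  | pInst _ h1 h2 =>
    exact fun c e => key e (vInst ts kc (l2' h1.2) (h1.1.t _ rfl) (h2.1.s _ _ _ _ rfl) (l2' le))
  | pDist => exact fun c e => key e (vDist ts (l2' le))
  | pVac _ h1 => exact fun c e => key e (vVac ts (h1.1.n _ _ rfl) (l2' le))
  | pMp h0 h1 =>
    exact fun c e => key e fun α hα =>
      (ts.imp α (l2' h0.2)).1 (h0.1.p _ rfl α hα) (h1.1.p _ rfl α hα)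
  | pGen _ h0 => exact fun c e => key e (vGen ts (h0.1.p _ rfl) (l2' le))
  | pInd h0 h1 h2 =>
    exact fun c e => key e (vInd ts kc (h0.1.c _ _ rfl) (h1.1.s _ _ _ _ rfl)
      (l2 ((len_lt_pr_left _ _).trans (l2' h1.2))) (h2.1.s _ _ _ _ rfl)
      (l2 ((len_lt_pr_left _ _).trans (l2' h2.2))) (l2' le))
  | pAx h0 =>
    exact fun c e => key e fun α hα =>
      (hV N X y ts kc _ (l2' le) α hα).2 ((Prv.ax h0).sound N.J _)
  | kBot σ | kEq σ | kLe σ | kImp σ =>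
    intro c e
    have := (pr_inj.1 e).1
    cases σ <;> norm_num at this
  | _ =>
    intro c e
    have := (pr_inj.1 e).1
    norm_num at this

end Pool.Agent.MP_f18a41_lc

end MrgPart6

-- ======== part 7: formerly Pool.Agent.MP_f18a41_lc.ADEQ
section MrgPart7

/-! Row ADEQ: a derivation in a standard model decodes to a proof. -/

namespace Pool.Agent.MP_f18a41_lc

namespace adeq

variable {b : Bool} {M : Mdl b}

/-- the code of a term inside the model -/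
def ct (M : Mdl b) (t : Tm) : M := ((t.code : ℕ) : M)
/-- the code of a formula inside the model -/
def cf (M : Mdl b) (φ : Fm) : M := ((φ.code : ℕ) : M)

@[simp] theorem ct_var (x : ℕ) : ct M (.var x) = pr 0 (x : M) := by simp [ct, Tm.code, cast_npr]
@[simp] theorem ct_zero : ct M .zero = pr 1 0 := by simp [ct, Tm.code, cast_npr]
@[simp] theorem ct_succ (t : Tm) : ct M (.succ t) = pr 2 (ct M t) := by
  simp [ct, Tm.code, cast_npr]
@[simp] theorem ct_len (t : Tm) : ct M (.len t) = pr 3 (ct M t) := by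
  simp [ct, Tm.code, cast_npr]
@[simp] theorem ct_half (t : Tm) : ct M (.half t) = pr 4 (ct M t) := by
  simp [ct, Tm.code, cast_npr]
@[simp] theorem ct_add (s t : Tm) : ct M (.add s t) = pr 5 (pr (ct M s) (ct M t)) := by
  simp [ct, Tm.code, cast_npr]
@[simp] theorem ct_mul (s t : Tm) : ct M (.mul s t) = pr 6 (pr (ct M s) (ct M t)) := by
  simp [ct, Tm.code, cast_npr]
@[simp] theorem ct_smash (s t : Tm) : ct M (.smash s t) = pr 7 (pr (ct M s) (ct M t)) := by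
  simp [ct, Tm.code, cast_npr]
@[simp] theorem cf_bot : cf M .bot = pr 8 0 := by simp [cf, Fm.code, cast_npr]
@[simp] theorem cf_eq (s t : Tm) : cf M (.eq s t) = pr 9 (pr (ct M s) (ct M t)) := by
  simp [cf, ct, Fm.code, cast_npr]
@[simp] theorem cf_le (s t : Tm) : cf M (.le s t) = pr 10 (pr (ct M s) (ct M t)) := by
  simp [cf, ct, Fm.code, cast_npr]
@[simp] theorem cf_imp (φ ψ : Fm) : cf M (.imp φ ψ) = pr 11 (pr (cf M φ) (cf M ψ)) := by
  simp [cf, Fm.code, cast_npr]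
@[simp] theorem cf_all (x : ℕ) (φ : Fm) : cf M (.all x φ) = pr 12 (pr (x : M) (cf M φ)) := by
  simp [cf, Fm.code, cast_npr]

@[simp] theorem ct_inj {s t : Tm} : ct M s = ct M t ↔ s = t := by
  refine ⟨fun h => ?_, fun h => by rw [h]⟩
  induction s generalizing t with
  | var x => cases t <;> simp at h ⊢; exact h
  | zero => cases t <;> simp at h ⊢
  | succ s ih | len s ih | half s ih => cases t <;> simp at h ⊢; exact ih h
  | add s1 s2 i1 i2 | mul s1 s2 i1 i2 | smash s1 s2 i1 i2 =>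
    cases t <;> simp at h ⊢; exact ⟨i1 h.1, i2 h.2⟩

@[simp] theorem cf_inj {φ ψ : Fm} : cf M φ = cf M ψ ↔ φ = ψ := by
  refine ⟨fun h => ?_, fun h => by rw [h]⟩
  induction φ generalizing ψ with
  | bot => cases ψ <;> simp at h ⊢
  | eq s t | le s t => cases ψ <;> simp at h ⊢; exact h
  | imp φ1 φ2 i1 i2 => cases ψ <;> simp at h ⊢; exact ⟨i1 h.1, i2 h.2⟩
  | all x φ ih => cases ψ <;> simp at h ⊢; exact ⟨h.1, ih h.2⟩

theorem freeFor_of_not_free {x : ℕ} (u : Tm) {φ : Fm} (h : ¬ φ.free x) : φ.freeFor x u := by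
  induction φ with
  | bot | eq | le => trivial
  | imp φ ψ i1 i2 => exact ⟨i1 fun hx => h (Or.inl hx), i2 fun hx => h (Or.inr hx)⟩
  | all y φ _ => exact Or.inl h

/-- meaning of the judgement jT -/
def MT (c : M) : Prop := ∃ t, c = ct M t
/-- meaning of the judgement jF -/
def MFo (c : M) : Prop := ∃ φ, c = cf M φ
/-- meaning of the judgement jN -/
def MN (a c : M) : Prop := ∀ x : ℕ, a = x →
  (∀ t, c = ct M t → ¬ t.occ x) ∧ ∀ φ, c = cf M φ → ¬ φ.free x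
/-- meaning of the judgement jS -/
def MS (a u c d : M) : Prop := ∀ (x : ℕ) (w : Tm), a = x → u = ct M w →
  (∀ t, c = ct M t → d = ct M (t.subst x w)) ∧
    ∀ φ, c = cf M φ → φ.freeFor x w ∧ d = cf M (φ.subst x w)
/-- meaning of the judgement jC -/
def MC (σ : Bool) (c : M) : Prop := ∃ φ, c = cf M φ ∧ Cls b σ φ
/-- meaning of the judgement jP -/
def MPr (c : M) : Prop := ∃ φ, c = cf M φ ∧ Prv b φ

/-- the invariant of the rows of a derivation -/
structure Inv (y : M) : Prop where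
  t : ∀ c, y = jT c → MT c
  f : ∀ c, y = jF c → MFo c
  n : ∀ a c, y = jN a c → MN a c
  s : ∀ a u c d, y = jS a u c d → MS a u c d
  k : ∀ σ c, y = jC σ c → MC σ c
  p : ∀ c, y = jP c → MPr c

theorem inv_zero : Inv (0 : M) :=
  ⟨fun _ e => by simp at e, fun _ e => by simp at e, fun _ _ e => by simp at e,
    fun _ _ _ _ e => by simp at e, fun _ _ e => by simp at e, fun _ e => by simp at e⟩

theorem invT {c : M} (h : MT c) : Inv (jT c) :=
  ⟨fun _ e => by simp at e; exact e ▸ h, fun _ e => by simp at e, fun _ _ e => by simp at e,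
    fun _ _ _ _ e => by simp at e, fun σ _ e => by cases σ <;> simp at e, fun _ e => by simp at e⟩

theorem invF {c : M} (h : MFo c) : Inv (jF c) :=
  ⟨fun _ e => by simp at e, fun _ e => by simp at e; exact e ▸ h, fun _ _ e => by simp at e,
    fun _ _ _ _ e => by simp at e, fun σ _ e => by cases σ <;> simp at e, fun _ e => by simp at e⟩

theorem invN {a c : M} (h : MN a c) : Inv (jN a c) :=
  ⟨fun _ e => by simp at e, fun _ e => by simp at e,
    fun _ _ e => by simp at e; obtain ⟨rfl, rfl⟩ := e; exact h,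
    fun _ _ _ _ e => by simp at e, fun σ _ e => by cases σ <;> simp at e, fun _ e => by simp at e⟩

theorem invS {a u c d : M} (h : MS a u c d) : Inv (jS a u c d) :=
  ⟨fun _ e => by simp at e, fun _ e => by simp at e, fun _ _ e => by simp at e,
    fun _ _ _ _ e => by simp at e; obtain ⟨⟨rfl, rfl⟩, rfl, rfl⟩ := e; exact h,
    fun σ _ e => by cases σ <;> simp at e, fun _ e => by simp at e⟩

theorem invC {σ : Bool} {c : M} (h : MC σ c) : Inv (jC σ c) :=
  ⟨fun _ e => by cases σ <;> simp at e, fun _ e => by cases σ <;> simp at e,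
    fun _ _ e => by cases σ <;> simp at e, fun _ _ _ _ e => by cases σ <;> simp at e,
    fun τ _ e => by cases σ <;> cases τ <;> simp at e <;> exact e ▸ h,
    fun _ e => by cases σ <;> simp at e⟩

theorem invP {c : M} (h : MPr c) : Inv (jP c) :=
  ⟨fun _ e => by simp at e, fun _ e => by simp at e, fun _ _ e => by simp at e,
    fun _ _ _ _ e => by simp at e, fun σ _ e => by cases σ <;> simp at e,
    fun _ e => by simp at e; exact e ▸ h⟩

/-! ### Not free -/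

theorem mn_var {a c : M} (h : a ≠ c) : MN a (cVar c) := by
  rintro x rfl
  refine ⟨fun t e => ?_, fun φ e => ?_⟩
  · cases t <;> simp at e
    subst e
    intro hx
    exact h (congrArg _ hx)
  · cases φ <;> simp at e

theorem mn_zero (a : M) : MN a cZero := by
  rintro x rfl
  refine ⟨fun t e => ?_, fun φ e => ?_⟩
  · cases t <;> simp at e
    exact fun h => h
  · cases φ <;> simp at e

theorem mn_bot (a : M) : MN a cBot := by
  rintro x rfl
  refine ⟨fun t e => ?_, fun φ e => ?_⟩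
  · cases t <;> simp at e
  · cases φ <;> simp at e
    exact fun h => h

theorem mn_self (a c : M) : MN a (cAll a c) := by
  rintro x rfl
  refine ⟨fun t e => ?_, fun φ e => ?_⟩
  · cases t <;> simp at e
  · cases φ <;> simp at e
    exact fun h => h.1 e.1

theorem mn_all {a d : M} (c : M) (h : MN a d) : MN a (cAll c d) := by
  rintro x rfl
  refine ⟨fun t e => ?_, fun φ e => ?_⟩
  · cases t <;> simp at e
  · cases φ <;> simp at e
    exact fun h' => (h x rfl).2 _ e.2 h'.2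

theorem mn_one (k : ℕ) (hk : k ∈ [2, 3, 4]) {a c : M} (h : MN a c) : MN a (pr k c) := by
  rintro x rfl
  simp only [List.mem_cons, List.not_mem_nil, or_false] at hk
  refine ⟨fun t e => ?_, fun φ e => ?_⟩
  · rcases hk with rfl | rfl | rfl <;> cases t <;> simp at e <;>
      (have := (h x rfl).1 _ e; exact this)
  · rcases hk with rfl | rfl | rfl <;> cases φ <;> simp at e

theorem mn_two (k : ℕ) (hk : k ∈ [5, 6, 7, 9, 10, 11]) {a c d : M} (h : MN a c) (h' : MN a d) :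
    MN a (pr k (pr c d)) := by
  rintro x rfl
  simp only [List.mem_cons, List.not_mem_nil, or_false] at hk
  refine ⟨fun t e => ?_, fun φ e => ?_⟩
  · rcases hk with rfl | rfl | rfl | rfl | rfl | rfl <;> cases t <;> simp at e <;>
      exact fun hx => hx.elim ((h x rfl).1 _ e.1) ((h' x rfl).1 _ e.2)
  · rcases hk with rfl | rfl | rfl | rfl | rfl | rfl <;> cases φ <;> simp at e
    · exact fun hx => hx.elim ((h x rfl).1 _ e.1) ((h' x rfl).1 _ e.2)
    · exact fun hx => hx.elim ((h x rfl).1 _ e.1) ((h' x rfl).1 _ e.2)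
    · exact fun hx => hx.elim ((h x rfl).2 _ e.1) ((h' x rfl).2 _ e.2)

/-! ### Substitution -/

theorem ms_var (a u : M) : MS a u (cVar a) u := by
  rintro x w rfl rfl
  refine ⟨fun t e => ?_, fun φ e => ?_⟩
  · cases t <;> simp at e
    simp [Tm.subst, e]
  · cases φ <;> simp at e

theorem ms_n {a c : M} (u : M) (h : MN a c) : MS a u c c := by
  rintro x w rfl rfl
  refine ⟨fun t e => ?_, fun φ e => ?_⟩
  · rw [Tm.subst_of_not_occ w ((h x rfl).1 t e), e]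
  · rw [Fm.subst_of_not_free w ((h x rfl).2 φ e)]
    exact ⟨freeFor_of_not_free w ((h x rfl).2 φ e), e⟩

theorem ms_all {a u c d e : M} (h1 : MN a (cVar c)) (h2 : MN c u) (h3 : MS a u d e) :
    MS a u (cAll c d) (cAll c e) := by
  rintro x w rfl rfl
  refine ⟨fun t e => ?_, fun φ e => ?_⟩
  · cases t <;> simp at e
  · cases φ <;> simp at e
    rename_i y φ
    obtain ⟨rfl, rfl⟩ := e
    have a1 : ¬ x = y := (h1 x rfl).1 (.var y) (by simp)
    have a2 : ¬ w.occ y := (h2 y rfl).1 w rfl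
    obtain ⟨a3, a4⟩ := (h3 x w rfl rfl).2 φ rfl
    exact ⟨Or.inr ⟨a2, a3⟩, by simp [Fm.subst, a1, a4]⟩

theorem ms_one (k : ℕ) (hk : k ∈ [2, 3, 4]) {a u c d : M} (h : MS a u c d) :
    MS a u (pr k c) (pr k d) := by
  rintro x w rfl rfl
  simp only [List.mem_cons, List.not_mem_nil, or_false] at hk
  refine ⟨fun t e => ?_, fun φ e => ?_⟩
  · rcases hk with rfl | rfl | rfl <;> cases t <;> simp at e <;>
      simp [Tm.subst, (h x w rfl rfl).1 _ e]
  · rcases hk with rfl | rfl | rfl <;> cases φ <;> simp at e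

theorem ms_two (k : ℕ) (hk : k ∈ [5, 6, 7, 9, 10, 11]) {a u c d e f : M} (h : MS a u c d)
    (h' : MS a u e f) : MS a u (pr k (pr c e)) (pr k (pr d f)) := by
  rintro x w rfl rfl
  simp only [List.mem_cons, List.not_mem_nil, or_false] at hk
  refine ⟨fun t e => ?_, fun φ e => ?_⟩
  · rcases hk with rfl | rfl | rfl | rfl | rfl | rfl <;> cases t <;> simp at e <;>
      simp [Tm.subst, (h x w rfl rfl).1 _ e.1, (h' x w rfl rfl).1 _ e.2]
  · rcases hk with rfl | rfl | rfl | rfl | rfl | rfl <;> cases φ <;> simp at e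
    · exact ⟨trivial, by simp [Fm.subst, (h x w rfl rfl).1 _ e.1, (h' x w rfl rfl).1 _ e.2]⟩
    · exact ⟨trivial, by simp [Fm.subst, (h x w rfl rfl).1 _ e.1, (h' x w rfl rfl).1 _ e.2]⟩
    · obtain ⟨a1, a2⟩ := (h x w rfl rfl).2 _ e.1
      obtain ⟨a3, a4⟩ := (h' x w rfl rfl).2 _ e.2
      exact ⟨⟨a1, a3⟩, by simp [Fm.subst, a2, a4]⟩

/-! ### The invariant is closed under the rules -/

theorem clo_inv (hM : Std M) : Clo (Inv : M → Prop) := by
  intro y hy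
  cases hy with
  | tVar a =>
    obtain ⟨x, rfl⟩ := hM a
    exact invT ⟨.var x, by simp⟩
  | tZero => exact invT ⟨.zero, by simp⟩
  | t1 k hk h0 =>
    obtain ⟨t, rfl⟩ := h0.t _ rfl
    simp only [List.mem_cons, List.not_mem_nil, or_false] at hk
    rcases hk with rfl | rfl | rfl
    · exact invT ⟨.succ t, by simp⟩
    · exact invT ⟨.len t, by simp⟩
    · exact invT ⟨.half t, by simp⟩
  | t2 k hk h0 h1 =>
    obtain ⟨s, rfl⟩ := h0.t _ rfl
    obtain ⟨t, rfl⟩ := h1.t _ rfl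
    simp only [List.mem_cons, List.not_mem_nil, or_false] at hk
    rcases hk with rfl | rfl | rfl
    · exact invT ⟨.add s t, by simp⟩
    · exact invT ⟨.mul s t, by simp⟩
    · exact invT ⟨.smash s t, by simp⟩
  | fBot => exact invF ⟨.bot, by simp⟩
  | fImp h0 h1 =>
    obtain ⟨φ, rfl⟩ := h0.f _ rfl
    obtain ⟨ψ, rfl⟩ := h1.f _ rfl
    exact invF ⟨.imp φ ψ, by simp⟩
  | fAll a h0 =>
    obtain ⟨x, rfl⟩ := hM a
    obtain ⟨φ, rfl⟩ := h0.f _ rfl
    exact invF ⟨.all x φ, by simp⟩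
  | f2 k hk h0 h1 =>
    obtain ⟨s, rfl⟩ := h0.t _ rfl
    obtain ⟨t, rfl⟩ := h1.t _ rfl
    simp only [List.mem_cons, List.not_mem_nil, or_false] at hk
    rcases hk with rfl | rfl
    · exact invF ⟨.eq s t, by simp⟩
    · exact invF ⟨.le s t, by simp⟩
  | nVar h0 => exact invN (mn_var h0)
  | nZero a => exact invN (mn_zero a)
  | nBot a => exact invN (mn_bot a)
  | nSelf a c => exact invN (mn_self a c)
  | nAll c h0 => exact invN (mn_all c (h0.n _ _ rfl))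
  | n1 k hk h0 => exact invN (mn_one k hk (h0.n _ _ rfl))
  | n2 k hk h0 h1 => exact invN (mn_two k hk (h0.n _ _ rfl) (h1.n _ _ rfl))
  | sVar a u => exact invS (ms_var a u)
  | sN u h0 => exact invS (ms_n u (h0.n _ _ rfl))
  | sAll h0 h1 h2 => exact invS (ms_all (h0.n _ _ rfl) (h1.n _ _ rfl) (h2.s _ _ _ _ rfl))
  | s1 k hk h0 => exact invS (ms_one k hk (h0.s _ _ _ _ rfl))
  | s2 k hk h0 h1 => exact invS (ms_two k hk (h0.s _ _ _ _ rfl) (h1.s _ _ _ _ rfl))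
  | kBot σ => exact invC ⟨.bot, by simp, .bot σ⟩
  | kEq σ h0 h1 =>
    obtain ⟨s, rfl⟩ := h0.t _ rfl
    obtain ⟨t, rfl⟩ := h1.t _ rfl
    exact invC ⟨.eq s t, by simp, .eq σ s t⟩
  | kLe σ h0 h1 =>
    obtain ⟨s, rfl⟩ := h0.t _ rfl
    obtain ⟨t, rfl⟩ := h1.t _ rfl
    exact invC ⟨.le s t, by simp, .le σ s t⟩
  | kImp σ h0 h1 =>
    obtain ⟨φ, rfl, a1⟩ := h0.k _ _ rfl
    obtain ⟨ψ, rfl, a2⟩ := h1.k _ _ rfl
    exact invC ⟨.imp φ ψ, by simp, .imp σ a1 a2⟩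
  | @kBall a t c h0 h1 h2 =>
    obtain ⟨x, rfl⟩ := hM a
    obtain ⟨t, rfl⟩ := h0.t _ rfl
    obtain ⟨φ, rfl, a2⟩ := h2.k _ _ rfl
    exact invC ⟨.ball x t φ, by simp [Fm.ball], .ball ((h1.n _ _ rfl x rfl).1 t rfl) a2⟩
  | @kSharp a t c h0 h1 h2 =>
    obtain ⟨x, rfl⟩ := hM a
    obtain ⟨t, rfl⟩ := h0.t _ rfl
    obtain ⟨φ, rfl, a2⟩ := h2.k _ _ rfl
    exact invC ⟨.ball x (.len t) φ, by simp [Fm.ball], .sharp ((h1.n _ _ rfl x rfl).1 t rfl) a2⟩
  | @kWide a t c hb h0 h1 h2 =>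
    obtain ⟨x, rfl⟩ := hM a
    obtain ⟨t, rfl⟩ := h0.t _ rfl
    obtain ⟨φ, rfl, a2⟩ := h2.k _ _ rfl
    exact invC ⟨.ball x t φ, by simp [Fm.ball], .wide hb ((h1.n _ _ rfl x rfl).1 t rfl) a2⟩
  | pK h0 h1 =>
    obtain ⟨φ, rfl⟩ := h0.f _ rfl
    obtain ⟨ψ, rfl⟩ := h1.f _ rfl
    exact invP ⟨_, by simp, .k φ ψ⟩
  | pS h0 h1 h2 =>
    obtain ⟨φ, rfl⟩ := h0.f _ rfl
    obtain ⟨ψ, rfl⟩ := h1.f _ rfl
    obtain ⟨χ, rfl⟩ := h2.f _ rfl
    exact invP ⟨_, by simp, .s φ ψ χ⟩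
  | pDn h0 =>
    obtain ⟨φ, rfl⟩ := h0.f _ rfl
    exact invP ⟨_, by simp [Fm.neg], .dn φ⟩
  | @pInst a u c d h0 h1 h2 =>
    obtain ⟨x, rfl⟩ := hM a
    obtain ⟨φ, rfl⟩ := h0.f _ rfl
    obtain ⟨w, rfl⟩ := h1.t _ rfl
    obtain ⟨a1, rfl⟩ := (h2.s _ _ _ _ rfl x w rfl rfl).2 φ rfl
    exact invP ⟨_, by simp, .inst x w φ a1⟩
  | pDist a h0 h1 =>
    obtain ⟨x, rfl⟩ := hM a
    obtain ⟨φ, rfl⟩ := h0.f _ rfl
    obtain ⟨ψ, rfl⟩ := h1.f _ rfl
    exact invP ⟨_, by simp, .dist x φ ψ⟩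
  | @pVac a c h0 h1 =>
    obtain ⟨x, rfl⟩ := hM a
    obtain ⟨φ, rfl⟩ := h0.f _ rfl
    exact invP ⟨_, by simp, .vac x φ ((h1.n _ _ rfl x rfl).2 φ rfl)⟩
  | pMp h0 h1 =>
    obtain ⟨φ, rfl, a1⟩ := h1.p _ rfl
    obtain ⟨χ, e, a2⟩ := h0.p _ rfl
    cases χ <;> simp at e
    obtain ⟨rfl, rfl⟩ := e
    exact invP ⟨_, rfl, .mp a2 a1⟩
  | pGen a h0 =>
    obtain ⟨x, rfl⟩ := hM a
    obtain ⟨φ, rfl, a1⟩ := h0.p _ rfl
    exact invP ⟨_, by simp, .gen x a1⟩
  | @pInd a c d e h0 h1 h2 =>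
    obtain ⟨x, rfl⟩ := hM a
    obtain ⟨φ, rfl, a1⟩ := h0.k _ _ rfl
    obtain ⟨-, rfl⟩ := (h1.s _ _ _ _ rfl x .zero rfl (by simp)).2 φ rfl
    obtain ⟨-, rfl⟩ := (h2.s _ _ _ _ rfl x (.half (.var x)) rfl (by simp)).2 φ rfl
    exact invP ⟨_, by simp [pind], .ind x a1⟩
  | @pAx φ h0 => exact invP ⟨φ, rfl, .ax h0⟩

theorem rows_inv (hM : Std M) {s a : M} (h : HDer (fun _ => False) s a) (n : ℕ) :
    (n : M) ≤ len s → Inv (row s a n) := by
  induction n using Nat.strong_induction_on with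
  | _ n ih =>
    intro hn
    rcases h n hn with h0 | h0 | h0
    · rw [h0]; exact inv_zero
    · exact h0.elim
    · refine clo_inv hM _ (Rl.mono ?_ h0)
      rintro j ⟨k, hk, rfl⟩
      obtain ⟨m, rfl⟩ := hM k
      exact ih m (Nat.cast_lt.1 hk) (hk.le.trans hn)

end adeq

theorem row_ADEQ : R_ADEQ := by
  rintro b M hM φ ⟨s, a, h, i, hi, e⟩
  obtain ⟨n, rfl⟩ := hM i
  obtain ⟨ψ, e', hψ⟩ := (adeq.rows_inv hM h n hi).p _ e
  have : φ = ψ := adeq.cf_inj.1 e'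
  exact this ▸ hψ

end Pool.Agent.MP_f18a41_lc

end MrgPart7

-- ======== part 8: formerly Pool.Agent.MP_f18a41_lc.SOL1
section MrgPart8

/-! The Solovay path with small moves: definitions and facts inside one model. -/

namespace Pool.Agent.MP_f18a41_lc.Sol

open Function Relation

/-- a finite frame with a distinguished point and an enumeration -/
structure Fr where
  W : Type
  fin : Finite W
  R : W → W → Prop
  tr : ∀ {x y z}, R x y → R y z → R x z
  ir : ∀ x, ¬ R x x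
  w : W
  e : W → ℕ
  inj : Injective e

instance (F : Fr) : Finite F.W := F.fin

variable {b : Bool} (F : Fr)

/-- the new root sees only the distinguished point -/
def Fr.Rp : Option F.W → F.W → Prop
  | none, z => z = F.w
  | some u, z => F.R u z

def Fr.Lt : Option F.W → Option F.W → Prop
  | _, none => False
  | none, some _ => True
  | some u, some z => F.R u z

theorem Fr.lt_trans : ∀ {c d f : Option F.W}, F.Lt c d → F.Lt d f → F.Lt c f
  | _, _, none, _, h => h.elim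
  | none, _, some _, _, _ => trivial
  | some _, none, some _, h, _ => h.elim
  | some _, some _, some _, h, h' => F.tr h h'

theorem Fr.lt_irrefl : ∀ c, ¬ F.Lt c c
  | none => id
  | some u => F.ir u

theorem Fr.wf : WellFounded F.Lt :=
  have : IsTrans _ F.Lt := ⟨fun _ _ _ => F.lt_trans⟩
  have : Std.Irrefl F.Lt := ⟨F.lt_irrefl⟩
  Finite.wellFounded_of_trans_of_irrefl _

theorem Fr.wf' : WellFounded (swap F.Lt) :=
  have : IsTrans _ (swap F.Lt) := ⟨fun _ _ _ h h' => F.lt_trans h' h⟩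
  have : Std.Irrefl (swap F.Lt) := ⟨F.lt_irrefl⟩
  Finite.wellFounded_of_trans_of_irrefl _

theorem Fr.exists_min {p : F.W → Prop} (h : ∃ z, p z) : ∃ z, p z ∧ ∀ z', p z' → F.e z ≤ F.e z' := by
  obtain ⟨z, h1, h2⟩ := (InvImage.wf F.e wellFounded_lt).has_min {z | p z} h
  exact ⟨z, h1, fun z' hz => not_lt.1 (h2 z' hz)⟩

theorem Fr.exists_max {x c : F.W} (h : F.R x c) : ∃ d, F.R x d ∧ ∀ z, ¬ F.R d z := by
  obtain ⟨d, ⟨d', h1, rfl⟩, h2⟩ := F.wf'.has_min (some '' {z | F.R x z}) ⟨_, c, h, rfl⟩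
  exact ⟨d', h1, fun z hz => h2 _ ⟨z, F.tr h1 hz, rfl⟩ hz⟩

section Defs
variable {N : Mdl b} (k : F.W → N)

def Trig (z : F.W) (q : N) : Prop := Pf (jP (cNeg (k z))) q
def TrigAt (c : Option F.W) (q : N) : Prop := ∃ z, F.Rp c z ∧ Trig F k z q
def Mv (c : Option F.W) (z : F.W) (q : N) : Prop := F.Rp c z ∧ Trig F k z q ∧
  (∀ q' < q, ¬ TrigAt F k c q') ∧ ∀ z', F.Rp c z' → Trig F k z' q → F.e z ≤ F.e z'
def Stp (P : N → Prop) (c d : Option F.W) : Prop := ∃ z, d = some z ∧ ∃ q, P q ∧ Mv F k c z q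
def On (P : N → Prop) (c : Option F.W) : Prop := ReflTransGen (Stp F k P) none c
def End (x : F.W) : Prop := On F k Jc (some x) ∧ ¬ ∃ d, Stp F k Jc (some x) d
def NoT (z : F.W) : Prop := ¬ ∃ q, Trig F k z q
def Fit (u z : F.W) : Prop := F.R u z ∧ ∀ w, F.R z w ↔ NoT F k w
/-- the class of the model -/
def Kl (z : F.W) : Prop := (End F k z ∧ ¬ ∃ q, TrigAt F k (some z) q) ∨
  ∃ u x, On F k Jc (some u) ∧ Stp F k Jc (some u) (some x) ∧ End F k x ∧
    (∃ q, TrigAt F k (some x) q) ∧ Fit F k u z ∧ ∀ z', Fit F k u z' → F.e z ≤ F.e z'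

variable {F k} {P P' : N → Prop} {c d d' : Option F.W} {x z z' u : F.W} {q q' y : N}

theorem Trig.mono (h : Trig F k z q) (e : q ≤ q') : Trig F k z q' := Pf.mono h e
theorem TrigAt.mono (h : TrigAt F k c q) (e : q ≤ q') : TrigAt F k c q' :=
  h.imp fun _ h => ⟨h.1, h.2.mono e⟩

theorem Mv.unique (h : Mv F k c z q) (h' : Mv F k c z' q') : z = z' := by
  have e : q = q' := le_antisymm (not_lt.1 fun l => h.2.2.1 _ l ⟨_, h'.1, h'.2.1⟩)
    (not_lt.1 fun l => h'.2.2.1 _ l ⟨_, h.1, h.2.1⟩)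
  subst e
  exact F.inj (le_antisymm (h.2.2.2 _ h'.1 h'.2.1) (h'.2.2.2 _ h.1 h.2.1))

theorem Stp.unique (h : Stp F k P c d) (h' : Stp F k P' c d') : d = d' := by
  obtain ⟨z, rfl, q, _, h⟩ := h
  obtain ⟨z', rfl, q', _, h'⟩ := h'
  rw [h.unique h']

theorem Stp.mono (h : Stp F k P c d) (e : ∀ q, P q → P' q) : Stp F k P' c d :=
  let ⟨z, h1, q, h2, h3⟩ := h; ⟨z, h1, q, e q h2, h3⟩

theorem On.mono (h : On F k P c) (e : ∀ q, P q → P' q) : On F k P' c := by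
  induction h with
  | refl => exact .refl
  | tail _ h ih => exact ReflTransGen.tail ih (h.mono e)

theorem Stp.lt (h : Stp F k P c d) : F.Lt c d := by
  obtain ⟨z, rfl, q, _, h⟩ := h
  cases c
  exacts [trivial, h.1]

theorem Stp.trigAt (h : Stp F k P c d) : ∃ q, TrigAt F k c q :=
  let ⟨z, _, q, _, h⟩ := h; ⟨q, z, h.1, h.2.1⟩

theorem rtg_lt (h : ReflTransGen (Stp F k P) c d) : c = d ∨ F.Lt c d := by
  induction h with
  | refl => exact Or.inl rfl
  | tail _ h ih => exact Or.inr (ih.elim (fun e => e ▸ h.lt) fun l => F.lt_trans l h.lt)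

theorem rtg_some (h : ReflTransGen (Stp F k P) (some u) d) :
    ∃ z, d = some z ∧ (u = z ∨ F.R u z) := by
  rcases rtg_lt h with rfl | l
  · exact ⟨u, rfl, Or.inl rfl⟩
  · cases d with
    | none => exact l.elim
    | some z => exact ⟨z, rfl, Or.inr l⟩

theorem On.trig (h : On F k P (some z)) : ∃ q, P q ∧ Trig F k z q := by
  rcases ReflTransGen.cases_tail h with e | ⟨c, _, z', e, q, h1, h2⟩
  · cases e
  · cases e; exact ⟨q, h1, h2.2.1⟩

theorem exists_end (P : N → Prop) (c : Option F.W) :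
    ∃ d, ReflTransGen (Stp F k P) c d ∧ ¬ ∃ d', Stp F k P d d' := by
  induction c using F.wf'.induction with
  | _ c ih =>
    by_cases h : ∃ d', Stp F k P c d'
    · obtain ⟨d', h⟩ := h
      obtain ⟨d, h1, h2⟩ := ih d' h.lt
      exact ⟨d, h1.head h, h2⟩
    · exact ⟨c, .refl, h⟩

theorem On.total (h : On F k P c) (h' : On F k P d) :
    ReflTransGen (Stp F k P) c d ∨ ReflTransGen (Stp F k P) d c :=
  ReflTransGen.total_of_right_unique (fun _ _ _ h h' => h.unique h') h h'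

theorem End.eq (h : End F k x) (h' : ReflTransGen (Stp F k Jc) (some x) c) : c = some x := by
  rcases h'.cases_head with e | ⟨d, h1, _⟩
  · exact e.symm
  · exact (h.2 ⟨d, h1⟩).elim

theorem End.reach (h : End F k x) (h' : On F k Jc c) : ReflTransGen (Stp F k Jc) c (some x) := by
  rcases h'.total h.1 with h1 | h1
  · exact h1
  · rw [h.eq h1]

theorem End.unique (h : End F k x) (h' : End F k z) : x = z :=
  Option.some_injective _ (h'.eq (h.reach h'.1))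

/-- a node of the path with a move lies at or before the last but one node -/
theorem reach_pred (hc : On F k Jc c) (hd : Stp F k Jc c d) (hu : On F k Jc (some u))
    (hs : Stp F k Jc (some u) (some x)) (hx : End F k x) :
    ReflTransGen (Stp F k Jc) c (some u) := by
  rcases hc.total hu with h | h
  · exact h
  · rcases h.cases_head with e | ⟨f, h1, h2⟩
    · rw [e]
    · rw [h1.unique hs] at h2
      exact (hx.2 ⟨d, hx.eq h2 ▸ hd⟩).elim

theorem cls_after (hc : On F k Jc (some u)) (hd : Stp F k Jc (some u) d) (h : Kl F k z) :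
    F.R u z := by
  rcases h with ⟨h, _⟩ | ⟨u', x, h1, h2, h3, _, h4, _⟩
  · obtain ⟨z', e, h1⟩ := rtg_some (h.reach hc)
    cases e
    rcases h1 with rfl | h1
    · exact (h.2 ⟨d, hd⟩).elim
    · exact h1
  · obtain ⟨z', e, h5⟩ := rtg_some (reach_pred hc hd h1 h2 h3)
    cases e
    rcases h5 with rfl | h5
    · exact h4.1
    · exact F.tr h5 h4.1

theorem Kl.unique (h : Kl F k z) (h' : Kl F k z') : z = z' := by
  rcases h with ⟨h, n⟩ | ⟨u, x, h1, h2, h3, t, h4, h5⟩ <;>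
    rcases h' with ⟨h', n'⟩ | ⟨u', x', h1', h2', h3', t', h4', h5'⟩
  · exact h.unique h'
  · rw [h.unique h3'] at n; exact (n t').elim
  · rw [h'.unique h3] at n'; exact (n' t).elim
  · have e : u = u' := by
      obtain ⟨_, e, l⟩ := rtg_some (reach_pred h1 h2 h1' h2' h3')
      obtain ⟨_, e', l'⟩ := rtg_some (reach_pred h1' h2' h1 h2 h3)
      cases e; cases e'
      exact l.elim id fun l => l'.elim Eq.symm fun l' => (F.ir _ (F.tr l l')).elim
    subst e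
    exact F.inj (le_antisymm (h5 _ h4') (h5' _ h4))

theorem Kl.noT (h : Kl F k z) (hz : F.R z z') : NoT F k z' := by
  rcases h with ⟨_, n⟩ | ⟨_, _, _, _, _, _, h4, _⟩
  · exact fun ⟨q, hq⟩ => n ⟨q, z', hz, hq⟩
  · exact (h4.2 _).1 hz

theorem On.bound (h : On F k Jc c) : ∃ y, Jc y ∧ On F k (· ≤ y) c := by
  induction h with
  | refl => exact ⟨0, isCut_Jc.zero, .refl⟩
  | tail _ h ih =>
    obtain ⟨y, h1, h2⟩ := ih
    obtain ⟨z, e, q, h3, h4⟩ := h
    exact ⟨y + q, isCut_Jc.add h1 h3, ReflTransGen.tail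
      (On.mono h2 fun _ h => h.trans le_self_add) ⟨z, e, q, le_add_self, h4⟩⟩

end Defs

/-! ### Definability -/

section Def
variable [HasPost b] {F} {K : F.W → UFun b} [hK : ∀ w, UFn (K w)] {f : UFun b} [hf : UFn f]

instance sigTrig (z : F.W) : USig fun N v => Trig F (fun w => K w N v) z (f N v) := by
  unfold Trig; infer_instance
instance sigTrigAt (c : Option F.W) : USig fun N v => TrigAt F (fun w => K w N v) c (f N v) := by
  unfold TrigAt; infer_instance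
instance ubMv (c : Option F.W) (z : F.W) : UB fun N v => Mv F (fun w => K w N v) c z (f N v) := by
  have := fun w => (hK w).tail
  unfold Mv; infer_instance
instance ubStp (c d : Option F.W) :
    UB fun N v => Stp F (fun w => K w N v) (· ≤ f N v) c d := by
  have := fun w => (hK w).tail
  unfold Stp; infer_instance
instance ufStp' (c d : Option F.W) :
    UF fun N _ v => Stp F (fun w => K w N v) (· ≤ f N v) c d := (ubStp c d).out.up.uf
instance ufStp (c d : Option F.W) : UF fun N _ v => Stp F (fun w => K w N v) Jc c d := by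
  have := fun w => (hK w).tail
  have := fun z => (ubMv (K := fun w N v => K w N fun i => v (i + 1)) (f := fun _ v => v 0)
    c z).out.up.uf
  unfold Stp; infer_instance

omit [HasPost b] in
theorem uf_rtg (T : ∀ N : Mdl b, (ℕ → N) → Option F.W → Option F.W → Prop)
    (h : ∀ c d, UF fun N _ v => T N v c d) (l : ∀ N v c d, T N v c d → F.Lt c d)
    (c : Option F.W) : UF fun N _ v => ReflTransGen (T N v) none c := by
  induction c using F.wf.induction with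
  | _ c ih =>
    have := fun d : {d // F.Lt d c} => ih d.1 d.2
    refine (inferInstance : UF fun N _ v => c = none ∨ ∃ d : {d // F.Lt d c},
      ReflTransGen (T N v) none d.1 ∧ T N v d.1 c).congr fun N _ v => ?_
    rw [ReflTransGen.cases_tail_iff]
    exact or_congr_right ⟨fun ⟨d, h⟩ => ⟨d.1, h⟩, fun ⟨d, h⟩ => ⟨⟨d, l _ _ _ _ h.2⟩, h⟩⟩

instance ufOn (c : Option F.W) : UF fun N _ v => On F (fun w => K w N v) Jc c :=
  uf_rtg _ (fun _ _ => inferInstance) (fun _ _ _ _ h => h.lt) c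
instance ufOn' (c : Option F.W) : UF fun N _ v => On F (fun w => K w N v) (· ≤ f N v) c :=
  uf_rtg _ (fun _ _ => inferInstance) (fun _ _ _ _ h => h.lt) c
instance ufEnd (x : F.W) : UF fun N _ v => End F (fun w => K w N v) x := by
  unfold End; infer_instance
instance ufNoT (x : F.W) : UF fun N _ v => NoT F (fun w => K w N v) x := by
  have := fun w => (hK w).tail
  unfold NoT; infer_instance
instance ufFit (u z : F.W) : UF fun N _ v => Fit F (fun w => K w N v) u z := by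
  unfold Fit; infer_instance
instance ufKl (z : F.W) : UF fun N _ v => Kl F (fun w => K w N v) z := by
  have := fun w => (hK w).tail
  unfold Kl; infer_instance

end Def

section Facts
variable [HasPost b] {F} {N : Mdl b} {k : F.W → N}

theorem exists_mv {c : Option F.W} {q : N} (h : TrigAt F k c q) (hq : Jc q) :
    ∃ d, Stp F k (· ≤ q) c d := by
  obtain ⟨E, hE⟩ := hq.log
  obtain ⟨v, rfl⟩ : ∃ v : ℕ → N, k = fun w => v (F.e w) :=
    ⟨extend F.e k 0, funext fun w => (F.inj.extend_apply _ _ w).symm⟩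
  obtain ⟨q', h1, h2, h3⟩ := lmin_sig (fun N q v => TrigAt F (fun w => v (F.e w)) c q) v hE.le h
  obtain ⟨z, h4, h5⟩ := F.exists_min h2
  exact ⟨_, z, rfl, q', h1, h4.1, h4.2, h3, fun z' h6 h7 => h5 z' ⟨h6, h7⟩⟩

theorem exists_smv {c : Option F.W} {q : N} (h : TrigAt F k c q) (hq : Jc q) :
    ∃ d, Stp F k Jc c d :=
  (exists_mv h hq).imp fun _ h => h.mono fun _ e => isCut_Jc.down e hq

/-- what the box of a bad model sees -/
theorem tot_sem {y : N} {x z : F.W} (Z : F.W → Prop) (hy : Jc y) (h1 : On F k (· ≤ y) (some x))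
    (h2 : TrigAt F k (some x) y) (h3 : ∀ w, ¬ Z w → Trig F k w y)
    (h4 : ∀ c, On F k (· ≤ y) (some c) → ∃ d, Stp F k Jc (some c) d) (h : Kl F k z) :
    ∃ c, F.R x c ∧ (∀ w, F.R c w → Z w) ∧ F.R c z := by
  obtain ⟨d, h5, h6⟩ := exists_end (k := k) (· ≤ y) (some x)
  obtain ⟨c, rfl, h7⟩ := rtg_some h5
  have h8 : On F k (· ≤ y) (some c) := ReflTransGen.trans h1 h5
  obtain ⟨d', h9⟩ := h4 c h8
  refine ⟨c, h7.resolve_left ?_, fun w hw => by_contra fun hn => h6 (exists_mv ⟨w, hw, h3 w hn⟩ hy),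
    cls_after (h8.mono fun _ e => isCut_Jc.down e hy) h9 h⟩
  rintro rfl
  exact h6 (exists_mv h2 hy)

omit [HasPost b] in
/-- a model whose path leaves `u` has a class -/
theorem cls_exists (tot : ∀ u x, On F k Jc (some u) → Stp F k Jc (some u) (some x) → End F k x →
      (∃ q, TrigAt F k (some x) q) → ∃ d, Fit F k u d) {u : F.W} {d : Option F.W}
    (h1 : On F k Jc (some u)) (h2 : Stp F k Jc (some u) d) : ∃ z, F.R u z ∧ Kl F k z := by
  suffices h : ∃ z, Kl F k z from h.imp fun z h => ⟨cls_after h1 h2 h, h⟩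
  obtain ⟨f, h3, h4⟩ := exists_end (k := k) Jc d
  have h5 := h3.head h2
  obtain ⟨x, rfl, -⟩ := rtg_some h5
  have hx : End F k x := ⟨ReflTransGen.trans h1 h5, h4⟩
  by_cases t : ∃ q, TrigAt F k (some x) q
  · rcases h5.cases_tail with e | ⟨g, h6, h7⟩
    · exact (h4 ⟨d, e ▸ h2⟩).elim
    obtain ⟨u', rfl, -⟩ := rtg_some h6
    have h8 : On F k Jc (some u') := ReflTransGen.trans h1 h6
    obtain ⟨z, h9, h10⟩ := F.exists_min (tot u' x h8 h7 hx t)
    exact ⟨z, Or.inr ⟨u', x, h8, h7, hx, t, h9, h10⟩⟩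
  · exact ⟨x, Or.inl ⟨hx, t⟩⟩

end Facts

end Pool.Agent.MP_f18a41_lc.Sol

end MrgPart8

-- ======== part 9: formerly Pool.Agent.MP_f18a41_lc.SOL
section MrgPart9

/-! The Solovay sentences. -/

namespace Pool.Agent.MP_f18a41_lc

open Function Relation

namespace Sol

variable {b : Bool} [HasBox b] {F : Fr} (S : F.W → Fm)

/-- the codes of the sentences -/
abbrev kk (N : Mdl b) (w : F.W) : N := (((S w).code : ℕ) : N)

omit [HasBox b] in
theorem code_neg (N : Mdl b) (φ : Fm) : ((φ.neg.code : ℕ) : N) = cNeg ((φ.code : ℕ) : N) := by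
  simp [Fm.neg, Fm.code, cast_npr]

variable {S}

omit [HasBox b] in
theorem trig_iff {N : Mdl b} {z : F.W} :
    (∃ q, Trig F (kk S N) z q) ↔ Dv (jP (((S z).neg.code : ℕ) : N)) := by
  rw [code_neg]
  exact ⟨fun ⟨_, h⟩ => Pf.dv h, fun h => h.pf⟩

theorem on_J {N : Mdl b} {y : N} (hy : Jc y) {c : Option F.W} (h : On F (kk S N) (· ≤ y) c) :
    On F (kk S N.J) (· ≤ isCut_Jc.elt y hy) c := by
  induction h with
  | refl => exact .refl
  | @tail c d _ h ih =>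
    exact ReflTransGen.tail ih ((isCut_Jc.abs (inferInstance : UB fun N v =>
      Stp F (kk S N) (· ≤ v 0) c d).out fun _ => isCut_Jc.elt y hy).2 h)

theorem key_sem (hS : ∀ z (N : Mdl b) (v : ℕ → N), (S z).ev N.toStr v ↔ Kl F (kk S N) z)
    {N : Mdl b} {y : N} {c : F.W} (h1 : InJ (fun _ a => Jc a) N y)
    (h2 : Pf (jP (((S c).neg.code : ℕ) : N)) y → (S c).neg.ev N.J.toStr (fun _ => (0 : N.J)))
    (h : On F (kk S N) (· ≤ y) (some c)) : ∃ d, Stp F (kk S N) Jc (some c) d := by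
  obtain ⟨hy, hy'⟩ := h1
  obtain ⟨q, h3, h4⟩ := h.trig
  have h5 := h2 (by rw [code_neg]; exact h4.mono h3)
  rw [Fm.ev_neg, hS] at h5
  have h6 : On F (kk S N.J) Jc (some c) := (on_J hy h).mono fun _ e => isCut_Jc.down e hy'
  by_cases t : ∃ q, TrigAt F (kk S N.J) (some c) q
  · obtain ⟨q, t⟩ := t
    exact exists_smv ((isCut_Jc.abs (inferInstance : USig fun N v =>
      TrigAt F (kk S N) (some c) (v 0)).out fun _ => q).1 t) (isCut_Jc.val_mem q)
  · exact (h5 (Or.inl ⟨⟨h6, fun ⟨_, h⟩ => t h.trigAt⟩, t⟩)).elim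

theorem box_InJ {M : Mdl b} (y : M) : Box1 Dv (InJ fun _ a => Jc a) y :=
  box_ind _ (hP := InJ.up inferInstance) (fun _ => ⟨isCut_Jc.zero, isCut_Jc.zero⟩)
    (fun _ _ h => ⟨isCut_Jc.of_half h.1, isCut_Jc.of_half h.2⟩) M y

theorem box_key (hS : ∀ z (N : Mdl b) (v : ℕ → N), (S z).ev N.toStr v ↔ Kl F (kk S N) z)
    (hr : REFL b) {M : Mdl b} (y : M) : Box1 Dv (fun N y => ∀ c, On F (kk S N) (· ≤ y) (some c) →
      ∃ d, Stp F (kk S N) Jc (some c) d) y :=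
  BoxD.fin thDv fun c => (box_InJ y).ent2 thDv (hr (S c).neg M y) fun _ _ h1 h2 => key_sem hS h1 h2

theorem box_on0 (hs : SMALL b) {M : Mdl b} {y : M} (hy : Jc y) {c : Option F.W}
    (h : On F (kk S M) (· ≤ y) c) : Box1 Dv (fun N y => On F (kk S N) (· ≤ y) c) y := by
  induction h with
  | refl => exact box_nec thDv fun _ _ => .refl
  | @tail c d _ h ih =>
    exact ih.ent2 thDv (hs (fun N v => Stp F (kk S N) (· ≤ v 0) c d) inferInstance M _
      (fun _ => hy) h) fun _ _ => ReflTransGen.tail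

theorem box_on (h1 : SIG b) (hs : SMALL b) {M : Mdl b} {c : Option F.W}
    (h : On F (kk S M) Jc c) :
    ∃ y₀ : M, ∀ y, y₀ ≤ y → Box1 Dv (fun N y => On F (kk S N) (· ≤ y) c) y := by
  obtain ⟨y₀, h2, h3⟩ := h.bound
  refine ⟨y₀, fun y hy => ?_⟩
  refine Box1.of thDv (P := fun N y => On F (kk S N) (· ≤ y) c) (x := cons y fun _ => y₀) (i := 0) ?_
  exact (Box1.at thDv (box_on0 hs h2 h3) _ 1 rfl).ent2 thDv
    (h1 (fun _ v => v 1 ≤ v 0) inferInstance M _ hy) fun _ _ h e => h.mono fun _ e' => e'.trans e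

theorem box_not (hc : ∀ z x, ¬ (S z).free x) {M : Mdl b} (x : ℕ → M) (z : F.W) :
    BoxD Dv (fun N v => ¬ (S z).ev N.toStr v) x ↔ ∃ q, Trig F (kk S M) z q := by
  rw [trig_iff]
  exact HasBox.sent x (S z).neg thDv fun n h => h.elim (hc z n) id

theorem tot (hC : Closed F.R) (hc : ∀ z x, ¬ (S z).free x)
    (hS : ∀ z (N : Mdl b) (v : ℕ → N), (S z).ev N.toStr v ↔ Kl F (kk S N) z)
    (h1 : SIG b) (hs : SMALL b) (hr : REFL b) (M : Mdl b) (u x : F.W)
    (_ : On F (kk S M) Jc (some u)) (h3 : Stp F (kk S M) Jc (some u) (some x))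
    (h4 : End F (kk S M) x) (h5 : ∃ q, TrigAt F (kk S M) (some x) q) :
    ∃ d, Fit F (kk S M) u d := by
  obtain ⟨q, h5⟩ := h5
  obtain ⟨d, h6, h7⟩ := hC u x h3.lt {c | F.R x c ∧ ∀ w, F.R c w → NoT F (kk S M) w}
    (by
      obtain ⟨z, hz, _⟩ := h5
      obtain ⟨d, h6, h7⟩ := F.exists_max hz
      exact ⟨d, h6, fun w hw => (h7 w hw).elim⟩) fun c h => h.1
  refine ⟨d, h6, fun z => (h7 z).trans ⟨fun ⟨c, h8, h9⟩ => h8.2 z h9, fun hz => ?_⟩⟩
  by_contra hn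
  obtain ⟨y₀, h8⟩ := box_on h1 hs h4.1
  have h9 : ∀ w, ∃ q, ¬ NoT F (kk S M) w → Trig F (kk S M) w q := fun w => by
    by_cases h : NoT F (kk S M) w
    · exact ⟨0, fun h' => (h' h).elim⟩
    · obtain ⟨q, h⟩ := not_not.1 h
      exact ⟨q, fun _ => h⟩
  choose f hf using h9
  obtain ⟨m, hm⟩ := Finite.exists_le f
  obtain ⟨y, y1, y2, y3⟩ : ∃ y, y₀ ≤ y ∧ q ≤ y ∧ m ≤ y :=
    ⟨y₀ + q + m, le_self_add.trans le_self_add, le_add_self.trans le_self_add, le_add_self⟩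
  refine hz ((box_not hc (fun _ => y) z).1 ?_)
  have : UP fun (N : Mdl b) v => ¬ (S z).ev N.toStr v := ⟨(S z).neg, fun _ _ => Iff.rfl⟩
  refine ((box_Jc y).and thDv (h8 y y1)).ent4 thDv
    (h1 (fun N v => TrigAt F (kk S N) (some x) (v 0)) inferInstance M _ (h5.mono y2))
    (BoxD.fin' thDv (p := fun w => ¬ NoT F (kk S M) w) fun w hw =>
      h1 (fun N v => Trig F (kk S N) w (v 0)) inferInstance M _ ((hf w hw).mono ((hm w).trans y3)))
    (box_key hS hr y) fun N v a1 a2 a3 a4 a5 => hn ?_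
  obtain ⟨c, b1, b2, b3⟩ := tot_sem _ a1.1 a1.2 a2 a3 a4 ((hS _ _ _).1 a5)
  exact ⟨c, ⟨b1, b2⟩, b3⟩

theorem box_cls (hC : Closed F.R) (hc : ∀ z x, ¬ (S z).free x)
    (hS : ∀ z (N : Mdl b) (v : ℕ → N), (S z).ev N.toStr v ↔ Kl F (kk S N) z)
    (h1 : SIG b) (hs : SMALL b) (hr : REFL b) (M : Mdl b) (v : ℕ → M) (z : F.W)
    (h : Kl F (kk S M) z) : BoxD Dv (fun N v => ∃ z', F.R z z' ∧ (S z').ev N.toStr v) v := by
  have e : ∀ (N : Mdl b) (v : ℕ → N), (∃ z', F.R z z' ∧ Kl F (kk S N) z') ↔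
      ∃ z', F.R z z' ∧ (S z').ev N.toStr v := fun N v => by simp only [hS]
  refine BoxD.congr ?_ e
  rcases h with ⟨h, _⟩ | ⟨u, x, _, _, h, ⟨q, t⟩, h4, _⟩
  · obtain ⟨y, h2⟩ := box_on h1 hs h.1
    refine Box0.at thDv (x' := fun _ => y) ?_ v
    refine (box_Jc y).ent3 thDv (h2 y le_rfl) (box_key hS hr y) fun N v a1 a2 a3 => ?_
    obtain ⟨d, a4⟩ := a3 z a2
    exact cls_exists (tot hC hc hS h1 hs hr N) (a2.mono fun _ e => isCut_Jc.down e a1) a4
  · obtain ⟨y, h2⟩ := box_on h1 hs h.1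
    refine Box0.at thDv (x' := fun _ => y + q) ?_ v
    refine (box_Jc (y + q)).ent4 thDv (h2 _ le_self_add)
      (h1 (fun N v => TrigAt F (kk S N) (some x) (v 0)) inferInstance M _ (t.mono le_add_self))
      (BoxD.fin' thDv (p := fun w => ¬ NoT F (kk S M) w) fun w hw =>
        (box_not hc _ w).2 (not_not.1 hw)) fun N v a1 a2 a3 a4 => ?_
    obtain ⟨d, a5⟩ := exists_smv a3 a1
    obtain ⟨z', _, a6⟩ :=
      cls_exists (tot hC hc hS h1 hs hr N) (a2.mono fun _ e => isCut_Jc.down e a1) a5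
    exact ⟨z', (h4.2 z').2 (by_contra fun hn => a4 z' hn ((hS _ _ _).2 a6)), a6⟩

theorem consistent (hc : ∀ z x, ¬ (S z).free x)
    (hS : ∀ z (N : Mdl b) (v : ℕ → N), (S z).ev N.toStr v ↔ Kl F (kk S N) z)
    (h1 : STD b) (h2 : ADEQ b) : ∃ (N : Mdl b) (v : ℕ → N), (S F.w).ev N.toStr v := by
  by_contra hn
  obtain ⟨M, hM, -⟩ := h1
  have hJ : ∀ q : M, Jc q := fun q => by
    obtain ⟨n, rfl⟩ := hM q
    exact isCut_Jc.nat n
  have : UP fun (N : Mdl b) v => ¬ (S F.w).ev N.toStr v := ⟨(S F.w).neg, fun _ _ => Iff.rfl⟩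
  obtain ⟨q, h3⟩ := (box_not hc (M := M) (fun _ => 0) F.w).1
    (box_nec thDv fun N v h => hn ⟨N, v, h⟩)
  obtain ⟨d, h4⟩ := exists_smv (c := none) ⟨_, rfl, h3⟩ (hJ q)
  obtain ⟨f, h5, h6⟩ := exists_end (k := kk S M) Jc d
  obtain ⟨z, rfl, -⟩ := id h4
  obtain ⟨x, rfl, -⟩ := rtg_some h5
  have h7 : On F (kk S M) Jc (some x) := h5.head h4
  obtain ⟨q', -, h8⟩ := h7.trig
  exact (h2 M hM _ (trig_iff.1 ⟨q', h8⟩)).sound M (fun _ => 0)
    ((hS _ _ _).2 (Or.inl ⟨⟨h7, h6⟩, fun ⟨q, t⟩ => h6 (exists_smv t (hJ q))⟩))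

end Sol

theorem row_SOL : R_SOL := by
  intro b hb h1 hs hr hf hst had W hW R tr ir hC w
  obtain ⟨e, he⟩ := Countable.exists_injective_nat W
  let F : Sol.Fr := ⟨W, hW, R, fun h h' => tr _ _ _ h h', ir, w, e, he⟩
  obtain ⟨S, hc, hS⟩ := hf F.W e he (fun z _ k => Sol.Kl F k z) fun z => inferInstance
  refine ⟨S, hc, fun N v z z' h h' => ((hS _ _ _).1 h).unique ((hS _ _ _).1 h'),
    fun N v z z' hz h hd => ((hS _ _ _).1 h).noT hz ((Sol.trig_iff (F := F)).2 hd),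
    fun N v z h => Sol.box_cls (F := F) hC hc hS h1 hs hr N v z ((hS _ _ _).1 h),
    Sol.consistent (F := F) hc hS hst had⟩

end Pool.Agent.MP_f18a41_lc

end MrgPart9

-- marker of a merged file
example : 731051 + 559784 = 731051 + 559784 := rfl
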