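import Pool.Agent.MP_f18a41_lc.BOX

-- ======== part 0: formerly Pool.Agent.MP_f18a41_lc.POSTB
section MrgPart0

/-! Merging of coded derivations. -/

namespace Pool.Agent.MP_f18a41_lc

namespace postb

variable {b : Bool} {M : Mdl b}

/-- a rule has at most three premises -/
theorem three {Pm : M → Prop} (z : Pm 0) {y : M} (hy : Rl Pm y) :
    ∃ j1 j2 j3, Pm j1 ∧ Pm j2 ∧ Pm j3 ∧ Rl (fun j => j = j1 ∨ j = j2 ∨ j = j3) y := by
  cases hy with
  | tVar a => exact ⟨_, _, _, z, z, z, .tVar a⟩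
  | tZero  => exact ⟨_, _, _, z, z, z, .tZero⟩
  | t1 k hk h0 => exact ⟨_, _, _, h0, z, z, .t1 k hk (.inl rfl)⟩
  | t2 k hk h0 h1 => exact ⟨_, _, _, h0, h1, z, .t2 k hk (.inl rfl) (.inr (.inl rfl))⟩
  | fBot  => exact ⟨_, _, _, z, z, z, .fBot⟩
  | fImp h0 h1 => exact ⟨_, _, _, h0, h1, z, .fImp (.inl rfl) (.inr (.inl rfl))⟩
  | fAll a h0 => exact ⟨_, _, _, h0, z, z, .fAll a (.inl rfl)⟩
  | f2 k hk h0 h1 => exact ⟨_, _, _, h0, h1, z, .f2 k hk (.inl rfl) (.inr (.inl rfl))⟩
  | nVar h0 => exact ⟨_, _, _, z, z, z, .nVar h0⟩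
  | nZero a => exact ⟨_, _, _, z, z, z, .nZero a⟩
  | nBot a => exact ⟨_, _, _, z, z, z, .nBot a⟩
  | nSelf a c => exact ⟨_, _, _, z, z, z, .nSelf a c⟩
  | nAll c h0 => exact ⟨_, _, _, h0, z, z, .nAll c (.inl rfl)⟩
  | n1 k hk h0 => exact ⟨_, _, _, h0, z, z, .n1 k hk (.inl rfl)⟩
  | n2 k hk h0 h1 => exact ⟨_, _, _, h0, h1, z, .n2 k hk (.inl rfl) (.inr (.inl rfl))⟩
  | sVar a u => exact ⟨_, _, _, z, z, z, .sVar a u⟩
  | sN u h0 => exact ⟨_, _, _, h0, z, z, .sN u (.inl rfl)⟩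
  | sAll h0 h1 h2 =>
    exact ⟨_, _, _, h0, h1, h2, .sAll (.inl rfl) (.inr (.inl rfl)) (.inr (.inr rfl))⟩
  | s1 k hk h0 => exact ⟨_, _, _, h0, z, z, .s1 k hk (.inl rfl)⟩
  | s2 k hk h0 h1 => exact ⟨_, _, _, h0, h1, z, .s2 k hk (.inl rfl) (.inr (.inl rfl))⟩
  | kBot σ => exact ⟨_, _, _, z, z, z, .kBot σ⟩
  | kEq σ h0 h1 => exact ⟨_, _, _, h0, h1, z, .kEq σ (.inl rfl) (.inr (.inl rfl))⟩
  | kLe σ h0 h1 => exact ⟨_, _, _, h0, h1, z, .kLe σ (.inl rfl) (.inr (.inl rfl))⟩
  | kImp σ h0 h1 => exact ⟨_, _, _, h0, h1, z, .kImp σ (.inl rfl) (.inr (.inl rfl))⟩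
  | kBall h0 h1 h2 =>
    exact ⟨_, _, _, h0, h1, h2, .kBall (.inl rfl) (.inr (.inl rfl)) (.inr (.inr rfl))⟩
  | kSharp h0 h1 h2 =>
    exact ⟨_, _, _, h0, h1, h2, .kSharp (.inl rfl) (.inr (.inl rfl)) (.inr (.inr rfl))⟩
  | kWide h0 h1 h2 h3 =>
    exact ⟨_, _, _, h1, h2, h3, .kWide h0 (.inl rfl) (.inr (.inl rfl)) (.inr (.inr rfl))⟩
  | pK h0 h1 => exact ⟨_, _, _, h0, h1, z, .pK (.inl rfl) (.inr (.inl rfl))⟩
  | pS h0 h1 h2 => exact ⟨_, _, _, h0, h1, h2, .pS (.inl rfl) (.inr (.inl rfl)) (.inr (.inr rfl))⟩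
  | pDn h0 => exact ⟨_, _, _, h0, z, z, .pDn (.inl rfl)⟩
  | pInst h0 h1 h2 =>
    exact ⟨_, _, _, h0, h1, h2, .pInst (.inl rfl) (.inr (.inl rfl)) (.inr (.inr rfl))⟩
  | pDist a h0 h1 => exact ⟨_, _, _, h0, h1, z, .pDist a (.inl rfl) (.inr (.inl rfl))⟩
  | pVac h0 h1 => exact ⟨_, _, _, h0, h1, z, .pVac (.inl rfl) (.inr (.inl rfl))⟩
  | pMp h0 h1 => exact ⟨_, _, _, h0, h1, z, .pMp (.inl rfl) (.inr (.inl rfl))⟩
  | pGen a h0 => exact ⟨_, _, _, h0, z, z, .pGen a (.inl rfl)⟩
  | pInd h0 h1 h2 =>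
    exact ⟨_, _, _, h0, h1, h2, .pInd (.inl rfl) (.inr (.inl rfl)) (.inr (.inr rfl))⟩
  | pAx h0 => exact ⟨_, _, _, z, z, z, .pAx h0⟩

/-- every array has a blank row -/
theorem mem_zero (s a : M) : Mem 0 s a := by
  refine ⟨len s, le_rfl, ?_⟩
  by_cases ha : a = 0
  · have h := row_lt s a (len s)
    rw [ha, pw_zero] at h
    by_contra h0
    exact absurd (one_le_iff.2 (ha ▸ h0)) (not_le.2 h)
  · refine row_zero_of_lt (c := s) (lt_smash_iff.2 ?_) le_rfl
    exact le_mul_of_one_le_left (zero_le' _) (one_le_iff.2 (by rwa [Ne, len_eq_zero]))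

theorem mem_row (s a i : M) : Mem (row s a i) s a := by
  rcases le_or_gt i (len s) with h | h
  · exact ⟨i, h, rfl⟩
  · rw [row_big a h]; exact mem_zero s a

theorem der_all {H : M → Prop} {s a : M} (h : HDer H s a) (i : M) :
    row s a i = 0 ∨ H (row s a i) ∨ Step s a i (row s a i) := by
  rcases le_or_gt i (len s) with h1 | h1
  · exact h i h1
  · exact .inl (row_big a h1)

theorem der_zero (H : M → Prop) (a : M) : HDer H 0 a := fun i _ => .inl (row_zero a i)

theorem app {H H' : M → Prop} {W c s s' a' : M} (hd : HDer H s W) (hs : s < smash W c)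
    (hd' : HDer H' s' a') (hs' : s' < pw W) (hH : ∀ j, H' j → H j ∨ Mem j s W) :
    ∃ s'' < smash W (pw c * pw s'), HDer H s'' W ∧ (∀ j, Mem j s W → Mem j s'' W) ∧
      ∀ j, Mem j s' a' → Mem j s'' W := by
  obtain ⟨t, ht, h⟩ := arr_comp (fun _ i y v => (i < len (v 0) ∧ y = row (v 1) (v 2) i) ∨
      ∃ k ≤ len (v 3), i = len (v 0) + k ∧ y = row (v 3) (v 4) k)
    (vec [c, s, W, s', a']) W (pw c * pw s') (fun i hi => by
      rw [len_pw_mul_pw, lt_succ_iff] at hi
      show ∃ y < pw W, (i < len c ∧ y = row s W i) ∨ ∃ k ≤ len s', i = len c + k ∧ y = row s' a' k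
      rcases lt_or_ge i (len c) with h1 | h1
      · exact ⟨_, row_lt s W i, .inl ⟨h1, rfl⟩⟩
      · obtain ⟨k, rfl⟩ := exists_add_of_le h1
        exact ⟨_, (row_le s' a' k).trans_lt hs', .inr ⟨k, le_of_add_le_add_left hi, rfl, rfl⟩⟩)
  change ∀ i < len (pw c * pw s'), (i < len c ∧ row t W i = row s W i) ∨
    ∃ k ≤ len s', i = len c + k ∧ row t W i = row s' a' k at h
  rw [len_pw_mul_pw] at h
  have hA : ∀ i < len c, row t W i = row s W i := by
    intro i hi
    rcases h i (lt_succ_iff.2 (hi.le.trans le_self_add)) with h1 | ⟨k, -, h1, -⟩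
    · exact h1.2
    · exact absurd hi (not_lt.2 (h1 ▸ le_self_add))
  have hB : ∀ k ≤ len s', row t W (len c + k) = row s' a' k := by
    intro k hk
    rcases h (len c + k) (lt_succ_iff.2 (add_le_add_right hk _)) with h1 | ⟨k', -, h1, h2⟩
    · exact absurd h1.1 (not_lt.2 le_self_add)
    · rw [h2, add_left_cancel h1]
  have hS : ∀ i0 i, i0 ≤ i ∨ len c ≤ i →
      row s W i0 = 0 ∨ H (row s W i0) ∨ Step t W i (row s W i0) := by
    intro i0 i hi
    rcases lt_or_ge i0 (len c) with h1 | h1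
    · refine (der_all hd i0).imp_right (Or.imp_right fun h2 => Rl.mono ?_ h2)
      rintro j ⟨k, hk, rfl⟩
      exact ⟨k, hi.elim hk.trans_le (hk.trans h1).trans_le, hA k (hk.trans h1)⟩
    · exact .inl (row_zero_of_lt hs h1)
  refine ⟨t, ht, fun i _ => ?_, ?_, ?_⟩
  · rcases lt_or_ge i (len c) with h1 | h1
    · rw [hA i h1]
      exact hS i i (.inl le_rfl)
    obtain ⟨k, rfl⟩ := exists_add_of_le h1
    rcases le_or_gt k (len s') with h2 | h2
    · rw [hB k h2]
      rcases hd' k h2 with h3 | h3 | h3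
      · exact .inl h3
      · rcases hH _ h3 with h4 | ⟨i0, -, h4⟩
        · exact .inr (.inl h4)
        · rw [← h4]
          exact hS i0 _ (.inr h1)
      · refine .inr (.inr (Rl.mono ?_ h3))
        rintro j ⟨k', hk, rfl⟩
        exact ⟨len c + k', add_lt_add_right hk _, hB k' (hk.le.trans h2)⟩
    · refine .inl (row_zero_of_lt ht ?_)
      rw [len_pw_mul_pw, add_assoc]
      exact add_le_add_right (succ_le_iff.2 h2) _
  · rintro j ⟨i, -, rfl⟩
    rcases lt_or_ge i (len c) with h1 | h1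
    · rw [← hA i h1]; exact mem_row _ _ _
    · rw [row_zero_of_lt hs h1]; exact mem_zero _ _
  · rintro j ⟨k, hk, rfl⟩
    rw [← hB k hk]; exact mem_row _ _ _

/-- one more row -/
theorem push {H : M → Prop} {W c s y : M} (hd : HDer H s W) (hs : s < smash W c) (hy : y < pw W)
    (h : H y ∨ Rl (fun j => Mem j s W) y) : HD H y := by
  have e1 : len (2 * c + 1) = len c + 1 := len_two_mul_add_one c
  have hs1 : s < smash W (2 * c + 1) :=
    hs.trans_le (smash_mono_len le_rfl (by rw [e1]; exact le_self_add))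
  generalize 2 * c + 1 = d at e1 hs1
  obtain ⟨p1, p2⟩ := row_push hs1 hy
  have ht : y * smash W d + s < smash W (2 * d + 1) := by
    rw [smash_half (c := 2 * d + 1) (one_le_iff.1 le_add_self), half_two_mul_add_one]
    have h3 : (y + 1) * smash W d ≤ pw W * smash W d := by
      gcongr; exact succ_le_iff.2 hy
    zify at hs1 h3 ⊢
    linarith
  generalize y * smash W d + s = t at p1 p2 ht
  refine ⟨t, W, fun i _ => ?_, p1 ▸ mem_row _ _ _⟩
  rcases lt_trichotomy i (len d) with h1 | rfl | h1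
  · rw [p2 i h1]
    refine (der_all hd i).imp_right (Or.imp_right fun h2 => Rl.mono ?_ h2)
    rintro j ⟨k, hk, rfl⟩
    exact ⟨k, hk, p2 k (hk.trans h1)⟩
  · rw [p1]
    refine .inr (h.imp_right fun h2 => Rl.mono ?_ h2)
    rintro j ⟨k, -, rfl⟩
    rcases lt_or_ge k (len c) with h3 | h3
    · have h4 : k < len d := by rw [e1]; exact lt_succ_iff.2 h3.le
      exact ⟨k, h4, p2 k h4⟩
    · have h4 : len c < len d := by rw [e1]; exact lt_succ_iff.2 le_rfl
      exact ⟨len c, h4, by rw [p2 _ h4, row_zero_of_lt hs le_rfl, row_zero_of_lt hs h3]⟩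
  · exact .inl (row_zero_of_lt ht (by rw [len_two_mul_add_one]; exact succ_le_iff.2 h1))

/-- two derivations in one array that has room for `y` -/
theorem merge {H : M → Prop} {s a s' a' : M} (hd : HDer H s a) (hd' : HDer H s' a') (y : M) :
    ∃ t W c, HDer H t W ∧ t < smash W c ∧ y < pw W ∧ (∀ j, Mem j s a → Mem j t W) ∧
      ∀ j, Mem j s' a' → Mem j t W := by
  obtain ⟨t1, h1, h2, -, h3⟩ := app (W := s + s' + y) (c := 0) (der_zero H _) (smash_pos _ _) hd
    ((lt_pw s).trans_le (pw_mono (le_self_add.trans le_self_add))) fun _ => .inl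
  obtain ⟨t2, h4, h5, h6, h7⟩ := app h2 h1 hd'
    ((lt_pw s').trans_le (pw_mono (le_add_self.trans le_self_add))) fun _ => .inl
  exact ⟨t2, _, _, h5, h4, (lt_pw y).trans_le (pw_mono le_add_self), fun j hj => h6 j (h3 j hj), h7⟩

theorem hyp {H : M → Prop} {y : M} (h : H y) : HD H y :=
  push (W := y) (c := 0) (der_zero H y) (smash_pos _ _) (lt_pw y) (.inl h)

theorem clo (H : M → Prop) : Clo (HD H) := by
  intro y hy
  obtain ⟨j1, j2, j3, ⟨s1, a1, d1, m1⟩, ⟨s2, a2, d2, m2⟩, ⟨s3, a3, d3, m3⟩, h⟩ :=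
    three (Pm := HD H) ⟨0, 0, der_zero H 0, mem_zero 0 0⟩ hy
  obtain ⟨t, W, -, h1, -, -, h2, h3⟩ := merge d1 d2 y
  obtain ⟨t', W', c, h4, h5, h6, h7, h8⟩ := merge h1 d3 y
  refine push h4 h5 h6 (.inr (h.mono ?_))
  rintro j (rfl | rfl | rfl)
  exacts [h7 _ (h2 _ m1), h7 _ (h3 _ m2), h8 _ m3]

end postb

theorem row_POSTB : R_POSTB := fun _ => ⟨postb.hyp, postb.clo, postb.app⟩

end Pool.Agent.MP_f18a41_lc

end MrgPart0

-- ======== part 1: formerly Pool.Agent.MP_f18a41_lc.SIA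
section MrgPart1

/-! Row SIA: judgements for the codes of extended expressions. -/

namespace Pool.Agent.MP_f18a41_lc

namespace SIAp

variable {b : Bool} {M : Mdl b} {D : M → Prop}

theorem tm (ι : ℕ → ℕ) {c : ℕ → M} (hD : Clo D) (hc : ∀ k, D (jT (c k))) (t : ETm) :
    D (jT (t.cd ι c)) := by
  induction t with
  | var x => exact hD _ (.tVar _)
  | cst k => exact hc k
  | zero => exact hD _ .tZero
  | succ t ih => exact hD _ (.t1 2 (by simp) ih)
  | len t ih => exact hD _ (.t1 3 (by simp) ih)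
  | half t ih => exact hD _ (.t1 4 (by simp) ih)
  | add s t i1 i2 => exact hD _ (.t2 5 (by simp) i1 i2)
  | mul s t i1 i2 => exact hD _ (.t2 6 (by simp) i1 i2)
  | smash s t i1 i2 => exact hD _ (.t2 7 (by simp) i1 i2)

theorem fm (ι : ℕ → ℕ) (p : ℕ) {c ψ : ℕ → M} (hD : Clo D) (hc : ∀ k, D (jT (c k)))
    (hψ : ∀ k, D (jF (ψ k))) (φ : EFm) : D (jF (φ.cd ι p c ψ)) := by
  induction φ with
  | bot => exact hD _ .fBot
  | eq s t => exact hD _ (.f2 9 (by simp) (tm ι hD hc s) (tm ι hD hc t))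
  | le s t => exact hD _ (.f2 10 (by simp) (tm ι hD hc s) (tm ι hD hc t))
  | imp φ χ i1 i2 => exact hD _ (.fImp i1 i2)
  | all x φ ih => exact hD _ (.fAll _ ih)
  | prd k t =>
    exact hD _ (.fAll _ (hD _ (.fImp
      (hD _ (.f2 9 (by simp) (hD _ (.tVar _)) (tm ι hD hc t))) (hψ k))))

theorem nvar (hD : Clo D) {x y : ℕ} (h : x ≠ y) : D (jN (x : M) (cVar (y : M))) :=
  hD _ (.nVar fun e => h (Nat.cast_injective e))

theorem ntm (ι : ℕ → ℕ) {c : ℕ → M} (x : ℕ) (hD : Clo D) (hc : ∀ k, D (jN (x : M) (c k)))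
    (t : ETm) (h : ∀ n, t.occ n → ι n ≠ x) : D (jN (x : M) (t.cd ι c)) := by
  induction t with
  | var y => exact nvar hD (h y rfl).symm
  | cst k => exact hc k
  | zero => exact hD _ (.nZero _)
  | succ t ih => exact hD _ (.n1 2 (by simp) (ih h))
  | len t ih => exact hD _ (.n1 3 (by simp) (ih h))
  | half t ih => exact hD _ (.n1 4 (by simp) (ih h))
  | add s t i1 i2 =>
    exact hD _ (.n2 5 (by simp) (i1 fun n hn => h n (.inl hn)) (i2 fun n hn => h n (.inr hn)))
  | mul s t i1 i2 =>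
    exact hD _ (.n2 6 (by simp) (i1 fun n hn => h n (.inl hn)) (i2 fun n hn => h n (.inr hn)))
  | smash s t i1 i2 =>
    exact hD _ (.n2 7 (by simp) (i1 fun n hn => h n (.inl hn)) (i2 fun n hn => h n (.inr hn)))

theorem nfm (ι : ℕ → ℕ) (p : ℕ) {c ψ : ℕ → M} (x : ℕ) (hD : Clo D)
    (hc : ∀ k, D (jN (x : M) (c k))) (hψ : x = p ∨ ∀ k, D (jN (x : M) (ψ k))) (φ : EFm)
    (h : ∀ n, φ.free n → ι n ≠ x) : D (jN (x : M) (φ.cd ι p c ψ)) := by
  induction φ with
  | bot => exact hD _ (.nBot _)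
  | eq s t =>
    exact hD _ (.n2 9 (by simp) (ntm ι x hD hc s fun n hn => h n (.inl hn))
      (ntm ι x hD hc t fun n hn => h n (.inr hn)))
  | le s t =>
    exact hD _ (.n2 10 (by simp) (ntm ι x hD hc s fun n hn => h n (.inl hn))
      (ntm ι x hD hc t fun n hn => h n (.inr hn)))
  | imp φ χ i1 i2 =>
    exact hD _ (.n2 11 (by simp) (i1 fun n hn => h n (.inl hn)) (i2 fun n hn => h n (.inr hn)))
  | all y φ ih =>
    by_cases e : ι y = x
    · subst e
      exact hD _ (.nSelf _ _)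
    · refine hD _ (.nAll _ (ih fun n hn => ?_))
      by_cases e' : n = y
      · rwa [e']
      · exact h n ⟨e', hn⟩
  | prd k t =>
    by_cases e : x = p
    · subst e
      exact hD _ (.nSelf _ _)
    · exact hD _ (.nAll _ (hD _ (.n2 11 (by simp)
        (hD _ (.n2 9 (by simp) (nvar hD e) (ntm ι x hD hc t h))) (hψ.resolve_left e k))))

theorem stm {ι : ℕ → ℕ} {p : ℕ} {c ψ : ℕ → M} (hD : Clo D) (hg : Good D ι p c ψ) (x : ℕ)
    (u t : ETm) : D (jS (ι x : M) (u.cd ι c) (t.cd ι c) ((t.subst x u).cd ι c)) := by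
  induction t with
  | var y =>
    by_cases e : x = y
    · subst e
      rw [ETm.subst, if_pos rfl]
      exact hD _ (.sVar _ _)
    · rw [ETm.subst, if_neg e]
      exact hD _ (.sN _ (nvar hD fun h => e (hg.inj h)))
  | cst k => exact hD _ (.sN _ (hg.nc k _))
  | zero => exact hD _ (.sN _ (hD _ (.nZero _)))
  | succ t ih => exact hD _ (.s1 2 (by simp) ih)
  | len t ih => exact hD _ (.s1 3 (by simp) ih)
  | half t ih => exact hD _ (.s1 4 (by simp) ih)
  | add s t i1 i2 => exact hD _ (.s2 5 (by simp) i1 i2)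
  | mul s t i1 i2 => exact hD _ (.s2 6 (by simp) i1 i2)
  | smash s t i1 i2 => exact hD _ (.s2 7 (by simp) i1 i2)

theorem sb {ι : ℕ → ℕ} {p : ℕ} {c ψ : ℕ → M} (hD : Clo D) (hg : Good D ι p c ψ) (x : ℕ)
    (u : ETm) (φ : EFm) (h : φ.freeFor x u) :
    D (jS (ι x : M) (u.cd ι c) (φ.cd ι p c ψ) ((φ.subst x u).cd ι p c ψ)) := by
  induction φ with
  | bot => exact hD _ (.sN _ (hD _ (.nBot _)))
  | eq s t => exact hD _ (.s2 9 (by simp) (stm hD hg x u s) (stm hD hg x u t))
  | le s t => exact hD _ (.s2 10 (by simp) (stm hD hg x u s) (stm hD hg x u t))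
  | imp φ χ i1 i2 => exact hD _ (.s2 11 (by simp) (i1 h.1) (i2 h.2))
  | all y φ ih =>
    by_cases hf : (EFm.all y φ).free x
    · obtain ⟨h1, h2⟩ := h.resolve_left (not_not.2 hf)
      rw [EFm.subst, if_neg hf.1]
      exact hD _ (.sAll (nvar hD fun e => hf.1 (hg.inj e))
        (ntm ι (ι y) hD (fun k => hg.nc k _) u fun n hn e => h1 (hg.inj e ▸ hn)) (ih h2))
    · rw [EFm.subst_of_not_free u hf]
      exact hD _ (.sN _ (nfm ι p (ι x) hD (fun k => hg.nc k _) (.inr fun k => hg.nf k _ (hg.ne x))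
        _ fun n hn e => hf (hg.inj e ▸ hn)))
  | prd k t =>
    exact hD _ (.sAll (nvar hD (hg.ne x)) (ntm ι p hD (fun k => hg.nc k _) u fun n _ => hg.ne n)
      (hD _ (.s2 11 (by simp)
        (hD _ (.s2 9 (by simp) (hD _ (.sN _ (nvar hD (hg.ne x)))) (stm hD hg x u t)))
        (hD _ (.sN _ (hg.nf k _ (hg.ne x)))))))

theorem code_tm (t : Tm) : ((t.code : ℕ) : M) = t.e.cd id fun _ => cZero := by
  induction t with
  | var x => simp [Tm.e, ETm.cd, Tm.code, cast_npr]
  | zero => simp [Tm.e, ETm.cd, Tm.code, cast_npr]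
  | succ t ih | len t ih | half t ih => simp [Tm.e, ETm.cd, Tm.code, cast_npr, ih]
  | add s t i1 i2 | mul s t i1 i2 | smash s t i1 i2 =>
    simp [Tm.e, ETm.cd, Tm.code, cast_npr, i1, i2]

theorem jt (hD : Clo D) (t : Tm) : D (jT ((t.code : ℕ) : M)) := by
  rw [code_tm]
  exact tm id hD (fun _ => hD _ .tZero) _

theorem jn (hD : Clo D) {x : ℕ} {t : Tm} (h : ¬ t.occ x) : D (jN (x : M) ((t.code : ℕ) : M)) := by
  rw [code_tm]
  exact ntm id x hD (fun _ => hD _ (.nZero _)) _ fun n hn e =>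
    h ((Tm.occ_e _ _).1 ((show n = x from e) ▸ hn))

theorem code_ball (x : ℕ) (t : Tm) (φ : Fm) : (((Fm.ball x t φ).code : ℕ) : M) =
    cBall (x : M) ((t.code : ℕ) : M) ((φ.code : ℕ) : M) := by
  simp [Fm.ball, Fm.code, Tm.code, cast_npr]

theorem cls (hD : Clo D) {σ : Bool} {φ : Fm} (h : Cls b σ φ) : D (jC σ ((φ.code : ℕ) : M)) := by
  induction h with
  | bot σ =>
    have : ((Fm.bot.code : ℕ) : M) = cBot := by simp [Fm.code, cast_npr]
    rw [this]
    exact hD _ (.kBot σ)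
  | eq σ s t =>
    have : (((Fm.eq s t).code : ℕ) : M) = cEq ((s.code : ℕ) : M) ((t.code : ℕ) : M) := by
      simp [Fm.code, cast_npr]
    rw [this]
    exact hD _ (.kEq σ (jt hD s) (jt hD t))
  | le σ s t =>
    have : (((Fm.le s t).code : ℕ) : M) = cLe ((s.code : ℕ) : M) ((t.code : ℕ) : M) := by
      simp [Fm.code, cast_npr]
    rw [this]
    exact hD _ (.kLe σ (jt hD s) (jt hD t))
  | @imp σ φ ψ _ _ i1 i2 =>
    have : (((Fm.imp φ ψ).code : ℕ) : M) = cImp ((φ.code : ℕ) : M) ((ψ.code : ℕ) : M) := by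
      simp [Fm.code, cast_npr]
    rw [this]
    exact hD _ (.kImp σ i1 i2)
  | ball h _ ih =>
    rw [code_ball]
    exact hD _ (.kBall (jt hD _) (jn hD h) ih)
  | @sharp x t φ h _ ih =>
    have : (((Tm.len t).code : ℕ) : M) = pr 3 ((t.code : ℕ) : M) := by simp [Tm.code, cast_npr]
    rw [code_ball, this]
    exact hD _ (.kSharp (jt hD _) (jn hD h) ih)
  | wide h0 h _ ih =>
    rw [code_ball]
    exact hD _ (.kWide h0 (jt hD _) (jn hD h) ih)

end SIAp

theorem row_SIA : R_SIA := fun _ =>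
  ⟨SIAp.tm, SIAp.fm, SIAp.ntm, SIAp.nfm, SIAp.sb, fun hD _ _ h => SIAp.cls hD h⟩

end Pool.Agent.MP_f18a41_lc

end MrgPart1

-- ======== part 2: formerly Pool.Agent.MP_f18a41_lc.SIB
section MrgPart2

/-! Instantiation of derivations inside a model. -/

namespace Pool.Agent.MP_f18a41_lc

open Function

namespace sib

theorem tm_ren {ι : ℕ → ℕ} (t : Tm) (h : ∀ n < t.e.mx, ι n = n) : t.ren ι = t := by
  induction t with
  | var x => simp only [Tm.ren, h x (Nat.lt_succ_self x)]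
  | zero => rfl
  | succ t ih | len t ih | half t ih => simp only [Tm.ren, ih h]
  | add s t i1 i2 | mul s t i1 i2 | smash s t i1 i2 =>
    simp only [Tm.ren, i1 (fun n hn => h n (lt_max_of_lt_left hn)),
      i2 (fun n hn => h n (lt_max_of_lt_right hn))]

theorem fm_ren {ι : ℕ → ℕ} (φ : Fm) (h : ∀ n < φ.e.mx, ι n = n) : φ.ren ι = φ := by
  induction φ with
  | bot => rfl
  | eq s t | le s t =>
    simp only [Fm.ren, tm_ren s (fun n hn => h n (lt_max_of_lt_left hn)),
      tm_ren t (fun n hn => h n (lt_max_of_lt_right hn))]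
  | imp φ χ i1 i2 =>
    simp only [Fm.ren, i1 (fun n hn => h n (lt_max_of_lt_left hn)),
      i2 (fun n hn => h n (lt_max_of_lt_right hn))]
  | all x φ ih =>
    simp only [Fm.ren, h x (lt_max_of_lt_left (Nat.lt_succ_self x)),
      ih (fun n hn => h n (lt_max_of_lt_right hn))]

theorem freeFor_e {x : ℕ} {u : Tm} {φ : Fm} (h : φ.freeFor x u) : φ.e.freeFor x u.e := by
  induction φ with
  | bot | eq | le => trivial
  | imp φ χ i1 i2 => exact ⟨i1 h.1, i2 h.2⟩
  | all y φ ih =>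
    exact h.imp (mt (Fm.free_e x (.all y φ)).1) fun h => ⟨mt (Tm.occ_e y u).1 h.1, ih h.2⟩

theorem freeFor_self {x : ℕ} {u : ETm} (h : ∀ y, u.occ y → y = x) (φ : EFm) :
    φ.freeFor x u := by
  induction φ with
  | bot | eq | le | prd => trivial
  | imp φ χ i1 i2 => exact ⟨i1, i2⟩
  | all y φ ih =>
    by_cases e : x = y
    · exact Or.inl fun h' => h'.1 e
    · exact Or.inr ⟨fun h' => e (h y h').symm, ih⟩

theorem ax_mx : ∀ φ ∈ eqAx ++ basic, φ.e.mx ≤ 5 := by
  have h : (eqAx ++ basic).all (fun φ => decide (φ.e.mx ≤ 5)) = true := by decide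
  intro φ hφ
  simpa using List.all_eq_true.1 h φ hφ

variable {b : Bool} {M : Mdl b} {D : M → Prop} {ι : ℕ → ℕ} {p : ℕ} {c ψ : ℕ → M}

section Prp
variable (hD : Clo D) {x y z : M}
include hD

theorem fimp (hx : D (jF x)) (hy : D (jF y)) : D (jF (cImp x y)) := hD _ (.fImp hx hy)

theorem fall (a : M) (hx : D (jF x)) : D (jF (cAll a x)) := hD _ (.fAll a hx)

theorem trans (hx : D (jF x)) (hy : D (jF y)) (hz : D (jF z)) (h1 : D (jP (cImp x y)))
    (h2 : D (jP (cImp y z))) : D (jP (cImp x z)) :=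
  hD _ (.pMp (hD _ (.pMp (hD _ (.pS hx hy hz))
    (hD _ (.pMp (hD _ (.pK (fimp hD hy hz) hx)) h2)))) h1)

theorem swap (hx : D (jF x)) (hy : D (jF y)) (hz : D (jF z))
    (h : D (jP (cImp x (cImp y z)))) : D (jP (cImp y (cImp x z))) :=
  trans hD hy (fimp hD hx hy) (fimp hD hx hz) (hD _ (.pK hy hx))
    (hD _ (.pMp (hD _ (.pS hx hy hz)) h))

theorem syl (hx : D (jF x)) (hy : D (jF y)) (hz : D (jF z)) :
    D (jP (cImp (cImp x y) (cImp (cImp y z) (cImp x z)))) :=
  swap hD (fimp hD hy hz) (fimp hD hx hy) (fimp hD hx hz)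
    (trans hD (fimp hD hy hz) (fimp hD hx (fimp hD hy hz))
      (fimp hD (fimp hD hx hy) (fimp hD hx hz)) (hD _ (.pK (fimp hD hy hz) hx))
      (hD _ (.pS hx hy hz)))

end Prp

section Env
variable (S : SIA b) (hD : Clo D) (hG : Good D ι p c ψ)
include S hD hG

theorem fF (φ : EFm) : D (jF (φ.cd ι p c ψ)) := S.fm ι p hD hG.tm hG.fm φ

theorem aK (φ χ : EFm) : D (jP ((EFm.imp φ (.imp χ φ)).cd ι p c ψ)) :=
  hD _ (.pK (fF S hD hG φ) (fF S hD hG χ))

theorem aS (φ χ θ : EFm) :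
    D (jP ((EFm.imp (.imp φ (.imp χ θ)) (.imp (.imp φ χ) (.imp φ θ))).cd ι p c ψ)) :=
  hD _ (.pS (fF S hD hG φ) (fF S hD hG χ) (fF S hD hG θ))

theorem aDn (φ : EFm) : D (jP ((EFm.imp φ.neg.neg φ).cd ι p c ψ)) :=
  hD _ (.pDn (fF S hD hG φ))

theorem aInst (x : ℕ) (u : ETm) (φ : EFm) (h : φ.freeFor x u) :
    D (jP ((EFm.imp (.all x φ) (φ.subst x u)).cd ι p c ψ)) :=
  hD _ (.pInst (fF S hD hG φ) (S.tm ι hD hG.tm u) (S.sb hD hG x u φ h))

theorem aDist (x : ℕ) (φ χ : EFm) :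
    D (jP ((EFm.imp (.all x (.imp φ χ)) (.imp (.all x φ) (.all x χ))).cd ι p c ψ)) :=
  hD _ (.pDist _ (fF S hD hG φ) (fF S hD hG χ))

theorem aVac (x : ℕ) (φ : EFm) (h : ¬ φ.free x) :
    D (jP ((EFm.imp φ (.all x φ)).cd ι p c ψ)) :=
  hD _ (.pVac (fF S hD hG φ) (S.nfm ι p (ι x) hD (fun k => hG.nc k _)
    (Or.inr fun k => hG.nf k _ (hG.ne x)) φ fun _ hn e => h (hG.inj e ▸ hn)))

omit S in
theorem aAx {φ : Fm} (h : φ ∈ eqAx ++ basic) : D (jP (φ.e.cd ι p c ψ)) := by
  rw [Fm.cd_e, fm_ren φ fun n hn => hG.low n (hn.trans_le (ax_mx φ h))]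
  exact hD _ (.pAx h)

theorem aInd (x : ℕ) {φ : Fm} (h : Cls b true φ) : D (jP ((pind x φ).e.cd ι p c ψ)) := by
  have h0 : D (jC true (φ.e.cd ι p c ψ)) := by
    rw [Fm.cd_e]; exact S.cls hD (h.ren hG.inj)
  have h1 := S.sb hD hG x .zero φ.e (freeFor_self (u := .zero) (fun _ hy => False.elim hy) _)
  have h2 := S.sb hD hG x (.half (.var x)) φ.e
    (freeFor_self (u := .half (.var x)) (fun _ hy => hy) _)
  have h3 := hD _ (.pInd h0 h1 h2)
  simp only [pind, Fm.e, Fm.subst_e]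
  exact h3

theorem prv_env {φ : Fm} (h : Prv b φ) : D (jP (φ.e.cd ι p c ψ)) := by
  induction h with
  | k φ χ => exact aK S hD hG φ.e χ.e
  | s φ χ θ => exact aS S hD hG φ.e χ.e θ.e
  | dn φ => exact aDn S hD hG φ.e
  | inst x u φ h =>
    have := aInst S hD hG x u.e φ.e (freeFor_e h)
    rw [← Fm.subst_e] at this
    exact this
  | dist x φ χ => exact aDist S hD hG x φ.e χ.e
  | vac x φ h => exact aVac S hD hG x φ.e (mt (Fm.free_e x φ).1 h)
  | mp _ _ i1 i2 => exact hD _ (.pMp i1 i2)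
  | gen x _ ih => exact hD _ (.pGen _ ih)
  | ax h => exact aAx hD hG h
  | ind x h => exact aInd S hD hG x h

end Env

theorem prv (S : SIA b) (hD : Clo D) {φ : Fm} (h : Prv b φ) : D (jP ((φ.code : ℕ) : M)) := by
  have hG : Good D (skip (max 5 φ.e.mx)) (max 5 φ.e.mx) (fun _ => cZero) (fun _ => cBot) :=
    ⟨skip_inj _, fun _ hn => skip_lt (lt_max_of_lt_left hn), skip_ne _, fun _ => hD _ .tZero,
      fun _ _ => hD _ (.nZero _), fun _ => hD _ .fBot, fun _ _ _ => hD _ (.nBot _)⟩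
  have := prv_env S hD hG h
  rwa [Fm.cd_e, fm_ren φ fun n hn => skip_lt (lt_max_of_lt_right hn)] at this

theorem aCong (C : CPL b) (S : SIA b) (hD : Clo D) (hG : Good D ι p c ψ) (k : ℕ) :
    D (jP ((EFm.imp (.eq (.var 0) (.var 1))
      (.imp (.prd k (.var 0)) (.prd k (.var 1)))).cd ι p c ψ)) := by
  have hE : D (jF (cEq (cVar (ι 0 : M)) (cVar (ι 1 : M)))) := fF S hD hG (.eq (.var 0) (.var 1))
  have hA : D (jF (cEq (cVar (p : M)) (cVar (ι 0 : M)))) :=
    S.fm id p hD hG.tm hG.fm (.eq (.var p) (.var (ι 0)))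
  have hB : D (jF (cEq (cVar (p : M)) (cVar (ι 1 : M)))) :=
    S.fm id p hD hG.tm hG.fm (.eq (.var p) (.var (ι 1)))
  have hN : D (jN (p : M) (cEq (cVar (ι 0 : M)) (cVar (ι 1 : M)))) :=
    S.nfm ι p (ψ := ψ) p hD (fun k => hG.nc k p) (Or.inl rfl) (.eq (.var 0) (.var 1))
      fun n _ => hG.ne n
  have hΨ := hG.fm k
  have h1 : D (jP (cImp (cEq (cVar (ι 0 : M)) (cVar (ι 1 : M)))
      (cImp (cEq (cVar (p : M)) (cVar (ι 1 : M))) (cEq (cVar (p : M)) (cVar (ι 0 : M)))))) := by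
    have h := prv S hD (C (.imp (.eq (.var (ι 0)) (.var (ι 1)))
      (.imp (.eq (.var p) (.var (ι 1))) (.eq (.var p) (.var (ι 0)))))
      fun N v (e1 : v (ι 0) = v (ι 1)) (e2 : v p = v (ι 1)) => (e2.trans e1.symm : v p = v (ι 0)))
    have e := Fm.cd_e id p c ψ (.imp (.eq (.var (ι 0)) (.var (ι 1)))
      (.imp (.eq (.var p) (.var (ι 1))) (.eq (.var p) (.var (ι 0)))))
    rw [fm_ren (ι := id) _ fun _ _ => rfl] at e
    rw [← e] at h
    exact h
  have hAΨ := fimp hD hA hΨ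
  have hBΨ := fimp hD hB hΨ
  have hX := fimp hD hAΨ hBΨ
  have h2 := trans hD hE (fimp hD hB hA) hX h1 (syl hD hB hA hΨ)
  have h3 := hD _ (.pMp (hD _ (.pDist (p : M) hE hX)) (hD _ (.pGen (p : M) h2)))
  have h4 := trans hD hE (fall hD _ hE) (fall hD _ hX) (hD _ (.pVac hE hN)) h3
  exact trans hD hE (fall hD _ hX) (fimp hD (fall hD _ hAΨ) (fall hD _ hBΨ)) h4
    (hD _ (.pDist (p : M) hAΨ hBΨ))

theorem inst (C : CPL b) (S : SIA b) (hD : Clo D) (hG : Good D ι p c ψ) {Γ : Set EFm} {φ : EFm}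
    (h : EPrv b Γ φ) (hΓ : ∀ γ ∈ Γ, D (jP (γ.cd ι p c ψ))) : D (jP (φ.cd ι p c ψ)) := by
  induction h with
  | hyp h => exact hΓ _ h
  | k φ χ => exact aK S hD hG φ χ
  | s φ χ θ => exact aS S hD hG φ χ θ
  | dn φ => exact aDn S hD hG φ
  | inst x u φ h => exact aInst S hD hG x u φ h
  | dist x φ χ => exact aDist S hD hG x φ χ
  | vac x φ h => exact aVac S hD hG x φ h
  | mp _ _ i1 i2 => exact hD _ (.pMp i1 i2)
  | gen x _ ih => exact hD _ (.pGen _ ih)
  | ax h => exact aAx hD hG h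
  | ind x h => exact aInd S hD hG x h
  | cong k => exact aCong C S hD hG k

end sib

theorem row_SIB : R_SIB := fun _ C S =>
  ⟨fun hD _ h => sib.prv S hD h, fun hD hG _ _ h hΓ => sib.inst C S hD hG h hΓ⟩

end Pool.Agent.MP_f18a41_lc

end MrgPart2

-- ======== part 3: formerly Pool.Agent.MP_f18a41_lc.NUMA
section MrgPart3

/-! Successor, sum and order on numerals are in the box. -/

namespace Pool.Agent.MP_f18a41_lc

namespace numa

variable {b : Bool} {M : Mdl b}

theorem msp_zero (x : M) : msp x 0 = x := (msp_lsp_eq (r := 0) (by simp) (by simp)).1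

theorem msp_of_lt {x c : M} (h : x < pw c) : msp x c = 0 := (msp_lsp_eq (by simp) h).1

theorem half_msp (x : M) {e e' : M} (h : len e' = len e + 1) : half (msp x e) = msp x e' := by
  have h2 : pw e' = pw e * 2 := by rw [pw_add (u := e) (v := 1) (by rw [h, len_one]), pw_one]
  have h1 := msp_add_lsp x e
  have h3 := lsp_lt x e
  have h0 := pw_pos e
  symm
  rcases half_spec (msp x e) with q | q
  · refine (msp_lsp_eq (r := lsp x e) ?_ ?_).1
    · rw [h2]; conv_lhs => rw [← h1, q]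
      ring
    · rw [h2, mul_two]; exact h3.trans_le le_self_add
  · refine (msp_lsp_eq (r := pw e + lsp x e) ?_ ?_).1
    · rw [h2]; conv_lhs => rw [← h1, q]
      ring
    · rw [h2, mul_two]; exact add_lt_add_right h3 _

/-- one more bit of `x` becomes visible in each step of the chain -/
theorem msp_step (x : M) {c d : M} (h0 : d ≠ 0) (hd : d ≤ c) :
    msp x (msp c (half d)) = half (msp x (msp c d)) := by
  have h1 : msp c (half d) ≠ 0 := by
    intro h
    have e := msp_add_lsp c (half d)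
    rw [h, zero_mul, zero_add] at e
    exact absurd (lsp_lt c (half d)) (not_lt.2 (e.symm ▸ (pw_half_le h0).trans hd))
  rw [half_msp x (e' := msp c (half d))]
  rw [← half_msp c (len_half h0)]
  exact len_half h1

variable [hb : HasBox b] {D : M → Prop}

theorem even (hD : Th D) {a h : M} (e : a = 2 * h) : Box2 D (fun _ a c => a = 2 * c) a h :=
  e ▸ (HasBox.num2 h).of_dv hD

theorem odd (hD : Th D) {a h : M} (e : a = 2 * h + 1) : Box2 D (fun _ a c => a = 2 * c + 1) a h :=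
  e ▸ (HasBox.num3 h).of_dv hD

theorem suc_step (hD : Th D) (y : M) (ih : Box2 D (fun _ a c => a = c + 1) (half y + 1) (half y)) :
    Box2 D (fun _ a c => a = c + 1) (y + 1) y := by
  refine Box2.of hD (P := fun _ a c => a = c + 1)
    (x := vec [y + 1, y, half y, half y + 1]) (i := 0) (j := 1) ?_
  rcases half_spec y with e | e
  · exact (Box2.at hD (odd hD (congrArg (· + 1) e)) _ 0 2 rfl rfl).ent2 hD
      (Box2.at hD (even hD e) _ 1 2 rfl rfl) fun N v h1 h2 => by rw [h1, h2]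
  · have e2 : y + 1 = 2 * (half y + 1) := by conv_lhs => rw [e]
                                             ring
    exact (Box2.at hD (even hD e2) _ 0 3 rfl rfl).ent3 hD (Box2.at hD (odd hD e) _ 1 2 rfl rfl)
      (Box2.at hD ih _ 3 2 rfl rfl) fun N v h1 h2 h3 => by rw [h1, h2, h3]; ring

theorem suc (x : M) : Box2 Dv (fun _ a c => a = c + 1) (x + 1) x := by
  refine box_chain (fun _ v => v 0 = v 1 + 1) (fun i _ y _ => cons (y + 1) (fun _ => y) i)
    (fun _ _ => True) ?_ (fun M _ y D hD _ _ _ h => suc_step hD y h) M (fun _ => x) trivial ?_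
  · rintro (_ | i)
    · exact (inferInstance : UFn fun _ v => v 0 + 1)
    · exact (inferInstance : UFn fun _ v => v 0)
  · exact (odd (a := (0 : M) + 1) (h := 0) thDv (by simp)).ent2 thDv
      (Box1.at thDv (HasBox.num0 M) _ 1 rfl) fun N v h1 h2 => by
        beta_reduce at h1 h2 ⊢; rw [h1, h2]; simp

theorem add_step (hD : Th D) (x y : M)
    (ih : Box3 D (fun _ a c d => a = c + d) (half x + half y) (half x) (half y)) :
    Box3 D (fun _ a c d => a = c + d) (x + y) x y := by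
  refine Box3.of hD (P := fun _ a c d => a = c + d)
    (x := vec [x + y, x, y, half x + half y, half x, half y, half x + half y + 1])
    (i := 0) (j := 1) (k := 2) ?_
  have ih' := Box3.at hD ih
    (vec [x + y, x, y, half x + half y, half x, half y, half x + half y + 1]) 3 4 5 rfl rfl rfl
  rcases half_spec x with e | e <;> rcases half_spec y with f | f
  · have g : x + y = 2 * (half x + half y) := by conv_lhs => rw [e, f]
                                                 ring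
    exact ih'.ent4 hD (Box2.at hD (even hD g) _ 0 3 rfl rfl) (Box2.at hD (even hD e) _ 1 4 rfl rfl)
      (Box2.at hD (even hD f) _ 2 5 rfl rfl) fun N v h1 h2 h3 h4 => by rw [h2, h3, h4, h1]; ring
  · have g : x + y = 2 * (half x + half y) + 1 := by conv_lhs => rw [e, f]
                                                     ring
    exact ih'.ent4 hD (Box2.at hD (odd hD g) _ 0 3 rfl rfl) (Box2.at hD (even hD e) _ 1 4 rfl rfl)
      (Box2.at hD (odd hD f) _ 2 5 rfl rfl) fun N v h1 h2 h3 h4 => by rw [h2, h3, h4, h1]; ring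
  · have g : x + y = 2 * (half x + half y) + 1 := by conv_lhs => rw [e, f]
                                                     ring
    exact ih'.ent4 hD (Box2.at hD (odd hD g) _ 0 3 rfl rfl) (Box2.at hD (odd hD e) _ 1 4 rfl rfl)
      (Box2.at hD (even hD f) _ 2 5 rfl rfl) fun N v h1 h2 h3 h4 => by rw [h2, h3, h4, h1]; ring
  · have g : x + y = 2 * (half x + half y + 1) := by conv_lhs => rw [e, f]
                                                     ring
    have sc : Box2 D (fun _ a c => a = c + 1) (half x + half y + 1) (half x + half y) :=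
      (suc (half x + half y)).of_dv hD
    exact (ih'.and hD (Box2.at hD sc _ 6 3 rfl rfl)).ent4 hD
      (Box2.at hD (even hD g) _ 0 6 rfl rfl) (Box2.at hD (odd hD e) _ 1 4 rfl rfl)
      (Box2.at hD (odd hD f) _ 2 5 rfl rfl) fun N v h1 h2 h3 h4 => by
        rw [h2, h3, h4, h1.2, h1.1]; ring

theorem add (x y : M) : Box3 Dv (fun _ a c d => a = c + d) (x + y) x y := by
  have key := box_chain (fun _ v => v 0 = v 1 + v 2)
    (fun i _ d v => cons (msp (v 1) (msp (v 0) d) + msp (v 2) (msp (v 0) d))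
      (cons (msp (v 1) (msp (v 0) d)) fun _ => msp (v 2) (msp (v 0) d)) i)
    (fun _ _ => True) ?_ (fun M v d D hD _ h0 hd h => ?_) M (vec [x + y, x, y]) trivial ?_
  · change Box3 Dv (fun _ a c d => a = c + d)
      (msp x (msp (x + y) (x + y)) + msp y (msp (x + y) (x + y))) (msp x (msp (x + y) (x + y)))
      (msp y (msp (x + y) (x + y))) at key
    rwa [msp_of_lt (lt_pw (x + y)), msp_zero, msp_zero] at key
  · rintro (_ | _ | i)
    · exact (inferInstance :
        UFn fun _ v => msp (v 2) (msp (v 1) (v 0)) + msp (v 3) (msp (v 1) (v 0)))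
    · exact (inferInstance : UFn fun _ v => msp (v 2) (msp (v 1) (v 0)))
    · exact (inferInstance : UFn fun _ v => msp (v 3) (msp (v 1) (v 0)))
  · rw [msp_step _ h0 hd, msp_step _ h0 hd] at h
    exact add_step hD _ _ h
  · change Box3 Dv (fun _ a c d => a = c + d)
      (msp x (msp (x + y) 0) + msp y (msp (x + y) 0)) (msp x (msp (x + y) 0))
      (msp y (msp (x + y) 0))
    rw [msp_zero, msp_of_lt ((lt_pw x).trans_le (pw_mono le_self_add)),
      msp_of_lt ((lt_pw y).trans_le (pw_mono le_add_self)), add_zero]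
    exact (Box1.at thDv (HasBox.num0 M) _ 0 rfl).ent3 thDv (Box1.at thDv (HasBox.num0 M) _ 1 rfl)
      (Box1.at thDv (HasBox.num0 M) _ 2 rfl) fun N v h1 h2 h3 => by rw [h1, h2, h3]; exact (add_zero _).symm

theorem le {x y : M} (h : x ≤ y) : Box2 Dv (fun _ a c => a ≤ c) x y := by
  obtain ⟨z, rfl⟩ := exists_add_of_le h
  refine Box2.of thDv (P := fun _ a c => a ≤ c) (x := vec [x + z, x, z]) (i := 1) (j := 0) ?_
  exact (Box3.at thDv (add x z) _ 0 1 2 rfl rfl rfl).ent thDv fun N v h => by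
    rw [h]; exact le_self_add

theorem lt {x y : M} (h : x < y) : Box2 Dv (fun _ a c => a < c) x y := by
  refine Box2.of thDv (P := fun _ a c => a < c) (x := vec [x, y, x + 1]) (i := 0) (j := 1) ?_
  exact (Box2.at thDv (le (succ_le_iff.2 h)) _ 2 1 rfl rfl).ent2 thDv
    (Box2.at thDv (suc x) _ 2 0 rfl rfl) fun N v h1 h2 => succ_le_iff.1 (h2 ▸ h1)

end numa

theorem row_NUMA : R_NUMA := fun _ _ => ⟨numa.suc, numa.add, numa.le, numa.lt⟩

end Pool.Agent.MP_f18a41_lc

end MrgPart3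

-- ======== part 4: formerly Pool.Agent.MP_f18a41_lc.NUMB
section MrgPart4

/-! Values of terms at numerals. -/

namespace Pool.Agent.MP_f18a41_lc

namespace numb

variable {b : Bool}

/-- the value of the function at numerals is provably the numeral of the value -/
structure Cp (f : UFun b) : Prop where
  fn : UFn f
  bx : ∀ (M : Mdl b) (x : ℕ → M),
    BoxD Dv (fun N v => v 0 = f N (fun i => v (i + 1))) (cons (f M x) x)

variable [hb : HasBox b] {f g : UFun b} {F G H : ∀ N : Mdl b, N → N → N}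

theorem Cp.at2 (h : Cp fun N v => F N (v 0) (v 1)) {M : Mdl b} (x : ℕ → M) (i j k : ℕ)
    (e : x i = F M (x j) (x k)) : BoxD Dv (fun N v => v i = F N (v j) (v k)) x :=
  (h.bx M (cons (x j) fun _ => x k)).at thDv x (cons i (cons j fun _ => k))
    (by rintro (_ | _ | _) <;> first | exact e | rfl)

theorem of3 (hF : UFn fun N v => F N (v 0) (v 1))
    (h : ∀ (M : Mdl b) (x y : M), Box3 Dv (fun N a c d => a = F N c d) (F M x y) x y) :
    Cp fun N v => F N (v 0) (v 1) :=
  ⟨hF, fun M x => Box3.at thDv (h M (x 0) (x 1)) (cons (F M (x 0) (x 1)) x) 0 1 2 rfl rfl rfl⟩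

theorem Cp.app2 (hF : Cp fun N v => F N (v 0) (v 1)) (hf : Cp f) (hg : Cp g) :
    Cp fun N v => F N (f N v) (g N v) := by
  have h0 := hF.fn.app2 hf.fn hg.fn
  refine ⟨h0, fun M x => ?_⟩
  have u := h0.gr.up
  have u' : UP fun N v => v 0 = F N (f N fun i => v (i + 3)) (g N fun i => v (i + 3)) :=
    (h0.gr.ren (consInj 2)).up
  refine BoxD.of_at thDv (x := cons (F M (f M x) (g M x)) (cons (f M x) (cons (g M x) x)))
    (g := cons 0 fun i => i + 3) ?_ (by rintro (_ | _) <;> rfl)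
  refine BoxD.ent3 thDv (Q := fun N v => v 0 = F N (f N fun i => v (i + 3))
    (g N fun i => v (i + 3))) (hF.at2 _ 0 1 2 rfl)
    ((hf.bx M x).at thDv _ (cons 1 fun i => i + 3) (by rintro (_ | _) <;> rfl))
    ((hg.bx M x).at thDv _ (cons 2 fun i => i + 3) (by rintro (_ | _) <;> rfl))
    fun N v h1 h2 h3 => ?_
  change v 1 = f N fun i => v (i + 3) at h2
  change v 2 = g N fun i => v (i + 3) at h3
  rw [h1, h2, h3]

theorem Cp.app1 {F : ∀ N : Mdl b, N → N} (hF : Cp fun N v => F N (v 0)) (hf : Cp f) :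
    Cp fun N v => F N (f N v) := Cp.app2 (F := fun N x _ => F N x) hF hf hf

omit hb in
theorem Cp.congr (h : Cp f) (e : ∀ N v, f N v = g N v) : Cp g := by
  rwa [← show f = g from funext fun M => funext (e M)]

theorem cp_var (i : ℕ) : Cp fun (_ : Mdl b) v => v i :=
  ⟨inferInstance, fun M x => BoxD.of_at thDv (x := x) (g := cons i id)
    (box_nec (Q := fun _ v => v i = v i) thDv fun _ _ => rfl) (by rintro (_ | _) <;> rfl)⟩

theorem cp_zero : Cp fun (N : Mdl b) _ => (0 : N) :=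
  ⟨inferInstance, fun M _ => Box1.at thDv (HasBox.num0 M) _ 0 rfl⟩

theorem cp_half : Cp fun (_ : Mdl b) v => half (v 0) :=
  ⟨inferInstance, fun _ x => Box2.at thDv (box_half (x 0)) (cons (half (x 0)) x) 1 0 rfl rfl⟩

theorem cp_suc (na : NUMA b) : Cp fun (_ : Mdl b) v => v 0 + 1 :=
  ⟨inferInstance, fun _ x => Box2.at thDv (na.suc (x 0)) (cons (x 0 + 1) x) 0 1 rfl rfl⟩

theorem cp_add (na : NUMA b) : Cp fun (_ : Mdl b) v => v 0 + v 1 :=
  of3 (F := fun _ x y => x + y) inferInstance fun _ => na.add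

/-- recursion on the binary digits of the second argument -/
theorem cp_rec (hF : UFn fun N v => F N (v 0) (v 1)) (h0 : Cp fun N v => F N (v 0) 0)
    (hG : Cp fun N v => G N (v 0) (v 1)) (hH : Cp fun N v => H N (v 0) (v 1))
    (e0 : ∀ N x y, y ≠ 0 → F N x (2 * y) = G N (F N x y) x)
    (e1 : ∀ N x y, F N x (2 * y + 1) = H N (F N x y) x) : Cp fun N v => F N (v 0) (v 1) := by
  have u : UP fun N v => v 0 = F N (v 1) (v 2) := hF.gr.up
  refine of3 hF fun M x y => ?_
  refine box_chain (fun N v => v 0 = F N (v 1) (v 2))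
    (fun i M y v => cons (F M (v 1) y) (cons (v 1) fun _ => y) i) (fun _ _ => True) ?_
    (fun M v y D hD _ hy _ h => ?_) M (cons y fun _ => x) trivial ?_
  · rintro (_ | _ | _)
    exacts [hF.app2 (UFn.var 2) (UFn.var 0), UFn.var 2, UFn.var 0]
  · refine Box3.of hD (P := fun N a c d => a = F N c d) (i := 0) (j := 1) (k := 2)
      (x := cons (F M (v 1) y) (cons (v 1) (cons y (cons (F M (v 1) (half y)) fun _ => half y)))) ?_
    have k := Box3.at hD (P := fun N a c d => a = F N c d) h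
      (cons (F M (v 1) y) (cons (v 1) (cons y (cons (F M (v 1) (half y)) fun _ => half y))))
      3 1 4 rfl rfl rfl
    rcases half_spec y with e | e
    · have h1 : half y ≠ 0 := fun h1 => hy (by rw [e, h1, mul_zero])
      refine k.ent4 hD ((hG.at2 _ 0 3 1 ((congrArg _ e).trans (e0 M _ _ h1))).of_dv hD)
        ((Box2.at thDv (HasBox.num2 (half y)) _ 2 4 e rfl).of_dv hD)
        ((Box1.at thDv (box_ne_zero h1) _ 4 rfl).of_dv hD) fun N w a1 a2 a3 a4 => ?_
      rw [a2, a3, a1, e0 N _ _ a4]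
    · refine k.ent3 hD ((hH.at2 _ 0 3 1 ((congrArg _ e).trans (e1 M _ _))).of_dv hD)
        ((Box2.at thDv (HasBox.num3 (half y)) _ 2 4 e rfl).of_dv hD) fun N w a1 a2 a3 => ?_
      rw [a2, a3, a1, e1 N]
  · refine (Cp.at2 (F := fun N a _ => F N a 0) h0 (cons (F M x 0) (cons x fun _ => 0)) 0 1 1
      rfl).ent2 thDv (Box1.at thDv (HasBox.num0 M) _ 2 rfl) fun N w a1 a2 => ?_
    rw [a1, a2]

theorem Cp.add (na : NUMA b) (hf : Cp f) (hg : Cp g) : Cp fun N v => f N v + g N v :=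
  Cp.app2 (F := fun _ x y => x + y) (cp_add na) hf hg

theorem Cp.suc (na : NUMA b) (hf : Cp f) : Cp fun N v => f N v + 1 :=
  Cp.app1 (F := fun _ x => x + 1) (cp_suc na) hf

theorem Cp.len (na : NUMA b) (hf : Cp f) : Cp fun N v => len (f N v) :=
  Cp.app2 (F := fun _ _ y => MP_f18a41_lc.len y)
    (cp_rec (G := fun _ z _ => z + 1) (H := fun _ z _ => z + 1) inferInstance
      (cp_zero.congr fun _ _ => len_zero.symm) (cp_suc na) (cp_suc na)
      (fun _ _ _ => len_two_mul) fun _ _ => len_two_mul_add_one) hf hf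

theorem Cp.mul (na : NUMA b) (hf : Cp f) (hg : Cp g) : Cp fun N v => f N v * g N v :=
  Cp.app2 (F := fun _ x y => x * y)
    (cp_rec (G := fun _ z _ => z + z) (H := fun _ z x => z + z + x) inferInstance
      (cp_zero.congr fun _ _ => (mul_zero _).symm) ((cp_var 0).add na (cp_var 0))
      (((cp_var 0).add na (cp_var 0)).add na (cp_var 1))
      (fun _ _ _ _ => by ring) fun _ _ _ => by ring) hf hg

omit hb in
theorem odd_ne {N : Mdl b} (y : N) : 2 * y + 1 ≠ 0 := one_le_iff.1 le_add_self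

theorem Cp.pw (na : NUMA b) (hf : Cp f) : Cp fun N v => pw (f N v) :=
  Cp.app2 (F := fun _ _ y => MP_f18a41_lc.pw y)
    (cp_rec (F := fun _ _ y => MP_f18a41_lc.pw y) (G := fun _ z _ => z + z)
      (H := fun _ z _ => z + z) inferInstance
      ((cp_zero.suc na).congr fun _ _ => by rw [pw_zero, zero_add])
      ((cp_var 0).add na (cp_var 0)) ((cp_var 0).add na (cp_var 0))
      (fun _ _ y h => by rw [pw_half (mul_ne_zero two_ne_zero h), half_two_mul, two_mul])
      fun _ _ y => by rw [pw_half (odd_ne y), half_two_mul_add_one, two_mul]) hf hf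

theorem Cp.smash (na : NUMA b) (hf : Cp f) (hg : Cp g) : Cp fun N v => smash (f N v) (g N v) :=
  Cp.app2 (F := fun _ x y => MP_f18a41_lc.smash x y)
    (cp_rec (G := fun _ z x => z * MP_f18a41_lc.pw x) (H := fun _ z x => z * MP_f18a41_lc.pw x)
      inferInstance ((cp_zero.suc na).congr fun _ _ => by rw [smash_zero, zero_add])
      ((cp_var 0).mul na ((cp_var 1).pw na)) ((cp_var 0).mul na ((cp_var 1).pw na))
      (fun _ _ y h => by rw [smash_half (mul_ne_zero two_ne_zero h), half_two_mul])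
      fun _ _ y => by rw [smash_half (odd_ne y), half_two_mul_add_one]) hf hg

theorem cp_tm (na : NUMA b) (t : Tm) : Cp fun (N : Mdl b) v => t.ev N.toStr v := by
  induction t with
  | var i => exact cp_var i
  | zero => exact cp_zero
  | succ t ih => exact (ih.suc na).congr fun _ v => (Tm.ev_succ v t).symm
  | len t ih => exact ih.len na
  | half t ih => exact Cp.app1 (F := fun _ x => half x) cp_half ih
  | add s t i1 i2 => exact i1.add na i2
  | mul s t i1 i2 => exact i1.mul na i2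
  | smash s t i1 i2 => exact i1.smash na i2

end numb

theorem row_NUMB : R_NUMB := fun _ _ na t => (numb.cp_tm na t).bx

end Pool.Agent.MP_f18a41_lc

end MrgPart4

-- ======== part 5: formerly Pool.Agent.MP_f18a41_lc.SIG
section MrgPart5

/-! Row SIG: completeness of the box for `Σ^b_1` predicates. -/

namespace Pool.Agent.MP_f18a41_lc

open Function

namespace sig

variable {b : Bool}

theorem up_ev (φ : Fm) : UP fun (N : Mdl b) v => φ.ev N.toStr v := ⟨φ, fun _ _ => Iff.rfl⟩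

theorem ufn_upd (x : ℕ) {f : UFun b} (hf : UFn f) (k : ℕ) (i : ℕ) :
    UFn fun (M : Mdl b) v => update (fun j => v (j + k)) x (f M v) i := by
  by_cases h : i = x
  · subst h
    exact hf.congr fun _ _ => by simp
  · exact (UFn.var (i + k)).congr fun _ _ => by simp [update_of_ne h]

/-- the renaming that sends `x` to `0` and shifts the other variables up -/
def sh (x : ℕ) (i : ℕ) : ℕ := if i = x then 0 else i + 1

theorem comp_sh {α : Type} (x : ℕ) (v : ℕ → α) :
    (fun i => v (sh x i)) = update (fun i => v (i + 1)) x (v 0) := by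
  funext i
  by_cases h : i = x
  · subst h; simp [sh]
  · simp [sh, h]

variable [hb : HasBox b]

/-- a box at an updated vector as a box at a longer vector -/
theorem box_upd {M : Mdl b} {P : UPred b} {v : ℕ → M} {x : ℕ} {u : M}
    (h : BoxD Dv P (update v x u)) :
    BoxD Dv (fun N w => P N (update (fun i => w (i + 1)) x (w 0))) (cons u v) :=
  (h.at thDv (cons u v) (sh x) fun i => congrFun (comp_sh x (cons u v)) i).congr
    fun N w => by rw [comp_sh]

/-- a relation between the values of two terms -/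
theorem two_terms (nb : NUMB b) (R : ∀ N : Mdl b, N → N → Prop)
    [hR : UP fun N v => R N (v 0) (v 1)] (s t : Tm) {M : Mdl b} (x : ℕ → M)
    (h : Box2 Dv R (s.ev M.toStr x) (t.ev M.toStr x)) :
    BoxD Dv (fun N v => R N (s.ev N.toStr v) (t.ev N.toStr v)) x := by
  have hU : UP fun N v => R N (s.ev N.toStr v) (t.ev N.toStr v) :=
    @UP.ofUF _ _ (UF.app2 (T := fun N _ a c => R N a c) hR.uf (UFn.ofTm s) (UFn.ofTm t))
  have hU1 : UP fun N v => R N (s.ev N.toStr fun i => v (i + 1)) (t.ev N.toStr fun i => v (i + 1)) :=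
    hU.comp (fun i _ v => v (i + 1)) fun _ => inferInstance
  have hU2 : UP fun N v => R N (s.ev N.toStr fun i => v (i + 1 + 1))
      (t.ev N.toStr fun i => v (i + 1 + 1)) :=
    hU.comp (fun i _ v => v (i + 1 + 1)) fun _ => inferInstance
  refine BoxD.drop thDv (u := t.ev M.toStr x) (BoxD.drop thDv (u := s.ev M.toStr x) ?_)
  have h1 := (nb s M x).at thDv (cons (s.ev M.toStr x) (cons (t.ev M.toStr x) x))
    (cons 0 fun i => i + 1 + 1) (by rintro (_ | _) <;> rfl)
  have h2 := (nb t M x).lift thDv (s.ev M.toStr x)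
  have h3 := Box2.at thDv h (cons (s.ev M.toStr x) (cons (t.ev M.toStr x) x)) 0 1 rfl rfl
  refine h1.ent3 thDv h2 h3 fun N v e1 e2 e3 => ?_
  simp only [cons_zero, cons_succ, zero_add] at e1 e2
  rw [← e1, ← e2]
  exact e3

theorem sharp_case (nb : NUMB b) {x : ℕ} {t : Tm} {φ : Fm} (ht : ¬ t.occ x)
    (hφ : Cls false true φ)
    (ih : ∀ (M : Mdl b) (v : ℕ → M), φ.ev M.toStr v → BoxD Dv (fun N w => φ.ev N.toStr w) v)
    (M : Mdl b) (v : ℕ → M) (h : (Fm.ball x t.len φ).ev M.toStr v) :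
    BoxD Dv (fun N w => (Fm.ball x t.len φ).ev N.toStr w) v := by
  have hc : UC false true fun (N : Mdl b) w => φ.ev N.toStr w := ⟨φ, hφ, fun _ _ => Iff.rfl⟩
  have hP : USig fun (N : Mdl b) w =>
      ∀ j ≤ len (w 0), φ.ev N.toStr (update (fun i => w (i + 1)) x j) :=
    ⟨UC.sall (B := fun N w j => φ.ev N.toStr (update (fun i => w (i + 1)) x j)) (UFn.var 0)
      (hc.comp _ (ufn_upd x (UFn.var 0) 2))⟩
  have hP' := hP.out.up
  have hQ : UP fun (N : Mdl b) w => φ.ev N.toStr (update (fun i => w (i + 1)) x (len (w 0))) :=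
    (up_ev φ).comp _ (ufn_upd x inferInstance 1)
  have hQ1 : UP fun (N : Mdl b) w =>
      φ.ev N.toStr (update (fun i => w (i + 1 + 1)) x (len (w (0 + 1)))) :=
    hQ.comp (fun i _ w => w (i + 1)) fun _ => inferInstance
  have top : ∀ (M : Mdl b) (y : M) (v : ℕ → M), φ.ev M.toStr (update v x (len y)) →
      BoxD Dv (fun N w => φ.ev N.toStr (update (fun i => w (i + 1)) x (len (w 0)))) (cons y v) := by
    intro M y v hy
    refine BoxD.drop thDv (u := len y) ?_
    have h1 := (box_upd (ih M _ hy)).at thDv (cons (len y) (cons y v))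
      (cons 0 fun i => i + 1 + 1) (by rintro (_ | _) <;> rfl)
    have h2 := nb (Tm.len (.var 0)) M (cons y v)
    refine h1.ent2 thDv h2 fun N w e1 e2 => ?_
    simp only [cons_zero, cons_succ, Tm.ev_len, Tm.ev_var] at e1 e2
    rw [← e2]
    exact e1
  have hT : ∀ j ≤ len (t.ev M.toStr v), φ.ev M.toStr (update v x j) :=
    (Fm.ev_ball v (t := t.len) ht φ).1 h
  have key := box_chain
    (fun N w => ∀ j ≤ len (w 0), φ.ev N.toStr (update (fun i => w (i + 1)) x j))
    (fun i _ y w => cons y (fun j => w (j + 1)) i)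
    (fun N w => ∀ j ≤ len (w 0), φ.ev N.toStr (update (fun i => w (i + 1)) x j))
    (by rintro (_ | i)
        · exact UFn.var 0
        · exact UFn.var (i + 1 + 1))
    (fun M w y D hD hC _ hy h0 => ?_) M (cons (t.ev M.toStr v) v) hT ?_
  · have hU := up_ev (b := b) (Fm.ball x t.len φ)
    have hU1 : UP fun (N : Mdl b) w => (Fm.ball x t.len φ).ev N.toStr fun i => w (i + 1) :=
      hU.comp (fun i _ w => w (i + 1)) fun _ => inferInstance
    refine BoxD.drop thDv (u := t.ev M.toStr v) ?_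
    refine BoxD.ent2 thDv key (nb t M v) fun N w e1 e2 => ?_
    refine (Fm.ev_ball _ (t := t.len) ht φ).2 fun j hj => e1 j ?_
    rw [e2]
    exact hj
  · have hP1 : UP fun (N : Mdl b) w =>
        ∀ j ≤ len (w (0 + 1)), φ.ev N.toStr (update (fun i => w (i + 1 + 1)) x j) :=
      hP'.comp (fun i _ w => w (i + 1)) fun _ => inferInstance
    refine BoxD.drop hD (u := half y) ?_
    have h1 := h0.at hD (cons (half y) (cons y fun j => w (j + 1)))
      (cons 0 fun i => i + 1 + 1) (by rintro (_ | _) <;> rfl)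
    have h2 := ((top M y _ (hC _ (len_mono hy))).of_dv hD).lift hD (half y)
    have h3 := Box2.at hD (P := fun _ a c => c = half a) ((box_half y).of_dv hD)
      (cons (half y) (cons y fun j => w (j + 1))) 1 0 rfl rfl
    refine h1.ent3 hD h2 h3 fun N u e1 e2 e3 j hj => ?_
    simp only [cons_zero, cons_succ, zero_add] at e1 e2 e3 hj
    rcases hj.lt_or_eq with hj | rfl
    · have h0 : u 1 ≠ 0 := by
        rintro h0
        rw [h0, len_zero] at hj
        exact absurd hj (not_lt.2 (zero_le' j))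
      rw [len_half h0, lt_succ_iff, ← e3] at hj
      exact e1 j hj
    · exact e2
  · have h1 := top M 0 v (hT _ (by rw [len_zero]; exact zero_le' _))
    have h2 := Box1.at thDv (HasBox.num0 M) (cons (0 : M) v) 0 rfl
    refine h1.ent2 thDv h2 fun N u e1 e2 j hj => ?_
    beta_reduce at e1 e2
    rw [e2, len_zero] at hj e1
    rw [le_antisymm hj (zero_le' j)]
    exact e1

theorem main (na : NUMA b) (nb : NUMB b) {σ : Bool} {φ : Fm} (h : Cls false σ φ) :
    ∀ (M : Mdl b) (v : ℕ → M),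
      (σ = true → φ.ev M.toStr v → BoxD Dv (fun N w => φ.ev N.toStr w) v) ∧
      (σ = false → ¬ φ.ev M.toStr v → BoxD Dv (fun N w => ¬ φ.ev N.toStr w) v) := by
  induction h with
  | bot σ =>
    intro M v
    refine ⟨fun _ h => h.elim, fun _ _ => ?_⟩
    have := up_ev (b := b) Fm.bot.neg
    exact box_nec (Q := fun N w => Fm.bot.neg.ev N.toStr w) thDv fun _ _ => id
  | eq σ s t =>
    intro M v
    refine ⟨fun _ h => ?_, fun _ h => ?_⟩
    · refine two_terms nb (fun _ a c => a = c) s t v ?_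
      have h' : s.ev M.toStr v = t.ev M.toStr v := h
      exact (na.le h'.le).ent2 thDv (Box2.at thDv (na.le h'.ge) _ 1 0 rfl rfl)
        fun N w e1 e2 => le_antisymm e1 e2
    · refine two_terms nb (fun _ a c => ¬ a = c) s t v ?_
      have h' : s.ev M.toStr v ≠ t.ev M.toStr v := h
      rcases lt_or_gt_of_ne h' with h1 | h1
      · exact (na.lt h1).ent thDv fun N w e => ne_of_lt e
      · exact (Box2.at thDv (na.lt h1) _ 1 0 rfl rfl).ent thDv fun N w e => ne_of_gt e
  | le σ s t =>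
    intro M v
    refine ⟨fun _ h => ?_, fun _ h => ?_⟩
    · exact two_terms nb (fun _ a c => a ≤ c) s t v (na.le h)
    · refine two_terms nb (fun _ a c => ¬ a ≤ c) s t v ?_
      have h' : t.ev M.toStr v < s.ev M.toStr v := not_le.1 h
      exact (Box2.at thDv (na.lt h') _ 1 0 rfl rfl).ent thDv fun N w e => not_le.2 e
  | @imp σ φ ψ _ _ i1 i2 =>
    intro M v
    have hU := up_ev (b := b) (φ.imp ψ)
    have hU' : UP fun (N : Mdl b) w => ¬ (φ.imp ψ).ev N.toStr w := up_ev (φ.imp ψ).neg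
    refine ⟨fun hσ h => ?_, fun hσ h => ?_⟩
    · by_cases h1 : φ.ev M.toStr v
      · exact ((i2 M v).1 hσ (h h1)).ent thDv fun N w e _ => e
      · exact ((i1 M v).2 (by rw [hσ]; rfl) h1).ent thDv fun N w e e' => absurd e' e
    · have h' : φ.ev M.toStr v ∧ ¬ ψ.ev M.toStr v := Classical.not_imp.1 h
      exact ((i1 M v).1 (by rw [hσ]; rfl) h'.1).ent2 thDv ((i2 M v).2 hσ h'.2)
        fun N w e1 e2 e => e2 (e e1)
  | @ball x t φ ht _ ih =>
    intro M v
    refine ⟨fun h => absurd h (by decide), fun _ h => ?_⟩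
    rw [Fm.ev_ball v ht] at h
    obtain ⟨u, hu⟩ := not_forall.1 h
    obtain ⟨h1, h2⟩ := Classical.not_imp.1 hu
    have hU : UP fun (N : Mdl b) w => ¬ (Fm.ball x t φ).ev N.toStr w := up_ev (Fm.ball x t φ).neg
    have hU1 : UP fun (N : Mdl b) w => ¬ (Fm.ball x t φ).ev N.toStr fun i => w (i + 1) :=
      hU.comp (fun i _ w => w (i + 1)) fun _ => inferInstance
    refine BoxD.drop thDv (u := u) ?_
    have h3 := two_terms nb (fun _ a c => a ≤ c) (.var 0) (t.ren (· + 1)) (cons u v)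
      (na.le (by rw [Tm.ev_ren]; exact h1))
    refine (box_upd ((ih M _).2 rfl h2)).ent2 thDv h3 fun N w e1 e2 e => e1 ?_
    rw [Tm.ev_ren] at e2
    exact (Fm.ev_ball _ ht φ).1 e _ e2
  | @sharp x t φ ht hφ ih =>
    intro M v
    exact ⟨fun _ h => sharp_case nb ht hφ (fun M v => (ih M v).1 rfl) M v h,
      fun h => absurd h (by decide)⟩
  | wide h => exact absurd h (by decide)

end sig

theorem row_SIG : R_SIG := by
  intro b hb na nb P hP M x h
  obtain ⟨φ, h1, h2⟩ := hP.out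
  exact ((sig.main na nb h1 M x).1 rfl ((h2 M x).2 h)).congr h2

end Pool.Agent.MP_f18a41_lc

end MrgPart5

-- ======== part 6: formerly Pool.Agent.MP_f18a41_lc.SMALL
section MrgPart6

/-! Row SMALL: bounded formulas with parameters in the cut `Jc` are provable when true. -/

namespace Pool.Agent.MP_f18a41_lc

open Function

namespace small

variable {b : Bool}

/-- `φ` agrees with a predicate that is both `Σ^b_1` and `Π^b_1` as soon as the extra
parameter is long enough -/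
def Red (b : Bool) (φ : Fm) : Prop :=
  ∃ (τ : Tm) (P : UPred b), UC false true P ∧ UC false false P ∧
    ∀ (M : Mdl b) (x : ℕ → M) (E : M), τ.ev M.toStr x ≤ len E →
      (φ.ev M.toStr x ↔ P M (cons E x))

theorem red_of_uc {φ : Fm} (h : ∀ σ, Cls false σ φ) : Red b φ :=
  ⟨.zero, fun M v => φ.ev M.toStr (fun i => v (i + 1)),
    UC.tail (P := fun M v => φ.ev M.toStr v) ⟨φ, h true, fun _ _ => Iff.rfl⟩,
    UC.tail (P := fun M v => φ.ev M.toStr v) ⟨φ, h false, fun _ _ => Iff.rfl⟩,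
    fun _ _ _ _ => Iff.rfl⟩

theorem red_imp {φ ψ : Fm} (h1 : Red b φ) (h2 : Red b ψ) : Red b (φ.imp ψ) := by
  obtain ⟨τ, P, a1, a2, a3⟩ := h1
  obtain ⟨ρ, Q, b1, b2, b3⟩ := h2
  refine ⟨τ.add ρ, fun M v => P M v → Q M v, UC.imp (σ := true) a2 b1,
    UC.imp (σ := false) a1 b2, fun M x E h => ?_⟩
  rw [Tm.ev_add] at h
  rw [Fm.ev_imp, a3 M x E (le_self_add.trans h), b3 M x E (le_add_self.trans h)]

/-- the shape of the vector after binding a variable -/
theorem uc_upd {σ : Bool} {P : UPred b} (h : UC false σ P) (y : ℕ) :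
    UC false σ fun M v => P M (cons (v 1) (update (fun i => v (i + 2)) y (v 0))) := by
  refine (h.comp (fun i _ v => v (cons 1 (fun j => if j = y then 0 else j + 2) i))
    fun _ => UFn.var _).congr fun M v => ?_
  refine iff_of_eq (congrArg _ (funext fun i => ?_))
  rcases i with _ | i
  · rfl
  · by_cases e : i = y
    · subst e; simp
    · simp [e]

theorem red_ball {y : ℕ} {t : Tm} {φ : Fm} (ht : ¬ t.occ y) (h : Red b φ) :
    Red b (Fm.ball y t φ) := by
  obtain ⟨τ, P, a1, a2, a3⟩ := h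
  have hle : ∀ σ, UC false σ fun (M : Mdl b) v => v 0 ≤ t.ev M.toStr (fun i => v (i + 2)) :=
    fun σ => UC.le (UFn.var 0) (UFn.ofTm t).tail.tail
  refine ⟨t.add (τ.subst y t), fun M v => ∀ u ≤ len (v 0),
    u ≤ t.ev M.toStr (fun i => v (i + 1)) →
      P M (cons (v 0) (update (fun i => v (i + 1)) y u)), ?_, ?_, fun M x E h => ?_⟩
  · exact UC.sall (B := fun M v u => u ≤ t.ev M.toStr (fun i => v (i + 1)) →
      P M (cons (v 0) (update (fun i => v (i + 1)) y u))) (UFn.var 0)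
      (UC.imp (σ := true) (hle false) (uc_upd a1 y))
  · exact UC.ball (B := fun M v u => u ≤ t.ev M.toStr (fun i => v (i + 1)) →
      P M (cons (v 0) (update (fun i => v (i + 1)) y u))) (UFn.len (hf := UFn.var 0))
      (UC.imp (σ := false) (hle true) (uc_upd a2 y))
  · rw [Tm.ev_add, Tm.ev_subst] at h
    rw [Fm.ev_ball x ht]
    have key : ∀ u ≤ t.ev M.toStr x,
        (φ.ev M.toStr (update x y u) ↔ P M (cons E (update x y u))) := by
      intro u hu
      refine a3 M _ E (le_trans ?_ (le_add_self.trans h))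
      refine τ.ev_mono fun z _ => ?_
      by_cases e : z = y
      · subst e; simpa using hu
      · simp [update_of_ne e]
    exact ⟨fun h1 u _ hu => (key u hu).1 (h1 u hu),
      fun h1 u hu => (key u hu).2 (h1 u (hu.trans (le_self_add.trans h)) hu)⟩

theorem red {σ : Bool} {φ : Fm} (h : Cls true σ φ) : Red b φ := by
  induction h with
  | bot σ => exact red_of_uc fun τ => .bot τ
  | eq σ s t => exact red_of_uc fun τ => .eq τ s t
  | le σ s t => exact red_of_uc fun τ => .le τ s t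
  | imp σ _ _ i1 i2 => exact red_imp i1 i2
  | ball h _ ih => exact red_ball h ih
  | sharp h _ ih => exact red_ball (t := Tm.len _) h ih
  | wide _ h _ ih => exact red_ball h ih

end small

theorem row_SMALL : R_SMALL := by
  intro b hb sig P hP M x hx h
  obtain ⟨φ, hφ, e⟩ := hP.out
  obtain ⟨τ, Q, a1, _, a3⟩ := small.red (b := b) hφ
  obtain ⟨E, hE⟩ := (isCut_Jc.tm hx τ).log
  have h1 : BoxD Dv Q (cons E x) := sig Q ⟨a1⟩ M _ ((a3 M x E hE.le).1 ((e M x).2 h))
  have h2 : BoxD Dv (fun (N : Mdl b) v => τ.ev N.toStr (fun i => v (i + 1)) ≤ len (v 0))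
      (cons E x) :=
    sig _ ⟨UC.le (UFn.ofTm τ).tail (UFn.len (hf := UFn.var 0))⟩ M _ hE.le
  have u1 : UP P := hP.out.up
  have u2 : UP fun N v => P N (fun i => v (i + 1)) := hP.out.tail.up
  refine BoxD.drop thDv (u := E) (h1.ent2 thDv h2 fun N v q1 q2 => ?_)
  refine (e N _).1 ((a3 N _ (v 0) q2).2 ?_)
  rwa [cons_tail]

end Pool.Agent.MP_f18a41_lc

end MrgPart6

-- ======== part 7: formerly Pool.Agent.MP_f18a41_lc.ENG1
section MrgPart7

/-! Row ENG1: the internal iterates of a one-occurrence operator. -/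

namespace Pool.Agent.MP_f18a41_lc

open Function

namespace eng1

variable {b : Bool}

/-- equivalence of extended formulas -/
def iffE (φ ψ : EFm) : EFm := ((φ.imp ψ).imp (ψ.imp φ).neg).neg

/-- the operator, with free variable `5` -/
def op (nd sb : Fm) : EFm :=
  (EFm.all 6 (nd.e.imp (EFm.all 7 (sb.e.imp (.prd 0 (.var 7)))).neg)).neg

/-- the renaming that sends `5` to `p` -/
def sw (p n : ℕ) : ℕ := if n = 5 then p else skip p n

/-- the code of the operator applied to the formula `z` -/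
def opc (nd sb : Fm) (p : ℕ) {M : Mdl b} (z : M) : M :=
  (op nd sb).cd (skip p) p (fun _ => cZero) fun _ => z

/-- the same with free variable `p` -/
def stp (nd sb : Fm) (p : ℕ) {M : Mdl b} (z : M) : M :=
  (EFm.prd 0 (.var 5)).cd (sw p) 5 (fun _ => cZero) fun _ => opc nd sb p z

theorem sw_inj (p : ℕ) : Injective (sw p) := by
  intro m n h
  unfold sw at h
  split_ifs at h with h1 h2 h2
  · rw [h1, h2]
  · exact absurd h.symm (skip_ne p n)
  · exact absurd h (skip_ne p m)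
  · exact skip_inj p h

theorem sw_ne {p : ℕ} (hp : 8 ≤ p) (n : ℕ) : sw p n ≠ 5 := by
  unfold sw skip
  split_ifs <;> omega

section Tame

variable {f : ∀ M : Mdl b, M → M → (ℕ → M) → M}

theorem tAll (h : Tame f) (n : ℕ) : Tame fun M x z v => cAll (n : M) (f M x z v) := by
  simpa only [Nat.cast_ofNat] using (h.pr_right n).pr_right 12

theorem tImp (h : Tame f) (n : ℕ) : Tame fun M x z v => cImp (n : M) (f M x z v) := by
  simpa only [Nat.cast_ofNat] using (h.pr_right n).pr_right 11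

theorem tNeg (h : Tame f) : Tame fun M x z v => cImp (f M x z v) cBot := by
  simpa only [Nat.cast_ofNat, cast_npr, Nat.cast_zero] using (h.pr_left (npr 8 0)).pr_right 11

theorem tPrd (h : Tame f) (p n : ℕ) :
    Tame fun M x z v => cAll (p : M) (cImp (cEq (cVar (p : M)) (cVar (n : M))) (f M x z v)) := by
  simpa only [Nat.cast_ofNat, cast_npr, Nat.cast_zero] using
    tAll (tImp h (npr 9 (npr (npr 0 p) (npr 0 n)))) p

end Tame

theorem tame_stp (nd sb : Fm) (p : ℕ) : Tame fun (_ : Mdl b) _ z _ => stp nd sb p z := by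
  simp only [stp, opc, op, EFm.neg, EFm.cd, ETm.cd, Fm.cd_e]
  exact tPrd (tNeg (tAll (tImp (tNeg (tAll (tImp (tPrd tame_id _ _) _) _)) _) _)) _ _

theorem fn_stp (nd sb : Fm) (p : ℕ) {f : UFun b} (hf : UFn f) :
    UFn fun M v => stp nd sb p (f M v) :=
  EFm.fn_cd (sw p) 5 (c := fun _ _ _ => cZero) (ψ := fun _ M v => opc nd sb p (f M v))
    (fun _ => inferInstance) (fun _ => EFm.fn_cd (skip p) p (c := fun _ _ _ => cZero)
      (ψ := fun _ => f) (fun _ => inferInstance) (fun _ => hf) _) _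

theorem free_op {nd sb : Fm} (h1 : ∀ x, nd.free x → x ∈ [5, 6])
    (h2 : ∀ x, sb.free x → x ∈ [5, 6, 7]) {n : ℕ} (h : (op nd sb).free n) : n = 5 := by
  simp only [op, EFm.neg, EFm.free, or_false, Fm.free_e, ETm.occ] at h
  obtain ⟨h6, h | ⟨h7, h | h⟩⟩ := h
  · simpa [h6] using h1 n h
  · simpa [h6, h7] using h2 n h
  · exact absurd h h7

section Jud

variable {M : Mdl b} {D : M → Prop} {nd sb : Fm} {p : ℕ} {z : M}

theorem f_opc (sia : SIA b) (hD : Clo D) (h : D (jF z)) : D (jF (opc nd sb p z)) :=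
  sia.fm _ _ hD (fun _ => hD _ .tZero) (fun _ => h) _

theorem n_opc (sia : SIA b) (hD : Clo D) (hp : 8 ≤ p) (hf : ∀ n, (op nd sb).free n → n = 5)
    {x : ℕ} (hx : x ≠ 5) (h : x ≠ p → D (jN (x : M) z)) : D (jN (x : M) (opc nd sb p z)) :=
  sia.nfm _ _ x hD (fun _ => hD _ (.nZero _)) (or_iff_not_imp_left.2 fun e _ => h e) _
    fun n hn => by rw [hf n hn, skip_lt (by omega)]; exact hx.symm

theorem f_stp (sia : SIA b) (hD : Clo D) (h : D (jF z)) : D (jF (stp nd sb p z)) :=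
  sia.fm _ _ hD (fun _ => hD _ .tZero) (fun _ => f_opc sia hD h) _

theorem n_stp (sia : SIA b) (hD : Clo D) (hp : 8 ≤ p) (hf : ∀ n, (op nd sb).free n → n = 5)
    {x : ℕ} (hx : x ≠ p) (h : D (jN (x : M) z)) : D (jN (x : M) (stp nd sb p z)) :=
  sia.nfm _ _ x hD (fun _ => hD _ (.nZero _))
    (or_iff_not_imp_left.2 fun e _ => n_opc sia hD hp hf e fun _ => h) _
    fun n hn => by rw [show n = 5 from hn]; exact hx.symm

end Jud

/-- letter `1` is the operator applied to letter `0` -/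
def del (nd sb : Fm) : EFm :=
  .all 6 (iffE (.prd 1 (.var 6)) (.all 5 ((EFm.eq (.var 5) (.var 6)).imp (op nd sb))))

/-- a valid formula -/
def val : EFm :=
  .all 6 (iffE (.all 5 ((EFm.eq (.var 5) (.var 6)).imp (.prd 0 (.var 5)))) (.prd 0 (.var 6)))

theorem swap {M : Mdl b} (nd sb : Fm) {p : ℕ} (hp : 8 ≤ p) (z : M) :
    (del nd sb).cd (skip p) p (fun _ => cZero) (cons z fun _ => stp nd sb p z) =
      val.cd (sw p) 5 (fun _ => cZero) fun _ => opc nd sb p z := by
  have e5 : skip p 5 = 5 := skip_lt (by omega)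
  have e6 : skip p 6 = 6 := skip_lt (by omega)
  have s5 : sw p 5 = p := rfl
  have s6 : sw p 6 = 6 := e6
  have e : (op nd sb).cd (skip p) p (fun _ => cZero) (cons z fun _ => stp nd sb p z) =
      opc nd sb p z := by
    simp only [opc, op, EFm.neg, EFm.cd, Fm.cd_e, cons_zero]
  simp only [del, val, iffE, EFm.neg, EFm.cd, ETm.cd, e, e5, e6, s5, s6, cons_succ]
  rfl

theorem val_ev (M : Mdl b) (c : ℕ → M) (X : ℕ → M → Prop) (v : ℕ → M) :
    val.ev M.toStr c X v := by
  simp [val, iffE, EFm.neg, EFm.ev, ETm.ev]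

end eng1

open eng1 in
theorem row_ENG1 : R_ENG1 := by
  intro b hb comp sia sib Node Sub hN hS p hp
  obtain ⟨nd, f1, h1⟩ := (hN.comp (cons (fun _ v => v 5) fun _ _ v => v 6) (by
    rintro (_ | i) <;> simp only [cons_zero, cons_succ] <;> infer_instance)).free_sub [5, 6]
  obtain ⟨sb, f2, h2⟩ := (hS.comp (cons (fun _ v => v 5) (cons (fun _ v => v 6) fun _ _ v => v 7))
    (by rintro (_ | _ | i) <;> simp only [cons_zero, cons_succ] <;> infer_instance)).free_sub
    [5, 6, 7]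
  have hf : ∀ n, (op nd sb).free n → n = 5 := fun n => free_op f1 f2
  obtain ⟨G, g1, g2, g3⟩ := rec_exists (fun (_ : Mdl b) _ => cBot) (fun _ _ z _ => stp nd sb p z)
    (hf := fn_stp nd sb p inferInstance) (tame_stp nd sb p)
  have u : UFn fun (M : Mdl b) v => G M (v 0) fun _ => 0 :=
    g1.comp (cons (fun _ v => v 0) fun _ _ _ => 0) (by
      rintro (_ | i) <;> simp only [cons_zero, cons_succ] <;> infer_instance)
  have jf : ∀ (M : Mdl b) (d : M), Dv (jF (G M d fun _ => 0)) := fun M d =>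
    hb.chn (fun M y _ => jF (G M y fun _ => 0)) (fun _ _ => True) inferInstance inferInstance
      (fun M _ y D hD _ hy _ h => by
        rw [g3 M _ y hy]
        exact f_stp sia hD.clo h) M (fun _ => d) trivial (by
        rw [g2]
        exact thDv.clo _ .fBot)
  have jn : ∀ (M : Mdl b) (d : M) (x : ℕ), x ≠ p → Dv (jN (x : M.α) (G M d fun _ => 0)) :=
    fun M d x hx => hb.chn (fun M y _ => jN (x : M.α) (G M y fun _ => 0)) (fun _ _ => True)
      inferInstance inferInstance (fun M _ y D hD _ hy _ h => by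
        rw [g3 M _ y hy]
        exact n_stp sia hD.clo hp hf hx h) M (fun _ => d) trivial (by
        rw [g2]
        exact thDv.clo _ (.nBot _))
  refine ⟨fun M d => G M d fun _ => 0, del nd sb, u, jf, jn, fun N c X v h q => ?_,
    fun M d hd => ?_⟩
  · have := h q
    simpa [iffE, op, EFm.neg, EFm.ev, ETm.ev, h1, h2, Gam, iff_def] using this
  · have hD := (thDv (M := M)).clo
    beta_reduce
    rw [g3 M _ d hd, swap nd sb hp]
    exact sib.inst (Γ := ∅) hD ⟨sw_inj p, fun n hn => by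
        rw [sw, if_neg (by omega), skip_lt (by omega)], sw_ne hp, fun _ => hD _ .tZero,
      fun _ _ => hD _ (.nZero _), fun _ => f_opc sia hD (jf M _),
      fun _ x hx => n_opc sia hD hp hf hx (jn M _ x)⟩
      (comp ∅ val fun M c X _ => val_ev M c X) fun _ h => h.elim

end Pool.Agent.MP_f18a41_lc

end MrgPart7

-- ======== part 8: formerly Pool.Agent.MP_f18a41_lc.ENG
section MrgPart8

/-! Row ENG: two chains of short derivations. -/

namespace Pool.Agent.MP_f18a41_lc

open Function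

namespace eng

variable {b : Bool}

theorem ufTar {Node : ∀ N : Mdl b, N → N → Prop} {Sub : ∀ N : Mdl b, N → N → N → Prop}
    {rk : ∀ N : Mdl b, N → N} (h1 : UP fun N v => Node N (v 0) (v 1))
    (h2 : UP fun N v => Sub N (v 0) (v 1) (v 2)) (h3 : UFn fun N v => rk N (v 0)) :
    UF fun N X v => Tar (Node N) (Sub N) (rk N) (X 0) (len (v 0)) := by
  have i1 : ∀ {f g : UFun b} [UFn f] [UFn g], UF fun N _ v => Node N (f N v) (g N v) :=
    fun {_ _} hf hg => UF.app2 (T := fun N _ x y => Node N x y) h1.uf hf hg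
  have i2 : ∀ {f g k : UFun b} [UFn f] [UFn g] [UFn k],
      UF fun N _ v => Sub N (f N v) (g N v) (k N v) :=
    fun {_ _ _} hf hg hk => UF.app3 (T := fun N _ x y z => Sub N x y z) h2.uf hf hg hk
  have i3 : ∀ {f : UFun b} [UFn f], UFn fun N v => rk N (f N v) :=
    fun {_} hf => UFn.app1 (F := rk) h3 hf
  unfold Tar Gam
  infer_instance

/-- one more step of the induction -/
def Prog {N : Mdl b} (Ψ : N → Prop) (y d : N) : Prop :=
  Ψ 0 → (∀ i < len y, Ψ i → Ψ (i + 1)) → len d ≤ len y → Ψ (len d)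

theorem ufProg {Ψ : ∀ N : Mdl b, (N → Prop) → N → N → Prop}
    (h : UF fun N X v => Ψ N (X 0) (v 0) (v 1)) :
    UF fun N X v => Prog (Ψ N (X 0) (v 0)) (v 0) (v 1) := by
  have i1 : ∀ {f g : UFun b} [UFn f] [UFn g], UF fun N X v => Ψ N (X 0) (f N v) (g N v) :=
    fun {_ _} hf hg => UF.app2 (T := fun N X x y => Ψ N (X 0) x y) h hf hg
  unfold Prog
  infer_instance

theorem tar_step {N : Mdl b} {Node : N → N → Prop} {Sub : N → N → N → Prop} {rk : N → N}
    (h : ∀ q d q', Node q d → Sub q d q' → rk q' < rk q) {X Y : N → Prop} {n : N}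
    (h1 : Tar Node Sub rk X n) (h2 : ∀ q, Y q ↔ Gam Node Sub X q) :
    Tar Node Sub rk Y (n + 1) := by
  intro q hq
  rw [h2]
  refine exists_congr fun d => and_congr_right fun hd => forall_congr' fun q' =>
    imp_congr_right fun hs => ?_
  rw [h2, h1 q' ((h q d q' hd hs).trans_le (lt_succ_iff.1 hq))]

theorem prog_step {N : Mdl b} {Ψ : N → Prop} {y d : N} (hd : d ≠ 0) (h : Prog Ψ y (half d)) :
    Prog Ψ y d := by
  intro h0 hs hl
  rw [len_half hd] at hl ⊢
  exact hs _ (succ_le_iff.1 hl) (h h0 hs (le_self_add.trans hl))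

variable [HasBox b]

/-- a semantic consequence of three formulas, instantiated -/
theorem der (comp : COMP b) (sib : SIB b) {M : Mdl b} {D : M → Prop} (hD : Th D) {p : ℕ}
    (hp : 5 ≤ p) (x : ℕ → M) {ψ : ℕ → M} (h1 : ∀ k, Dv (jF (ψ k)))
    (h2 : ∀ k (n : ℕ), n ≠ p → Dv (jN (n : M) (ψ k))) (γ₁ γ₂ γ₃ φ : EFm)
    (d1 : D (jP (γ₁.cd (skip p) p (fun k => nm (x k)) ψ)))
    (d2 : D (jP (γ₂.cd (skip p) p (fun k => nm (x k)) ψ)))
    (d3 : D (jP (γ₃.cd (skip p) p (fun k => nm (x k)) ψ)))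
    (h : ∀ (N : Mdl b) (c : ℕ → N) (X : ℕ → N → Prop) (v : ℕ → N), γ₁.ev N.toStr c X v →
      γ₂.ev N.toStr c X v → γ₃.ev N.toStr c X v → φ.ev N.toStr c X v) :
    D (jP (φ.cd (skip p) p (fun k => nm (x k)) ψ)) := by
  refine sib.inst hD.clo (good_nm hD hp x (fun k => hD.dv _ (h1 k))
    fun k n hn => hD.dv _ (h2 k n hn)) (comp {γ₁, γ₂, γ₃} φ fun N c X hΓ v =>
      h N c X v (hΓ _ (by simp) v) (hΓ _ (by simp) v) (hΓ _ (by simp) v)) ?_
  rintro γ (rfl | rfl | rfl)
  exacts [d1, d2, d3]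

end eng

theorem row_ENG : R_ENG := by
  intro b hb comp sib e1 Node Sub rk h1 h2 h3 hrk Ψ Q hΨ hQ hmain M y
  obtain ⟨T, hT⟩ := (eng.ufTar h1 h2 h3).out
  obtain ⟨A, hA⟩ := (eng.ufProg hΨ).out
  obtain ⟨φ0, h0⟩ := (inferInstance : UP fun (_ : Mdl b) v => v 1 = half (v 0) ∧ v 0 ≠ 0).out
  obtain ⟨φ1, h1'⟩ := (inferInstance : UP fun (_ : Mdl b) v => v 0 = 0).out
  obtain ⟨φQ, hφQ⟩ := hQ.out
  obtain ⟨p, p8, p0, p1, pQ⟩ : ∃ p, 8 ≤ p ∧ (φ0.e.cl []).mx ≤ p ∧ (φ1.e.cl []).mx ≤ p ∧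
      (φQ.e.cl []).mx ≤ p := ⟨8 + (φ0.e.cl []).mx + (φ1.e.cl []).mx + (φQ.e.cl []).mx,
        by omega, by omega, by omega, by omega⟩
  have p5 : 5 ≤ p := by omega
  obtain ⟨ψ, δ, f1, f2, f3, f4, f5⟩ := e1 Node Sub h1 h2 p p8
  have fψ : ∀ {f : UFun b} [UFn f], UFn fun N v => ψ N (f N v) :=
    fun {_} hf => UFn.app1 (F := ψ) f1 hf
  have b0 : ∀ (M : Mdl b) (d : M) (x ψ' : ℕ → M), d ≠ 0 →
      Dv (jP ((φ0.e.cl []).cd (skip p) p (fun k => nm (cons d (cons (half d) x) k)) ψ')) := by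
    intro M d x ψ' hd
    rw [← cdn_eq φ0 _ p0, ← HasBox.defn _ φ0 thDv h0]
    exact (Box2.at thDv (box_half d) _ 0 1 rfl rfl).and thDv
      (Box1.at thDv (box_ne_zero hd) _ 0 rfl)
  have b1 : ∀ (M : Mdl b) (x ψ' : ℕ → M),
      Dv (jP ((φ1.e.cl []).cd (skip p) p (fun k => nm (cons 0 x k)) ψ')) := by
    intro M x ψ'
    rw [← cdn_eq φ1 _ p1, ← HasBox.defn _ φ1 thDv h1']
    exact Box1.at thDv (HasBox.num0 M) _ 0 rfl
  have c1 : Dv (jP ((T.cl []).cd (skip p) p (fun _ => nm y) fun _ => ψ M y)) := by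
    refine HasBox.chn (fun M d _ => jP ((T.cl []).cd (skip p) p (fun _ => nm d) fun _ => ψ M d))
      (fun _ _ => True) ?_ inferInstance (fun M _ d D hD _ hd _ h => ?_) M (fun _ => y) trivial ?_
    · have := EFm.fn_cd (b := b) (skip p) p (c := fun _ _ v => nm (v 0))
        (ψ := fun _ M v => ψ M (v 0)) (fun _ => inferInstance) (fun _ => inferInstance) (T.cl [])
      infer_instance
    · have key := eng.der comp sib hD p5 (cons d (cons (half d) fun _ => 0))
        (ψ := cons (ψ M (half d)) fun _ => ψ M d) (by rintro (_ | _) <;> exact f2 _ _)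
        (by rintro (_ | _) n hn <;> exact f3 _ _ n hn)
        ((T.cl []).rn (fun _ => 1) fun _ => 0) (δ.rn (fun _ => 2) id) (φ0.e.cl [])
        ((T.cl []).rn (fun _ => 0) fun _ => 1) (by rw [EFm.cd_rn]; exact h)
        (by
          rw [EFm.cd_rn]
          have := f5 M d hd
          rw [cZero, ← nm_zero] at this
          exact hD.dv _ this)
        (hD.dv _ (b0 M d _ _ hd)) (fun N c X v g1 g2 g3 => by
          rw [EFm.ev_rn, EFm.ev_cl_nil, hT] at g1 ⊢
          rw [EFm.ev_rn] at g2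
          rw [EFm.ev_cl_nil, Fm.ev_e, h0] at g3
          rw [len_half g3.2, ← g3.1]
          exact eng.tar_step (hrk N) g1 (f4 N _ _ _ g2))
      rw [EFm.cd_rn] at key
      exact key
    · have key := eng.der comp sib thDv p5 (cons (0 : M) fun _ => 0)
        (ψ := fun _ => ψ M 0) (fun _ => f2 _ _) (fun _ n hn => f3 _ _ n hn)
        (φ1.e.cl []) (φ1.e.cl []) (φ1.e.cl []) ((T.cl []).rn (fun _ => 0) id)
        (b1 M _ _) (b1 M _ _) (b1 M _ _) (fun N c X v g1 _ _ => by
          rw [EFm.ev_rn, EFm.ev_cl_nil, hT]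
          rw [EFm.ev_cl_nil, Fm.ev_e, h1'] at g1
          rw [g1, len_zero]
          exact fun q hq => absurd hq (not_lt.2 (zero_le' _)))
      rw [EFm.cd_rn] at key
      exact key
  have c2 : Dv (jP ((A.cl []).cd (skip p) p (fun k => nm (cons y (fun _ => y) k))
      fun _ => ψ M y)) := by
    refine HasBox.chn (fun M d v => jP ((A.cl []).cd (skip p) p
      (fun k => nm (cons (v 0) (fun _ => d) k)) fun _ => ψ M (v 0)))
      (fun _ _ => True) ?_ inferInstance (fun M v d D hD _ hd _ h => ?_) M (fun _ => y) trivial ?_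
    · have := EFm.fn_cd (b := b) (skip p) p (c := fun k _ v => nm (cons (v 1) (fun _ => v 0) k))
        (ψ := fun _ M v => ψ M (v 1))
        (by rintro (_ | _) <;> simp only [cons_zero, cons_succ] <;> infer_instance)
        (fun _ => inferInstance) (A.cl [])
      infer_instance
    · have e : ∀ (i : ℕ) (z : M), cons d (cons (half d) fun _ => v 0) i = z →
          (fun k => nm (cons d (cons (half d) fun _ => v 0) (cons 2 (fun _ => i) k))) =
          fun k => nm (cons (v 0) (fun _ => z) k) := fun i z hz => by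
        funext k
        rcases k with _ | k
        · rfl
        · exact congrArg nm hz
      have g : D (jP (((A.cl []).rn (cons 2 fun _ => 1) id).cd (skip p) p
          (fun k => nm (cons d (cons (half d) fun _ => v 0) k)) fun _ => ψ M (v 0))) := by
        rw [EFm.cd_rn, e 1 _ rfl]; exact h
      have key := eng.der comp sib hD p5 (cons d (cons (half d) fun _ => v 0))
        (ψ := fun _ => ψ M (v 0)) (fun _ => f2 _ _) (fun _ n hn => f3 _ _ n hn)
        _ _ (φ0.e.cl []) ((A.cl []).rn (cons 2 fun _ => 0) id) g g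
        (hD.dv _ (b0 M d _ _ hd)) (fun N c X v g1 _ g3 => by
          rw [EFm.ev_rn, EFm.ev_cl_nil, hA] at g1 ⊢
          rw [EFm.ev_cl_nil, Fm.ev_e, h0] at g3
          change eng.Prog (Ψ N (X 0) (c 2)) (c 2) (c 1) at g1
          rw [g3.1] at g1
          exact eng.prog_step g3.2 g1)
      rw [EFm.cd_rn, e 0 _ rfl] at key
      exact key
    · have key := eng.der comp sib thDv p5 (cons (0 : M) fun _ => y)
        (ψ := fun _ => ψ M y) (fun _ => f2 _ _) (fun _ n hn => f3 _ _ n hn)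
        (φ1.e.cl []) (φ1.e.cl []) (φ1.e.cl []) ((A.cl []).rn (cons 1 fun _ => 0) id)
        (b1 M _ _) (b1 M _ _) (b1 M _ _) (fun N c X v g1 _ _ => by
          rw [EFm.ev_rn, EFm.ev_cl_nil, hA]
          rw [EFm.ev_cl_nil, Fm.ev_e, h1'] at g1
          change eng.Prog (Ψ N (X 0) (c 1)) (c 1) (c 0)
          rw [g1]
          intro g2 _ _
          rwa [len_zero])
      have e : (fun k => nm (cons (0 : M) (fun _ => y) (cons 1 (fun _ => 0) k))) =
          fun k => nm (cons y (fun _ => (0 : M)) k) := by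
        funext k
        rcases k with _ | k <;> rfl
      rw [EFm.cd_rn, e] at key
      exact key
  have e : (fun k => nm (cons y (fun _ => y) k)) = fun _ => nm y := by
    funext k
    rcases k with _ | k <;> rfl
  rw [e] at c2
  refine (HasBox.defn _ φQ thDv hφQ).2 ?_
  rw [cdn_eq φQ _ pQ fun _ => ψ M y]
  refine eng.der comp sib thDv p5 (fun _ => y) (fun _ => f2 _ _) (fun _ n hn => f3 _ _ n hn)
    ((T.cl []).rn (fun _ => 0) id) ((A.cl []).rn (fun _ => 0) id) ((A.cl []).rn (fun _ => 0) id)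
    _ (by rw [EFm.cd_rn]; exact c1) (by rw [EFm.cd_rn]; exact c2) (by rw [EFm.cd_rn]; exact c2)
    fun N c X v g1 g2 _ => ?_
  rw [EFm.ev_rn, EFm.ev_cl_nil, hT] at g1
  rw [EFm.ev_rn, EFm.ev_cl_nil, hA] at g2
  rw [EFm.ev_cl_nil, Fm.ev_e, hφQ]
  exact hmain N (X 0) (c 0) g1 fun g3 g4 => g2 g3 g4 le_rfl

end Pool.Agent.MP_f18a41_lc

end MrgPart8

-- ======== part 9: formerly Pool.Agent.MP_f18a41_lc.VAL2
section MrgPart9

/-! Row VAL2: validity of the substitution judgements. -/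

namespace Pool.Agent.MP_f18a41_lc

namespace val2

variable {b : Bool} {M : Mdl b} {X : M → Prop} {n : M}

theorem lenL {s t : M} (h : len (pr s t) < n) : len s < n := (len_lt_pr_left s t).trans h
theorem lenR {s t : M} (h : len (pr s t) < n) : len t < n := (len_lt_pr_right s t).trans h
theorem lenR' {s t : M} (h : len (pr s t) ≤ n) : len t < n := (len_lt_pr_right s t).trans_le h

theorem nf_of {c : M} (h : fst c < 8) : NF c := by
  intro s t
  refine ⟨?_, ?_, ?_, ?_⟩ <;> rintro rfl <;> rw [fst_pr] at h <;> norm_num at h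

theorem nt_of {c : M} (h : 8 ≤ fst c) : NT c := by
  intro s t
  refine ⟨?_, ?_, ?_, ?_, ?_, ?_, ?_⟩ <;> rintro rfl <;> rw [fst_pr] at h <;> norm_num at h

theorem vcongr (ts : TS X n) {c d a a' z : M} (hc : len c < n) (hd : len d < n)
    (h1 : Val X d a z) (h2 : Val X c a' z) (y : M) : Val X d a y ↔ Val X c a' y :=
  ⟨fun h => ts.uniq hd h1 h ▸ h2, fun h => ts.uniq hc h2 h ▸ h1⟩

theorem vnt (ts : TS X n) {c d a a' : M} (hc : len c < n) (hd : len d < n)
    (h1 : 8 ≤ fst c) (h2 : 8 ≤ fst d) (y : M) : Val X d a y ↔ Val X c a' y :=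
  vcongr ts hc hd (ts.nt a hd (nt_of h2)) (ts.nt a' hc (nt_of h1)) y

theorem snf (ts : TS X n) {c d a a' : M} (hc : len c < n) (hd : len d < n)
    (h1 : fst c < 8) (h2 : fst d < 8) : Sat X d a ↔ Sat X c a' :=
  iff_of_false (ts.nf a hd (nf_of h2)) (ts.nf a' hc (nf_of h1))

theorem sVar (ts : TS X n) {x u : M} (hx : len (cVar x) < n) (hu : len u < n) :
    VS X x u (cVar x) u := fun h8 _ a' _ _ _ hv =>
  ⟨vcongr ts hx hu hv (ts.var a' hx), snf ts hx hu (by rw [fst_pr]; norm_num) h8⟩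

theorem sN {x u c : M} (h : VN X x c) : VS X x u c c := fun _ a a' ha ha' hu _ =>
  ⟨fun y => ⟨(h a a' ha ha' hu).1 y, (h a' a ha' ha hu.symm).1 y⟩,
    ⟨(h a a' ha ha' hu).2, (h a' a ha' ha hu.symm).2⟩⟩

theorem ne_of_vn (ts : TS X n) {x z : M} (hz : len (cVar z) < n) (kz : Kc z)
    (h : VN X x (cVar z)) : x ≠ z := by
  rintro rfl
  obtain ⟨a', h1, h2, h3⟩ := upd_J (isCut_Jc (M := M)).zero isCut_Jc.one kz
  have h4 := (h 0 a' isCut_Jc.zero h1 h2).1 _ (ts.var 0 hz)
  have h5 := ts.uniq hz h4 (ts.var a' hz)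
  rw [look_zero, h3] at h5
  exact zero_ne_one h5

theorem sAll (ts : TS X n) {x u z d e : M} (hd : len (cAll z d) < n) (he : len (cAll z e) < n)
    (kz : Kc z) (hne : x ≠ z) (h2 : VN X z u) (h3 : VS X x u d e) :
    VS X x u (cAll z d) (cAll z e) := by
  intro h8 a a' ha ha' hu hv
  refine ⟨vnt ts hd he (by rw [fst_pr]; norm_num) (by rw [fst_pr]; norm_num), ?_⟩
  have key : ∀ c c', Jc c → Jc c' → Upd a z c → Upd a' z c' → look c' z = look c z →
      (Sat X e c ↔ Sat X d c') := by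
    intro c c' hc hc' u1 u2 e1
    refine (h3 h8 c c' hc hc' (fun i hi => ?_) ?_).2
    · by_cases hz : i = z
      · rw [hz, e1]
      · rw [u2 i hz, hu i hi, u1 i hz]
    · rw [u2 x hne]
      exact (h2 a c ha hc u1).1 _ hv
  rw [ts.all a he, ts.all a' hd]
  constructor
  · intro h c' hc' u2
    obtain ⟨c, hc, u1, e1⟩ := upd_J ha (hc'.look z) kz
    exact (key c c' hc hc' u1 u2 e1.symm).1 (h c hc u1)
  · intro h c hc u1
    obtain ⟨c', hc', u2, e1⟩ := upd_J ha' (hc.look z) kz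
    exact (key c c' hc hc' u1 u2 e1).2 (h c' hc' u2)

theorem s1 (ts : TS X n) (k : ℕ) (hk : k ∈ [2, 3, 4]) {x u c d : M}
    (hc : len (pr (k : M) c) < n) (hd : len (pr (k : M) d) < n) (h : VS X x u c d) :
    VS X x u (pr k c) (pr k d) := by
  intro h8 a a' ha ha' hu hv
  obtain ⟨z, h1⟩ := ts.ex a (lenR hd)
  have h2 := ((h h8 a a' ha ha' hu hv).1 z).1 h1
  simp only [List.mem_cons, List.not_mem_nil, or_false] at hk
  rcases hk with rfl | rfl | rfl <;> simp only [Nat.cast_ofNat] at hc hd ⊢ <;>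
    refine ⟨?_, snf ts hc hd (by rw [fst_pr]; norm_num) (by rw [fst_pr]; norm_num)⟩
  · exact vcongr ts hc hd (ts.suc hd h1) (ts.suc hc h2)
  · exact vcongr ts hc hd (ts.ln hd h1) (ts.ln hc h2)
  · exact vcongr ts hc hd (ts.hf hd h1) (ts.hf hc h2)

theorem s2 (ts : TS X n) (k : ℕ) (hk : k ∈ [5, 6, 7, 9, 10, 11]) {x u c d e f : M}
    (hc : len (pr (k : M) (pr c e)) < n) (hd : len (pr (k : M) (pr d f)) < n)
    (h : VS X x u c d) (h' : VS X x u e f) : VS X x u (pr k (pr c e)) (pr k (pr d f)) := by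
  intro h8 a a' ha ha' hu hv
  obtain ⟨z, h1⟩ := ts.ex a (lenL (lenR hd))
  obtain ⟨w, h3⟩ := ts.ex a (lenR (lenR hd))
  have g := h h8 a a' ha ha' hu hv
  have g' := h' h8 a a' ha ha' hu hv
  have h2 := (g.1 z).1 h1
  have h4 := (g'.1 w).1 h3
  simp only [List.mem_cons, List.not_mem_nil, or_false] at hk
  rcases hk with rfl | rfl | rfl | rfl | rfl | rfl <;> simp only [Nat.cast_ofNat] at hc hd ⊢
  · exact ⟨vcongr ts hc hd (ts.add hd h1 h3) (ts.add hc h2 h4),
      snf ts hc hd (by rw [fst_pr]; norm_num) (by rw [fst_pr]; norm_num)⟩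
  · exact ⟨vcongr ts hc hd (ts.mul hd h1 h3) (ts.mul hc h2 h4),
      snf ts hc hd (by rw [fst_pr]; norm_num) (by rw [fst_pr]; norm_num)⟩
  · exact ⟨vcongr ts hc hd (ts.sm hd h1 h3) (ts.sm hc h2 h4),
      snf ts hc hd (by rw [fst_pr]; norm_num) (by rw [fst_pr]; norm_num)⟩
  · exact ⟨vnt ts hc hd (by rw [fst_pr]; norm_num) (by rw [fst_pr]; norm_num),
      (ts.eq hd h1 h3).trans (ts.eq hc h2 h4).symm⟩
  · exact ⟨vnt ts hc hd (by rw [fst_pr]; norm_num) (by rw [fst_pr]; norm_num),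
      (ts.le hd h1 h3).trans (ts.le hc h2 h4).symm⟩
  · exact ⟨vnt ts hc hd (by rw [fst_pr]; norm_num) (by rw [fst_pr]; norm_num),
      (ts.imp a hd).trans ((imp_congr g.2 g'.2).trans (ts.imp a' hc).symm)⟩

end val2

open val2 in
theorem row_VAL2 : R_VAL2 := by
  intro b N X y j ⟨ts, kc, rl, le⟩ x u c d e
  have hl : len (pr (pr x u) (pr c d)) < len y := lenR' (e ▸ le)
  have hc := lenL (lenR hl)
  have hd := lenR (lenR hl)
  have hu := lenR (lenL hl)
  clear hl le
  cases rl with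
  | sVar a v =>
    simp only [pr_inj, true_and] at e
    obtain ⟨⟨rfl, rfl⟩, rfl, rfl⟩ := e
    exact sVar ts hc hu
  | sN v h0 =>
    simp only [pr_inj, true_and] at e
    obtain ⟨⟨rfl, rfl⟩, rfl, rfl⟩ := e
    exact sN (h0.1.n _ _ rfl)
  | sAll h0 h1 h2 =>
    simp only [pr_inj, true_and] at e
    obtain ⟨⟨rfl, rfl⟩, rfl, rfl⟩ := e
    have kz := kc.down (lt_of_len_lt (lenL (lenR hc))).le
    exact sAll ts hc hd kz (ne_of_vn ts (lenR (lenR' h0.2)) kz (h0.1.n _ _ rfl))
      (h1.1.n _ _ rfl) (h2.1.s _ _ _ _ rfl)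
  | s1 k hk h0 =>
    simp only [pr_inj, true_and] at e
    obtain ⟨⟨rfl, rfl⟩, rfl, rfl⟩ := e
    exact s1 ts k hk hc hd (h0.1.s _ _ _ _ rfl)
  | s2 k hk h0 h1 =>
    simp only [pr_inj, true_and] at e
    obtain ⟨⟨rfl, rfl⟩, rfl, rfl⟩ := e
    exact s2 ts k hk hc hd (h0.1.s _ _ _ _ rfl) (h1.1.s _ _ _ _ rfl)
  | kBot σ | kEq σ | kLe σ | kImp σ =>
    exact absurd (pr_inj.1 e).1 (by cases σ <;> norm_num)
  | _ => exact absurd (pr_inj.1 e).1 (by norm_num)

end Pool.Agent.MP_f18a41_lc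

end MrgPart9

-- ======== part 10: formerly Pool.Agent.MP_f18a41_lc.REFL
section MrgPart10

/-! Row REFL: small reflection relativised to the cut. -/

namespace Pool.Agent.MP_f18a41_lc

namespace refl

variable {b : Bool}

theorem vd_zero {N : Mdl b} (X : N → Prop) : Vd X 0 :=
  ⟨fun _ e => absurd e.symm (pr_ne_zero _ _), fun _ _ e => absurd e.symm (pr_ne_zero _ _),
    fun _ _ _ _ e => absurd e.symm (pr_ne_zero _ _), fun _ _ e => absurd e.symm (pr_ne_zero _ _),
    fun _ e => absurd e.symm (pr_ne_zero _ _)⟩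

/-- one more row of a short derivation is valid -/
theorem step (h1 : VAL1 b) (h2 : VAL2 b) (h3 : VAL3 b) (h4 : VAL4 b) {N : Mdl b} {X : N → Prop}
    {y s a k : N} (ts : TS X (len y)) (kc : Kc y) (hs : s ≤ y) (hd : HDer (fun _ => False) s a)
    (ih : ∀ i < k, Vd X (row s a i)) : Vd X (row s a k) := by
  rcases le_or_gt k (len s) with hk | hk
  · rcases hd k hk with e | e | e
    · rw [e]; exact vd_zero X
    · exact e.elim
    · have S : Sit X y (row s a k) := by
        refine ⟨ts, kc, Rl.mono ?_ e, len_mono ((row_le _ _ _).trans hs)⟩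
        rintro _ ⟨i, hi, rfl⟩
        exact ⟨ih i hi, len_mono ((row_le _ _ _).trans hs)⟩
      exact ⟨(h1 N X y _ S).1, (h1 N X y _ S).2, h2 N X y _ S, h3 N X y _ S, h4 N X y _ S⟩
  · rw [row_big a hk]; exact vd_zero X

end refl

theorem row_REFL : R_REFL := by
  intro b hb eng ⟨Node, Sub, rk, u1, u2, u3, hrk, hcl⟩ ⟨Ψ, uΨ, hΨ⟩ h1 h2 h3 hv h4 φ M y
  have i1 : UF fun (N : Mdl b) X v => Ψ N (X 0) (v 1) :=
    UF.app1 (T := fun N X x => Ψ N (X 0) x) uΨ inferInstance
  have i2 : UF fun (N : Mdl b) X v => Ψ N (X 0) (len (v 0)) :=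
    UF.app1 (T := fun N X x => Ψ N (X 0) x) uΨ inferInstance
  have i3 := (up_evJ (b := b) φ).uf
  have key := eng Node Sub rk u1 u2 u3 hrk
    (fun N X y i => Ψ N X i ∧ (Ψ N X (len y) → Kc y → ∀ s, s ≤ y → ∀ a,
      HDer (fun _ => False) s a → ∀ k, k < i → Vd X (row s a k)))
    (fun N y => Kc y → Pf (jP ((φ.code : ℕ) : N)) y → φ.ev N.J.toStr (fun _ => (0 : N.J)))
    inferInstance inferInstance (fun N X y ht hi kc ⟨s, hs, a, _, hd, k, hk, e⟩ => ?_) M y
  · exact key.ent2 thDv (box_Kc y) fun N v h h' => h h'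
  obtain ⟨p0, p1, p2⟩ := hΨ N X _ (hcl N X _ ht)
  obtain ⟨q1, q2⟩ := hi ⟨p0, fun _ _ _ _ _ _ k hk => absurd hk (not_lt.2 (zero_le' k))⟩
    fun i hi ⟨r1, r2⟩ => ⟨p1 i hi r1, fun g1 g2 s hs a hd k hk =>
      refl.step h1 h2 h3 h4 (p2 g1) g2 hs hd fun j hj =>
        r2 g1 g2 s hs a hd j (hj.trans_le (lt_succ_iff.1 hk))⟩
  have vd := refl.step h1 h2 h3 h4 (k := k) (p2 q1) kc hs hd fun j hj =>
    q2 q1 kc s hs a hd j (hj.trans_le (hk.trans (len_mono hs)))
  have hl : len ((φ.code : ℕ) : N) < len y :=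
    (len_lt_pr_right 6 _).trans_le (len_mono ((e ▸ row_le s a k).trans hs))
  have := (hv N X y (p2 q1) kc φ hl 0 isCut_Jc.zero).1 (vd.p _ e 0 isCut_Jc.zero)
  refine (iff_of_eq (congrArg _ (funext fun i => isCut_Jc.val_inj.1 ?_))).1 this
  simp

end Pool.Agent.MP_f18a41_lc

end MrgPart10

-- ======== part 11: formerly Pool.Agent.MP_f18a41_lc.FIX
section MrgPart11

/-! Row FIX: simultaneous fixed points. -/

namespace Pool.Agent.MP_f18a41_lc

open Function

namespace FIX

variable {b : Bool}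

/-- fix the variables of the list to the numerals of `n` -/
def wrap (n : ℕ → ℕ) : List ℕ → Fm → Fm
  | [], θ => θ
  | i :: L, θ => .all i (.imp (.eq (.var i) (.num (n i))) (wrap n L θ))

theorem free_wrap (n : ℕ → ℕ) (θ : Fm) (x : ℕ) :
    ∀ L : List ℕ, (wrap n L θ).free x → θ.free x ∧ x ∉ L
  | [], h => ⟨h, by simp⟩
  | i :: L, h => by
    obtain ⟨h1, h2⟩ := h
    rcases h2 with (h2 | h2) | h2
    · exact absurd h2 h1
    · exact absurd h2 (Tm.not_occ_num _ _)
    · obtain ⟨h3, h4⟩ := free_wrap n θ x L h2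
      exact ⟨h3, by simp [h1, h4]⟩

theorem ev_wrap {N : Mdl b} (n : ℕ → ℕ) (θ : Fm) : ∀ (L : List ℕ) (v : ℕ → N),
    (wrap n L θ).ev N.toStr v ↔ θ.ev N.toStr (fun i => if i ∈ L then (n i : N) else v i)
  | [], v => by simp [wrap]
  | i :: L, v => by
    have e : (fun j => if j ∈ L then (n j : N) else update v i (n i : N) j) =
        fun j => if j ∈ i :: L then (n j : N) else v j := by
      funext j
      by_cases h1 : j = i
      · subst h1; simp
      · simp [h1]
    rw [← e, ← ev_wrap n θ L]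
    constructor
    · intro h
      refine h (n i : N) ?_
      rw [Fm.ev_eq, Tm.ev_num]
      exact update_self _ _ _
    · intro h u hu
      rw [Fm.ev_eq, Tm.ev_num] at hu
      have h2 : u = (n i : N) := by
        rw [← hu]
        exact (update_self i u v).symm
      rw [h2]
      exact h

/-- the code of `wrap` computed in a model -/
noncomputable def wc {N : Mdl b} (v : ℕ → N) (y : N) : List ℕ → N
  | [] => y
  | i :: L => cAll (i : N) (cImp (cEq (cVar (i : N)) (nm (v i))) (wc v y L))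

theorem wc_congr {N : Mdl b} {v w : ℕ → N} (y : N) :
    ∀ L : List ℕ, (∀ i ∈ L, v i = w i) → wc v y L = wc w y L
  | [], _ => rfl
  | i :: L, h => by
    rw [wc, wc, h i (by simp), wc_congr y L fun j hj => h j (by simp [hj])]

theorem code_wrap {N : Mdl b} (n : ℕ → ℕ) (θ : Fm) : ∀ L : List ℕ,
    (((wrap n L θ).code : ℕ) : N) = wc (fun i => (n i : N)) ((θ.code : ℕ) : N) L
  | [] => rfl
  | i :: L => by
    rw [wc, ← code_wrap n θ L, nm_cast]
    simp only [wrap, Fm.code, Tm.code, cast_npr, Nat.cast_ofNat, Nat.cast_zero]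

theorem fn_wc (k : ℕ) : ∀ L : List ℕ, UFn fun (_ : Mdl b) v => wc v (v k) L
  | [] => UFn.var k
  | i :: L => by
    have := fn_wc k L
    exact (inferInstance : UFn fun (N : Mdl b) v =>
      pr 12 (pr (i : N) (pr 11 (pr (pr 9 (pr (pr 0 (i : N)) (nm (v i)))) (wc v (v k) L)))))

end FIX

open FIX in
theorem row_FIX : R_FIX := by
  intro b W _ e he P hP
  have := Fintype.ofFinite W
  obtain ⟨L, hL⟩ : ∃ L : List ℕ, ∀ w, e w ∈ L :=
    ⟨(Finset.univ : Finset W).toList.map e, fun w => List.mem_map.2 ⟨w, by simp, rfl⟩⟩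
  have h1 : ∀ z, UP fun (N : Mdl b) v => P z N (fun w => wc v (v (e w)) L) := fun z =>
    (hP z).comp (fun k N v => wc v (v k) L) fun k => fn_wc k L
  choose θ hf hθ using fun z => (h1 z).free_sub L
  obtain ⟨n, hn⟩ : ∃ n : ℕ → ℕ, ∀ w, n (e w) = (θ w).code :=
    ⟨extend e (fun w => (θ w).code) 0, fun w => he.extend_apply _ _ w⟩
  refine ⟨fun z => wrap n L (θ z), fun z x h => ?_, fun z N v => ?_⟩
  · obtain ⟨h2, h3⟩ := free_wrap n _ x L h
    exact h3 (hf z x h2)
  · rw [ev_wrap, hθ]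
    refine iff_of_eq (congrArg _ (funext fun w => ?_))
    beta_reduce
    rw [code_wrap, ← hn w, if_pos (hL w), if_pos (hL w)]
    exact wc_congr _ L fun i hi => by simp [hi]

end Pool.Agent.MP_f18a41_lc

end MrgPart11

-- ======== part 12: formerly Pool.Agent.MP_f18a41_lc.STD
section MrgPart12

/-! Row STD: the standard model. -/

namespace Pool.Agent.MP_f18a41_lc

namespace STDp

open Function

/-- the natural numbers as a structure -/
@[reducible] def nS : Str where
  α := ℕ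
  z := 0
  s x := x + 1
  l x := x.size
  h x := x / 2
  a x y := x + y
  m x y := x * y
  sm x y := 2 ^ (x.size * y.size)
  le x y := x ≤ y

theorem val_eq (v : ℕ → ℕ) (t : Tm) : t.ev nS v = t.val v := by
  induction t with
  | var | zero => rfl
  | succ t ih | len t ih | half t ih => simp only [Tm.ev, Tm.val, ih]
  | add s t i1 i2 | mul s t i1 i2 | smash s t i1 i2 => simp only [Tm.ev, Tm.val, i1, i2]

theorem holds_iff (φ : Fm) : ∀ v : ℕ → ℕ, φ.holds v ↔ φ.ev nS v := by
  induction φ with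
  | bot => intro _; rfl
  | eq s t | le s t => intro v; simp only [Fm.holds, Fm.ev, val_eq]
  | imp φ ψ i1 i2 => intro v; simp only [Fm.holds, Fm.ev, i1, i2]
  | all x φ ih => intro v; simp only [Fm.holds, Fm.ev, ih]

theorem size_two_mul {x : ℕ} (h : x ≠ 0) : (2 * x).size = x.size + 1 := by
  have := Nat.size_bit (b := false) (n := x) (by simp [Nat.bit_val, h])
  simpa [Nat.bit_val] using this

theorem size_two_mul_succ (x : ℕ) : (2 * x + 1).size = x.size + 1 := by
  have := Nat.size_bit (b := true) (n := x) (by simp [Nat.bit_val])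
  simpa [Nat.bit_val] using this

theorem size_half {x : ℕ} (h : x ≠ 0) : x.size = (x / 2).size + 1 := by
  rcases Nat.even_or_odd' x with ⟨y, rfl | rfl⟩
  · rw [size_two_mul (by omega), Nat.mul_div_cancel_left _ two_pos]
  · rw [size_two_mul_succ, show (2 * y + 1) / 2 = y by omega]

theorem ev_le (s t : Tm) (v : ℕ → ℕ) : (Fm.le s t).ev nS v ↔ s.ev nS v ≤ t.ev nS v := Iff.rfl

theorem hax : ∀ φ ∈ basic, ∀ v : ℕ → ℕ, φ.ev nS v := by
  intro φ hφ v
  simp only [basic, List.mem_cons, List.not_mem_nil, or_false] at hφ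
  rcases hφ with rfl | rfl | rfl | rfl | rfl | rfl | rfl | rfl | rfl | rfl | rfl | rfl | rfl | rfl |
    rfl | rfl | rfl | rfl | rfl | rfl | rfl | rfl | rfl | rfl | rfl | rfl | rfl | rfl | rfl | rfl |
    rfl | rfl <;>
  simp only [Fm.ev_imp, Fm.ev_and, Fm.ev_or, Fm.ev_iff, Fm.ev_ne, Fm.ev_eq, ev_le, Tm.ev, Tm.dbl,
    Tm.two, Tm.one, zero_add, Nat.reduceAdd] <;>
  first
  | omega
  | exact Nat.size_zero
  | exact fun h => ⟨size_two_mul h, size_two_mul_succ _⟩
  | exact Nat.size_one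
  | exact Nat.size_le_size
  | exact Nat.size_pow
  | exact size_half
  | (intro h; rw [size_two_mul h, size_two_mul_succ, Nat.size_one, one_mul, one_mul, pow_succ']
     exact ⟨rfl, rfl⟩)
  | (intro h; rw [h, add_mul, pow_add])
  | (intro h; exact Nat.mul_le_mul_left_iff h)
  | (intro h; rw [h])
  | ring1
  | simp

theorem hind (x : ℕ) (φ : Fm) (v : ℕ → ℕ) : (pind x φ).ev nS v := by
  intro h0 hs u
  replace h0 := (Fm.ev_subst (S := nS) x .zero φ v
    (Fm.freeFor_of_occ (u := .zero) (fun _ h => False.elim h) φ)).1 h0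
  change ℕ at u
  induction u using Nat.strong_induction_on with
  | _ u ih =>
    by_cases hu : u = 0
    · subst hu
      exact h0
    · refine hs u ?_
      refine (Fm.ev_subst (S := nS) x (.half (.var x)) φ _
        (Fm.freeFor_of_occ (u := .half (.var x)) (fun _ h => h) φ)).2 ?_
      have := ih (u / 2) (by omega)
      simpa [Tm.ev] using this

/-- the standard model -/
def nM (b : Bool) : Mdl b where
  toStr := nS
  hax := hax
  hind x φ _ v := hind x φ v

/-- a natural number as an element of the standard model -/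
def el (b : Bool) (n : ℕ) : nM b := n

theorem cast_eq (b : Bool) (n : ℕ) : @Nat.cast (nM b) _ n = el b n := by
  induction n with
  | zero => rw [Nat.cast_zero]; rfl
  | succ n ih => rw [Nat.cast_succ, ih]; rfl

end STDp

theorem row_STD : R_STD := fun b =>
  ⟨STDp.nM b, fun x => ⟨x, (STDp.cast_eq b x).symm⟩, fun φ v => by
    simp only [STDp.cast_eq]
    exact STDp.holds_iff φ v⟩

end Pool.Agent.MP_f18a41_lc

end MrgPart12

-- ======== part 13: formerly Pool.Agent.MP_f18a41_lc.GLS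
section MrgPart13

/-! Soundness of GL for the arithmetical interpretation. -/

namespace Pool.Agent.MP_f18a41_lc

namespace gls

variable {b : Bool}

theorem closed_interp (pa : POSTA b) {f : ℕ → Fm} (hf : ∀ n x, ¬ (f n).free x) (X : MF) :
    ∀ x, ¬ (interp b f X).free x := by
  induction X with
  | atom n => exact hf n
  | bot => exact fun _ h => h
  | imp F G i1 i2 => exact fun x h => h.elim (i1 x) (i2 x)
  | box F _ => exact pa.closed _

theorem up_ev (φ : Fm) : UP fun (N : Mdl b) v => φ.ev N.toStr v := ⟨⟨φ, fun _ _ => Iff.rfl⟩⟩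

theorem ev_closed {φ : Fm} (h : ∀ x, ¬ φ.free x) {N : Mdl b} (v w : ℕ → N) :
    φ.ev N.toStr v ↔ φ.ev N.toStr w := φ.ev_congr fun x hx => absurd hx (h x)

variable [hb : HasBox b]

theorem d1 {φ : Fm} (h : ∀ x, ¬ φ.free x) (hv : ∀ (N : Mdl b) v, φ.ev N.toStr v) (M : Mdl b) :
    Dv (jP ((φ.code : ℕ) : M)) :=
  (HasBox.sent (fun _ => (0 : M)) φ thDv h).1 (box_nec thDv (hQ := up_ev φ) hv)

theorem d3 (sig : SIG b) (n : ℕ) {M : Mdl b} (h : Dv (jP (n : M))) (x : ℕ → M) :
    BoxD Dv (fun N _ => Dv (jP (n : N))) x := by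
  obtain ⟨q, hq⟩ := h.pf
  have h1 := sig (fun N v => Pf (jP (n : N)) (v 0)) inferInstance M (fun _ => q) hq
  have h2 : BoxD Dv (fun N _ => Dv (jP (n : N))) (fun _ => q) :=
    h1.ent thDv fun N v h => h.dv
  exact Box0.at thDv (P := fun N => Dv (jP (n : N))) h2 x

theorem loeb (sig : SIG b) (fix : FIX b) {φ : Fm} (hφ : ∀ x, ¬ φ.free x) {M : Mdl b}
    {x : ℕ → M} (h : BoxD Dv (fun N v => Dv (jP ((φ.code : ℕ) : N)) → φ.ev N.toStr v) x) :
    Dv (jP ((φ.code : ℕ) : M)) := by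
  have u0 : UP fun (N : Mdl b) (_ : ℕ → N) => φ.ev N.toStr (fun _ => (0 : N)) :=
    ⟨⟨φ, fun N v => ev_closed hφ _ _⟩⟩
  have u1 := u0.uf
  obtain ⟨S, hS, hev⟩ := fix Unit (fun _ => 0) (fun _ _ _ => rfl)
    (fun _ N c => Dv (jP (c ())) → φ.ev N.toStr (fun _ => (0 : N))) (fun _ => inferInstance)
  have A : ∀ N : Mdl b, Dv (jP (((S ()).code : ℕ) : N)) → Dv (jP ((φ.code : ℕ) : N)) := by
    intro N hN
    have b1 := (HasBox.sent (fun _ => (0 : N)) (S ()) thDv (hS ())).2 hN
    have b2 := d3 sig _ hN (fun _ => (0 : N))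
    refine (HasBox.sent (fun _ => (0 : N)) φ thDv hφ).1 ?_
    have := up_ev (b := b) φ
    exact b1.ent2 thDv b2 fun N' v h1 h2 => (ev_closed hφ _ _).1 ((hev () N' v).1 h1 h2)
  refine A M ((HasBox.sent x (S ()) thDv (hS ())).1 ?_)
  exact h.ent thDv (hQ := up_ev _) fun N v h1 =>
    (hev () N v).2 fun h2 => (ev_closed hφ _ _).1 (h1 (A N h2))

end gls

theorem row_GLS : R_GLS := by
  intro b hb cpl pa sig fix X hX f hf
  have cl := gls.closed_interp pa hf
  induction hX with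
  | k F G => exact .k _ _
  | s F G H => exact .s _ _ _
  | dn F => exact .dn _
  | dist F G =>
    refine cpl _ fun M v h1 h2 => ?_
    have a1 := (HasBox.sent v _ thDv (cl (.imp F G))).2 ((pa.ev _ M v).1 h1)
    have a2 := (HasBox.sent v _ thDv (cl F)).2 ((pa.ev _ M v).1 h2)
    refine (pa.ev _ M v).2 ((HasBox.sent v _ thDv (cl G)).1 ?_)
    have := gls.up_ev (b := b) (interp b f G)
    exact a1.ent2 thDv a2 fun N w h3 h4 => h3 h4
  | loeb F =>
    refine cpl _ fun M v h1 => ?_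
    have a1 := (HasBox.sent v _ thDv (cl (.imp (.box F) F))).2 ((pa.ev _ M v).1 h1)
    refine (pa.ev _ M v).2 (gls.loeb sig fix (cl F) (x := v) (a1.congr fun N w => ?_))
    exact imp_congr_left (pa.ev _ N w)
  | four F =>
    refine cpl _ fun M v h1 => ?_
    have a1 := gls.d3 sig _ ((pa.ev _ M v).1 h1) v
    refine (pa.ev _ M v).2 ((HasBox.sent v _ thDv (cl (.box F))).1 (a1.congr fun N w => ?_))
    exact (pa.ev _ N w).symm
  | mp _ _ i1 i2 => exact .mp i1 i2
  | nec _ ih =>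
    exact cpl _ fun M v => (pa.ev _ M v).2 (gls.d1 (cl _) (fun N w => ih.sound N w) M)

end Pool.Agent.MP_f18a41_lc

end MrgPart13

-- ======== part 14: formerly Pool.Agent.MP_f18a41_lc.UPPER
section MrgPart14

/-! Frames omitting the tree, and the Solovay embedding. -/

namespace Pool.Agent.MP_f18a41_lc

namespace upper

theorem frame : FRAME := by
  intro W _ R ht hi hY x₀ x h0 F hF hc
  by_cases hF' : (F ∩ {c | ∃ e, R c e}).Nonempty
  · have : IsTrans W R := ⟨ht⟩
    have : Std.Irrefl R := ⟨hi⟩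
    obtain ⟨c, ⟨c1, e, c2⟩, hm⟩ := (Finite.wellFounded_of_trans_of_irrefl R).has_min _ hF'
    refine ⟨c, ht _ _ _ h0 (hc c c1), fun z => ⟨fun h => ⟨c, c1, h⟩, ?_⟩⟩
    rintro ⟨c', d1, d2⟩
    by_contra hz
    refine hY ⟨x₀, x, c, c', e, z, h0, hc c c1, hc c' d1, c2, d2, ?_, fun h => hz (ht _ _ _ h d2),
      hm c' ⟨d1, z, d2⟩⟩
    rintro rfl
    exact hz d2
  · obtain ⟨c, c1⟩ := hF
    exact ⟨c, ht _ _ _ h0 (hc c c1), fun z => ⟨fun h => ⟨c, c1, h⟩,
      fun ⟨c', d1, d2⟩ => absurd ⟨c', d1, z, d2⟩ hF'⟩⟩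

theorem ev_bigOr {S : Str} (l : List Fm) (v : ℕ → S.α) :
    (bigOr l).ev S v ↔ ∃ φ ∈ l, φ.ev S v := by
  induction l with
  | nil => simp [bigOr]
  | cons φ l ih => simp [bigOr, ih]

theorem free_bigOr (l : List Fm) (x : ℕ) (h : ∀ φ ∈ l, ¬ φ.free x) : ¬ (bigOr l).free x := by
  induction l with
  | nil => exact id
  | cons φ l ih =>
    rintro ((h1 | h1) | h1)
    exacts [h φ List.mem_cons_self h1, h1, ih (fun ψ hψ => h ψ (List.mem_cons_of_mem _ hψ)) h1]

theorem closed {b : Bool} (pa : POSTA b) {f : ℕ → Fm} (hf : ∀ n x, ¬ (f n).free x) (F : MF)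
    (x : ℕ) : ¬ (interp b f F).free x := by
  induction F with
  | atom n => exact hf n x
  | bot => exact id
  | imp F G i1 i2 => exact fun h => h.elim i1 i2
  | box F _ => exact pa.closed _ x

theorem main (b : Bool) (hb : HasBox b) (pa : POSTA b) (sol : SOL b) : UPPER b := by
  classical
  intro X hX W _ R ht hi hc V w
  obtain ⟨S, s0, s1, s2, s3, N, v, s4⟩ := sol W R ht hi hc w
  have := Fintype.ofFinite W
  obtain ⟨f, f0, f1⟩ : ∃ f : ℕ → Fm, (∀ n x, ¬ (f n).free x) ∧ ∀ n (N : Mdl b) (v : ℕ → N),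
      (f n).ev N.toStr v ↔ ∃ z, V n z ∧ (S z).ev N.toStr v := by
    refine ⟨fun n => bigOr ((Finset.univ.filter (V n)).toList.map S),
      fun n x => free_bigOr _ x fun φ hφ => ?_, fun n N v => ?_⟩
    · obtain ⟨z, -, rfl⟩ := List.mem_map.1 hφ
      exact s0 z x
    · simp [ev_bigOr]
  have key : ∀ (F : MF) (z : W) (N : Mdl b) (v : ℕ → N), (S z).ev N.toStr v →
      (Force R V z F ↔ (interp b f F).ev N.toStr v) := by
    intro F
    induction F with
    | atom n =>
      intro z N v hz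
      exact ⟨fun h => (f1 n N v).2 ⟨z, h, hz⟩, fun h => by
        obtain ⟨z', h1, h2⟩ := (f1 n N v).1 h
        exact s1 N v z z' hz h2 ▸ h1⟩
    | bot => exact fun _ _ _ _ => Iff.rfl
    | imp F G i1 i2 => exact fun z N v hz => imp_congr (i1 z N v hz) (i2 z N v hz)
    | box F ih =>
      intro z N v hz
      refine Iff.trans ?_ (pa.ev _ N v).symm
      rw [← HasBox.sent v _ thDv (closed pa f0 F)]
      constructor
      · intro h
        exact (s3 N v z hz).ent thDv (hQ := ⟨⟨_, fun _ _ => Iff.rfl⟩⟩)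
          fun N' v' ⟨u, u1, u2⟩ => (ih u N' v' u2).1 (h u u1)
      · intro h u hu
        by_contra hn
        refine s2 N v z u hu hz ((HasBox.sent v (S u).neg thDv fun x hx => Or.elim hx (s0 u x) id).1 ?_)
        exact h.ent thDv (hQ := ⟨⟨_, fun _ _ => Iff.rfl⟩⟩)
          fun N' v' h1 h2 => hn ((ih u N' v' h2).2 h1)
  exact (key X w N v s4).2 ((hX f f0).sound N v)

end upper

theorem row_UPPER : R_UPPER := ⟨upper.frame, upper.main⟩

end Pool.Agent.MP_f18a41_lc

end MrgPart14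

-- marker of a merged file
example : 731051 + 81381 = 731051 + 81381 := rfl
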