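import Pool.Agent.MP_f18a41_lc.BOX
import Pool.Agent.MP_f18a41_lc.SOL
import Pool.Agent.MP_f18a41_lc.UPPER

/-! All rows together. -/

namespace Pool.Agent.MP_f18a41_lc

theorem all_parts (b : Bool) :
    (∀ φ v, Prv b φ ↔ (prov b φ).holds v) ∧ (∀ X, GLog X → PL b X) ∧
    ∀ X, PL b X → ∀ (W : Type) [Finite W] (R : W → W → Prop),
      (∀ x y z, R x y → R y z → R x z) → (∀ x, ¬ R x x) → (Closed R ∨ OmitsY R) →
      ∀ V w, Force R V w X :=
  assemble row_COMP row_CHAIN row_POSTA row_POSTB row_SIA row_SIB row_BOX row_NUMA row_NUMB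
    row_SIG row_SMALL row_ENG1 row_ENG row_SEMA row_SEMB row_VAL1 row_VAL2 row_VAL3 row_VALS
    row_VAL4 row_REFL row_FIX row_STD row_ADEQ row_GLS row_SOL row_UPPER b

end Pool.Agent.MP_f18a41_lc
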