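import Pool.Agent.MP_f18a41_lc.Ext

-- ======== part 0: formerly Pool.Agent.MP_f18a41_lc.Cut
section MrgPart0

/-! Cuts, cut models, absoluteness, and the cut `Jc`. -/

namespace Pool.Agent.MP_f18a41_lc

open Function

variable {b : Bool} {M : Mdl b}

/-- an initial segment closed under the operations -/
structure IsCut (I : M → Prop) : Prop where
  zero : I 0
  down : ∀ {x y : M}, x ≤ y → I y → I x
  succ : ∀ {x : M}, I x → I (x + 1)
  add : ∀ {x y : M}, I x → I y → I (x + y)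
  mul : ∀ {x y : M}, I x → I y → I (x * y)
  smash : ∀ {x y : M}, I x → I y → I (smash x y)

namespace IsCut
variable {I : M → Prop} (h : IsCut I)
include h

theorem len {x : M} (hx : I x) : I (len x) := h.down (len_le x) hx
theorem half {x : M} (hx : I x) : I (half x) := h.down (half_le x) hx
theorem one : I 1 := by simpa using h.succ h.zero
theorem nat (n : ℕ) : I (n : M) := by
  induction n with
  | zero => simpa using h.zero
  | succ n ih => simpa using h.succ ih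
theorem two : I 2 := h.nat 2
theorem pw {x : M} (hx : I x) : I (pw x) := h.smash h.one hx
theorem tm {v : ℕ → M} (hv : ∀ i, I (v i)) (t : Tm) : I (t.ev M.toStr v) := by
  induction t with
  | var x => exact hv x
  | zero => exact h.zero
  | succ t ih => rw [Tm.ev_succ]; exact h.succ ih
  | len t ih => exact h.len ih
  | half t ih => exact h.half ih
  | add s t i1 i2 => exact h.add i1 i2
  | mul s t i1 i2 => exact h.mul i1 i2
  | smash s t i1 i2 => exact h.smash i1 i2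
theorem fn {f : UFun b} (hf : UFn f) {v : ℕ → M} (hv : ∀ i, I (v i)) : I (f M v) := by
  obtain ⟨t, ht⟩ := hf.bd
  exact h.down (ht M v) (h.tm hv t)
theorem pr {x y : M} (hx : I x) (hy : I y) : I (pr x y) :=
  h.fn (f := fun _ v => MP_f18a41_lc.pr (v 0) (v 1)) inferInstance (v := cons x fun _ => y)
    (by rintro (_ | i); exacts [hx, hy])

/-- the substructure on a cut -/
def str : Str where
  α := {x : M // I x}
  z := ⟨0, h.zero⟩
  s x := ⟨M.s x.1, by have := h.succ x.2; rwa [← Boot.S_eq] at this⟩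
  l x := ⟨M.l x.1, h.len x.2⟩
  h x := ⟨M.h x.1, h.half x.2⟩
  a x y := ⟨M.a x.1 y.1, h.add x.2 y.2⟩
  m x y := ⟨M.m x.1 y.1, h.mul x.2 y.2⟩
  sm x y := ⟨M.sm x.1 y.1, h.smash x.2 y.2⟩
  le x y := M.le x.1 y.1

theorem ev_tm (v : ℕ → h.str.α) (t : Tm) : (t.ev h.str v).1 = t.ev M.toStr (fun i => (v i).1) := by
  induction t with
  | var x => rfl
  | zero => rfl
  | succ t ih | len t ih | half t ih => simp only [Tm.ev, ← ih]; rfl
  | add s t i1 i2 | mul s t i1 i2 | smash s t i1 i2 => simp only [Tm.ev, ← i1, ← i2]; rfl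

theorem val_update (v : ℕ → h.str.α) (x : ℕ) (u : h.str.α) :
    (fun i => (update v x u i).1) = update (fun i => (v i).1) x u.1 := by
  funext i
  by_cases e : i = x
  · subst e; simp
  · simp [update_of_ne e]

theorem ev_ball {x : ℕ} {t : Tm} {φ : Fm} (ht : ¬ t.occ x)
    (ih : ∀ v : ℕ → h.str.α, φ.ev h.str v ↔ φ.ev M.toStr (fun i => (v i).1)) (v : ℕ → h.str.α) :
    (Fm.ball x t φ).ev h.str v ↔ (Fm.ball x t φ).ev M.toStr (fun i => (v i).1) := by
  rw [Fm.ev_ball _ ht]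
  have e : ∀ u : h.str.α, (Fm.le (.var x) t).ev h.str (update v x u) ↔
      u.1 ≤ t.ev M.toStr (fun i => (v i).1) := fun u => by
    show M.le ((update v x u) x).1 (t.ev h.str (update v x u)).1 ↔ _
    rw [Tm.ev_update ht, h.ev_tm, update_self]; rfl
  constructor
  · intro h1 u hu
    have hI : I u := h.down hu (h.tm (fun i => (v i).2) t)
    have := h1 ⟨u, hI⟩ ((e _).2 hu)
    rwa [ih, h.val_update] at this
  · intro h1 u hu
    rw [ih, h.val_update]
    exact h1 _ ((e _).1 hu)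

/-- bounded formulas are absolute -/
theorem ev_cls {c σ : Bool} {φ : Fm} (hφ : Cls c σ φ) :
    ∀ v : ℕ → h.str.α, φ.ev h.str v ↔ φ.ev M.toStr (fun i => (v i).1) := by
  induction hφ with
  | bot => intro _; rfl
  | eq σ s t => intro v; simp only [Fm.ev, ← h.ev_tm]; exact Subtype.ext_iff
  | le σ s t => intro v; simp only [Fm.ev, ← h.ev_tm]; rfl
  | imp σ _ _ i1 i2 => intro v; simp only [Fm.ev, i1, i2]
  | ball ht _ ih => exact h.ev_ball ht ih
  | sharp ht _ ih => exact h.ev_ball (t := .len _) ht ih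
  | wide _ ht _ ih => exact h.ev_ball ht ih

end IsCut

theorem basic_cls : ∀ φ ∈ basic, Cls true true φ := by
  have h : ∀ φ ∈ basic, ∀ σ, Cls true σ φ := by
    simp only [basic, List.mem_cons, List.not_mem_nil, or_false, forall_eq_or_imp, forall_eq,
      Fm.iff, Fm.and, Fm.or, Fm.ne, Fm.neg]
    refine ⟨?_, ?_, ?_, ?_, ?_, ?_, ?_, ?_, ?_, ?_, ?_, ?_, ?_, ?_, ?_, ?_, ?_, ?_, ?_, ?_, ?_, ?_,
      ?_, ?_, ?_, ?_, ?_, ?_, ?_, ?_, ?_, ?_⟩ <;> intro σ <;> repeat' constructor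
  exact fun φ hφ => h φ hφ true

/-- the model on a cut -/
def IsCut.mdl {I : M → Prop} (h : IsCut I) : Mdl b where
  toStr := h.str
  hax φ hφ v := (h.ev_cls (basic_cls φ hφ) v).2 (M.hax φ hφ _)
  hind x φ hφ v := by
    have f0 : φ.freeFor x .zero := Fm.freeFor_of_occ (u := .zero) (fun _ h => False.elim h) φ
    have f1 : φ.freeFor x (.half (.var x)) := Fm.freeFor_of_occ (u := .half (.var x)) (fun _ h => h) φ
    intro h0 hs u
    rw [Fm.ev_subst _ _ _ _ f0, h.ev_cls hφ, h.val_update] at h0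
    rw [h.ev_cls hφ, h.val_update]
    have hP : UC b true fun (M : Mdl b) v => φ.ev M.toStr (update (fun i => v (i + 2)) x (v 0)) :=
      (UC.comp (P := fun M v => φ.ev M.toStr v) ⟨φ, hφ, fun _ _ => Iff.rfl⟩
        (fun i _ v => if i = x then v 0 else v (i + 2)) (fun i => by
          by_cases e : i = x <;> simp only [e, if_true, if_false] <;> infer_instance)).congr
        fun M v => iff_of_eq (congrArg _ (funext fun i => by simp [update_apply]))
    refine pind_cls (fun M y w => y ≤ w 0 → φ.ev M.toStr (update (fun i => w (i + 1)) x y))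
      (UC.imp (UC.le inferInstance inferInstance) hP) (cons u.1 fun i => (v i).1)
      (fun _ => h0) (fun y _ ih hy => ?_) u.1 le_rfl
    have hy' : I y := h.down hy u.2
    have := hs ⟨y, hy'⟩
    rw [Fm.ev_imp, Fm.ev_subst _ _ _ _ f1, update_idem, h.ev_cls hφ, h.ev_cls hφ, h.val_update,
      h.val_update] at this
    refine this ?_
    have h3 := ih ((half_le y).trans hy)
    have e : (Tm.ev h.str (update v x ⟨y, hy'⟩) (Tm.var x).half).1 = MP_f18a41_lc.half y := by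
      simp only [Tm.ev, update_self]; rfl
    rw [e]; exact h3

namespace IsCut
variable {I : M → Prop} (h : IsCut I)

/-- the inclusion of the cut model -/
def val (x : h.mdl) : M := Subtype.val (p := I) x
/-- an element of the cut as an element of the cut model -/
def elt (x : M) (hx : I x) : h.mdl := (⟨x, hx⟩ : {x : M // I x})

@[simp] theorem val_elt (x : M) (hx : I x) : h.val (h.elt x hx) = x := rfl
@[simp] theorem elt_val (x : h.mdl) (hx : I (h.val x)) : h.elt (h.val x) hx = x := rfl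
theorem val_mem (x : h.mdl) : I (h.val x) := Subtype.property (p := I) x
theorem val_inj {x y : h.mdl} : h.val x = h.val y ↔ x = y := Subtype.ext_iff.symm
theorem val_le {x y : h.mdl} : h.val x ≤ h.val y ↔ x ≤ y := Iff.rfl
theorem val_upd (v : ℕ → h.mdl) (x : ℕ) (u : h.mdl) :
    (fun i => h.val (update v x u i)) = update (fun i => h.val (v i)) x (h.val u) :=
  h.val_update v x u
theorem val_cons (v : ℕ → h.mdl) (u : h.mdl) :
    (fun i => h.val (cons u v i)) = cons (h.val u) (fun i => h.val (v i)) := by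
  funext i; cases i <;> rfl
theorem val_tm (v : ℕ → h.mdl) (t : Tm) :
    h.val (t.ev h.mdl.toStr v) = t.ev M.toStr (fun i => h.val (v i)) := h.ev_tm v t

/-- uniformly bounded predicates are absolute -/
theorem abs {c σ : Bool} {P : UPred b} (hP : UC c σ P) (v : ℕ → h.mdl) :
    P h.mdl v ↔ P M (fun i => h.val (v i)) := by
  obtain ⟨φ, h1, h2⟩ := hP
  rw [← h2, ← h2]
  exact h.ev_cls h1 v

/-- uniformly definable functions are absolute -/
theorem abs_fn {f : UFun b} (hf : UFn f) (v : ℕ → h.mdl) :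
    h.val (f h.mdl v) = f M (fun i => h.val (v i)) :=
  (h.abs hf.gr (cons (f h.mdl v) v)).1 rfl

@[simp] theorem val_zero : h.val 0 = 0 := rfl
@[simp] theorem val_add (x y : h.mdl) : h.val (x + y) = h.val x + h.val y := rfl
@[simp] theorem val_mul (x y : h.mdl) : h.val (x * y) = h.val x * h.val y := rfl
@[simp] theorem val_nat (n : ℕ) : h.val (n : h.mdl) = n :=
  h.abs_fn (f := fun M _ => (n : M)) inferInstance fun _ => 0
@[simp] theorem val_half (x : h.mdl) : h.val (MP_f18a41_lc.half x) = MP_f18a41_lc.half (h.val x) :=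
  rfl
@[simp] theorem val_len (x : h.mdl) : h.val (MP_f18a41_lc.len x) = MP_f18a41_lc.len (h.val x) :=
  rfl

end IsCut

/-- the cut generated by an assignment -/
theorem isCut_gen (v : ℕ → M) : IsCut fun x : M => ∃ t : Tm, x ≤ t.ev M.toStr v where
  zero := ⟨.zero, le_rfl⟩
  down h := fun ⟨t, ht⟩ => ⟨t, h.trans ht⟩
  succ := fun ⟨t, ht⟩ => ⟨t.succ, by rw [Tm.ev_succ]; gcongr⟩
  add := fun ⟨s, hs⟩ ⟨t, ht⟩ => ⟨s.add t, by rw [Tm.ev_add]; gcongr⟩
  mul := fun ⟨s, hs⟩ ⟨t, ht⟩ => ⟨s.mul t, by rw [Tm.ev_mul]; gcongr⟩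
  smash := fun ⟨s, hs⟩ ⟨t, ht⟩ => ⟨s.smash t, smash_mono_len (len_mono hs) (len_mono ht)⟩

/-! ### The cut `Jc` -/

/-- below a double logarithm -/
def LL (m : M) : Prop := ∃ E : M, m ≤ len (len E)
/-- a cut closed under smash all of whose elements are lengths -/
def Jc (u : M) : Prop := ∀ m, LL m → LL (len u * m)
/-- below the length of an element of `Jc` -/
def Kc (y : M) : Prop := ∃ E, Jc E ∧ y ≤ len E

theorem pw_le (x : M) : pw x ≤ 2 * x + 1 := by
  by_cases h : x = 0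
  · simp [h]
  · rw [pw_half h]
    have := pw_half_le h
    zify at this ⊢
    linarith

theorem len_pw_mul_pw (x y : M) : len (pw x * pw y) = len x + len y + 1 := by
  rw [len_mul_pw (pw_pos x).ne', len_pw]; ring

theorem LL.down {m n : M} (h : m ≤ n) (hn : LL n) : LL m := hn.imp fun _ h' => h.trans h'

theorem LL.add {m n : M} (hm : LL m) (hn : LL n) : LL (m + n) := by
  obtain ⟨E, hE⟩ := hm
  obtain ⟨F, hF⟩ := hn
  refine ⟨smash (pw E * pw E) (pw F * pw F), ?_⟩
  have h1 : pw (len E) * pw (len F) ≤ len (smash (pw E * pw E) (pw F * pw F)) := by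
    rw [len_smash, len_pw_mul_pw, len_pw_mul_pw, ← two_mul, ← two_mul]
    exact le_trans (by gcongr <;> exact pw_le _) le_self_add
  refine le_trans ?_ (len_mono h1)
  rw [len_pw_mul_pw]
  exact le_trans (by gcongr) le_self_add

theorem LL.one : LL (1 : M) := ⟨1, by simp⟩

theorem Jc.of_le {u : M} {k : M} (h : len u ≤ k) (hk : ∀ m, LL m → LL (k * m)) : Jc u :=
  fun m hm => (hk m hm).down (by gcongr)

theorem isCut_Jc : IsCut (Jc : M → Prop) := by
  have mul : ∀ {x y : M}, Jc x → Jc y → Jc (x * y) := fun hx hy =>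
    Jc.of_le (len_mul_le _ _) fun m hm => by rw [add_mul]; exact (hx m hm).add (hy m hm)
  have add : ∀ {x y : M}, Jc x → Jc y → Jc (x + y) := fun {x y} hx hy =>
    Jc.of_le (k := len x + len y + 1)
      ((len_add_le _ _).trans (by gcongr; exact max_le le_self_add le_add_self)) fun m hm => by
      rw [add_mul, add_mul, one_mul]; exact ((hx m hm).add (hy m hm)).add hm
  refine ⟨fun m _ => ⟨0, by simp⟩, fun h hy => Jc.of_le (len_mono h) hy,
    fun hx => add hx fun m hm => by simpa using hm, add, mul, fun hx hy m hm => ?_⟩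
  rw [len_smash, add_mul, one_mul, mul_assoc]
  exact (hx _ (hy m hm)).add hm

theorem Jc.log {u : M} (h : Jc u) : ∃ E : M, u < len E := by
  obtain ⟨E, hE⟩ := h 1 LL.one
  rw [mul_one] at hE
  refine ⟨pw E * pw E, (lt_pw_iff.2 hE).trans_le ?_⟩
  rw [len_pw_mul_pw, ← two_mul]
  exact pw_le _

theorem Kc.zero : Kc (0 : M) := ⟨0, isCut_Jc.zero, zero_le' _⟩
theorem Kc.down {x y : M} (h : x ≤ y) (hy : Kc y) : Kc x := hy.imp fun _ h' => ⟨h'.1, h.trans h'.2⟩
theorem Kc.of_half {y : M} (h : Kc (half y)) : Kc y := by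
  obtain ⟨E, hE, h⟩ := h
  refine ⟨pw E * pw E, isCut_Jc.mul (isCut_Jc.pw hE) (isCut_Jc.pw hE), ?_⟩
  rw [len_pw_mul_pw]
  rcases half_spec y with e | e <;> rw [e] <;> zify at h ⊢ <;> linarith
theorem Kc.jc {y : M} (h : Kc y) : Jc y := by
  obtain ⟨E, hE, h⟩ := h
  exact isCut_Jc.down h (isCut_Jc.len hE)
theorem IsCut.of_half {I : M → Prop} (hI : IsCut I) {y : M} (h : I (MP_f18a41_lc.half y)) :
    I y := by
  refine hI.down ?_ (hI.succ (hI.mul hI.two h))
  rcases half_spec y with e | e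
  · exact e.le.trans le_self_add
  · exact e.le

instance ufLL {f : UFun b} [hf : UFn f] : UF fun M _ v => LL (f M v) :=
  UF.app1 (T := fun _ _ x => LL x) (by unfold LL; infer_instance) hf
instance ufJc {f : UFun b} [hf : UFn f] : UF fun M _ v => Jc (f M v) :=
  UF.app1 (T := fun _ _ x => Jc x) (by unfold Jc; infer_instance) hf
instance ufKc {f : UFun b} [hf : UFn f] : UF fun M _ v => Kc (f M v) :=
  UF.app1 (T := fun _ _ x => Kc x) (by unfold Kc; infer_instance) hf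

/-- the model on the cut `Jc` -/
abbrev Mdl.J (M : Mdl b) : Mdl b := (isCut_Jc (M := M)).mdl

/-- relativisation to `Jc` -/
theorem exists_rel (φ : Fm) : ∃ P : UPred b, UP P ∧ ∀ (M : Mdl b) (v : ℕ → M.J),
    P M (fun i => isCut_Jc.val (v i)) ↔ φ.ev M.J.toStr v := by
  induction φ with
  | bot => exact ⟨fun _ _ => False, inferInstance, fun _ _ => Iff.rfl⟩
  | eq s t => exact ⟨_, ⟨.eq s t, fun _ _ => Iff.rfl⟩,
      fun M v => (isCut_Jc.ev_cls (Cls.eq (full := true) true s t) v).symm⟩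
  | le s t => exact ⟨_, ⟨.le s t, fun _ _ => Iff.rfl⟩,
      fun M v => (isCut_Jc.ev_cls (Cls.le (full := true) true s t) v).symm⟩
  | imp φ ψ i1 i2 =>
    obtain ⟨P, h1, h2⟩ := i1
    obtain ⟨Q, h3, h4⟩ := i2
    have := h1.uf
    have := h3.uf
    exact ⟨fun M v => P M v → Q M v, inferInstance, fun M v => imp_congr (h2 M v) (h4 M v)⟩
  | all x φ ih =>
    obtain ⟨P, h1, h2⟩ := ih
    have : UF fun M _ v => P M (update (fun i => v (i + 1)) x (v 0)) :=
      (h1.uf.comp (fun i _ v => if i = x then v 0 else v (i + 1)) (fun i => by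
          by_cases e : i = x <;> simp only [e, if_true, if_false] <;> infer_instance)).congr
        fun M _ v => iff_of_eq (congrArg _ (funext fun i => by simp [update_apply]))
    refine ⟨fun M v => ∀ u, Jc u → P M (update v x u), inferInstance, fun M v => ?_⟩
    constructor
    · intro h u
      rw [← h2, isCut_Jc.val_upd]
      exact h _ (isCut_Jc.val_mem u)
    · intro h u hu
      have := h (isCut_Jc.elt u hu)
      rwa [← h2, isCut_Jc.val_upd] at this

/-- `y` lies in `Jc` and has the property `P` in the model on `Jc` -/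
def InJ (P : ∀ M : Mdl b, M → Prop) (M : Mdl b) (y : M) : Prop :=
  ∃ h : Jc y, P M.J (isCut_Jc.elt y h)

theorem InJ.up {P : ∀ M : Mdl b, M → Prop} (h : UP fun M v => P M (v 0)) :
    UP fun M v => InJ P M (v 0) := by
  obtain ⟨φ, hφ⟩ := h.out
  obtain ⟨Q, h1, h2⟩ := exists_rel (b := b) φ
  have := (h1.comp (fun _ _ v => v 0) fun _ => inferInstance).uf
  refine (inferInstance : UP fun M v => Jc (v 0) ∧ Q M fun _ => v 0).congr fun M v => ?_
  exact ⟨fun ⟨h, h'⟩ => ⟨h, (hφ M.J fun _ => isCut_Jc.elt (v 0) h).1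
      ((h2 M fun _ => isCut_Jc.elt (v 0) h).1 h')⟩,
    fun ⟨h, h'⟩ => ⟨h, (h2 M fun _ => isCut_Jc.elt (v 0) h).2
      ((hφ M.J fun _ => isCut_Jc.elt (v 0) h).2 h')⟩⟩

/-- truth in the model on `Jc` under the zero assignment is definable -/
theorem up_evJ (φ : Fm) : UP fun (M : Mdl b) _ => φ.ev M.J.toStr (fun _ => (0 : M.J)) := by
  obtain ⟨Q, h1, h2⟩ := exists_rel (b := b) φ
  exact (h1.comp (fun _ _ _ => 0) fun _ => inferInstance).congr fun M _ => h2 M fun _ => 0

end Pool.Agent.MP_f18a41_lc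

end MrgPart0

-- ======== part 1: formerly Pool.Agent.MP_f18a41_lc.Post
section MrgPart1

/-! The arithmetised calculus inside a model; codes of extended formulas; the box. -/

namespace Pool.Agent.MP_f18a41_lc

open Function

variable {b : Bool} {M : Mdl b}

/-! ### Judgements and codes -/

abbrev jT (p : M) : M := pr 0 p
abbrev jF (p : M) : M := pr 1 p
abbrev jN (x p : M) : M := pr 2 (pr x p)
abbrev jS (x u p q : M) : M := pr 3 (pr (pr x u) (pr p q))
abbrev jC (σ : Bool) (p : M) : M := pr ((if σ then 4 else 5 : ℕ) : M) p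
abbrev jP (p : M) : M := pr 6 p
abbrev cVar (x : M) : M := pr 0 x
abbrev cZero : M := pr 1 0
abbrev cBot : M := pr 8 0
abbrev cEq (s t : M) : M := pr 9 (pr s t)
abbrev cLe (s t : M) : M := pr 10 (pr s t)
abbrev cImp (p q : M) : M := pr 11 (pr p q)
abbrev cAll (x p : M) : M := pr 12 (pr x p)
abbrev cNeg (p : M) : M := cImp p cBot
abbrev cBall (x t p : M) : M := cAll x (cImp (cLe (cVar x) t) p)

/-- the value of a pattern -/
def Pat.ev (m : ℕ → M) : Pat → M
  | .mv i => m i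
  | .cst n => (n : M)
  | .pr p q => MP_f18a41_lc.pr (p.ev m) (q.ev m)

/-- `y` follows by one rule from judgements in `Pm` -/
inductive Rl (Pm : M → Prop) : M → Prop
  | tVar (a : M) : Rl Pm (jT (cVar a))
  | tZero : Rl Pm (jT cZero)
  | t1 (k : ℕ) (hk : k ∈ [2, 3, 4]) {a : M} : Pm (jT a) → Rl Pm (jT (pr k a))
  | t2 (k : ℕ) (hk : k ∈ [5, 6, 7]) {a c : M} : Pm (jT a) → Pm (jT c) → Rl Pm (jT (pr k (pr a c)))
  | fBot : Rl Pm (jF cBot)
  | fImp {a c : M} : Pm (jF a) → Pm (jF c) → Rl Pm (jF (cImp a c))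
  | fAll (a : M) {c : M} : Pm (jF c) → Rl Pm (jF (cAll a c))
  | f2 (k : ℕ) (hk : k ∈ [9, 10]) {a c : M} : Pm (jT a) → Pm (jT c) → Rl Pm (jF (pr k (pr a c)))
  | nVar {a c : M} : a ≠ c → Rl Pm (jN a (cVar c))
  | nZero (a : M) : Rl Pm (jN a cZero)
  | nBot (a : M) : Rl Pm (jN a cBot)
  | nSelf (a c : M) : Rl Pm (jN a (cAll a c))
  | nAll {a : M} (c : M) {d : M} : Pm (jN a d) → Rl Pm (jN a (cAll c d))
  | n1 (k : ℕ) (hk : k ∈ [2, 3, 4]) {a c : M} : Pm (jN a c) → Rl Pm (jN a (pr k c))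
  | n2 (k : ℕ) (hk : k ∈ [5, 6, 7, 9, 10, 11]) {a c d : M} :
      Pm (jN a c) → Pm (jN a d) → Rl Pm (jN a (pr k (pr c d)))
  | sVar (a u : M) : Rl Pm (jS a u (cVar a) u)
  | sN {a : M} (u : M) {c : M} : Pm (jN a c) → Rl Pm (jS a u c c)
  | sAll {a u c d e : M} : Pm (jN a (cVar c)) → Pm (jN c u) → Pm (jS a u d e) →
      Rl Pm (jS a u (cAll c d) (cAll c e))
  | s1 (k : ℕ) (hk : k ∈ [2, 3, 4]) {a u c d : M} :
      Pm (jS a u c d) → Rl Pm (jS a u (pr k c) (pr k d))
  | s2 (k : ℕ) (hk : k ∈ [5, 6, 7, 9, 10, 11]) {a u c d e f : M} :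
      Pm (jS a u c d) → Pm (jS a u e f) → Rl Pm (jS a u (pr k (pr c e)) (pr k (pr d f)))
  | kBot (σ : Bool) : Rl Pm (jC σ cBot)
  | kEq (σ : Bool) {a c : M} : Pm (jT a) → Pm (jT c) → Rl Pm (jC σ (cEq a c))
  | kLe (σ : Bool) {a c : M} : Pm (jT a) → Pm (jT c) → Rl Pm (jC σ (cLe a c))
  | kImp (σ : Bool) {a c : M} : Pm (jC (!σ) a) → Pm (jC σ c) → Rl Pm (jC σ (cImp a c))
  | kBall {a t c : M} : Pm (jT t) → Pm (jN a t) → Pm (jC false c) →
      Rl Pm (jC false (cBall a t c))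
  | kSharp {a t c : M} : Pm (jT t) → Pm (jN a t) → Pm (jC true c) →
      Rl Pm (jC true (cBall a (pr 3 t) c))
  | kWide {a t c : M} : b = true → Pm (jT t) → Pm (jN a t) → Pm (jC true c) →
      Rl Pm (jC true (cBall a t c))
  | pK {a c : M} : Pm (jF a) → Pm (jF c) → Rl Pm (jP (cImp a (cImp c a)))
  | pS {a c d : M} : Pm (jF a) → Pm (jF c) → Pm (jF d) →
      Rl Pm (jP (cImp (cImp a (cImp c d)) (cImp (cImp a c) (cImp a d))))
  | pDn {a : M} : Pm (jF a) → Rl Pm (jP (cImp (cNeg (cNeg a)) a))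
  | pInst {a u c d : M} : Pm (jF c) → Pm (jT u) → Pm (jS a u c d) →
      Rl Pm (jP (cImp (cAll a c) d))
  | pDist (a : M) {c d : M} : Pm (jF c) → Pm (jF d) →
      Rl Pm (jP (cImp (cAll a (cImp c d)) (cImp (cAll a c) (cAll a d))))
  | pVac {a c : M} : Pm (jF c) → Pm (jN a c) → Rl Pm (jP (cImp c (cAll a c)))
  | pMp {a c : M} : Pm (jP (cImp a c)) → Pm (jP a) → Rl Pm (jP c)
  | pGen (a : M) {c : M} : Pm (jP c) → Rl Pm (jP (cAll a c))
  | pInd {a c d e : M} : Pm (jC true c) → Pm (jS a cZero c d) → Pm (jS a (pr 4 (cVar a)) c e) →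
      Rl Pm (jP (cImp d (cImp (cAll a (cImp e c)) (cAll a c))))
  | pAx {φ : Fm} : φ ∈ eqAx ++ basic → Rl Pm (jP ((φ.code : ℕ) : M))

theorem Rl.mono {Pm Pm' : M → Prop} (h : ∀ j, Pm j → Pm' j) {y : M} (hy : Rl Pm y) :
    Rl Pm' y := by
  cases hy with
  | tVar a => exact .tVar a
  | tZero  => exact .tZero
  | t1 k hk h0 => exact .t1 k hk (h _ h0)
  | t2 k hk h0 h1 => exact .t2 k hk (h _ h0) (h _ h1)
  | fBot  => exact .fBot
  | fImp h0 h1 => exact .fImp (h _ h0) (h _ h1)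
  | fAll a h0 => exact .fAll a (h _ h0)
  | f2 k hk h0 h1 => exact .f2 k hk (h _ h0) (h _ h1)
  | nVar h0 => exact .nVar h0
  | nZero a => exact .nZero a
  | nBot a => exact .nBot a
  | nSelf a c => exact .nSelf a c
  | nAll c h0 => exact .nAll c (h _ h0)
  | n1 k hk h0 => exact .n1 k hk (h _ h0)
  | n2 k hk h0 h1 => exact .n2 k hk (h _ h0) (h _ h1)
  | sVar a u => exact .sVar a u
  | sN u h0 => exact .sN u (h _ h0)
  | sAll h0 h1 h2 => exact .sAll (h _ h0) (h _ h1) (h _ h2)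
  | s1 k hk h0 => exact .s1 k hk (h _ h0)
  | s2 k hk h0 h1 => exact .s2 k hk (h _ h0) (h _ h1)
  | kBot σ => exact .kBot σ
  | kEq σ h0 h1 => exact .kEq σ (h _ h0) (h _ h1)
  | kLe σ h0 h1 => exact .kLe σ (h _ h0) (h _ h1)
  | kImp σ h0 h1 => exact .kImp σ (h _ h0) (h _ h1)
  | kBall h0 h1 h2 => exact .kBall (h _ h0) (h _ h1) (h _ h2)
  | kSharp h0 h1 h2 => exact .kSharp (h _ h0) (h _ h1) (h _ h2)
  | kWide h0 h1 h2 h3 => exact .kWide h0 (h _ h1) (h _ h2) (h _ h3)
  | pK h0 h1 => exact .pK (h _ h0) (h _ h1)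
  | pS h0 h1 h2 => exact .pS (h _ h0) (h _ h1) (h _ h2)
  | pDn h0 => exact .pDn (h _ h0)
  | pInst h0 h1 h2 => exact .pInst (h _ h0) (h _ h1) (h _ h2)
  | pDist a h0 h1 => exact .pDist a (h _ h0) (h _ h1)
  | pVac h0 h1 => exact .pVac (h _ h0) (h _ h1)
  | pMp h0 h1 => exact .pMp (h _ h0) (h _ h1)
  | pGen a h0 => exact .pGen a (h _ h0)
  | pInd h0 h1 h2 => exact .pInd (h _ h0) (h _ h1) (h _ h2)
  | pAx h0 => exact .pAx h0

theorem Rl.ne_zero {Pm : M → Prop} {y : M} (hy : Rl Pm y) : y ≠ 0 := by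
  cases hy <;> exact pr_ne_zero _ _

/-- `y` follows by one rule from rows before row `i` -/
def Step (s a i y : M) : Prop := Rl (fun j => ∃ k < i, row s a k = j) y
/-- the array is a derivation from the hypotheses `H` -/
def HDer (H : M → Prop) (s a : M) : Prop :=
  ∀ i ≤ len s, row s a i = 0 ∨ H (row s a i) ∨ Step s a i (row s a i)
/-- `y` is a row of the array -/
def Mem (y s a : M) : Prop := ∃ i ≤ len s, row s a i = y
/-- derivable from the hypotheses `H` -/
def HD (H : M → Prop) (y : M) : Prop := ∃ s a, HDer H s a ∧ Mem y s a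
/-- derivable -/
def Dv (y : M) : Prop := HD (fun _ => False) y
/-- derivable by a derivation below `q` -/
def Pf (y q : M) : Prop := ∃ s ≤ q, ∃ a ≤ q, HDer (fun _ => False) s a ∧ Mem y s a

theorem HDer.mono {H H' : M → Prop} (h : ∀ j, H j → H' j) {s a : M} (hs : HDer H s a) :
    HDer H' s a := fun i hi => (hs i hi).imp_right (Or.imp_left (h _))
theorem HD.mono {H H' : M → Prop} (h : ∀ j, H j → H' j) {y : M} (hy : HD H y) : HD H' y :=
  let ⟨s, a, h1, h2⟩ := hy; ⟨s, a, h1.mono h, h2⟩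
theorem Dv.hd {y : M} (h : Dv y) (H : M → Prop) : HD H y := HD.mono (fun _ h => h.elim) h
theorem Pf.dv {y q : M} (h : Pf y q) : Dv y := let ⟨s, _, a, _, h⟩ := h; ⟨s, a, h⟩
theorem Pf.mono {y q q' : M} (h : Pf y q) (e : q ≤ q') : Pf y q' :=
  let ⟨s, hs, a, ha, h⟩ := h; ⟨s, hs.trans e, a, ha.trans e, h⟩
theorem Dv.pf {y : M} (h : Dv y) : ∃ q, Pf y q :=
  let ⟨s, a, h⟩ := h; ⟨s + a, s, le_self_add, a, le_add_self, h⟩
theorem Mem.le {y s a : M} (h : Mem y s a) : y ≤ s := by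
  obtain ⟨i, _, rfl⟩ := h; exact row_le _ _ _

/-- the step relation is `Σ^b_1` (proved in row POSTA) -/
class HasPost (b : Bool) : Prop where
  out : USig fun (_ : Mdl b) v => Step (v 0) (v 1) (v 2) (v 3)

section Inst
variable {f g h k : UFun b}

instance sigMem [hf : UFn f] [hg : UFn g] [hh : UFn h] :
    USig fun M v => Mem (f M v) (g M v) (h M v) :=
  ⟨UC.app3 (P := fun _ y s a => Mem y s a) (by unfold Mem; exact USig.out) hf hg hh⟩

variable [hp : HasPost b]

instance sigStep [hf : UFn f] [hg : UFn g] [hh : UFn h] [hk : UFn k] :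
    USig fun M v => Step (f M v) (g M v) (h M v) (k M v) :=
  ⟨UC.app4 (P := fun _ s a i y => Step s a i y) hp.out.out hf hg hh hk⟩
instance sigDer [hf : UFn f] [hg : UFn g] :
    USig fun M v => HDer (fun _ => False) (f M v) (g M v) :=
  ⟨UC.app2 (P := fun _ s a => HDer (fun _ => False) s a) (by unfold HDer; exact USig.out) hf hg⟩
instance sigDer1 [hf : UFn f] [hg : UFn g] [hh : UFn h] :
    USig fun M v => HDer (fun j => j = f M v) (g M v) (h M v) :=
  ⟨UC.app3 (P := fun _ y s a => HDer (fun j => j = y) s a) (by unfold HDer; exact USig.out)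
    hf hg hh⟩
instance sigPf [hf : UFn f] [hg : UFn g] : USig fun M v => Pf (f M v) (g M v) :=
  ⟨UC.app2 (P := fun _ y q => Pf y q) (by unfold Pf; exact USig.out) hf hg⟩
instance ufDv [hf : UFn f] : UF fun M _ v => Dv (f M v) :=
  UF.app1 (T := fun _ _ y => Dv y) (by unfold Dv HD; infer_instance) hf

end Inst

/-- closed under the rules -/
def Clo (D : M → Prop) : Prop := ∀ y, Rl D y → D y

/-- closed under the rules and containing everything derivable -/
structure Th (D : M → Prop) : Prop where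
  clo : Clo D
  dv : ∀ y, Dv y → D y

/-! ### Codes of extended terms and formulas -/

/-- the code of an extended term: variables are renamed by `ι`, constant `k` becomes `c k` -/
def ETm.cd (ι : ℕ → ℕ) (c : ℕ → M) : ETm → M
  | var x => cVar (ι x : M)
  | cst k => c k
  | zero => cZero
  | succ t => pr 2 (t.cd ι c)
  | len t => pr 3 (t.cd ι c)
  | half t => pr 4 (t.cd ι c)
  | add s t => pr 5 (pr (s.cd ι c) (t.cd ι c))
  | mul s t => pr 6 (pr (s.cd ι c) (t.cd ι c))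
  | smash s t => pr 7 (pr (s.cd ι c) (t.cd ι c))

/-- the code of an extended formula: `prd k t` becomes `∀ p (p = t → ψ k)` -/
def EFm.cd (ι : ℕ → ℕ) (p : ℕ) (c ψ : ℕ → M) : EFm → M
  | bot => cBot
  | eq s t => cEq (s.cd ι c) (t.cd ι c)
  | le s t => cLe (s.cd ι c) (t.cd ι c)
  | imp φ χ => cImp (φ.cd ι p c ψ) (χ.cd ι p c ψ)
  | all x φ => cAll (ι x : M) (φ.cd ι p c ψ)
  | prd k t => cAll (p : M) (cImp (cEq (cVar (p : M)) (t.cd ι c)) (ψ k))

/-- a good environment: the `c k` are closed terms, the `ψ k` formulas with only `p` free -/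
structure Good (D : M → Prop) (ι : ℕ → ℕ) (p : ℕ) (c ψ : ℕ → M) : Prop where
  inj : Injective ι
  low : ∀ n < 5, ι n = n
  ne : ∀ n, ι n ≠ p
  tm : ∀ k, D (jT (c k))
  nc : ∀ k (x : ℕ), D (jN (x : M) (c k))
  fm : ∀ k, D (jF (ψ k))
  nf : ∀ k (x : ℕ), x ≠ p → D (jN (x : M) (ψ k))

/-- the renaming that avoids `p` -/
def skip (p n : ℕ) : ℕ := if n < p then n else n + 1

theorem skip_inj (p : ℕ) : Injective (skip p) := by
  intro m n h; unfold skip at h; split_ifs at h <;> omega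
theorem skip_ne (p n : ℕ) : skip p n ≠ p := by unfold skip; split_ifs <;> omega
theorem skip_lt {p n : ℕ} (h : n < p) : skip p n = n := if_pos h

theorem ETm.cd_congr {ι ι' : ℕ → ℕ} {c c' : ℕ → M} (t : ETm) (h : ∀ n < t.mx, ι n = ι' n)
    (h' : ∀ n < t.mx, c n = c' n) : t.cd ι c = t.cd ι' c' := by
  induction t with
  | var x => simp only [ETm.cd, h x (Nat.lt_succ_self x)]
  | cst k => exact h' k (Nat.lt_succ_self k)
  | zero => rfl
  | succ t ih | len t ih | half t ih => simp only [ETm.cd, ih h h']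
  | add s t i1 i2 | mul s t i1 i2 | smash s t i1 i2 =>
    simp only [ETm.cd, i1 (fun n hn => h n (lt_max_of_lt_left hn))
      (fun n hn => h' n (lt_max_of_lt_left hn)), i2 (fun n hn => h n (lt_max_of_lt_right hn))
      (fun n hn => h' n (lt_max_of_lt_right hn))]

theorem EFm.cd_congr {ι ι' : ℕ → ℕ} {p : ℕ} {c c' ψ ψ' : ℕ → M} (φ : EFm)
    (h : ∀ n < φ.mx, ι n = ι' n) (h' : ∀ n < φ.mx, c n = c' n) (h'' : ∀ n < φ.mx, ψ n = ψ' n) :
    φ.cd ι p c ψ = φ.cd ι' p c' ψ' := by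
  induction φ with
  | bot => rfl
  | eq s t | le s t =>
    simp only [EFm.cd, s.cd_congr (fun n hn => h n (lt_max_of_lt_left hn))
      (fun n hn => h' n (lt_max_of_lt_left hn)), t.cd_congr (fun n hn => h n (lt_max_of_lt_right hn))
      (fun n hn => h' n (lt_max_of_lt_right hn))]
  | imp φ χ i1 i2 =>
    simp only [EFm.cd, i1 (fun n hn => h n (lt_max_of_lt_left hn))
      (fun n hn => h' n (lt_max_of_lt_left hn)) (fun n hn => h'' n (lt_max_of_lt_left hn)),
      i2 (fun n hn => h n (lt_max_of_lt_right hn)) (fun n hn => h' n (lt_max_of_lt_right hn))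
      (fun n hn => h'' n (lt_max_of_lt_right hn))]
  | all x φ ih =>
    simp only [EFm.cd, h x (lt_max_of_lt_left (Nat.lt_succ_self x)),
      ih (fun n hn => h n (lt_max_of_lt_right hn)) (fun n hn => h' n (lt_max_of_lt_right hn))
      (fun n hn => h'' n (lt_max_of_lt_right hn))]
  | prd k t =>
    simp only [EFm.cd, h'' k (lt_max_of_lt_left (Nat.lt_succ_self k)),
      t.cd_congr (fun n hn => h n (lt_max_of_lt_right hn)) (fun n hn => h' n (lt_max_of_lt_right hn))]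

/-- without predicate letters the code does not depend on `p` and `ψ` -/
theorem Fm.cd_cl (ι : ℕ → ℕ) (p p' : ℕ) (c ψ ψ' : ℕ → M) (φ : Fm) :
    ∀ B, (φ.e.cl B).cd ι p c ψ = (φ.e.cl B).cd ι p' c ψ' := by
  induction φ with
  | bot | eq | le => intro _; rfl
  | imp φ χ i1 i2 => intro B; simp only [Fm.e, EFm.cl, EFm.cd, i1 B, i2 B]
  | all x φ ih => intro B; simp only [Fm.e, EFm.cl, EFm.cd, ih]

theorem Tm.cd_e (ι : ℕ → ℕ) (c : ℕ → M) (t : Tm) : t.e.cd ι c = ((t.ren ι).code : ℕ) := by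
  induction t with
  | var x => simp [Tm.e, ETm.cd, Tm.ren, Tm.code, cast_npr]
  | zero => simp [Tm.e, ETm.cd, Tm.ren, Tm.code, cast_npr]
  | succ t ih | len t ih | half t ih => simp [Tm.e, ETm.cd, Tm.ren, Tm.code, cast_npr, ih]
  | add s t i1 i2 | mul s t i1 i2 | smash s t i1 i2 =>
    simp [Tm.e, ETm.cd, Tm.ren, Tm.code, cast_npr, i1, i2]

theorem Fm.cd_e (ι : ℕ → ℕ) (p : ℕ) (c ψ : ℕ → M) (φ : Fm) :
    φ.e.cd ι p c ψ = ((φ.ren ι).code : ℕ) := by
  induction φ with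
  | bot => simp [Fm.e, EFm.cd, Fm.ren, Fm.code, cast_npr]
  | eq s t | le s t => simp [Fm.e, EFm.cd, Fm.ren, Fm.code, cast_npr, Tm.cd_e]
  | imp φ χ i1 i2 => simp [Fm.e, EFm.cd, Fm.ren, Fm.code, cast_npr, i1, i2]
  | all x φ ih => simp [Fm.e, EFm.cd, Fm.ren, Fm.code, cast_npr, ih]

theorem ETm.fn_cd (ι : ℕ → ℕ) {c : ℕ → UFun b} (hc : ∀ k, UFn (c k)) (t : ETm) :
    UFn fun M v => t.cd ι (fun k => c k M v) := by
  induction t with
  | cst k => exact hc k
  | var | zero | succ | len | half | add | mul | smash => simp only [ETm.cd]; infer_instance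

theorem EFm.fn_cd (ι : ℕ → ℕ) (p : ℕ) {c ψ : ℕ → UFun b} (hc : ∀ k, UFn (c k))
    (hψ : ∀ k, UFn (ψ k)) (φ : EFm) :
    UFn fun M v => φ.cd ι p (fun k => c k M v) (fun k => ψ k M v) := by
  induction φ with
  | bot | imp | all => simp only [EFm.cd]; infer_instance
  | eq s t | le s t =>
    have := s.fn_cd ι hc
    have := t.fn_cd ι hc
    simp only [EFm.cd]; infer_instance
  | prd k t =>
    have := t.fn_cd ι hc
    have := hψ k
    simp only [EFm.cd]; infer_instance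

/-- rename the constants -/
def ETm.rn (g : ℕ → ℕ) : ETm → ETm
  | var x => var x
  | cst k => cst (g k)
  | zero => zero
  | succ t => succ (t.rn g)
  | len t => len (t.rn g)
  | half t => half (t.rn g)
  | add s t => add (s.rn g) (t.rn g)
  | mul s t => mul (s.rn g) (t.rn g)
  | smash s t => smash (s.rn g) (t.rn g)

/-- rename the constants and the predicate letters -/
def EFm.rn (g h : ℕ → ℕ) : EFm → EFm
  | bot => bot
  | eq s t => eq (s.rn g) (t.rn g)
  | le s t => le (s.rn g) (t.rn g)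
  | imp φ χ => imp (φ.rn g h) (χ.rn g h)
  | all x φ => all x (φ.rn g h)
  | prd k t => prd (h k) (t.rn g)

theorem ETm.ev_rn {S : Str} (g : ℕ → ℕ) (c v : ℕ → S.α) (t : ETm) :
    (t.rn g).ev S c v = t.ev S (fun i => c (g i)) v := by
  induction t with
  | var | cst | zero => rfl
  | succ t ih | len t ih | half t ih => simp only [ETm.rn, ETm.ev, ih]
  | add s t i1 i2 | mul s t i1 i2 | smash s t i1 i2 => simp only [ETm.rn, ETm.ev, i1, i2]

theorem EFm.ev_rn {S : Str} (g h : ℕ → ℕ) (c : ℕ → S.α) (X : ℕ → S.α → Prop) (φ : EFm) :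
    ∀ v, (φ.rn g h).ev S c X v ↔ φ.ev S (fun i => c (g i)) (fun i => X (h i)) v := by
  induction φ with
  | bot => intro _; rfl
  | eq s t | le s t | prd k t => intro v; simp only [EFm.rn, EFm.ev, ETm.ev_rn]
  | imp φ χ i1 i2 => intro v; simp only [EFm.rn, EFm.ev, i1, i2]
  | all x φ ih => intro v; simp only [EFm.rn, EFm.ev, ih]

theorem ETm.cd_rn (g ι : ℕ → ℕ) (c : ℕ → M) (t : ETm) :
    (t.rn g).cd ι c = t.cd ι (fun i => c (g i)) := by
  induction t with
  | var | cst | zero => rfl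
  | succ t ih | len t ih | half t ih => simp only [ETm.rn, ETm.cd, ih]
  | add s t i1 i2 | mul s t i1 i2 | smash s t i1 i2 => simp only [ETm.rn, ETm.cd, i1, i2]

theorem EFm.cd_rn (g h ι : ℕ → ℕ) (p : ℕ) (c ψ : ℕ → M) (φ : EFm) :
    (φ.rn g h).cd ι p c ψ = φ.cd ι p (fun i => c (g i)) (fun i => ψ (h i)) := by
  induction φ with
  | bot => rfl
  | eq s t | le s t | prd k t => simp only [EFm.rn, EFm.cd, ETm.cd_rn]
  | imp φ χ i1 i2 => simp only [EFm.rn, EFm.cd, i1, i2]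
  | all x φ ih => simp only [EFm.rn, EFm.cd, ih]

theorem ETm.occ_er (x : ℕ) (t : ETm) : t.er.occ x ↔ t.occ x := by
  induction t with
  | var | cst | zero => rfl
  | succ t ih | len t ih | half t ih => exact ih
  | add s t i1 i2 | mul s t i1 i2 | smash s t i1 i2 => exact or_congr i1 i2

theorem EFm.free_er {x : ℕ} {φ : EFm} (h : φ.er.free x) : φ.free x := by
  induction φ with
  | bot => exact h
  | eq s t | le s t => exact h.imp (s.occ_er x).1 (t.occ_er x).1
  | imp φ χ i1 i2 => exact h.imp i1 i2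
  | all y φ ih => exact ⟨h.1, ih h.2⟩
  | prd k t => exact h.elim

/-- a defining formula whose free variables lie in `B` -/
theorem UP.free_sub {P : UPred b} (h : UP P) (B : List ℕ) : ∃ φ : Fm, (∀ x, φ.free x → x ∈ B) ∧
    ∀ (N : Mdl b) (v : ℕ → N), φ.ev N.toStr v ↔ P N (fun i => if i ∈ B then v i else 0) := by
  obtain ⟨φ, h⟩ := h.out
  exact ⟨(φ.e.cl B).er, fun x hx => EFm.free_cl (EFm.free_er hx), fun N v => by
    rw [EFm.ev_er, EFm.ev_cl, Fm.ev_e, h]; rfl⟩

/-- the code of `φ` with the numeral of `x i` for the free variable `i` -/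
noncomputable def cdn (φ : Fm) (x : ℕ → M) : M :=
  (φ.e.cl []).cd id 0 (fun k => nm (x k)) (fun _ => cBot)

theorem fn_cdn (φ : Fm) {g : ℕ → UFun b} (hg : ∀ k, UFn (g k)) :
    UFn fun M v => cdn φ (fun k => g k M v) :=
  EFm.fn_cd id 0 (c := fun k M v => nm (g k M v)) (ψ := fun _ _ _ => cBot)
    (fun k => by have := hg k; infer_instance) (fun _ => inferInstance) _

/-- `cdn` in the form needed for instantiation -/
theorem cdn_eq (φ : Fm) (x : ℕ → M) {p : ℕ} (hp : (φ.e.cl []).mx ≤ p) (ψ : ℕ → M) :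
    cdn φ x = (φ.e.cl []).cd (skip p) p (fun k => nm (x k)) ψ := by
  rw [cdn, Fm.cd_cl id 0 p _ _ ψ]
  exact EFm.cd_congr _ (fun n hn => (skip_lt (hn.trans_le hp)).symm) (fun _ _ => rfl)
    fun _ _ => rfl

/-! ### The box -/

/-- `D` proves `P` at the numerals of `x` -/
def BoxD (D : M → Prop) (P : UPred b) (x : ℕ → M) : Prop :=
  ∃ φ : Fm, (∀ (N : Mdl b) (v : ℕ → N), φ.ev N.toStr v ↔ P N v) ∧ D (jP (cdn φ x))

theorem BoxD.up {D : M → Prop} {P : UPred b} {x : ℕ → M} (h : BoxD D P x) : UP P :=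
  let ⟨φ, h, _⟩ := h; ⟨φ, h⟩
theorem BoxD.mono {D D' : M → Prop} {P : UPred b} {x : ℕ → M} (h : BoxD D P x)
    (e : ∀ y, D y → D' y) : BoxD D' P x :=
  let ⟨φ, h, h'⟩ := h; ⟨φ, h, e _ h'⟩
theorem BoxD.congr {D : M → Prop} {P Q : UPred b} {x : ℕ → M} (h : BoxD D P x)
    (e : ∀ N v, P N v ↔ Q N v) : BoxD D Q x :=
  let ⟨φ, h, h'⟩ := h; ⟨φ, fun N v => (h N v).trans (e N v), h'⟩

abbrev Box0 (D : M → Prop) (P : Mdl b → Prop) : Prop :=
  BoxD D (fun N _ => P N) (fun _ => 0)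
abbrev Box1 (D : M → Prop) (P : ∀ N : Mdl b, N → Prop) (x : M) : Prop :=
  BoxD D (fun N v => P N (v 0)) (fun _ => x)
abbrev Box2 (D : M → Prop) (P : ∀ N : Mdl b, N → N → Prop) (x y : M) : Prop :=
  BoxD D (fun N v => P N (v 0) (v 1)) (cons x fun _ => y)
abbrev Box3 (D : M → Prop) (P : ∀ N : Mdl b, N → N → N → Prop) (x y z : M) : Prop :=
  BoxD D (fun N v => P N (v 0) (v 1) (v 2)) (cons x (cons y fun _ => z))

end Pool.Agent.MP_f18a41_lc

end MrgPart1

-- ======== part 2: formerly Pool.Agent.MP_f18a41_lc.Sem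
section MrgPart2

/-! Coded assignments, truth classes, validity of judgements. -/

namespace Pool.Agent.MP_f18a41_lc

open Function

variable {b : Bool} {M : Mdl b}

/-! ### Assignments -/

/-- the value of variable `i` under the coded assignment `a` -/
noncomputable def look (a i : M) : M := row (fst a) (snd a) i
/-- the assignments agree except possibly at `x` -/
def Upd (a x a' : M) : Prop := ∀ i, i ≠ x → look a' i = look a i

theorem look_le (a i : M) : look a i ≤ a := (row_le _ _ _).trans (fst_le a)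
@[simp] theorem look_zero (i : M) : look 0 i = 0 := le_antisymm (look_le _ _) (zero_le' _)
theorem look_big {a i : M} (h : len a < i) : look a i = 0 :=
  row_big _ ((len_mono (fst_le a)).trans_lt h)
theorem Upd.refl (a x : M) : Upd a x a := fun _ _ => rfl
theorem Upd.symm {a x a' : M} (h : Upd a x a') : Upd a' x a := fun i hi => (h i hi).symm
theorem Upd.trans {a x a' a'' : M} (h : Upd a x a') (h' : Upd a' x a'') : Upd a x a'' :=
  fun i hi => (h' i hi).trans (h i hi)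
theorem Upd.ext {a x a' : M} (h : Upd a x a') (e : look a' x = look a x) (i : M) :
    look a' i = look a i := by
  by_cases hi : i = x
  · rw [hi, e]
  · exact h i hi

theorem upd_iff {a x a' : M} :
    Upd a x a' ↔ ∀ i ≤ len (a + a'), i ≠ x → look a' i = look a i := by
  refine ⟨fun h i _ => h i, fun h i hi => ?_⟩
  rcases le_or_gt i (len (a + a')) with h1 | h1
  · exact h i h1 hi
  · rw [look_big ((len_mono le_add_self).trans_lt h1), look_big ((len_mono le_self_add).trans_lt h1)]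

section Inst
variable {f g h : UFun b}
instance fnLook [hf : UFn f] [hg : UFn g] : UFn fun M v => look (f M v) (g M v) := by
  unfold look; infer_instance
instance sigUpd [hf : UFn f] [hg : UFn g] [hh : UFn h] :
    USig fun M v => Upd (f M v) (g M v) (h M v) :=
  ⟨UC.app3 (P := fun _ a x a' => Upd a x a')
    ((inferInstance : USig fun (_ : Mdl b) v => ∀ i ≤ len (v 0 + v 2), i ≠ v 1 →
      look (v 2) i = look (v 0) i).out.congr fun _ _ => upd_iff.symm) hf hg hh⟩
instance piUpd [hf : UFn f] [hg : UFn g] [hh : UFn h] :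
    UPi fun M v => Upd (f M v) (g M v) (h M v) :=
  ⟨UC.app3 (P := fun _ a x a' => Upd a x a')
    ((inferInstance : UPi fun (_ : Mdl b) v => ∀ i ≤ len (v 0 + v 2), i ≠ v 1 →
      look (v 2) i = look (v 0) i).out.congr fun _ _ => upd_iff.symm) hf hg hh⟩
end Inst

theorem upd_exists {a u A B e x : M} (ha : a ≤ A) (hu : u ≤ B) (hx : x ≤ len e) :
    ∃ a' ≤ pr (smash (A + B) (pw A * pw e)) (A + B), Upd a x a' ∧ look a' x = u := by
  classical
  obtain ⟨s, hs, h⟩ := arr_fn (fun _ i v => if i = v 1 then v 2 else look (v 0) i)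
    (vec [a, x, u]) (A + B) (pw A * pw e) (fun i _ => by
      refine len_mono ?_
      show (if i = x then u else look a i) ≤ _
      split_ifs
      · exact hu.trans le_add_self
      · exact ((look_le _ _).trans ha).trans le_self_add)
  change ∀ i < len (pw A * pw e), row s (A + B) i = if i = x then u else look a i at h
  rw [len_pw_mul_pw] at h
  refine ⟨pr s (A + B), pr_mono hs.le le_rfl, fun i hi => ?_, ?_⟩
  · rw [look, fst_pr, snd_pr]
    rcases lt_or_ge i (len A + len e + 1) with h1 | h1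
    · rw [h i h1, if_neg hi]
    · rw [row_zero_of_lt hs (by rwa [len_pw_mul_pw]),
        look_big ((len_mono ha).trans_lt (succ_le_iff.1 (le_trans (by gcongr; exact le_self_add) h1)))]
  · rw [look, fst_pr, snd_pr, h x (lt_succ_iff.2 (hx.trans le_add_self)), if_pos rfl]

/-- updates of bounded assignments are bounded in `Jc` -/
theorem upd_bd {A B x : M} (hA : Jc A) (hB : Jc B) (hx : Kc x) :
    ∃ A', Jc A' ∧ ∀ a ≤ A, ∀ u ≤ B, ∃ a' ≤ A', Upd a x a' ∧ look a' x = u := by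
  obtain ⟨e, he, hx⟩ := hx
  have J := isCut_Jc (M := M)
  exact ⟨_, J.pr (J.smash (J.add hA hB) (J.mul (J.pw hA) (J.pw he))) (J.add hA hB),
    fun a ha u hu => upd_exists ha hu hx⟩

theorem upd_J {a u x : M} (ha : Jc a) (hu : Jc u) (hx : Kc x) :
    ∃ a', Jc a' ∧ Upd a x a' ∧ look a' x = u := by
  obtain ⟨A', h1, h2⟩ := upd_bd ha hu hx
  obtain ⟨a', h3, h4⟩ := h2 a le_rfl u le_rfl
  exact ⟨a', isCut_Jc.down h3 h1, h4⟩

theorem Jc.look {a : M} (h : Jc a) (i : M) : Jc (look a i) := isCut_Jc.down (look_le a i) h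

/-! ### One-occurrence operators -/

/-- the operator determined by `Node` and `Sub` -/
def Gam (Node : M → M → Prop) (Sub : M → M → M → Prop) (X : M → Prop) (q : M) : Prop :=
  ∃ d, Node q d ∧ ∀ q', Sub q d q' → X q'
/-- `X` is a fixed point of the operator below rank `n` -/
def Tar (Node : M → M → Prop) (Sub : M → M → M → Prop) (rk : M → M) (X : M → Prop) (n : M) :
    Prop := ∀ q, rk q < n → (X q ↔ Gam Node Sub X q)
/-- induction for `Ψ` up to the length of `y` -/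
def Ind (Ψ : M → Prop) (y : M) : Prop := Ψ 0 → (∀ i < len y, Ψ i → Ψ (i + 1)) → Ψ (len y)

/-! ### Truth classes -/

/-- query: the formula `c` has truth value `σ` under `a` -/
abbrev qF (c a σ : M) : M := pr (pr c a) (pr 0 σ)
/-- query: the term `c` has value `y` under `a` -/
abbrev qT (c a y : M) : M := pr (pr c a) (pr 1 y)
def Sat (X : M → Prop) (c a : M) : Prop := X (qF c a 1)
def Val (X : M → Prop) (c a y : M) : Prop := X (qT c a y)
/-- not a variable and not a compound term -/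
def NT (c : M) : Prop := ∀ s t : M, c ≠ cVar t ∧ c ≠ pr 2 t ∧ c ≠ pr 3 t ∧ c ≠ pr 4 t ∧
  c ≠ pr 5 (pr s t) ∧ c ≠ pr 6 (pr s t) ∧ c ≠ pr 7 (pr s t)
/-- not an equation, inequality, implication or generalisation -/
def NF (c : M) : Prop := ∀ s t : M, c ≠ cEq s t ∧ c ≠ cLe s t ∧ c ≠ cImp s t ∧ c ≠ cAll s t

/-- `X` is a truth class, with quantifiers ranging over `Jc`, for the codes of length below `n` -/
structure TS (X : M → Prop) (n : M) : Prop where
  ex : ∀ {c : M} (a : M), len c < n → ∃ y, Val X c a y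
  uniq : ∀ {c a y y' : M}, len c < n → Val X c a y → Val X c a y' → y = y'
  var : ∀ {x : M} (a : M), len (cVar x) < n → Val X (cVar x) a (look a x)
  suc : ∀ {t a z : M}, len (pr 2 t) < n → Val X t a z → Val X (pr 2 t) a (z + 1)
  ln : ∀ {t a z : M}, len (pr 3 t) < n → Val X t a z → Val X (pr 3 t) a (len z)
  hf : ∀ {t a z : M}, len (pr 4 t) < n → Val X t a z → Val X (pr 4 t) a (half z)
  add : ∀ {s t a z w : M}, len (pr 5 (pr s t)) < n → Val X s a z → Val X t a w →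
    Val X (pr 5 (pr s t)) a (z + w)
  mul : ∀ {s t a z w : M}, len (pr 6 (pr s t)) < n → Val X s a z → Val X t a w →
    Val X (pr 6 (pr s t)) a (z * w)
  sm : ∀ {s t a z w : M}, len (pr 7 (pr s t)) < n → Val X s a z → Val X t a w →
    Val X (pr 7 (pr s t)) a (smash z w)
  nt : ∀ {c : M} (a : M), len c < n → NT c → Val X c a 0
  eq : ∀ {s t a z w : M}, len (cEq s t) < n → Val X s a z → Val X t a w →
    (Sat X (cEq s t) a ↔ z = w)
  le : ∀ {s t a z w : M}, len (cLe s t) < n → Val X s a z → Val X t a w →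
    (Sat X (cLe s t) a ↔ z ≤ w)
  imp : ∀ {c d : M} (a : M), len (cImp c d) < n →
    (Sat X (cImp c d) a ↔ (Sat X c a → Sat X d a))
  all : ∀ {x c : M} (a : M), len (cAll x c) < n →
    (Sat X (cAll x c) a ↔ ∀ a', Jc a' → Upd a x a' → Sat X c a')
  nf : ∀ {c : M} (a : M), len c < n → NF c → ¬ Sat X c a
  invT : ∀ {c a a' y : M}, len c < n → (∀ i, look a' i = look a i) →
    Val X c a y → Val X c a' y
  invF : ∀ {c a a' : M}, len c < n → (∀ i, look a' i = look a i) →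
    Sat X c a → Sat X c a'
  tab : ∀ {c A : M}, len c < n → Jc A →
    ∃ B s, Jc B ∧ ∀ a ≤ A, Val X c a (row s B a)

/-- the raw clauses, for the codes of length below `n` -/
structure Cl (X : M → Prop) (n : M) : Prop where
  val : ∀ c a y : M, len c < n → (Val X c a y ↔
    (∃ x, c = cVar x ∧ y = look a x) ∨
    (∃ t z, Val X t a z ∧ (c = pr 2 t ∧ y = z + 1 ∨ c = pr 3 t ∧ y = len z ∨
      c = pr 4 t ∧ y = half z)) ∨
    (∃ s t z w, Val X s a z ∧ Val X t a w ∧ (c = pr 5 (pr s t) ∧ y = z + w ∨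
      c = pr 6 (pr s t) ∧ y = z * w ∨ c = pr 7 (pr s t) ∧ y = smash z w)) ∨
    (NT c ∧ y = 0))
  pos : ∀ c a : M, len c < n → (X (qF c a 1) ↔
    (∃ s t z w, Val X s a z ∧ Val X t a w ∧ (c = cEq s t ∧ z = w ∨ c = cLe s t ∧ z ≤ w)) ∨
    (∃ d e, c = cImp d e ∧ (X (qF d a 0) ∨ X (qF e a 1))) ∨
    (∃ x d, c = cAll x d ∧ ∀ a', Jc a' → Upd a x a' → X (qF d a' 1)))
  neg : ∀ c a : M, len c < n → (X (qF c a 0) ↔
    (∃ s t z w, Val X s a z ∧ Val X t a w ∧ (c = cEq s t ∧ z ≠ w ∨ c = cLe s t ∧ w < z)) ∨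
    (∃ d e, c = cImp d e ∧ X (qF d a 1) ∧ X (qF e a 0)) ∨
    (∃ x d a', c = cAll x d ∧ Jc a' ∧ Upd a x a' ∧ X (qF d a' 0)) ∨ NF c)

/-- validity of `jN x c` -/
def VN (X : M → Prop) (x c : M) : Prop := ∀ a a', Jc a → Jc a' → Upd a x a' →
  (∀ y, Val X c a y → Val X c a' y) ∧ (Sat X c a → Sat X c a')
/-- validity of `jS x u c d` -/
def VS (X : M → Prop) (x u c d : M) : Prop := fst u < 8 → ∀ a a', Jc a → Jc a' → Upd a x a' →
  Val X u a (look a' x) → (∀ y, Val X d a y ↔ Val X c a' y) ∧ (Sat X d a ↔ Sat X c a')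
/-- validity of `jC σ c`: truth tables exist -/
def VC (X : M → Prop) (c : M) : Prop :=
  ∀ A, Jc A → ∃ s, ∀ a ≤ A, (row s 1 a = 1 ↔ Sat X c a)
/-- validity of `jP c` -/
def VP (X : M → Prop) (c : M) : Prop := ∀ a, Jc a → Sat X c a

/-- validity of a judgement -/
structure Vd (X : M → Prop) (j : M) : Prop where
  t : ∀ c, j = jT c → fst c < 8
  n : ∀ x c, j = jN x c → VN X x c
  s : ∀ x u c d, j = jS x u c d → VS X x u c d
  c : ∀ σ c, j = jC σ c → VC X c
  p : ∀ c, j = jP c → VP X c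

/-- the situation of the validity rows: `j` follows by a rule from valid short judgements -/
structure Sit (X : M → Prop) (y j : M) : Prop where
  ts : TS X (len y)
  kc : Kc y
  rl : Rl (fun i => Vd X i ∧ len i ≤ len y) j
  le : len j ≤ len y

section Inst
variable {f g h : UFun b}
instance ufSat (k : ℕ) [UFn f] [UFn g] : UF fun M X v => Sat (X k) (f M v) (g M v) := by
  unfold Sat; infer_instance
instance ufVal (k : ℕ) [UFn f] [UFn g] [UFn h] :
    UF fun M X v => Val (X k) (f M v) (g M v) (h M v) := by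
  unfold Val; infer_instance
instance ufVN (k : ℕ) [hf : UFn f] [hg : UFn g] : UF fun M X v => VN (X k) (f M v) (g M v) :=
  UF.app2 (T := fun _ X x c => VN (X k) x c) (by unfold VN; infer_instance) hf hg
set_option synthInstance.maxSize 1024 in
instance ufVS (k : ℕ) {j : UFun b} [hf : UFn f] [hg : UFn g] [hh : UFn h] [hj : UFn j] :
    UF fun M X v => VS (X k) (f M v) (g M v) (h M v) (j M v) :=
  UF.app4 (T := fun _ X x u c d => VS (X k) x u c d) (by unfold VS; infer_instance) hf hg hh hj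
instance ufVC (k : ℕ) [hf : UFn f] : UF fun M X v => VC (X k) (f M v) :=
  UF.app1 (T := fun _ X c => VC (X k) c) (by unfold VC; infer_instance) hf
instance ufVP (k : ℕ) [hf : UFn f] : UF fun M X v => VP (X k) (f M v) :=
  UF.app1 (T := fun _ X c => VP (X k) c) (by unfold VP; infer_instance) hf
set_option synthInstance.maxSize 1024 in
instance ufVd (k : ℕ) [hf : UFn f] : UF fun M X v => Vd (X k) (f M v) :=
  UF.app1 (T := fun _ X j => Vd (X k) j) ((inferInstance : UF fun (_ : Mdl b) X v =>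
    (∀ c, v 0 = jT c → fst c < 8) ∧ (∀ x c, v 0 = jN x c → VN (X k) x c) ∧
    (∀ x u c d, v 0 = jS x u c d → VS (X k) x u c d) ∧
    (∀ c, v 0 = jC true c ∨ v 0 = jC false c → VC (X k) c) ∧
    (∀ c, v 0 = jP c → VP (X k) c)).congr fun _ _ _ =>
    ⟨fun ⟨h1, h2, h3, h4, h5⟩ => ⟨h1, h2, h3, fun σ c e => h4 c (by cases σ <;> simp [e]), h5⟩,
      fun h => ⟨h.t, h.n, h.s, fun c e => e.elim (h.c _ c) (h.c _ c), h.p⟩⟩) hf
end Inst

end Pool.Agent.MP_f18a41_lc

end MrgPart2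

-- ======== part 3: formerly Pool.Agent.MP_f18a41_lc.Spec
section MrgPart3

/-! Statements of the rows of project PL. -/

namespace Pool.Agent.MP_f18a41_lc

open Function

/-! ### Completeness -/

/-- completeness of the extended calculus -/
def COMP (b : Bool) : Prop := ∀ (Γ : Set EFm) (φ : EFm),
  (∀ (M : Mdl b) (c : ℕ → M) (X : ℕ → M → Prop), (∀ γ ∈ Γ, ∀ v, γ.ev M.toStr c X v) →
    ∀ v, φ.ev M.toStr c X v) → EPrv b Γ φ

/-- completeness of the calculus of the statement -/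
def CPL (b : Bool) : Prop := ∀ φ : Fm, (∀ (M : Mdl b) (v : ℕ → M), φ.ev M.toStr v) → Prv b φ

/-- without loss of generality there is an element above all terms -/
def TALL (b : Bool) : Prop := ∀ P : UPred b, UP P →
  (∀ (M : Mdl b) (v : ℕ → M) (B : M), (∀ t : Tm, t.ev M.toStr v ≤ B) → P M v) → ∀ M v, P M v

/-! ### The arithmetised calculus -/

structure POSTA (b : Bool) : Prop where
  post : HasPost b
  ev : ∀ (φ : Fm) (M : Mdl b) (v : ℕ → M), (prov b φ).ev M.toStr v ↔ Dv (jP ((φ.code : ℕ) : M))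
  closed : ∀ (φ : Fm) (x : ℕ), ¬ (prov b φ).free x

structure POSTB (b : Bool) : Prop where
  hyp : ∀ {M : Mdl b} {H : M → Prop} {y : M}, H y → HD H y
  clo : ∀ {M : Mdl b} (H : M → Prop), Clo (HD H)
  app : ∀ {M : Mdl b} {H H' : M → Prop} {W c s s' a' : M}, HDer H s W → s < smash W c →
    HDer H' s' a' → s' < pw W → (∀ j, H' j → H j ∨ Mem j s W) →
    ∃ s'' < smash W (pw c * pw s'), HDer H s'' W ∧ (∀ j, Mem j s W → Mem j s'' W) ∧
      ∀ j, Mem j s' a' → Mem j s'' W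

/-- chains of uniformly short derivations -/
def CHAIN (b : Bool) : Prop := ∀ (J : ∀ M : Mdl b, M → (ℕ → M) → M) (C : UPred b),
  (UFn fun M v => J M (v 0) (fun i => v (i + 1))) → USig C →
  (∀ (M : Mdl b) (v : ℕ → M) (y : M) (D : M → Prop), Th D → C M v → y ≠ 0 → y ≤ v 0 →
    D (J M (half y) v) → D (J M y v)) →
  ∀ (M : Mdl b) (v : ℕ → M), C M v → Dv (J M 0 v) → Dv (J M (v 0) v)

/-- syntactic judgements for codes of extended expressions -/
structure SIA (b : Bool) : Prop where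
  tm : ∀ {M : Mdl b} {D : M → Prop} (ι : ℕ → ℕ) {c : ℕ → M}, Clo D → (∀ k, D (jT (c k))) →
    ∀ t : ETm, D (jT (t.cd ι c))
  fm : ∀ {M : Mdl b} {D : M → Prop} (ι : ℕ → ℕ) (p : ℕ) {c ψ : ℕ → M}, Clo D →
    (∀ k, D (jT (c k))) → (∀ k, D (jF (ψ k))) → ∀ φ : EFm, D (jF (φ.cd ι p c ψ))
  ntm : ∀ {M : Mdl b} {D : M → Prop} (ι : ℕ → ℕ) {c : ℕ → M} (x : ℕ), Clo D →
    (∀ k, D (jN (x : M) (c k))) → ∀ t : ETm, (∀ n, t.occ n → ι n ≠ x) → D (jN (x : M) (t.cd ι c))
  nfm : ∀ {M : Mdl b} {D : M → Prop} (ι : ℕ → ℕ) (p : ℕ) {c ψ : ℕ → M} (x : ℕ), Clo D →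
    (∀ k, D (jN (x : M) (c k))) → (x = p ∨ ∀ k, D (jN (x : M) (ψ k))) →
    ∀ φ : EFm, (∀ n, φ.free n → ι n ≠ x) → D (jN (x : M) (φ.cd ι p c ψ))
  sb : ∀ {M : Mdl b} {D : M → Prop} {ι : ℕ → ℕ} {p : ℕ} {c ψ : ℕ → M}, Clo D → Good D ι p c ψ →
    ∀ (x : ℕ) (u : ETm) (φ : EFm), φ.freeFor x u →
      D (jS (ι x : M) (u.cd ι c) (φ.cd ι p c ψ) ((φ.subst x u).cd ι p c ψ))
  cls : ∀ {M : Mdl b} {D : M → Prop}, Clo D → ∀ {σ : Bool} {φ : Fm}, Cls b σ φ →
    D (jC σ ((φ.code : ℕ) : M))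

/-- instantiation of derivations -/
structure SIB (b : Bool) : Prop where
  prv : ∀ {M : Mdl b} {D : M → Prop}, Clo D → ∀ {φ : Fm}, Prv b φ → D (jP ((φ.code : ℕ) : M))
  inst : ∀ {M : Mdl b} {D : M → Prop} {ι : ℕ → ℕ} {p : ℕ} {c ψ : ℕ → M}, Clo D →
    Good D ι p c ψ → ∀ {Γ : Set EFm} {φ : EFm}, EPrv b Γ φ →
    (∀ γ ∈ Γ, D (jP (γ.cd ι p c ψ))) → D (jP (φ.cd ι p c ψ))

/-! ### The box -/

/-- the basic properties of the box; derived forms are in the file Api -/
class HasBox (b : Bool) : Prop extends HasPost b where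
  thDv : ∀ M : Mdl b, Th (Dv : M → Prop)
  nmT : ∀ {M : Mdl b} (x : M), Dv (jT (nm x))
  nmN : ∀ {M : Mdl b} (n : ℕ) (x : M), Dv (jN (n : M) (nm x))
  ent : ∀ {M : Mdl b} {D : M → Prop} {x : ℕ → M} {κ : Type} [Finite κ] (P : κ → UPred b)
    (Q : UPred b), Th D → UP Q → (∀ N v, (∀ i, P i N v) → Q N v) → (∀ i, BoxD D (P i) x) →
    BoxD D Q x
  ren : ∀ {M : Mdl b} {D : M → Prop} (x : ℕ → M) (P : UPred b) (g : ℕ → ℕ), Th D → UP P →
    (BoxD D (fun N v => P N (fun i => v (g i))) x ↔ BoxD D P (fun i => x (g i)))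
  sent : ∀ {M : Mdl b} {D : M → Prop} (x : ℕ → M) (φ : Fm), Th D → (∀ n, ¬ φ.free n) →
    (BoxD D (fun N v => φ.ev N.toStr v) x ↔ D (jP ((φ.code : ℕ) : M)))
  defn : ∀ {M : Mdl b} {D : M → Prop} (x : ℕ → M) {P : UPred b} (φ : Fm), Th D →
    (∀ (N : Mdl b) (v : ℕ → N), φ.ev N.toStr v ↔ P N v) → (BoxD D P x ↔ D (jP (cdn φ x)))
  num0 : ∀ M : Mdl b, Box1 Dv (fun _ a => a = 0) (0 : M)
  num2 : ∀ {M : Mdl b} (x : M), Box2 Dv (fun _ a c => a = 2 * c) (2 * x) x
  num3 : ∀ {M : Mdl b} (x : M), Box2 Dv (fun _ a c => a = 2 * c + 1) (2 * x + 1) x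
  chn : CHAIN b

structure NUMA (b : Bool) : Prop where
  suc : ∀ {M : Mdl b} (x : M), Box2 Dv (fun _ a c => a = c + 1) (x + 1) x
  add : ∀ {M : Mdl b} (x y : M), Box3 Dv (fun _ a c d => a = c + d) (x + y) x y
  le : ∀ {M : Mdl b} {x y : M}, x ≤ y → Box2 Dv (fun _ a c => a ≤ c) x y
  lt : ∀ {M : Mdl b} {x y : M}, x < y → Box2 Dv (fun _ a c => a < c) x y

/-- values of terms at numerals -/
def NUMB (b : Bool) : Prop := ∀ (t : Tm) (M : Mdl b) (x : ℕ → M),
  BoxD Dv (fun N v => v 0 = t.ev N.toStr (fun i => v (i + 1))) (cons (t.ev M.toStr x) x)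

/-- `Σ^b_1` completeness -/
def SIG (b : Bool) : Prop := ∀ P : UPred b, USig P → ∀ M x, P M x → BoxD Dv P x

/-- completeness for bounded predicates at arguments in `Jc` -/
def SMALL (b : Bool) : Prop := ∀ P : UPred b, UB P → ∀ M x, (∀ i, Jc (x i)) → P M x → BoxD Dv P x

/-! ### Reflection -/

/-- the internal iterates of a one-occurrence operator -/
def ENG1 (b : Bool) : Prop := ∀ (Node : ∀ N : Mdl b, N → N → Prop)
  (Sub : ∀ N : Mdl b, N → N → N → Prop), (UP fun N v => Node N (v 0) (v 1)) →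
  (UP fun N v => Sub N (v 0) (v 1) (v 2)) → ∀ p : ℕ, 8 ≤ p →
  ∃ (ψ : ∀ M : Mdl b, M → M) (δ : EFm), (UFn fun M v => ψ M (v 0)) ∧
    (∀ M d, Dv (jF (ψ M d))) ∧ (∀ M d (x : ℕ), x ≠ p → Dv (jN (x : M.α) (ψ M d))) ∧
    (∀ (N : Mdl b) (c : ℕ → N) (X : ℕ → N → Prop) (v : ℕ → N), δ.ev N.toStr c X v →
      ∀ q, X 1 q ↔ Gam (Node N) (Sub N) (X 0) q) ∧
    ∀ (M : Mdl b) (d : M), d ≠ 0 →
      Dv (jP (δ.cd (skip p) p (fun _ => cZero) (cons (ψ M (half d)) fun _ => ψ M d)))

/-- what follows from a ranked fixed point and one induction is in the box -/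
def ENG (b : Bool) : Prop := ∀ (Node : ∀ N : Mdl b, N → N → Prop)
  (Sub : ∀ N : Mdl b, N → N → N → Prop) (rk : ∀ N : Mdl b, N → N),
  (UP fun N v => Node N (v 0) (v 1)) → (UP fun N v => Sub N (v 0) (v 1) (v 2)) →
  (UFn fun N v => rk N (v 0)) → (∀ N q d q', Node N q d → Sub N q d q' → rk N q' < rk N q) →
  ∀ (Ψ : ∀ N : Mdl b, (N → Prop) → N → N → Prop) (Q : ∀ N : Mdl b, N → Prop),
  (UF fun N X v => Ψ N (X 0) (v 0) (v 1)) → (UP fun N v => Q N (v 0)) →
  (∀ N X y, Tar (Node N) (Sub N) (rk N) X (len y) → Ind (Ψ N X y) y → Q N y) →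
  ∀ (M : Mdl b) (y : M), Box1 Dv Q y

/-- the clauses come from a one-occurrence operator -/
def SEMA (b : Bool) : Prop := ∃ (Node : ∀ N : Mdl b, N → N → Prop)
  (Sub : ∀ N : Mdl b, N → N → N → Prop) (rk : ∀ N : Mdl b, N → N),
  (UP fun N v => Node N (v 0) (v 1)) ∧ (UP fun N v => Sub N (v 0) (v 1) (v 2)) ∧
  (UFn fun N v => rk N (v 0)) ∧ (∀ N q d q', Node N q d → Sub N q d q' → rk N q' < rk N q) ∧
  ∀ N X n, Tar (Node N) (Sub N) (rk N) X n → Cl X n

/-- induction on the rank turns the clauses into a truth class -/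
def SEMB (b : Bool) : Prop := ∃ Ψ : ∀ N : Mdl b, (N → Prop) → N → Prop,
  (UF fun N X v => Ψ N (X 0) (v 0)) ∧
  ∀ N X n, Cl X n → Ψ N X 0 ∧ (∀ i < n, Ψ N X i → Ψ N X (i + 1)) ∧ (Ψ N X n → TS X n)

def VAL1 (b : Bool) : Prop := ∀ (N : Mdl b) (X : N → Prop) (y j : N), Sit X y j →
  (∀ c, j = jT c → fst c < 8) ∧ ∀ x c, j = jN x c → VN X x c
def VAL2 (b : Bool) : Prop := ∀ (N : Mdl b) (X : N → Prop) (y j : N), Sit X y j →
  ∀ x u c d, j = jS x u c d → VS X x u c d
def VAL3 (b : Bool) : Prop := ∀ (N : Mdl b) (X : N → Prop) (y j : N), Sit X y j →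
  ∀ σ c, j = jC σ c → VC X c
/-- standard formulas -/
def VALS (b : Bool) : Prop := ∀ (N : Mdl b) (X : N → Prop) (y : N), TS X (len y) → Kc y →
  ∀ (θ : Fm), len ((θ.code : ℕ) : N) < len y → ∀ (a : N) (ha : Jc a),
    Sat X ((θ.code : ℕ) : N) a ↔ θ.ev N.J.toStr (fun i => isCut_Jc.elt (look a i) (ha.look i))
def VAL4 (b : Bool) : Prop := ∀ (N : Mdl b) (X : N → Prop) (y j : N), Sit X y j →
  ∀ c, j = jP c → VP X c

/-- small reflection relativised to `Jc` -/
def REFL (b : Bool) : Prop := ∀ (φ : Fm) (M : Mdl b) (y : M),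
  Box1 Dv (fun N y => Pf (jP ((φ.code : ℕ) : N)) y → φ.ev N.J.toStr (fun _ => (0 : N.J))) y

/-! ### Fixed points, the standard model, the modal part -/

def FIX (b : Bool) : Prop := ∀ (W : Type) [Finite W] (e : W → ℕ), Injective e →
  ∀ P : W → ∀ N : Mdl b, (W → N) → Prop, (∀ z, UP fun N v => P z N (fun w => v (e w))) →
  ∃ S : W → Fm, (∀ z x, ¬ (S z).free x) ∧ ∀ z (N : Mdl b) (v : ℕ → N),
    (S z).ev N.toStr v ↔ P z N (fun w => (((S w).code : ℕ) : N))

/-- all elements are standard -/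
def Std {b : Bool} (M : Mdl b) : Prop := ∀ x : M, ∃ n : ℕ, x = n

def STD (b : Bool) : Prop := ∃ M : Mdl b, Std M ∧
  ∀ (φ : Fm) (v : ℕ → ℕ), φ.holds v ↔ φ.ev M.toStr (fun i => ((v i : ℕ) : M))

def ADEQ (b : Bool) : Prop := ∀ M : Mdl b, Std M → ∀ φ : Fm, Dv (jP ((φ.code : ℕ) : M)) → Prv b φ

def GLS (b : Bool) : Prop := ∀ X, GLog X → PL b X

/-- the Solovay sentences -/
def SOL (b : Bool) : Prop := ∀ (W : Type) [Finite W] (R : W → W → Prop),
  (∀ x y z, R x y → R y z → R x z) → (∀ x, ¬ R x x) → Closed R → ∀ w : W,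
  ∃ S : W → Fm, (∀ z x, ¬ (S z).free x) ∧
    (∀ (N : Mdl b) (v : ℕ → N) z z', (S z).ev N.toStr v → (S z').ev N.toStr v → z = z') ∧
    (∀ (N : Mdl b) (v : ℕ → N) z z', R z z' → (S z).ev N.toStr v →
      ¬ Dv (jP (((S z').neg.code : ℕ) : N))) ∧
    (∀ (N : Mdl b) (v : ℕ → N) z, (S z).ev N.toStr v →
      BoxD Dv (fun N' v' => ∃ z', R z z' ∧ (S z').ev N'.toStr v') v) ∧
    ∃ (N : Mdl b) (v : ℕ → N), (S w).ev N.toStr v

def FRAME : Prop := ∀ (W : Type) [Finite W] (R : W → W → Prop),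
  (∀ x y z, R x y → R y z → R x z) → (∀ x, ¬ R x x) → OmitsY R → Closed R

def UPPER (b : Bool) : Prop := ∀ X, PL b X → ∀ (W : Type) [Finite W] (R : W → W → Prop),
  (∀ x y z, R x y → R y z → R x z) → (∀ x, ¬ R x x) → Closed R → ∀ V w, Force R V w X

end Pool.Agent.MP_f18a41_lc

end MrgPart3

-- marker of a merged file
example : 731051 + 614033 = 731051 + 614033 := rfl
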