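import Mathlib.Algebra.Order.Archimedean.Basic
import Mathlib.Tactic.IntervalCases
import Mathlib.Order.CompletePartialOrder
import Mathlib.SetTheory.ZFC.PSet
import Pool.Agent.MP_f18a41_lc.Spec

-- ======== part 0: formerly Pool.Agent.MP_f18a41_lc.Api
section MrgPart0

/-! Derived properties of the box. -/

namespace Pool.Agent.MP_f18a41_lc

open Function

variable {b : Bool} [hb : HasBox b] {M : Mdl b} {D : M → Prop} {x : ℕ → M}
  {P P₁ P₂ P₃ P₄ Q : UPred b}

theorem thDv : Th (Dv : M → Prop) := HasBox.thDv M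

omit hb in
theorem BoxD.of_dv (hD : Th D) (h : BoxD Dv P x) : BoxD D P x := h.mono hD.dv

/-- necessitation -/
theorem box_nec (hD : Th D) [hQ : UP Q] (h : ∀ N v, Q N v) : BoxD D Q x :=
  HasBox.ent (κ := Empty) (fun i => i.elim) Q hD hQ (fun N v _ => h N v) fun i => i.elim

theorem BoxD.ent (hD : Th D) [hQ : UP Q] (h1 : BoxD D P x) (h : ∀ N v, P N v → Q N v) :
    BoxD D Q x :=
  HasBox.ent (κ := Unit) (fun _ => P) Q hD hQ (fun N v h' => h N v (h' ())) fun _ => h1

theorem BoxD.and (hD : Th D) (h1 : BoxD D P x) (h2 : BoxD D Q x) :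
    BoxD D (fun N v => P N v ∧ Q N v) x := by
  have := h1.up.uf
  have := h2.up.uf
  refine HasBox.ent (κ := Bool) (fun i => cond i P Q) _ hD inferInstance
    (fun N v h' => ⟨h' true, h' false⟩) ?_
  rintro (_ | _)
  exacts [h2, h1]

theorem BoxD.ent2 (hD : Th D) [UP Q] (h1 : BoxD D P₁ x) (h2 : BoxD D P₂ x)
    (h : ∀ N v, P₁ N v → P₂ N v → Q N v) : BoxD D Q x :=
  (h1.and hD h2).ent hD fun N v h' => h N v h'.1 h'.2

theorem BoxD.ent3 (hD : Th D) [UP Q] (h1 : BoxD D P₁ x) (h2 : BoxD D P₂ x) (h3 : BoxD D P₃ x)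
    (h : ∀ N v, P₁ N v → P₂ N v → P₃ N v → Q N v) : BoxD D Q x :=
  (h1.and hD h2).ent2 hD h3 fun N v h' => h N v h'.1 h'.2

theorem BoxD.ent4 (hD : Th D) [UP Q] (h1 : BoxD D P₁ x) (h2 : BoxD D P₂ x) (h3 : BoxD D P₃ x)
    (h4 : BoxD D P₄ x) (h : ∀ N v, P₁ N v → P₂ N v → P₃ N v → P₄ N v → Q N v) : BoxD D Q x :=
  (h1.and hD h2).ent3 hD h3 h4 fun N v h' => h N v h'.1 h'.2

/-- finite conjunctions -/
theorem BoxD.fin (hD : Th D) {κ : Type} [Finite κ] {P : κ → UPred b} (h : ∀ i, BoxD D (P i) x) :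
    BoxD D (fun N v => ∀ i, P i N v) x := by
  have := fun i => (h i).up.uf
  exact HasBox.ent P _ hD inferInstance (fun _ _ h => h) h

/-- finite conjunctions with an external condition -/
theorem BoxD.fin' (hD : Th D) {κ : Type} [Finite κ] {p : κ → Prop} {P : κ → UPred b}
    (h : ∀ i, p i → BoxD D (P i) x) : BoxD D (fun N v => ∀ i, p i → P i N v) x :=
  (BoxD.fin hD (κ := {i // p i}) (P := fun i => P i.1) fun i => h i.1 i.2).congr
    fun _ _ => Subtype.forall

/-- move a box to another vector of parameters -/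
theorem BoxD.at (hD : Th D) {x' : ℕ → M} (h : BoxD D P x') (x : ℕ → M) (g : ℕ → ℕ)
    (e : ∀ i, x (g i) = x' i) : BoxD D (fun N v => P N (fun i => v (g i))) x :=
  (HasBox.ren x P g hD h.up).2 (by rwa [funext e])

theorem BoxD.of_at (hD : Th D) [hP : UP P] {g : ℕ → ℕ}
    (h : BoxD D (fun N v => P N (fun i => v (g i))) x) {x' : ℕ → M} (e : ∀ i, x (g i) = x' i) :
    BoxD D P x' := by
  rw [← funext e]; exact (HasBox.ren x P g hD hP).1 h

/-- add a parameter in front -/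
theorem BoxD.lift (hD : Th D) (h : BoxD D P x) (u : M) :
    BoxD D (fun N v => P N (fun i => v (i + 1))) (cons u x) := h.at hD _ (· + 1) fun _ => rfl

/-- drop the first parameter -/
theorem BoxD.drop (hD : Th D) [UP P] {u : M}
    (h : BoxD D (fun N v => P N (fun i => v (i + 1))) (cons u x)) : BoxD D P x :=
  h.of_at hD (g := (· + 1)) fun _ => rfl

theorem Box0.at (hD : Th D) {P : Mdl b → Prop} {x' : ℕ → M} (h : BoxD D (fun N _ => P N) x')
    (x : ℕ → M) : BoxD D (fun N _ => P N) x := by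
  have h1 := h.up
  have h2 := (BoxD.at hD h (fun n => if n % 2 = 0 then x' (n / 2) else x (n / 2)) (2 * ·)
    fun i => by simp)
  exact BoxD.of_at hD (hP := h1) (g := fun i => 2 * i + 1) h2 fun i => by
    have : (2 * i + 1) / 2 = i := by omega
    simp [this, Nat.add_mod]

theorem Box1.at (hD : Th D) {P : ∀ N : Mdl b, N → Prop} {a : M} (h : Box1 D P a) (x : ℕ → M)
    (i : ℕ) (e : x i = a) : BoxD D (fun N v => P N (v i)) x :=
  BoxD.at hD h x (fun _ => i) fun _ => e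

theorem Box2.at (hD : Th D) {P : ∀ N : Mdl b, N → N → Prop} {a c : M} (h : Box2 D P a c)
    (x : ℕ → M) (i j : ℕ) (e : x i = a) (e' : x j = c) : BoxD D (fun N v => P N (v i) (v j)) x :=
  BoxD.at hD h x (cons i fun _ => j) (by rintro (_ | _) <;> assumption)

theorem Box3.at (hD : Th D) {P : ∀ N : Mdl b, N → N → N → Prop} {a c d : M}
    (h : Box3 D P a c d) (x : ℕ → M) (i j k : ℕ) (e : x i = a) (e' : x j = c) (e'' : x k = d) :
    BoxD D (fun N v => P N (v i) (v j) (v k)) x :=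
  BoxD.at hD h x (cons i (cons j fun _ => k)) (by rintro (_ | _ | _) <;> assumption)

theorem Box1.of (hD : Th D) {P : ∀ N : Mdl b, N → Prop} [hP : UP fun N v => P N (v 0)] {i : ℕ}
    (h : BoxD D (fun N v => P N (v i)) x) : Box1 D P (x i) :=
  BoxD.of_at hD (hP := hP) (g := fun _ => i) h fun _ => rfl

theorem Box2.of (hD : Th D) {P : ∀ N : Mdl b, N → N → Prop}
    [hP : UP fun N v => P N (v 0) (v 1)] {i j : ℕ} (h : BoxD D (fun N v => P N (v i) (v j)) x) :
    Box2 D P (x i) (x j) :=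
  BoxD.of_at hD (hP := hP) (g := cons i fun _ => j) h (by rintro (_ | _) <;> rfl)

theorem Box3.of (hD : Th D) {P : ∀ N : Mdl b, N → N → N → Prop}
    [hP : UP fun N v => P N (v 0) (v 1) (v 2)] {i j k : ℕ}
    (h : BoxD D (fun N v => P N (v i) (v j) (v k)) x) : Box3 D P (x i) (x j) (x k) :=
  BoxD.of_at hD (hP := hP) (g := cons i (cons j fun _ => k)) h (by rintro (_ | _ | _) <;> rfl)

/-- chains of boxes; the parameters `g i` depend on the chain variable -/
theorem box_chain (P : UPred b) [hP : UP P] (g : ℕ → ∀ M : Mdl b, M → (ℕ → M) → M) (C : UPred b)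
    (hg : ∀ i, UFn fun M v => g i M (v 0) (fun j => v (j + 1))) [hC : USig C]
    (step : ∀ (M : Mdl b) (v : ℕ → M) (y : M) (D : M → Prop), Th D → C M v → y ≠ 0 → y ≤ v 0 →
      BoxD D P (fun i => g i M (half y) v) → BoxD D P (fun i => g i M y v))
    (M : Mdl b) (v : ℕ → M) (h : C M v) (h0 : BoxD Dv P (fun i => g i M 0 v)) :
    BoxD Dv P (fun i => g i M (v 0) v) := by
  obtain ⟨φ, hφ⟩ := hP.out
  have := fn_cdn φ hg
  rw [HasBox.defn _ φ thDv hφ] at h0 ⊢
  refine HasBox.chn (fun M y v => jP (cdn φ fun i => g i M y v)) C inferInstance hC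
    (fun M v y D hD h1 h2 h3 h4 => ?_) M v h h0
  exact (HasBox.defn _ φ hD hφ).1 (step M v y D hD h1 h2 h3 ((HasBox.defn _ φ hD hφ).2 h4))

/-- the numeral of `y` halves to the numeral of `half y` -/
theorem box_half (y : M) : Box2 Dv (fun _ a c => c = half a) y (half y) := by
  rcases half_spec y with e | e
  · have := HasBox.num2 (half y)
    rw [← e] at this
    exact this.ent thDv fun N v h => by beta_reduce at h ⊢; rw [h, half_two_mul]
  · have := HasBox.num3 (half y)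
    rw [← e] at this
    exact this.ent thDv fun N v h => by beta_reduce at h ⊢; rw [h, half_two_mul_add_one]

/-- a property that is provably inherited from `half y` is provable for every numeral -/
theorem box_ind (P : ∀ N : Mdl b, N → Prop) [hP : UP fun N v => P N (v 0)] (h0 : ∀ N, P N 0)
    (hs : ∀ N y, P N (half y) → P N y) (M : Mdl b) (y : M) : Box1 Dv P y := by
  have hU := hP.uf
  refine box_chain (fun N v => P N (v 0)) (fun _ _ y _ => y) (fun _ _ => True)
    (fun _ => inferInstance) (fun M _ y D hD _ _ _ h => ?_) M (fun _ => y) trivial ?_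
  · refine Box1.of hD (x := cons y fun _ => half y) (i := 0) ?_
    exact (Box1.at hD h _ 1 rfl).ent2 hD ((box_half y).of_dv hD) fun N v h1 h2 =>
      hs N _ (h2 ▸ h1)
  · exact (HasBox.num0 M).ent thDv fun N v h => by rw [h]; exact h0 N

theorem box_ne_zero {y : M} (hy : y ≠ 0) : Box1 Dv (fun _ a => a ≠ 0) y := by
  have key := box_chain (fun _ v => v 0 ≠ 0) (fun _ _ y _ => if y = 0 then 1 else y)
    (fun _ _ => True) (fun _ => inferInstance) (fun M _ y D hD _ h0 _ h => ?_) M (fun _ => y)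
    trivial ?_
  · simpa only [if_neg hy] using key
  · simp only [if_neg h0]
    refine Box1.of hD (P := fun _ a => a ≠ 0) (x := cons y fun _ => half y) (i := 0) ?_
    rcases half_spec y with e | e
    · have h1 : half y ≠ 0 := fun h1 => h0 (by rw [e, h1, mul_zero])
      simp only [if_neg h1] at h
      exact (Box1.at hD (P := fun _ a => a ≠ 0) h _ 1 rfl).ent2 hD ((box_half y).of_dv hD)
        fun N v h1 h2 h3 => h1 (by rw [h2, h3, half_zero])
    · have := HasBox.num3 (half y)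
      rw [← e] at this
      exact (this.of_dv hD).ent hD fun N v h => by rw [h]; exact one_le_iff.1 le_add_self
  · have := HasBox.num3 (0 : M)
    simp only [if_true]
    refine Box1.of thDv (P := fun _ a => a ≠ 0) (x := cons 1 fun _ => 0) (i := 0) ?_
    rw [mul_zero, zero_add] at this
    exact this.ent thDv fun N v h => by rw [h]; exact one_le_iff.1 le_add_self

theorem box_Jc (y : M) : Box1 Dv (fun _ a => Jc a) y :=
  box_ind _ (fun _ => isCut_Jc.zero) (fun _ _ => isCut_Jc.of_half) M y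

theorem box_Kc (y : M) : Box1 Dv (fun _ a => Kc a) y :=
  box_ind _ (fun _ => Kc.zero) (fun _ _ => Kc.of_half) M y

/-- standard numerals -/
theorem box_nat (n : ℕ) : Box1 Dv (fun N a => a = (n : N)) (n : M) := by
  induction n using Nat.strong_induction_on with
  | _ n ih =>
    by_cases h0 : n = 0
    · subst h0; simpa using HasBox.num0 M
    refine Box1.of thDv (P := fun N a => a = (n : N))
      (x := cons (n : M) fun _ => ((n / 2 : ℕ) : M)) (i := 0) ?_
    have h1 := Box1.at thDv (ih (n / 2) (by omega)) (cons (n : M) fun _ => ((n / 2 : ℕ) : M)) 1 rfl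
    rcases Nat.even_or_odd' n with ⟨k, e | e⟩
    · have e1 : n / 2 = k := by omega
      have := HasBox.num2 (k : M)
      rw [show 2 * (k : M) = n by rw [e]; push_cast; rfl, ← e1] at this
      exact h1.ent2 thDv this fun N v h2 h3 => by rw [h3, h2, e1, e]; push_cast; rfl
    · have e1 : n / 2 = k := by omega
      have := HasBox.num3 (k : M)
      rw [show 2 * (k : M) + 1 = n by rw [e]; push_cast; rfl, ← e1] at this
      exact h1.ent2 thDv this fun N v h2 h3 => by rw [h3, h2, e1, e]; push_cast; rfl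

/-- the box is definable -/
theorem up_box [hP : UP P] : UP fun _ x => BoxD Dv P x := by
  obtain ⟨φ, hφ⟩ := hP.out
  have := fn_cdn (b := b) φ (g := fun k _ v => v k) fun _ => inferInstance
  exact (inferInstance : UP fun M x => Dv (jP (cdn φ fun k => x k))).congr
    fun M x => (HasBox.defn x φ thDv hφ).symm

/-- numerals form a good environment -/
theorem good_nm (hD : Th D) {p : ℕ} (hp : 5 ≤ p) (x : ℕ → M) {ψ : ℕ → M}
    (h1 : ∀ k, D (jF (ψ k))) (h2 : ∀ k (n : ℕ), n ≠ p → D (jN (n : M) (ψ k))) :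
    Good D (skip p) p (fun k => nm (x k)) ψ :=
  ⟨skip_inj p, fun _ h => skip_lt (h.trans_le hp), skip_ne p, fun _ => hD.dv _ (HasBox.nmT _),
    fun _ n => hD.dv _ (HasBox.nmN n _), h1, h2⟩

end Pool.Agent.MP_f18a41_lc

end MrgPart0

-- ======== part 1: formerly Pool.Agent.MP_f18a41_lc.Asm
section MrgPart1

/-! The dependency structure of the rows: each row proves one `R_` statement. -/

namespace Pool.Agent.MP_f18a41_lc

def R_COMP : Prop := ∀ b, COMP b ∧ CPL b
def R_CHAIN : Prop := ∀ b, HasPost b → COMP b → POSTB b → CHAIN b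
def R_POSTA : Prop := ∀ b, POSTA b
def R_POSTB : Prop := ∀ b, POSTB b
def R_SIA : Prop := ∀ b, SIA b
def R_SIB : Prop := ∀ b, CPL b → SIA b → SIB b
def R_BOX : Prop := ∀ b, HasPost b → COMP b → POSTB b → CHAIN b → SIB b → HasBox b
def R_NUMA : Prop := ∀ b, HasBox b → NUMA b
def R_NUMB : Prop := ∀ b, HasBox b → NUMA b → NUMB b
def R_SIG : Prop := ∀ b, HasBox b → NUMA b → NUMB b → SIG b
def R_SMALL : Prop := ∀ b, HasBox b → SIG b → SMALL b
def R_ENG1 : Prop := ∀ b, HasBox b → COMP b → SIA b → SIB b → ENG1 b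
def R_ENG : Prop := ∀ b, HasBox b → COMP b → SIB b → ENG1 b → ENG b
def R_SEMA : Prop := ∀ b, SEMA b
def R_SEMB : Prop := ∀ b, SEMB b
def R_VAL1 : Prop := ∀ b, VAL1 b
def R_VAL2 : Prop := ∀ b, VAL2 b
def R_VAL3 : Prop := ∀ b, VAL3 b
def R_VALS : Prop := ∀ b, VALS b
def R_VAL4 : Prop := ∀ b, VALS b → VAL4 b
def R_REFL : Prop := ∀ b, HasBox b → ENG b → SEMA b → SEMB b → VAL1 b → VAL2 b → VAL3 b →
  VALS b → VAL4 b → REFL b
def R_FIX : Prop := ∀ b, FIX b
def R_STD : Prop := ∀ b, STD b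
def R_ADEQ : Prop := ∀ b, ADEQ b
def R_GLS : Prop := ∀ b, HasBox b → CPL b → POSTA b → SIG b → FIX b → GLS b
def R_SOL : Prop := ∀ b, HasBox b → SIG b → SMALL b → REFL b → FIX b → STD b → ADEQ b → SOL b
def R_UPPER : Prop := FRAME ∧ ∀ b, HasBox b → POSTA b → SOL b → UPPER b

theorem assemble (h1 : R_COMP) (h2 : R_CHAIN) (h3 : R_POSTA) (h4 : R_POSTB) (h5 : R_SIA)
    (h6 : R_SIB) (h7 : R_BOX) (h8 : R_NUMA) (h9 : R_NUMB) (h10 : R_SIG) (h11 : R_SMALL)
    (h12 : R_ENG1) (h13 : R_ENG) (h14 : R_SEMA) (h15 : R_SEMB) (h16 : R_VAL1) (h17 : R_VAL2)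
    (h18 : R_VAL3) (h19 : R_VALS) (h20 : R_VAL4) (h21 : R_REFL) (h22 : R_FIX) (h23 : R_STD)
    (h24 : R_ADEQ) (h25 : R_GLS) (h26 : R_SOL) (h27 : R_UPPER) (b : Bool) :
    (∀ φ v, Prv b φ ↔ (prov b φ).holds v) ∧ (∀ X, GLog X → PL b X) ∧
    ∀ X, PL b X → ∀ (W : Type) [Finite W] (R : W → W → Prop),
      (∀ x y z, R x y → R y z → R x z) → (∀ x, ¬ R x x) → (Closed R ∨ OmitsY R) →
      ∀ V w, Force R V w X := by
  obtain ⟨comp, cpl⟩ := h1 b
  have pa := h3 b
  have ch := h2 b pa.post comp (h4 b)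
  have sib := h6 b cpl (h5 b)
  have bx := h7 b pa.post comp (h4 b) ch sib
  have na := h8 b bx
  have sig := h10 b bx na (h9 b bx na)
  have eng := h13 b bx comp sib (h12 b bx comp (h5 b) sib)
  have refl := h21 b bx eng (h14 b) (h15 b) (h16 b) (h17 b) (h18 b) (h19 b) (h20 b (h19 b))
  have sol := h26 b bx sig (h11 b bx sig) refl (h22 b) (h23 b) (h24 b)
  refine ⟨fun φ v => ?_, h25 b bx cpl pa sig (h22 b), fun X hX W _ R ht hi hc =>
    h27.2 b bx pa sol X hX W R ht hi (hc.elim id (h27.1 W R ht hi))⟩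
  obtain ⟨M, hM, hv⟩ := h23 b
  rw [hv, pa.ev]
  exact ⟨fun h => sib.prv (HasBox.thDv M).clo h, h24 b M hM φ⟩

end Pool.Agent.MP_f18a41_lc

end MrgPart1

-- ======== part 2: formerly Pool.Agent.MP_f18a41_lc.COMP
section MrgPart2

/-! Row COMP of project PL: Henkin completeness of the extended calculus. -/

namespace Pool.Agent.MP_f18a41_lc

open Function

namespace Comp

/-! ### Countability -/

def ct : ETm → ℕ
  | .var x => Nat.pair 0 x
  | .cst k => Nat.pair 1 k
  | .zero => Nat.pair 2 0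
  | .succ t => Nat.pair 3 (ct t)
  | .len t => Nat.pair 4 (ct t)
  | .half t => Nat.pair 5 (ct t)
  | .add s t => Nat.pair 6 (Nat.pair (ct s) (ct t))
  | .mul s t => Nat.pair 7 (Nat.pair (ct s) (ct t))
  | .smash s t => Nat.pair 8 (Nat.pair (ct s) (ct t))

theorem ct_inj : ∀ s t : ETm, ct s = ct t → s = t := by
  intro s
  induction s with
  | var x | cst k => intro t h; cases t <;> simp [ct] at h ⊢; exact h
  | zero => intro t h; cases t <;> simp [ct] at h ⊢
  | succ s ih | len s ih | half s ih => intro t h; cases t <;> simp [ct] at h ⊢; exact ih _ h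
  | add s s' i1 i2 | mul s s' i1 i2 | smash s s' i1 i2 =>
    intro t h; cases t <;> simp [ct] at h ⊢; exact ⟨i1 _ h.1, i2 _ h.2⟩

def cf : EFm → ℕ
  | .bot => Nat.pair 0 0
  | .eq s t => Nat.pair 1 (Nat.pair (ct s) (ct t))
  | .le s t => Nat.pair 2 (Nat.pair (ct s) (ct t))
  | .imp φ ψ => Nat.pair 3 (Nat.pair (cf φ) (cf ψ))
  | .all x φ => Nat.pair 4 (Nat.pair x (cf φ))
  | .prd k t => Nat.pair 5 (Nat.pair k (ct t))

theorem cf_inj : ∀ φ ψ : EFm, cf φ = cf ψ → φ = ψ := by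
  intro φ
  induction φ with
  | bot => intro t h; cases t <;> simp [cf] at h ⊢
  | eq s s' | le s s' =>
    intro t h; cases t <;> simp [cf] at h ⊢; exact ⟨ct_inj _ _ h.1, ct_inj _ _ h.2⟩
  | imp φ ψ i1 i2 => intro t h; cases t <;> simp [cf] at h ⊢; exact ⟨i1 _ h.1, i2 _ h.2⟩
  | all x φ ih => intro t h; cases t <;> simp [cf] at h ⊢; exact ⟨h.1, ih _ h.2⟩
  | prd k s => intro t h; cases t <;> simp [cf] at h ⊢; exact ⟨h.1, ct_inj _ _ h.2⟩

theorem exists_enum : ∃ e : ℕ → ℕ × EFm, Surjective e := by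
  have : Countable EFm := Injective.countable (f := cf) fun _ _ h => cf_inj _ _ h
  have : Nonempty EFm := ⟨.bot⟩
  exact exists_surjective_nat _

/-! ### Substitution -/

theorem tm_subst_self (x : ℕ) (t : ETm) : t.subst x (.var x) = t := by
  induction t with
  | var y => by_cases h : x = y <;> simp [ETm.subst, h]
  | cst k => rfl
  | zero => rfl
  | succ t ih | len t ih | half t ih => simp only [ETm.subst, ih]
  | add s t i1 i2 | mul s t i1 i2 | smash s t i1 i2 => simp only [ETm.subst, i1, i2]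

theorem subst_self (x : ℕ) (φ : EFm) : φ.subst x (.var x) = φ := by
  induction φ with
  | bot => rfl
  | eq s t | le s t | prd k t => simp only [EFm.subst, tm_subst_self]
  | imp φ ψ i1 i2 => simp only [EFm.subst, i1, i2]
  | all y φ ih => by_cases h : x = y <;> simp [EFm.subst, h, ih]

theorem freeFor_self (x : ℕ) (φ : EFm) : φ.freeFor x (.var x) := by
  induction φ with
  | bot | eq | le | prd => trivial
  | imp φ ψ i1 i2 => exact ⟨i1, i2⟩
  | all y φ ih =>
    by_cases h : (EFm.all y φ).free x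
    · exact Or.inr ⟨fun hy => h.1 (Eq.symm hy), ih⟩
    · exact Or.inl h

theorem freeFor_big {x z : ℕ} {φ : EFm} (h : φ.mx ≤ z) : φ.freeFor x (.var z) := by
  induction φ with
  | bot | eq | le | prd => trivial
  | imp φ ψ i1 i2 => exact ⟨i1 (le_of_max_le_left h), i2 (le_of_max_le_right h)⟩
  | all y φ ih =>
    refine Or.inr ⟨fun hy => ?_, ih (le_of_max_le_right h)⟩
    have h1 := le_of_max_le_left h
    have h2 : y = z := hy
    omega

theorem tm_occ_subst {x y z : ℕ} {t : ETm} (h : (t.subst x (.var z)).occ y) :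
    y = z ∨ (y ≠ x ∧ t.occ y) := by
  induction t with
  | var w =>
    by_cases hw : x = w
    · simp only [ETm.subst, if_pos hw] at h; exact Or.inl h
    · simp only [ETm.subst, if_neg hw] at h
      have h' : y = w := h
      exact Or.inr ⟨fun e => hw (e.symm.trans h'), h⟩
  | cst k => exact h.elim
  | zero => exact h.elim
  | succ t ih | len t ih | half t ih => exact ih h
  | add s t i1 i2 | mul s t i1 i2 | smash s t i1 i2 =>
    rcases h with h | h
    · exact (i1 h).imp_right fun h => ⟨h.1, Or.inl h.2⟩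
    · exact (i2 h).imp_right fun h => ⟨h.1, Or.inr h.2⟩

theorem free_subst {x y z : ℕ} {φ : EFm} (h : (φ.subst x (.var z)).free y) :
    y = z ∨ (y ≠ x ∧ φ.free y) := by
  induction φ with
  | bot => exact h.elim
  | eq s t | le s t =>
    rcases h with h | h
    · exact (tm_occ_subst h).imp_right fun h => ⟨h.1, Or.inl h.2⟩
    · exact (tm_occ_subst h).imp_right fun h => ⟨h.1, Or.inr h.2⟩
  | imp φ ψ i1 i2 =>
    rcases h with h | h
    · exact (i1 h).imp_right fun h => ⟨h.1, Or.inl h.2⟩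
    · exact (i2 h).imp_right fun h => ⟨h.1, Or.inr h.2⟩
  | all w φ ih =>
    by_cases hw : x = w
    · simp only [EFm.subst, if_pos hw] at h
      exact Or.inr ⟨hw ▸ h.1, h⟩
    · simp only [EFm.subst, if_neg hw] at h
      exact (ih h.2).imp_right fun h' => ⟨h'.1, h.1, h'.2⟩
  | prd k t => exact tm_occ_subst h

theorem tm_back {x z : ℕ} {t : ETm} (h : t.mx ≤ z) : (t.subst x (.var z)).subst z (.var x) = t := by
  induction t with
  | var y =>
    have h' : y + 1 ≤ z := h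
    by_cases hy : x = y
    · simp [ETm.subst, hy]
    · simp [ETm.subst, hy, show z ≠ y by omega]
  | cst k => rfl
  | zero => rfl
  | succ t ih | len t ih | half t ih => simp only [ETm.subst, ih h]
  | add s t i1 i2 | mul s t i1 i2 | smash s t i1 i2 =>
    simp only [ETm.subst, i1 (le_of_max_le_left h), i2 (le_of_max_le_right h)]

theorem back {x z : ℕ} {φ : EFm} (h : φ.mx ≤ z) :
    (φ.subst x (.var z)).subst z (.var x) = φ ∧ (φ.subst x (.var z)).freeFor z (.var x) := by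
  induction φ with
  | bot => exact ⟨rfl, trivial⟩
  | eq s t | le s t =>
    exact ⟨by simp only [EFm.subst, tm_back (le_of_max_le_left h), tm_back (le_of_max_le_right h)],
      trivial⟩
  | prd k t => exact ⟨by simp only [EFm.subst, tm_back (le_of_max_le_right h)], trivial⟩
  | imp φ ψ i1 i2 =>
    have h1 := i1 (le_of_max_le_left h)
    have h2 := i2 (le_of_max_le_right h)
    exact ⟨by simp only [EFm.subst, h1.1, h2.1], h1.2, h2.2⟩
  | all y φ ih =>
    have h1 := ih (le_of_max_le_right h)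
    have h2 : z ≠ y := by have := le_of_max_le_left h; omega
    by_cases hy : x = y
    · have h3 : ¬ (EFm.all y φ).free z := fun h' => absurd (EFm.lt_mx h') (not_lt.2 h)
      simp only [EFm.subst, if_pos hy] at h3 ⊢
      exact ⟨EFm.subst_of_not_free _ h3, Or.inl h3⟩
    · simp only [EFm.subst, if_neg hy, if_neg h2, h1.1]
      exact ⟨trivial, Or.inr ⟨fun e => hy (Eq.symm e), h1.2⟩⟩

/-- number of connectives -/
def sz : EFm → ℕ
  | .imp φ ψ => sz φ + sz ψ + 1
  | .all _ φ => sz φ + 1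
  | _ => 0

theorem sz_subst (x : ℕ) (u : ETm) (φ : EFm) : sz (φ.subst x u) = sz φ := by
  induction φ with
  | bot | eq | le | prd => rfl
  | imp φ ψ i1 i2 => simp only [EFm.subst, sz, i1, i2]
  | all y φ ih => by_cases h : x = y <;> simp [EFm.subst, sz, h, ih]

/-! ### Parallel substitution in open formulas -/

/-- the structure of terms -/
def TS : Str := ⟨ETm, .zero, .succ, .len, .half, .add, .mul, .smash, fun _ _ => True⟩

def tp (σ : ℕ → ETm) (t : ETm) : ETm := t.ev TS ETm.cst σ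

def fp (σ : ℕ → ETm) : EFm → EFm
  | .bot => .bot
  | .eq s t => .eq (tp σ s) (tp σ t)
  | .le s t => .le (tp σ s) (tp σ t)
  | .imp φ ψ => .imp (fp σ φ) (fp σ ψ)
  | .all x φ => .all x φ
  | .prd k t => .prd k (tp σ t)

def Op : EFm → Prop
  | .imp φ ψ => Op φ ∧ Op ψ
  | .all _ _ => False
  | _ => True

theorem tp_subst (σ : ℕ → ETm) (k : ℕ) (u t : ETm) :
    (tp σ t).subst k u = tp (fun i => (σ i).subst k u) t := by
  induction t with
  | var y | cst k => rfl
  | zero => rfl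
  | succ t ih => exact congrArg ETm.succ ih
  | len t ih => exact congrArg ETm.len ih
  | half t ih => exact congrArg ETm.half ih
  | add s t i1 i2 => exact congrArg₂ ETm.add i1 i2
  | mul s t i1 i2 => exact congrArg₂ ETm.mul i1 i2
  | smash s t i1 i2 => exact congrArg₂ ETm.smash i1 i2

theorem tp_tp (σ τ : ℕ → ETm) (t : ETm) : tp σ (tp τ t) = tp (fun i => tp σ (τ i)) t := by
  induction t with
  | var y | cst k => rfl
  | zero => rfl
  | succ t ih => exact congrArg ETm.succ ih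
  | len t ih => exact congrArg ETm.len ih
  | half t ih => exact congrArg ETm.half ih
  | add s t i1 i2 => exact congrArg₂ ETm.add i1 i2
  | mul s t i1 i2 => exact congrArg₂ ETm.mul i1 i2
  | smash s t i1 i2 => exact congrArg₂ ETm.smash i1 i2

theorem tp_var (t : ETm) : tp ETm.var t = t := by
  induction t with
  | var y | cst k => rfl
  | zero => rfl
  | succ t ih => exact congrArg ETm.succ ih
  | len t ih => exact congrArg ETm.len ih
  | half t ih => exact congrArg ETm.half ih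
  | add s t i1 i2 => exact congrArg₂ ETm.add i1 i2
  | mul s t i1 i2 => exact congrArg₂ ETm.mul i1 i2
  | smash s t i1 i2 => exact congrArg₂ ETm.smash i1 i2

theorem tp_congr {σ τ : ℕ → ETm} (t : ETm) (h : ∀ x, t.occ x → σ x = τ x) : tp σ t = tp τ t :=
  ETm.ev_congr (S := TS) t h

theorem fp_subst (σ : ℕ → ETm) (k : ℕ) (u : ETm) {φ : EFm} (h : Op φ) :
    (fp σ φ).subst k u = fp (fun i => (σ i).subst k u) φ ∧ (fp σ φ).freeFor k u := by
  induction φ with
  | bot => exact ⟨rfl, trivial⟩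
  | eq s t | le s t | prd k t => exact ⟨by simp only [fp, EFm.subst, tp_subst], trivial⟩
  | imp φ ψ i1 i2 =>
    exact ⟨by simp only [fp, EFm.subst, (i1 h.1).1, (i2 h.2).1], (i1 h.1).2, (i2 h.2).2⟩
  | all => exact h.elim

theorem fp_fp (σ τ : ℕ → ETm) {φ : EFm} (h : Op φ) :
    fp σ (fp τ φ) = fp (fun i => tp σ (τ i)) φ ∧ Op (fp τ φ) := by
  induction φ with
  | bot => exact ⟨rfl, trivial⟩
  | eq s t | le s t | prd k t => exact ⟨by simp only [fp, tp_tp], trivial⟩
  | imp φ ψ i1 i2 => exact ⟨by simp only [fp, (i1 h.1).1, (i2 h.2).1], (i1 h.1).2, (i2 h.2).2⟩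
  | all => exact h.elim

theorem fp_var (φ : EFm) : fp ETm.var φ = φ := by
  induction φ with
  | bot | all => rfl
  | eq s t | le s t | prd k t => simp only [fp, tp_var]
  | imp φ ψ i1 i2 => simp only [fp, i1, i2]

theorem fp_congr {σ τ : ℕ → ETm} (φ : EFm) (h : ∀ x, φ.free x → σ x = τ x) : fp σ φ = fp τ φ := by
  induction φ with
  | bot | all => rfl
  | eq s t | le s t =>
    simp only [fp, tp_congr s fun x hx => h x (Or.inl hx), tp_congr t fun x hx => h x (Or.inr hx)]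
  | prd k t => simp only [fp, tp_congr t h]
  | imp φ ψ i1 i2 => simp only [fp, i1 fun x hx => h x (Or.inl hx), i2 fun x hx => h x (Or.inr hx)]

variable {b : Bool} {Γ : Set EFm}

theorem sub1 {φ : EFm} (h : EPrv b Γ φ) {x : ℕ} {u : ETm} (hf : φ.freeFor x u) :
    EPrv b Γ (φ.subst x u) := .mp (.inst x u φ hf) (.gen x h)

theorem subL {φ : EFm} (ho : Op φ) (h : EPrv b Γ φ) (σ : ℕ → ETm) (L : List ℕ)
    (hσ : ∀ i ∈ L, ∀ j ∈ L, ¬ (σ i).occ j) :
    EPrv b Γ (fp (fun i => if i ∈ L then σ i else .var i) φ) := by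
  induction L with
  | nil => simpa [fp_var] using h
  | cons k L ih =>
    have h1 := ih fun i hi j hj => hσ i (List.mem_cons_of_mem _ hi) j (List.mem_cons_of_mem _ hj)
    have h2 := fp_subst (fun i => if i ∈ L then σ i else .var i) k (σ k) ho
    have h3 := sub1 h1 h2.2
    rw [h2.1] at h3
    refine (fp_congr φ fun i _ => ?_) ▸ h3
    by_cases hi : i ∈ L
    · simp only [hi, if_true, List.mem_cons, or_true]
      exact ETm.subst_of_not_occ _ (hσ i (List.mem_cons_of_mem _ hi) k List.mem_cons_self)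
    · by_cases hk : k = i
      · simp [hi, hk, ETm.subst]
      · simp [hi, hk, Ne.symm hk, ETm.subst]

theorem subP {φ : EFm} (ho : Op φ) (h : EPrv b Γ φ) (σ : ℕ → ETm) : EPrv b Γ (fp σ φ) := by
  obtain ⟨M, hM⟩ := ((Set.finite_lt_nat φ.mx).image fun i => (σ i).mx).bddAbove
  have hM' : ∀ i < φ.mx, (σ i).mx ≤ M := fun i hi => hM ⟨i, hi, rfl⟩
  have h1 := subL ho h (fun i => .var (M + φ.mx + i)) (List.range φ.mx) fun i _ j hj e => by
    have : j = M + φ.mx + i := e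
    have := List.mem_range.1 hj
    omega
  have h2 := subL (fp_fp σ _ ho).2 h1 (fun j => σ (j - (M + φ.mx)))
    ((List.range φ.mx).map (M + φ.mx + ·)) fun i hi j hj e => by
    obtain ⟨i', hi', rfl⟩ := List.mem_map.1 hi
    obtain ⟨j', -, rfl⟩ := List.mem_map.1 hj
    rw [Nat.add_sub_cancel_left] at e
    have := ETm.lt_mx e
    have := hM' i' (List.mem_range.1 hi')
    omega
  rw [(fp_fp _ _ ho).1] at h2
  refine (fp_congr φ fun i hi => ?_) ▸ h2
  have hi' := EFm.lt_mx hi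
  simp [hi', tp, ETm.ev]

/-! ### Local consequence -/

inductive Der (b : Bool) (Γ T : Set EFm) : EFm → Prop
  | hyp {φ : EFm} : φ ∈ T → Der b Γ T φ
  | thm {φ : EFm} : EPrv b Γ φ → Der b Γ T φ
  | mp {φ ψ : EFm} : Der b Γ T (.imp φ ψ) → Der b Γ T φ → Der b Γ T ψ

variable {T T' : Set EFm} {φ ψ χ : EFm}

theorem Der.mono (h : Der b Γ T φ) (hs : T ⊆ T') : Der b Γ T' φ := by
  induction h with
  | hyp h => exact .hyp (hs h)
  | thm h => exact .thm h
  | mp _ _ i1 i2 => exact .mp i1 i2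

theorem Der.ded (h : Der b Γ (insert φ T) ψ) : Der b Γ T (.imp φ ψ) := by
  induction h with
  | hyp h =>
    rcases h with rfl | h
    · exact .thm (.mp (.mp (.s _ (.imp _ _) _) (.k _ _)) (.k _ .bot))
    · exact .mp (.thm (.k _ _)) (.hyp h)
  | thm h => exact .mp (.thm (.k _ _)) (.thm h)
  | mp _ _ i1 i2 => exact .mp (.mp (.thm (.s _ _ _)) i1) i2

theorem Der.prv (h : Der b Γ ∅ φ) : EPrv b Γ φ := by
  induction h with
  | hyp h => exact h.elim
  | thm h => exact h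
  | mp _ _ i1 i2 => exact .mp i1 i2

theorem Der.gen (h : Der b Γ T φ) {x : ℕ} (hx : ∀ δ ∈ T, ¬ δ.free x) : Der b Γ T (.all x φ) := by
  induction h with
  | hyp h => exact .mp (.thm (.vac x _ (hx _ h))) (.hyp h)
  | thm h => exact .thm (.gen x h)
  | mp _ _ i1 i2 => exact .mp (.mp (.thm (.dist x _ _)) i1) i2

theorem Der.raa (h : Der b Γ (insert φ.neg T) .bot) : Der b Γ T φ := .mp (.thm (.dn _)) h.ded

theorem Der.efq (h : Der b Γ T .bot) : Der b Γ T φ := (h.mono (Set.subset_insert _ _)).raa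

theorem Der.chain {ι : Type} {c : ι → Set EFm} [Nonempty ι] (hc : Directed (· ⊆ ·) c)
    (h : Der b Γ (⋃ i, c i) φ) : ∃ i, Der b Γ (c i) φ := by
  induction h with
  | hyp h => obtain ⟨i, hi⟩ := Set.mem_iUnion.1 h; exact ⟨i, .hyp hi⟩
  | thm h => exact ⟨Classical.arbitrary ι, .thm h⟩
  | mp _ _ i1 i2 =>
    obtain ⟨i, h1⟩ := i1
    obtain ⟨j, h2⟩ := i2
    obtain ⟨k, a1, a2⟩ := hc i j
    exact ⟨k, .mp (h1.mono a1) (h2.mono a2)⟩

/-- the witnessing formula -/
def hk (x z : ℕ) (χ : EFm) : EFm := .imp (χ.subst x (.var z)) (.all x χ)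

theorem con_hk {x z : ℕ} (hz : (EFm.all x χ).mx ≤ z) (hT : ∀ δ ∈ T, ¬ δ.free z)
    (h : Der b Γ (insert (hk x z χ) T) .bot) : Der b Γ T .bot := by
  have h0 := h.ded
  have hx : x < z := le_of_max_le_left hz
  have hb := back (x := x) (le_of_max_le_right hz)
  have h1 : Der b Γ T (χ.subst x (.var z)) := by
    refine Der.raa (.mp (h0.mono (Set.subset_insert _ _)) (Der.ded (Der.efq ?_)))
    exact .mp (.hyp (Or.inr (Or.inl rfl))) (.hyp (Or.inl rfl))
  have h2 : EPrv b Γ (.imp (.all z (χ.subst x (.var z))) χ) := by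
    have := EPrv.inst (b := b) (Γ := Γ) z (.var x) _ hb.2
    rwa [hb.1] at this
  have h3 : ¬ (EFm.all z (χ.subst x (.var z))).free x := fun h =>
    (free_subst h.2).elim h.1 fun h => h.1 rfl
  have h4 : Der b Γ T (.all x χ) :=
    .mp (.thm (.mp (.dist x _ _) (.gen x h2))) (.mp (.thm (.vac x _ h3)) (h1.gen hT))
  exact .mp h0 (.mp (.thm (.k _ _)) h4)

/-- the stages: a list of formulas -/
def stage (e : ℕ → ℕ × EFm) (φ : EFm) : ℕ → List EFm
  | 0 => [φ]
  | n + 1 => hk (e n).1 (max (EFm.all (e n).1 (e n).2).mx ((stage e φ n).map EFm.mx).sum) (e n).2 ::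
      stage e φ n

theorem con_stage (e : ℕ → ℕ × EFm) (h : ¬ Der b Γ {φ} .bot) (n : ℕ) :
    ¬ Der b Γ {δ | δ ∈ stage e φ n} .bot := by
  induction n with
  | zero => simpa [stage] using h
  | succ n ih =>
    intro h1
    refine ih (con_hk (le_max_left _ ((stage e φ n).map EFm.mx).sum) (fun δ hδ hf => ?_)
      (h1.mono fun δ hδ => List.mem_cons.1 hδ))
    have a1 := EFm.lt_mx hf
    have a2 := List.single_le_sum (l := (stage e φ n).map EFm.mx) (fun _ _ => Nat.zero_le _) _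
      (List.mem_map_of_mem hδ)
    omega

/-- complete consistent theories with witnesses -/
structure Hen (b : Bool) (Γ T : Set EFm) : Prop where
  clo : ∀ {φ}, Der b Γ T φ → φ ∈ T
  con : EFm.bot ∉ T
  cpl : ∀ φ, φ ∉ T → φ.neg ∈ T
  wit : ∀ x χ, ∃ z, (EFm.all x χ).mx ≤ z ∧ hk x z χ ∈ T

theorem exists_hen (h : ¬ Der b Γ {φ} .bot) : ∃ T, Hen b Γ T ∧ φ ∈ T := by
  obtain ⟨e, he⟩ := exists_enum
  have hm : Monotone fun n => {δ | δ ∈ stage e φ n} :=
    monotone_nat_of_le_succ fun n δ hδ => List.mem_cons_of_mem _ hδ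
  have h0 : ¬ Der b Γ (⋃ n, {δ | δ ∈ stage e φ n}) .bot := fun h1 =>
    (Der.chain hm.directed_le h1).elim fun n => con_stage e h n
  obtain ⟨T, hs, hT⟩ := zorn_subset_nonempty {T | ¬ Der b Γ T .bot} (fun c hc hch hne => by
    refine ⟨⋃₀ c, fun h1 => ?_, fun _ => Set.subset_sUnion_of_mem⟩
    have := hne.to_subtype
    rw [Set.sUnion_eq_iUnion] at h1
    exact (Der.chain hch.directedOn.directed_val h1).elim fun i => hc i.2) _ h0
  have key : ∀ ψ, ψ ∉ T → Der b Γ T ψ.neg := fun ψ hψ => by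
    refine Der.ded (not_not.1 fun h1 => hψ ?_)
    exact hT.2 h1 (Set.subset_insert _ _) (Set.mem_insert _ _)
  have clo : ∀ {ψ}, Der b Γ T ψ → ψ ∈ T := fun {ψ} h1 =>
    not_not.1 fun h2 => hT.1 (.mp (key ψ h2) h1)
  refine ⟨T, ⟨clo, fun h1 => hT.1 (.hyp h1), fun ψ h1 => clo (key ψ h1), fun x χ => ?_⟩,
    hs (Set.mem_iUnion.2 ⟨0, List.mem_singleton.2 rfl⟩)⟩
  obtain ⟨n, hn⟩ := he (x, χ)
  refine ⟨max (EFm.all x χ).mx ((stage e φ n).map EFm.mx).sum, le_max_left _ _,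
    hs (Set.mem_iUnion.2 ⟨n + 1, ?_⟩)⟩
  simp [stage, hn]

namespace Hen
variable (H : Hen b Γ T)
include H

theorem thm (h : EPrv b Γ φ) : φ ∈ T := H.clo (.thm h)
theorem mp (h : φ.imp ψ ∈ T) (h' : φ ∈ T) : ψ ∈ T := H.clo (.mp (.hyp h) (.hyp h'))
theorem imp_iff : φ.imp ψ ∈ T ↔ (φ ∈ T → ψ ∈ T) := by
  refine ⟨H.mp, fun h => ?_⟩
  by_cases h1 : φ ∈ T
  · exact H.mp (H.thm (.k _ _)) (h h1)
  · exact H.clo (Der.ded (Der.efq (.mp (.hyp (Or.inr (H.cpl _ h1))) (.hyp (Or.inl rfl)))))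

theorem ex (n : ℕ) (h : n < eqAx.length) (ho : Op eqAx[n].e) (s t u w : ETm) :
    fp (fun i => [s, t, u, w].getD i .zero) eqAx[n].e ∈ T :=
  H.thm (subP ho (.ax (List.mem_append_left _ (List.getElem_mem h))) _)

theorem refl (s : ETm) : EFm.eq s s ∈ T := H.ex 0 (by decide) trivial s s s s
theorem eq4 {s t u w : ETm} (h1 : EFm.eq s t ∈ T) (h2 : EFm.eq u w ∈ T) (h3 : EFm.eq s u ∈ T) :
    EFm.eq t w ∈ T :=
  H.mp (H.mp (H.mp (H.ex 7 (by decide) ⟨trivial, trivial, trivial, trivial⟩ s t u w) h1) h2) h3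
theorem le4 {s t u w : ETm} (h1 : EFm.eq s t ∈ T) (h2 : EFm.eq u w ∈ T) (h3 : EFm.le s u ∈ T) :
    EFm.le t w ∈ T :=
  H.mp (H.mp (H.mp (H.ex 8 (by decide) ⟨trivial, trivial, trivial, trivial⟩ s t u w) h1) h2) h3
theorem prd2 {s t : ETm} {k : ℕ} (h1 : EFm.eq s t ∈ T) (h3 : EFm.prd k s ∈ T) : EFm.prd k t ∈ T :=
  H.mp (H.mp (H.thm (subP (φ := .imp (.eq _ _) (.imp (.prd _ _) (.prd _ _)))
    ⟨trivial, trivial, trivial⟩ (.cong k) fun i => [s, t].getD i .zero)) h1) h3

/-- provable equality -/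
def sd : Setoid ETm :=
  ⟨fun s t => EFm.eq s t ∈ T, H.refl, fun h => H.eq4 h (H.refl _) (H.refl _),
    fun h1 h2 => H.eq4 (H.refl _) h2 h1⟩

/-- the class of a term -/
def cl (t : ETm) : Quotient H.sd := Quotient.mk H.sd t

theorem cl_eq {s t : ETm} : H.cl s = H.cl t ↔ EFm.eq s t ∈ T := Quotient.eq
theorem out (t : ETm) : EFm.eq (H.cl t).out t ∈ T := H.cl_eq.1 (Quotient.out_eq _)
theorem out' (t : ETm) : EFm.eq t (H.cl t).out ∈ T := H.cl_eq.1 (Quotient.out_eq _).symm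

/-- the term model -/
noncomputable def str : Str :=
  ⟨Quotient H.sd, H.cl .zero, fun a => H.cl (.succ a.out), fun a => H.cl (.len a.out),
    fun a => H.cl (.half a.out), fun a c => H.cl (.add a.out c.out),
    fun a c => H.cl (.mul a.out c.out), fun a c => H.cl (.smash a.out c.out),
    fun a c => EFm.le a.out c.out ∈ T⟩

def c0 (k : ℕ) : H.str.α := H.cl (.cst k)
def v0 (k : ℕ) : H.str.α := H.cl (.var k)
def X0 (k : ℕ) (a : H.str.α) : Prop := EFm.prd k (Quotient.out a) ∈ T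

theorem ev_tm (t : ETm) : t.ev H.str H.c0 H.v0 = H.cl t := by
  induction t with
  | var y | cst k => rfl
  | zero => rfl
  | succ t ih =>
    rw [ETm.ev, ih]
    exact H.cl_eq.2 (H.mp (H.ex 1 (by decide) ⟨trivial, trivial⟩ _ t t t) (H.out t))
  | len t ih =>
    rw [ETm.ev, ih]
    exact H.cl_eq.2 (H.mp (H.ex 2 (by decide) ⟨trivial, trivial⟩ _ t t t) (H.out t))
  | half t ih =>
    rw [ETm.ev, ih]
    exact H.cl_eq.2 (H.mp (H.ex 3 (by decide) ⟨trivial, trivial⟩ _ t t t) (H.out t))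
  | add s t i1 i2 =>
    rw [ETm.ev, i1, i2]
    exact H.cl_eq.2 (H.mp (H.mp (H.ex 4 (by decide) ⟨trivial, trivial, trivial⟩ _ s _ t)
      (H.out s)) (H.out t))
  | mul s t i1 i2 =>
    rw [ETm.ev, i1, i2]
    exact H.cl_eq.2 (H.mp (H.mp (H.ex 5 (by decide) ⟨trivial, trivial, trivial⟩ _ s _ t)
      (H.out s)) (H.out t))
  | smash s t i1 i2 =>
    rw [ETm.ev, i1, i2]
    exact H.cl_eq.2 (H.mp (H.mp (H.ex 6 (by decide) ⟨trivial, trivial, trivial⟩ _ s _ t)
      (H.out s)) (H.out t))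

/-- every class contains arbitrarily large variables -/
theorem rep (t : ETm) (n : ℕ) : ∃ z, n ≤ z ∧ H.v0 z = H.cl t := by
  have hy : ¬ t.occ (max n t.mx) := fun h => absurd (ETm.lt_mx h) (not_lt.2 (le_max_right _ _))
  obtain ⟨z, hz, h⟩ := H.wit (max n t.mx) (EFm.eq (.var (max n t.mx)) t).neg
  refine ⟨z, (le_max_left _ _).trans (Nat.le_of_succ_le (le_of_max_le_left hz)),
    H.cl_eq.2 (not_not.1 fun h1 => ?_)⟩
  have e : ∀ u, (EFm.eq (.var (max n t.mx)) t).neg.subst (max n t.mx) u = (EFm.eq u t).neg :=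
    fun u => by simp only [EFm.neg, EFm.subst, ETm.subst, if_true, ETm.subst_of_not_occ u hy]
  rw [hk, e] at h
  have h2 := H.mp (H.thm (.inst _ t (EFm.eq (.var (max n t.mx)) t).neg ⟨trivial, trivial⟩)) (H.mp h (H.cpl _ h1))
  rw [e] at h2
  exact H.con (H.mp h2 (H.refl t))

theorem truth (n : ℕ) : ∀ φ : EFm, sz φ < n → (φ.ev H.str H.c0 H.X0 H.v0 ↔ φ ∈ T) := by
  induction n with
  | zero => exact fun _ h => absurd h (Nat.not_lt_zero _)
  | succ n ih =>
    intro φ h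
    cases φ with
    | bot => exact iff_of_false id H.con
    | eq s t => rw [EFm.ev, H.ev_tm, H.ev_tm]; exact H.cl_eq
    | le s t =>
      rw [EFm.ev, H.ev_tm, H.ev_tm]
      exact ⟨H.le4 (H.out s) (H.out t), H.le4 (H.out' s) (H.out' t)⟩
    | prd k t => rw [EFm.ev, H.ev_tm]; exact ⟨H.prd2 (H.out t), H.prd2 (H.out' t)⟩
    | imp φ ψ =>
      simp only [sz] at h
      rw [EFm.ev, ih φ (by omega), ih ψ (by omega), H.imp_iff]
    | all x χ =>
      simp only [sz] at h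
      have key : ∀ z, χ.mx ≤ z →
          (χ.ev H.str H.c0 H.X0 (update H.v0 x (H.v0 z)) ↔ χ.subst x (.var z) ∈ T) := fun z hz => by
        rw [← ih _ (by rw [sz_subst]; omega), EFm.ev_subst _ _ _ _ (freeFor_big hz)]
        rfl
      refine ⟨fun h1 => ?_, fun h1 u => ?_⟩
      · obtain ⟨z, hz, h2⟩ := H.wit x χ
        exact H.mp h2 ((key z (le_of_max_le_right hz)).1 (h1 _))
      · obtain ⟨z, hz, h2⟩ := H.rep (Quotient.out u) χ.mx
        have h3 : H.v0 z = u := h2.trans (Quotient.out_eq _)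
        rw [← h3, key z hz]
        exact H.mp (H.thm (.inst _ _ _ (freeFor_big hz))) h1

end Hen

/-- universal closure over the variables below `n` -/
def clo : ℕ → EFm → EFm
  | 0, φ => φ
  | n + 1, φ => clo n (.all n φ)

theorem prv_clo (n : ℕ) : ∀ φ : EFm, EPrv b Γ (clo n φ) ↔ EPrv b Γ φ := by
  induction n with
  | zero => exact fun _ => Iff.rfl
  | succ n ih =>
    intro φ
    rw [clo, ih]
    refine ⟨fun h => ?_, .gen n⟩
    have := EPrv.mp (.inst n (.var n) φ (freeFor_self n φ)) h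
    rwa [subst_self] at this

theorem ev_clo {S : Str} {c : ℕ → S.α} {X : ℕ → S.α → Prop} (n : ℕ) : ∀ (φ : EFm) (v : ℕ → S.α),
    (clo n φ).ev S c X v ↔ ∀ w : ℕ → S.α, (∀ i, n ≤ i → w i = v i) → φ.ev S c X w := by
  induction n with
  | zero => exact fun φ v => ⟨fun h w hw => (funext fun i => hw i (Nat.zero_le i) : w = v) ▸ h,
      fun h => h v fun _ _ => rfl⟩
  | succ n ih =>
    intro φ v
    rw [clo, ih]
    refine ⟨fun h w hw => ?_, fun h w hw u => h _ fun i hi => ?_⟩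
    · have := h (update w n (v n)) (fun i hi => ?_) (w n)
      · simpa using this
      · rcases hi.eq_or_lt with rfl | hi
        · simp
        · rw [update_of_ne hi.ne', hw i hi]
    · rw [update_of_ne (by omega), hw i (by omega)]

theorem ev_clo_mx {S : Str} {c : ℕ → S.α} {X : ℕ → S.α → Prop} (φ : EFm) (v : ℕ → S.α) :
    (clo φ.mx φ).ev S c X v ↔ ∀ w, φ.ev S c X w := by
  rw [ev_clo]
  refine ⟨fun h w => ?_, fun h w _ => h w⟩
  refine (φ.ev_congr fun x hx => ?_).1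
    (h (fun i => if i < φ.mx then w i else v i) fun i hi => if_neg (not_lt.2 hi))
  exact if_pos (EFm.lt_mx hx)

theorem Hen.valid (H : Hen b Γ T) (h : EPrv b Γ φ) (w : ℕ → H.str.α) : φ.ev H.str H.c0 H.X0 w :=
  (ev_clo_mx φ H.v0).1 ((H.truth _ _ (Nat.lt_succ_self _)).2 (H.thm ((prv_clo _ _).2 h))) w

theorem comp (b : Bool) : COMP b := by
  intro Γ φ h
  by_contra h0
  obtain ⟨T, H, hT⟩ := exists_hen (b := b) (Γ := Γ) (φ := (clo φ.mx φ).neg) fun h1 =>
    h0 ((prv_clo _ _).1 (Der.raa (T := ∅) (h1.mono fun _ h => Or.inl h)).prv)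
  let M : Mdl b :=
    { toStr := H.str
      hax := fun ψ hψ v => (Fm.ev_e ψ v).1 (H.valid (.ax (List.mem_append_right _ hψ)) v)
      hind := fun x ψ hψ v => (Fm.ev_e _ v).1 (H.valid (.ind x hψ) v) }
  have h2 := h M H.c0 H.X0 fun γ hγ v => H.valid (.hyp hγ) v
  exact H.con (H.mp hT ((H.truth _ _ (Nat.lt_succ_self _)).1 ((ev_clo_mx φ H.v0).2 h2)))

/-! ### Erasing -/

theorem tm_er_e (t : Tm) : t.e.er = t := by
  induction t with
  | var y => rfl
  | zero => rfl
  | succ t ih | len t ih | half t ih => simp only [Tm.e, ETm.er, ih]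
  | add s t i1 i2 | mul s t i1 i2 | smash s t i1 i2 => simp only [Tm.e, ETm.er, i1, i2]

theorem er_e (φ : Fm) : φ.e.er = φ := by
  induction φ with
  | bot => rfl
  | eq s t | le s t => simp only [Fm.e, EFm.er, tm_er_e]
  | imp φ ψ i1 i2 => simp only [Fm.e, EFm.er, i1, i2]
  | all y φ ih => simp only [Fm.e, EFm.er, ih]

theorem occ_er (x : ℕ) (t : ETm) : t.er.occ x ↔ t.occ x := by
  induction t with
  | var y | cst k => rfl
  | zero => rfl
  | succ t ih | len t ih | half t ih => exact ih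
  | add s t i1 i2 | mul s t i1 i2 | smash s t i1 i2 => exact or_congr i1 i2

theorem free_er {x : ℕ} {φ : EFm} (h : φ.er.free x) : φ.free x := by
  induction φ with
  | bot | prd => exact h.elim
  | eq s t | le s t => exact h.imp (occ_er x s).1 (occ_er x t).1
  | imp φ ψ i1 i2 => exact h.imp i1 i2
  | all y φ ih => exact ⟨h.1, ih h.2⟩

theorem freeFor_er {x : ℕ} {u : ETm} {φ : EFm} (h : φ.freeFor x u) : φ.er.freeFor x u.er := by
  induction φ with
  | bot | eq | le | prd => trivial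
  | imp φ ψ i1 i2 => exact ⟨i1 h.1, i2 h.2⟩
  | all y φ ih =>
    exact h.imp (mt (free_er (φ := .all y φ))) fun h => ⟨mt (occ_er y u).1 h.1, ih h.2⟩

theorem tm_subst_er (x : ℕ) (u t : ETm) : (t.subst x u).er = t.er.subst x u.er := by
  induction t with
  | var y => by_cases h : x = y <;> simp [Tm.subst, ETm.subst, ETm.er, h]
  | cst k => rfl
  | zero => rfl
  | succ t ih | len t ih | half t ih => simp only [Tm.subst, ETm.er, ETm.subst, ih]
  | add s t i1 i2 | mul s t i1 i2 | smash s t i1 i2 =>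
    simp only [Tm.subst, ETm.er, ETm.subst, i1, i2]

theorem subst_er (x : ℕ) (u : ETm) (φ : EFm) : (φ.subst x u).er = φ.er.subst x u.er := by
  induction φ with
  | bot | prd => rfl
  | eq s t | le s t => simp only [Fm.subst, EFm.er, EFm.subst, tm_subst_er]
  | imp φ ψ i1 i2 => simp only [Fm.subst, EFm.er, EFm.subst, i1, i2]
  | all y φ ih => by_cases h : x = y <;> simp [Fm.subst, EFm.er, EFm.subst, h, ih]

theorem prv_er (h : EPrv b ∅ φ) : Prv b φ.er := by
  induction h with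
  | hyp h => exact h.elim
  | k => exact .k ..
  | s => exact .s ..
  | dn => exact .dn ..
  | inst x u φ h =>
    have := Prv.inst (full := b) x _ _ (freeFor_er h)
    rwa [← subst_er] at this
  | dist => exact .dist ..
  | vac x φ h => exact .vac x _ (mt free_er h)
  | mp _ _ i1 i2 => exact .mp i1 i2
  | gen x _ ih => exact .gen x ih
  | ax h => rw [er_e]; exact .ax h
  | ind x h => rw [er_e]; exact .ind x h
  | cong k => exact .mp (.k _ _) (.mp (.mp (.s _ (.imp _ _) _) (.k _ _)) (.k _ .bot))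

end Comp

theorem row_COMP : R_COMP := fun b =>
  ⟨Comp.comp b, fun φ h => Comp.er_e φ ▸ Comp.prv_er
    (Comp.comp b ∅ φ.e fun M _ _ _ v => (Fm.ev_e φ v).2 (h M v))⟩

end Pool.Agent.MP_f18a41_lc

end MrgPart2

-- ======== part 3: formerly Pool.Agent.MP_f18a41_lc.POSTA
section MrgPart3

/-! The proof predicate evaluated in a model. -/

namespace Pool.Agent.MP_f18a41_lc

open Function

namespace posta

variable {b : Bool} {M : Mdl b}

/-- `y` follows by the rule `r` at the values `m` -/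
def Core (r : Rule) (Pm : M → Prop) (y : M) (m : ℕ → M) : Prop :=
  y = r.concl.ev m ∧ (r.distinct = true → m 0 ≠ m 1) ∧ ∀ p ∈ r.prem, Pm (p.ev m)

section Ev
variable (m : ℕ → M) (p q t u : Pat)
@[simp] theorem ev_mv (i : ℕ) : (Pat.mv i).ev m = m i := rfl
@[simp] theorem ev_cst (n : ℕ) : (Pat.cst n).ev m = (n : M) := rfl
@[simp] theorem ev_n1 (k : ℕ) : (Pat.n1 k p).ev m = pr (k : M) (p.ev m) := rfl
@[simp] theorem ev_n2 (k : ℕ) : (Pat.n2 k p q).ev m = pr (k : M) (pr (p.ev m) (q.ev m)) := rfl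
@[simp] theorem ev_var : (Pat.var p).ev m = cVar (p.ev m) := by simp [Pat.var]
@[simp] theorem ev_zero : Pat.zero.ev m = cZero := by simp [Pat.zero]
@[simp] theorem ev_bot : Pat.bot.ev m = cBot := by simp [Pat.bot]
@[simp] theorem ev_imp : (Pat.imp p q).ev m = cImp (p.ev m) (q.ev m) := rfl
@[simp] theorem ev_all : (Pat.all p q).ev m = cAll (p.ev m) (q.ev m) := rfl
@[simp] theorem ev_ball : (Pat.ball p t q).ev m = cBall (p.ev m) (t.ev m) (q.ev m) := by
  simp [Pat.ball]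
@[simp] theorem ev_jT : (Pat.jT p).ev m = jT (p.ev m) := by simp [Pat.jT]
@[simp] theorem ev_jF : (Pat.jF p).ev m = jF (p.ev m) := by simp [Pat.jF]
@[simp] theorem ev_jN : (Pat.jN p q).ev m = jN (p.ev m) (q.ev m) := rfl
@[simp] theorem ev_jS : (Pat.jS p q t u).ev m = jS (p.ev m) (q.ev m) (t.ev m) (u.ev m) := rfl
@[simp] theorem ev_jC (σ : Bool) : (Pat.jC σ p).ev m = jC σ (p.ev m) := rfl
@[simp] theorem ev_jP : (Pat.jP p).ev m = jP (p.ev m) := rfl
end Ev

theorem rl_of {Pm : M → Prop} {y : M} {r : Rule} (hr : r ∈ rules b) {m : ℕ → M}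
    (h : Core r Pm y m) : Rl Pm y := by
  obtain ⟨rfl, h2, h⟩ := h
  simp only [rules, List.mem_append, List.mem_map, List.mem_flatMap, or_assoc,
    List.mem_ite_nil_right] at hr
  rcases hr with hr | ⟨k, hk, rfl⟩ | ⟨k, hk, rfl⟩ | hr | ⟨k, hk, rfl⟩ | hr | ⟨k, hk, rfl⟩ |
    ⟨k, hk, rfl⟩ | hr | ⟨k, hk, rfl⟩ | ⟨k, hk, rfl⟩ | ⟨σ, -, hr⟩ | hr | ⟨hb, hr⟩ | hr |
    ⟨φ, hφ, rfl⟩
  all_goals
    try simp only [List.mem_cons, List.not_mem_nil, or_false] at hr
    try rcases hr with rfl | rfl | rfl | rfl | rfl | rfl | rfl | rfl | rfl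
    all_goals
      simp only [List.forall_mem_cons, ev_mv, ev_cst, ev_n1, ev_n2, ev_var, ev_zero, ev_bot, ev_imp,
        ev_all, ev_ball, ev_jT, ev_jF, ev_jN, ev_jS, ev_jC, ev_jP] at h ⊢
  exacts [.tVar _, .tZero, .t1 k hk h.1, .t2 k hk h.1 h.2.1, .fBot, .fImp h.1 h.2.1, .fAll _ h.1,
    .f2 k hk h.1 h.2.1, .nVar (h2 rfl), .nZero _, .nBot _, .nSelf _ _, .nAll _ h.1, .n1 k hk h.1,
    .n2 k hk h.1 h.2.1, .sVar _ _, .sN _ h.1, .sAll h.1 h.2.1 h.2.2.1, .s1 k hk h.1,
    .s2 k hk h.1 h.2.1, .kBot σ, .kEq σ h.1 h.2.1, .kLe σ h.1 h.2.1, .kImp σ h.1 h.2.1,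
    .kBall h.1 h.2.1 h.2.2.1, .kSharp h.1 h.2.1 h.2.2.1, .kWide hb h.1 h.2.1 h.2.2.1,
    .pK h.1 h.2.1, .pS h.1 h.2.1 h.2.2.1, .pDn h.1, .pInst h.1 h.2.1 h.2.2.1, .pDist _ h.1 h.2.1,
    .pVac h.1 h.2.1, .pMp h.1 h.2.1, .pGen _ h.1, .pInd h.1 h.2.1 h.2.2.1,
    .pAx (List.mem_append.2 hφ)]

theorem of_rl {Pm : M → Prop} {y : M} (h : Rl Pm y) : ∃ r ∈ rules b, ∃ m, Core r Pm y m := by
  by_contra hn
  have k : ∀ r ∈ rules b, ∀ m, ¬ Core r Pm y m := fun r hr m hm => hn ⟨r, hr, m, hm⟩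
  simp only [rules, List.forall_mem_append (α := Rule), List.forall_mem_map,
    List.forall_mem_flatMap, List.mem_ite_nil_right, and_imp, List.forall_mem_cons (α := Rule),
    List.forall_mem_cons (α := Pat), List.mem_singleton, forall_comm (α := Rule) (β := b = true),
    forall_eq, List.not_mem_nil, false_imp_iff, implies_true, and_true, and_assoc, Core,
    Bool.false_eq_true, true_and, forall_true_left, ev_mv,
    ev_cst, ev_n1, ev_n2, ev_var, ev_zero, ev_bot, ev_imp, ev_all, ev_ball, ev_jT, ev_jF, ev_jN,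
    ev_jS, ev_jC, ev_jP] at k
  obtain ⟨a1, a2, a3, a4, a5, a6, a7, a8, a9, a10, a11, a12, a13, a14, a15, a16, a17, a18, a19,
    a20, a21, a22, a23, a24, a25, a26, a27, a28, a29, a30, a31, a32, a33, a34⟩ := k
  have hσ : ∀ σ, σ ∈ [true, false] := by decide
  cases h with
  | tVar a => exact a1 (vec [a]) rfl
  | tZero => exact a2 (vec []) rfl
  | t1 k hk h0 => exact a3 k hk (vec [_]) ⟨rfl, h0⟩
  | t2 k hk h0 h1 => exact a4 k hk (vec [_, _]) ⟨rfl, h0, h1⟩
  | fBot => exact a5 (vec []) rfl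
  | fImp h0 h1 => exact a6 (vec [_, _]) ⟨rfl, h0, h1⟩
  | fAll a h0 => exact a7 (vec [_, _]) ⟨rfl, h0⟩
  | f2 k hk h0 h1 => exact a8 k hk (vec [_, _]) ⟨rfl, h0, h1⟩
  | nVar h0 => exact a9 (vec [_, _]) ⟨rfl, h0⟩
  | nZero a => exact a10 (vec [_]) rfl
  | nBot a => exact a11 (vec [_]) rfl
  | nSelf a c => exact a12 (vec [_, _]) rfl
  | nAll c h0 => exact a13 (vec [_, _, _]) ⟨rfl, h0⟩
  | n1 k hk h0 => exact a14 k hk (vec [_, _]) ⟨rfl, h0⟩
  | n2 k hk h0 h1 => exact a15 k hk (vec [_, _, _]) ⟨rfl, h0, h1⟩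
  | sVar a u => exact a16 (vec [_, _]) rfl
  | sN u h0 => exact a17 (vec [_, _, _]) ⟨rfl, h0⟩
  | sAll h0 h1 h2 => exact a18 (vec [_, _, _, _, _]) ⟨rfl, h0, h1, h2⟩
  | s1 k hk h0 => exact a19 k hk (vec [_, _, _, _]) ⟨rfl, h0⟩
  | s2 k hk h0 h1 => exact a20 k hk (vec [_, _, _, _, _, _]) ⟨rfl, h0, h1⟩
  | kBot σ => exact (a21 σ (hσ σ)).1 (vec []) rfl
  | kEq σ h0 h1 => exact (a21 σ (hσ σ)).2.1 (vec [_, _]) ⟨rfl, h0, h1⟩
  | kLe σ h0 h1 => exact (a21 σ (hσ σ)).2.2.1 (vec [_, _]) ⟨rfl, h0, h1⟩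
  | kImp σ h0 h1 => exact (a21 σ (hσ σ)).2.2.2 (vec [_, _]) ⟨rfl, h0, h1⟩
  | kBall h0 h1 h2 => exact a22 (vec [_, _, _]) ⟨rfl, h0, h1, h2⟩
  | kSharp h0 h1 h2 => exact a23 (vec [_, _, _]) ⟨rfl, h0, h1, h2⟩
  | kWide hb h0 h1 h2 => exact a24 hb (vec [_, _, _]) ⟨rfl, h0, h1, h2⟩
  | pK h0 h1 => exact a25 (vec [_, _]) ⟨rfl, h0, h1⟩
  | pS h0 h1 h2 => exact a26 (vec [_, _, _]) ⟨rfl, h0, h1, h2⟩
  | pDn h0 => exact a27 (vec [_]) ⟨rfl, h0⟩
  | pInst h0 h1 h2 => exact a28 (vec [_, _, _, _]) ⟨rfl, h0, h1, h2⟩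
  | pDist a h0 h1 => exact a29 (vec [_, _, _]) ⟨rfl, h0, h1⟩
  | pVac h0 h1 => exact a30 (vec [_, _]) ⟨rfl, h0, h1⟩
  | pMp h0 h1 => exact a31 (vec [_, _]) ⟨rfl, h0, h1⟩
  | pGen a h0 => exact a32 (vec [_, _]) ⟨rfl, h0⟩
  | pInd h0 h1 h2 => exact a33 (vec [_, _, _, _]) ⟨rfl, h0, h1, h2⟩
  | pAx h0 => exact a34 _ h0 (vec []) rfl

/-- the letter `i` occurs -/
def has (i : ℕ) : Pat → Bool
  | .mv j => i == j
  | .cst _ => false
  | .pr p q => has i p || has i q

/-- a bound of the letters -/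
def mx : Pat → ℕ
  | .mv j => j + 1
  | .cst _ => 0
  | .pr p q => max (mx p) (mx q)

theorem has_lt {i : ℕ} {p : Pat} (h : has i p = true) : i < mx p := by
  induction p with
  | mv j => simp only [has, beq_iff_eq] at h; simp [mx, h]
  | cst n => simp [has] at h
  | pr p q i1 i2 =>
    simp only [has, Bool.or_eq_true] at h
    exact lt_max_iff.2 (h.imp i1 i2)

theorem has_le {i : ℕ} {p : Pat} (h : has i p = true) (m : ℕ → M) : m i ≤ p.ev m := by
  induction p with
  | mv j => simp only [has, beq_iff_eq] at h; simp [h]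
  | cst n => simp [has] at h
  | pr p q i1 i2 =>
    simp only [has, Bool.or_eq_true] at h
    exact h.elim (fun h => (i1 h).trans (le_pr_left _ _)) fun h => (i2 h).trans (le_pr_right _ _)

theorem ev_congr {m m' : ℕ → M} {p : Pat} (h : ∀ i, has i p = true → m i = m' i) :
    p.ev m = p.ev m' := by
  induction p with
  | mv j => exact h j (by simp [has])
  | cst n => rfl
  | pr p q i1 i2 =>
    simp only [Pat.ev, i1 fun i k => h i (by simp [has, k]), i2 fun i k => h i (by simp [has, k])]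

theorem rules_ok (b : Bool) : ∀ r ∈ rules b, (r.distinct = true → has 0 r.concl = true ∧
    has 1 r.concl = true) ∧ mx r.concl ≤ 6 ∧ ∀ p ∈ r.prem, mx p ≤ 6 := by
  cases b <;> decide

theorem bound {Pm : M → Prop} {y B : M} (h : Rl Pm y) (hy : y ≤ B) (hP : ∀ j, Pm j → j ≤ B) :
    ∃ r ∈ rules b, ∃ m : ℕ → M, (∀ i, m i ≤ B) ∧
      ∀ m' : ℕ → M, (∀ i < 6, m' i = m i) → Core r Pm y m' := by
  obtain ⟨r, hr, m, h1, h2, h3⟩ := of_rl h
  obtain ⟨k1, k2, k3⟩ := rules_ok b r hr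
  refine ⟨r, hr, fun i => min (m i) B, fun i => min_le_right _ _, fun m' e => ?_⟩
  have key : ∀ p : Pat, mx p ≤ 6 → p.ev m ≤ B → ∀ i, has i p = true → m i = m' i :=
    fun p hp hB i hi =>
      ((e i ((has_lt hi).trans_le hp)).trans (min_eq_left ((has_le hi m).trans hB))).symm
  have c := key _ k2 (h1 ▸ hy)
  refine ⟨h1.trans (ev_congr c), fun d => ?_, fun p hp => ?_⟩
  · rw [← c 0 (k1 d).1, ← c 1 (k1 d).2]
    exact h2 d
  · rw [← ev_congr (key p (k3 p hp) (hP _ (h3 p hp)))]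
    exact h3 p hp

theorem fn_ev {g : ℕ → UFun b} (hg : ∀ i, UFn (g i)) (p : Pat) :
    UFn fun M v => p.ev (fun i => g i M v) := by
  induction p with
  | mv j => exact hg j
  | cst | pr => simp only [Pat.ev]; infer_instance

theorem sig_core (r : Rule) : UC false true fun (_ : Mdl b) v =>
    Core r (fun j => ∃ k < v 8, row (v 6) (v 7) k = j) (v 9) v := by
  have h0 := fn_ev (b := b) (g := fun i _ v => v i) (fun _ => inferInstance) r.concl
  have h1 := fun p => fn_ev (b := b) (g := fun i _ v => v (i + 1)) (fun _ => UFn.var _) p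
  unfold Core
  exact USig.out

theorem post : HasPost b := by
  have t : ∀ n : ℕ, ∀ {P : UPred b}, UC false true P →
      UC false true fun M v => ∃ x ≤ v n + v (n + 3), P M (cons x v) := fun n _ h =>
    UC.bexT (.add (.var n) (.var (n + 3))) h
  refine ⟨⟨(UC.listEx (rules b) fun r =>
    t 0 (t 1 (t 2 (t 3 (t 4 (t 5 (sig_core r))))))).congr fun M v => ⟨?_, fun h => ?_⟩⟩⟩
  · rintro ⟨r, hr, x5, -, x4, -, x3, -, x2, -, x1, -, x0, -, h⟩
    exact rl_of hr h
  · obtain ⟨r, hr, m, h1, h2⟩ := bound (B := v 0 + v 3) h le_add_self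
      (by rintro _ ⟨k, -, rfl⟩; exact (row_le _ _ _).trans le_self_add)
    refine ⟨r, hr, m 5, h1 5, m 4, h1 4, m 3, h1 3, m 2, h1 2, m 1, h1 1, m 0, h1 0,
      h2 _ fun i hi => ?_⟩
    interval_cases i <;> rfl

/-! The formulas -/

theorem occ_pr (x : ℕ) (s t : Tm) : (s.pr t).occ x ↔ s.occ x ∨ t.occ x := by
  simp [Tm.pr, Tm.occ, Tm.one, Tm.dbl, Tm.two]

theorem occ_tm {x : ℕ} {p : Pat} (h : p.tm.occ x) : 10 ≤ x ∧ x < 10 + mx p := by
  induction p with
  | mv j => obtain rfl : x = 10 + j := h; simp [mx]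
  | cst n => exact absurd h (Tm.not_occ_num _ _)
  | pr p q i1 i2 =>
    rcases (occ_pr _ _ _).1 h with h | h
    · have := i1 h; simp only [mx]; omega
    · have := i2 h; simp only [mx]; omega

theorem ev_tm (v : ℕ → M) (p : Pat) : p.tm.ev M.toStr v = p.ev fun i => v (10 + i) := by
  induction p with
  | mv j => rfl
  | cst n => exact Tm.ev_num v n
  | pr p q i1 i2 => simp only [Pat.tm, Tm.ev_pr, Pat.ev, i1, i2]

theorem ev_rowF (v : ℕ → M) (i : ℕ) (hi : i < 6) {y : Tm} (hy : ∀ x, y.occ x → x < 6 ∨ 9 ≤ x) :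
    (rowF (.var 1) (.var 2) (.var i) y).ev M.toStr v ↔
      v i ≤ len (v 1) ∧ row (v 1) (v 2) (v i) = y.ev M.toStr v := by
  have h6 : ¬ y.occ 6 := fun h => by have := hy _ h; omega
  have h7 : ¬ y.occ 7 := fun h => by have := hy _ h; omega
  have h8 : ¬ y.occ 8 := fun h => by have := hy _ h; omega
  have e6 : i ≠ 6 := by omega
  have e7 : i ≠ 7 := by omega
  have e8 : i ≠ 8 := by omega
  rw [← row_iff, rowF, Row]
  simp [Fm.bex, Fm.ball, Tm.ev_update h6, Tm.ev_update h7, Tm.ev_update h8, e6, e7, e8, pw]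

theorem ev_bigAnd (v : ℕ → M) (l : List Fm) :
    (bigAnd l).ev M.toStr v ↔ ∀ φ ∈ l, φ.ev M.toStr v := by
  induction l with
  | nil => simp [bigAnd]
  | cons φ l ih => simp [bigAnd, ih]

theorem ev_bigOr (v : ℕ → M) (l : List Fm) :
    (bigOr l).ev M.toStr v ↔ ∃ φ ∈ l, φ.ev M.toStr v := by
  induction l with
  | nil => simp [bigOr]
  | cons φ l ih => simp [bigOr, ih]

/-- the matrix of `ruleF` -/
def mat (r : Rule) : Fm :=
  .and (.eq (.var 4) r.concl.tm) (.and (if r.distinct then .ne (.var 10) (.var 11) else .neg .bot)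
    (bigAnd (r.prem.map (fun p => .bex 5 (.len (.var 1))
      (.and (.lt (.var 5) (.var 3)) (rowF (.var 1) (.var 2) (.var 5) p.tm))))))

theorem ev_mat (r : Rule) (w : ℕ → M) (h : w 3 ≤ len (w 1)) : (mat r).ev M.toStr w ↔
    Core r (fun j => ∃ k < w 3, row (w 1) (w 2) k = j) (w 4) fun i => w (10 + i) := by
  rw [mat, Fm.ev_and, Fm.ev_and, ev_bigAnd, List.forall_mem_map, Fm.ev_eq, ev_tm]
  refine and_congr Iff.rfl (and_congr (by split_ifs with d <;> simp [d])
    (forall₂_congr fun p _ => ?_))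
  have n : ¬ p.tm.occ 5 := fun h => by have := occ_tm h; omega
  rw [Fm.ev_bex _ (by simp [Tm.occ])]
  simp only [Fm.ev_and, ev_rowF _ 5 (by norm_num) fun x (hx : p.tm.occ x) =>
    Or.inr (by have := occ_tm hx; omega), Tm.ev_update n]
  simp only [ev_tm, Fm.ev_lt, Tm.ev_var, Tm.ev_len, update_self,
    update_of_ne (show 3 ≠ 5 by norm_num), update_of_ne (show 2 ≠ 5 by norm_num),
    update_of_ne (show 1 ≠ 5 by norm_num)]
  exact ⟨fun ⟨k, _, a, _, c⟩ => ⟨k, a, c⟩, fun ⟨k, a, c⟩ =>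
    ⟨k, a.le.trans h, a, a.le.trans h, c⟩⟩

theorem ev_rules (w : ℕ → M) (h : w 3 ≤ len (w 1)) (h' : w 4 ≤ w 1) :
    (bigOr ((rules b).map ruleF)).ev M.toStr w ↔ Step (w 1) (w 2) (w 3) (w 4) := by
  have e : ∀ r, (ruleF r).ev M.toStr w ↔ ∃ x0 ≤ w 1, ∃ x1 ≤ w 1, ∃ x2 ≤ w 1, ∃ x3 ≤ w 1,
      ∃ x4 ≤ w 1, ∃ x5 ≤ w 1, (mat r).ev M.toStr (update (update (update (update (update
        (update w 10 x0) 11 x1) 12 x2) 13 x3) 14 x4) 15 x5) := fun r => by
    show (Fm.bex 10 _ (Fm.bex 11 _ (Fm.bex 12 _ (Fm.bex 13 _ (Fm.bex 14 _ (Fm.bex 15 _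
      (mat r))))))).ev _ _ ↔ _
    generalize mat r = φ
    simp [Fm.bex, Fm.ball]
  rw [ev_bigOr]
  constructor
  · rintro ⟨_, hφ, k⟩
    obtain ⟨r, hr, rfl⟩ := List.mem_map.1 hφ
    obtain ⟨x0, -, x1, -, x2, -, x3, -, x4, -, x5, -, k⟩ := (e r).1 k
    have k' := (ev_mat r _ (by exact h)).1 k
    exact rl_of hr k'
  · intro k
    obtain ⟨r, hr, m, h1, h2⟩ := bound (B := w 1) k h'
      (by rintro _ ⟨k, -, rfl⟩; exact row_le _ _ _)
    refine ⟨_, List.mem_map_of_mem hr, (e r).2 ⟨m 0, h1 0, m 1, h1 1, m 2, h1 2, m 3, h1 3, m 4,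
      h1 4, m 5, h1 5, (ev_mat r _ (by exact h)).2 (h2 _ fun i hi => ?_)⟩⟩
    interval_cases i <;> rfl

theorem ev_prfF (n : ℕ) (w : ℕ → M) : (prfF b (.num n)).ev M.toStr w ↔
    HDer (fun _ => False) (w 1) (w 2) ∧ Mem (jP (n : M)) (w 1) (w 2) := by
  rw [prfF, Fm.ev_and, Fm.ev_ball _ (by simp [Tm.occ]), Fm.ev_bex _ (by simp [Tm.occ])]
  refine and_congr (forall₂_congr fun i hi => ?_) (exists_congr fun i => ?_)
  · rw [Fm.ev_bex _ (by simp [Tm.occ])]
    simp only [Fm.ev_and, Fm.ev_or, Fm.ev_eq,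
      ev_rowF (y := .var 4) _ 3 (by norm_num) fun x (hx : x = 4) => Or.inl (by omega)]
    constructor
    · rintro ⟨y, h1, ⟨h2, h3⟩, h4⟩
      obtain rfl : row (w 1) (w 2) i = y := h3
      exact h4.imp_right fun k => Or.inr ((ev_rules _ h2 h1).1 k)
    · intro h
      exact ⟨row (w 1) (w 2) i, row_le _ _ _, ⟨hi, rfl⟩, h.imp_right fun k =>
        (ev_rules _ (by exact hi) (by exact row_le _ _ _)).2 (k.resolve_left id)⟩
  · rw [ev_rowF _ 3 (by norm_num) fun x hx => by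
      simp [occ_pr, Tm.not_occ_num] at hx]
    simp

theorem free_bex {x y : ℕ} {t : Tm} {φ : Fm} :
    (Fm.bex y t φ).free x ↔ x ≠ y ∧ (t.occ x ∨ φ.free x) := by
  simp only [Fm.bex, Fm.ball, Fm.neg, Fm.free, Tm.occ]
  tauto

theorem free_and {x : ℕ} {φ ψ : Fm} : (Fm.and φ ψ).free x ↔ φ.free x ∨ ψ.free x := by
  simp [Fm.and, Fm.neg, Fm.free]

theorem free_rowF {x : ℕ} {s a i y : Tm} (h : (rowF s a i y).free x) :
    s.occ x ∨ a.occ x ∨ i.occ x ∨ y.occ x := by
  simp only [rowF, free_bex, free_and, Fm.lt, Fm.neg, Fm.free, Tm.occ, Tm.one] at h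
  tauto

theorem free_bigAnd {x : ℕ} {l : List Fm} (h : (bigAnd l).free x) : ∃ φ ∈ l, φ.free x := by
  induction l with
  | nil => simp [bigAnd, Fm.neg, Fm.free] at h
  | cons φ l ih => simpa using (free_and.1 h).imp_right fun k => by simpa using ih k

theorem free_bigOr {x : ℕ} {l : List Fm} (h : (bigOr l).free x) : ∃ φ ∈ l, φ.free x := by
  induction l with
  | nil => exact h.elim
  | cons φ l ih =>
    simp only [bigOr, Fm.or, Fm.neg, Fm.free, or_false] at h
    simpa using h.imp_right fun k => by simpa using ih k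

theorem free_ruleF {x : ℕ} {r : Rule} (hr : r ∈ rules b) (h : (ruleF r).free x) :
    1 ≤ x ∧ x ≤ 4 := by
  obtain ⟨-, k2, k3⟩ := rules_ok b r hr
  simp only [ruleF, List.foldr, free_bex, free_and, Fm.free, Tm.occ] at h
  obtain ⟨n0, h | ⟨n1, h | ⟨n2, h | ⟨n3, h | ⟨n4, h | ⟨n5, h | (h | h) | h | h⟩⟩⟩⟩⟩⟩ := h
  any_goals omega
  · have := occ_tm h
    omega
  · split_ifs at h <;> simp only [Fm.ne, Fm.neg, Fm.free, Tm.occ, or_false] at h
    omega
  · obtain ⟨_, hφ, h⟩ := free_bigAnd h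
    obtain ⟨p, hp, rfl⟩ := List.mem_map.1 hφ
    have := k3 p hp
    simp only [free_bex, free_and, Fm.lt, Fm.neg, Fm.free, Tm.occ, or_false] at h
    obtain ⟨n, h | h | h⟩ := h
    · omega
    · omega
    · rcases free_rowF h with h | h | h | h
      any_goals simp only [Tm.occ] at h; omega
      have := occ_tm h
      omega

theorem free_prfF {x n : ℕ} (h : (prfF b (.num n)).free x) : x = 1 ∨ x = 2 := by
  simp only [prfF, free_and, free_bex, Fm.ball, Fm.or, Fm.neg, Fm.free, Tm.occ, or_false] at h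
  obtain ⟨n3, h | ⟨n4, h | h | h | h⟩⟩ | ⟨n3, h | h⟩ := h
  any_goals omega
  · have := free_rowF h
    simp only [Tm.occ] at this
    omega
  · obtain ⟨_, hφ, h⟩ := free_bigOr h
    obtain ⟨r, hr, rfl⟩ := List.mem_map.1 hφ
    have := free_ruleF hr h
    omega
  · have := free_rowF h
    simp only [Tm.occ, occ_pr, Tm.not_occ_num, or_false] at this
    omega

end posta

open posta in
theorem row_POSTA : R_POSTA := fun b => by
  refine ⟨post, fun φ M v => ?_, fun φ x h => ?_⟩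
  · simp only [prov, Fm.ev_ex, ev_prfF]
    rfl
  · simp only [prov, Fm.ex, Fm.neg, Fm.free, or_false] at h
    have := free_prfF h.2.2
    omega

end Pool.Agent.MP_f18a41_lc

end MrgPart3

-- ======== part 4: formerly Pool.Agent.MP_f18a41_lc.BOX
section MrgPart4

/-! Row BOX: the basic laws of the box. -/

namespace Pool.Agent.MP_f18a41_lc

open Function

namespace box

variable {b : Bool} {M : Mdl b} {D : M → Prop}

theorem two_code : ((Tm.two.code : ℕ) : M) = pr 2 (pr 2 cZero) := by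
  simp [Tm.two, Tm.one, Tm.code, cast_npr]

theorem succT (hD : Clo D) {a : M} (h : D (jT a)) : D (jT (pr 2 a)) := by
  have := hD _ (.t1 2 (by simp) h)
  simpa using this

theorem mulT (hD : Clo D) {a c : M} (h : D (jT a)) (h' : D (jT c)) : D (jT (pr 6 (pr a c))) := by
  have := hD _ (.t2 6 (by simp) h h')
  simpa using this

theorem succN (hD : Clo D) {n a : M} (h : D (jN n a)) : D (jN n (pr 2 a)) := by
  have := hD _ (.n1 2 (by simp) h)
  simpa using this

theorem mulN (hD : Clo D) {n a c : M} (h : D (jN n a)) (h' : D (jN n c)) :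
    D (jN n (pr 6 (pr a c))) := by
  have := hD _ (.n2 6 (by simp) h h')
  simpa using this

theorem twoT (hD : Clo D) : D (jT ((Tm.two.code : ℕ) : M)) := by
  rw [two_code]; exact succT hD (succT hD (hD _ .tZero))

theorem twoN (hD : Clo D) (n : M) : D (jN n ((Tm.two.code : ℕ) : M)) := by
  rw [two_code]; exact succN hD (succN hD (hD _ (.nZero n)))

/-- the numeral of a nonzero element in terms of the numeral of its half -/
theorem nm_cases {y : M} (hy : y ≠ 0) :
    nm y = pr 6 (pr (Tm.two.code : ℕ) (nm (half y))) ∨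
      nm y = pr 2 (pr 6 (pr (Tm.two.code : ℕ) (nm (half y)))) := by
  rcases half_spec y with e | e
  · left
    have h1 : half y ≠ 0 := fun h1 => hy (by rw [e, h1, mul_zero])
    rw [← nm_even h1, ← e]
  · right
    rw [← nm_odd, ← e]

theorem thD (pb : POSTB b) (M : Mdl b) : Th (Dv : M → Prop) := ⟨pb.clo _, fun _ h => h⟩

theorem nmT (pb : POSTB b) (ch : CHAIN b) (x : M) : Dv (jT (nm x)) := by
  refine ch (fun _ y _ => jT (nm y)) (fun _ _ => True) inferInstance inferInstance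
    (fun M _ y D hD _ hy _ h => ?_) M (fun _ => x) trivial ?_
  · rcases nm_cases hy with e | e
    · rw [e]; exact mulT hD.clo (twoT hD.clo) h
    · rw [e]; exact succT hD.clo (mulT hD.clo (twoT hD.clo) h)
  · show Dv (jT (nm (0 : M)))
    rw [nm_zero]; exact (thD pb M).clo _ .tZero

theorem nmN (pb : POSTB b) (ch : CHAIN b) (n : ℕ) (x : M) : Dv (jN (n : M) (nm x)) := by
  refine ch (fun M y _ => jN (n : M) (nm y)) (fun _ _ => True) inferInstance inferInstance
    (fun M _ y D hD _ hy _ h => ?_) M (fun _ => x) trivial ?_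
  · rcases nm_cases hy with e | e
    · rw [e]; exact mulN hD.clo (twoN hD.clo _) h
    · rw [e]; exact succN hD.clo (mulN hD.clo (twoN hD.clo _) h)
  · show Dv (jN (n : M) (nm (0 : M)))
    rw [nm_zero]; exact (thD pb M).clo _ (.nZero _)

/-- semantic consequence at numerals, with renamed parameters -/
theorem key (comp : COMP b) (pb : POSTB b) (ch : CHAIN b) (sib : SIB b) (hD : Th D)
    (x : ℕ → M) {κ : Type} [Finite κ] (φ : κ → Fm) (g : κ → ℕ → ℕ) (χ : Fm) (h : ℕ → ℕ)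
    (hs : ∀ (N : Mdl b) (c : ℕ → N), (∀ i, (φ i).ev N.toStr (fun k => c (g i k))) →
      χ.ev N.toStr (fun k => c (h k)))
    (hh : ∀ i, D (jP (cdn (φ i) (fun k => x (g i k))))) :
    D (jP (cdn χ (fun k => x (h k)))) := by
  obtain ⟨m, hm⟩ := (Set.finite_range fun i => ((φ i).e.cl []).mx).bddAbove
  have hm' : ∀ i, ((φ i).e.cl []).mx ≤ m := fun i => hm ⟨i, rfl⟩
  obtain ⟨p, hp⟩ : ∃ p, p = 5 + m + (χ.e.cl []).mx := ⟨_, rfl⟩
  have hg : Good D (skip p) p (fun k => nm (x k)) (fun _ => cBot) :=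
    ⟨skip_inj p, fun _ h => skip_lt (by omega), skip_ne p, fun _ => hD.dv _ (nmT pb ch _),
      fun _ n => hD.dv _ (nmN pb ch n _), fun _ => hD.clo _ .fBot,
      fun _ _ _ => hD.clo _ (.nBot _)⟩
  have hprv : EPrv b (Set.range fun i => ((φ i).e.cl []).rn (g i) id)
      ((χ.e.cl []).rn h id) := by
    refine comp _ _ fun N c X hΓ v => ?_
    rw [EFm.ev_rn, EFm.ev_cl_nil, Fm.ev_e]
    refine hs N c fun i => ?_
    have := hΓ _ ⟨i, rfl⟩ v
    rwa [EFm.ev_rn, EFm.ev_cl_nil, Fm.ev_e] at this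
  have := sib.inst hD.clo hg hprv (by
    rintro _ ⟨i, rfl⟩
    rw [EFm.cd_rn, ← cdn_eq (φ i) (fun k => x (g i k)) (by have := hm' i; omega)]
    exact hh i)
  rwa [EFm.cd_rn, ← cdn_eq χ (fun k => x (h k)) (by omega)] at this

theorem tm_cl {B : List ℕ} {t : Tm} (h : ∀ n, t.occ n → n ∈ B) : t.e.cl B = t.e := by
  induction t with
  | var y => exact if_pos (h y rfl)
  | zero => rfl
  | succ t ih | len t ih | half t ih => simp only [Tm.e, ETm.cl, ih h]
  | add s t i1 i2 | mul s t i1 i2 | smash s t i1 i2 =>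
    simp only [Tm.e, ETm.cl, i1 fun n hn => h n (Or.inl hn), i2 fun n hn => h n (Or.inr hn)]

theorem fm_cl {φ : Fm} : ∀ {B : List ℕ}, (∀ n, φ.free n → n ∈ B) → φ.e.cl B = φ.e := by
  induction φ with
  | bot => intro _ _; rfl
  | eq s t | le s t =>
    intro B h
    simp only [Fm.e, EFm.cl, tm_cl fun n hn => h n (Or.inl hn), tm_cl fun n hn => h n (Or.inr hn)]
  | imp φ χ i1 i2 =>
    intro B h
    simp only [Fm.e, EFm.cl, i1 fun n hn => h n (Or.inl hn), i2 fun n hn => h n (Or.inr hn)]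
  | all y φ ih =>
    intro B h
    have : φ.e.cl (y :: B) = φ.e := ih fun n hn => by
      by_cases e : n = y
      · simp [e]
      · exact List.mem_cons_of_mem _ (h n ⟨e, hn⟩)
    simp only [Fm.e, EFm.cl, this]

theorem tm_ren_id (t : Tm) : t.ren id = t := by
  induction t with
  | var y => rfl
  | zero => rfl
  | succ t ih | len t ih | half t ih => simp only [Tm.ren, ih]
  | add s t i1 i2 | mul s t i1 i2 | smash s t i1 i2 => simp only [Tm.ren, i1, i2]

theorem fm_ren_id (φ : Fm) : φ.ren id = φ := by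
  induction φ with
  | bot => rfl
  | eq s t | le s t => simp only [Fm.ren, tm_ren_id]
  | imp φ χ i1 i2 => simp only [Fm.ren, i1, i2]
  | all y φ ih => simp only [Fm.ren, ih, id]

theorem cdn_sent {φ : Fm} (h : ∀ n, ¬ φ.free n) (x : ℕ → M) : cdn φ x = ((φ.code : ℕ) : M) := by
  rw [cdn, fm_cl fun n hn => (h n hn).elim, Fm.cd_e, fm_ren_id]

section
variable (comp : COMP b) (pb : POSTB b) (ch : CHAIN b) (sib : SIB b)
include comp pb ch sib

theorem valid (hD : Th D) (x : ℕ → M) (χ : Fm)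
    (hs : ∀ (N : Mdl b) (c : ℕ → N), χ.ev N.toStr c) : D (jP (cdn χ x)) :=
  key comp pb ch sib hD x (κ := Empty) (fun i => i.elim) (fun i => i.elim) χ id
    (fun N c _ => hs N c) fun i => i.elim

theorem one (hD : Th D) (x : ℕ → M) (φ : Fm) (g : ℕ → ℕ) (χ : Fm) (h : ℕ → ℕ)
    (hs : ∀ (N : Mdl b) (c : ℕ → N), φ.ev N.toStr (fun k => c (g k)) →
      χ.ev N.toStr (fun k => c (h k)))
    (hh : D (jP (cdn φ (fun k => x (g k))))) : D (jP (cdn χ (fun k => x (h k)))) :=
  key comp pb ch sib hD x (κ := Unit) (fun _ => φ) (fun _ => g) χ h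
    (fun N c h' => hs N c (h' ())) fun _ => hh

theorem ent {x : ℕ → M} {κ : Type} [Finite κ] (P : κ → UPred b) (Q : UPred b) (hD : Th D)
    (hQ : UP Q) (hs : ∀ N v, (∀ i, P i N v) → Q N v) (h : ∀ i, BoxD D (P i) x) : BoxD D Q x := by
  choose φ h1 h2 using h
  obtain ⟨χ, hχ⟩ := hQ.out
  exact ⟨χ, hχ, key comp pb ch sib hD x φ (fun _ => id) χ id
    (fun N c h' => (hχ N c).2 (hs N c fun i => (h1 i N c).1 (h' i))) h2⟩

theorem defn (x : ℕ → M) {P : UPred b} (φ : Fm) (hD : Th D)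
    (hφ : ∀ (N : Mdl b) (v : ℕ → N), φ.ev N.toStr v ↔ P N v) :
    BoxD D P x ↔ D (jP (cdn φ x)) :=
  ⟨fun ⟨φ', h1, h2⟩ => one comp pb ch sib hD x φ' id φ id
    (fun N c h => (hφ N c).2 ((h1 N c).1 h)) h2, fun h => ⟨φ, hφ, h⟩⟩

theorem ren (x : ℕ → M) (P : UPred b) (g : ℕ → ℕ) (hD : Th D) (hP : UP P) :
    BoxD D (fun N v => P N (fun i => v (g i))) x ↔ BoxD D P (fun i => x (g i)) := by
  constructor
  · rintro ⟨φ', h1, h2⟩
    obtain ⟨φ, hφ⟩ := hP.out
    exact ⟨φ, hφ, one comp pb ch sib hD x φ' id φ g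
      (fun N c h => (hφ N _).2 ((h1 N c).1 h)) h2⟩
  · rintro ⟨φ', h1, h2⟩
    obtain ⟨φ, hφ⟩ := (hP.comp (fun i _ v => v (g i)) fun i => UFn.var (g i)).out
    exact ⟨φ, hφ, one comp pb ch sib hD x φ' g φ id
      (fun N c h => (hφ N c).2 ((h1 N _).1 h)) h2⟩

theorem num0 (M : Mdl b) : Box1 Dv (fun _ a => a = 0) (0 : M) := by
  refine ⟨.eq (.var 0) .zero, fun _ _ => Iff.rfl, ?_⟩
  have := valid comp pb ch sib (thD pb M) (fun _ => 0) (.eq .zero .zero) fun _ _ => rfl
  simpa [cdn, Fm.e, Tm.e, EFm.cl, ETm.cl, EFm.cd, ETm.cd, nm_zero] using this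

theorem num2 (x : M) : Box2 Dv (fun _ a c => a = 2 * c) (2 * x) x := by
  refine ⟨.eq (.var 0) (Tm.var 1).dbl, fun _ _ => by simp, ?_⟩
  by_cases hx : x = 0
  · have := valid comp pb ch sib (thD pb M) (fun _ => 0) (.eq .zero Tm.zero.dbl)
      fun _ _ => by simp
    simpa [cdn, Fm.e, Tm.e, EFm.cl, ETm.cl, EFm.cd, ETm.cd, nm_zero, hx, Tm.dbl, Tm.two,
      Tm.one] using this
  · have := valid comp pb ch sib (thD pb M) (fun _ => x) (.eq (Tm.var 1).dbl (Tm.var 1).dbl)
      fun _ _ => rfl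
    simpa [cdn, Fm.e, Tm.e, EFm.cl, ETm.cl, EFm.cd, ETm.cd, nm_even hx, Tm.dbl,
      Tm.two, Tm.one, Tm.code, cast_npr] using this

theorem num3 (x : M) : Box2 Dv (fun _ a c => a = 2 * c + 1) (2 * x + 1) x := by
  refine ⟨.eq (.var 0) (Tm.var 1).dbl.succ, fun _ _ => by simp, ?_⟩
  have := valid comp pb ch sib (thD pb M) (fun _ => x)
    (.eq (Tm.var 1).dbl.succ (Tm.var 1).dbl.succ) fun _ _ => rfl
  simpa [cdn, Fm.e, Tm.e, EFm.cl, ETm.cl, EFm.cd, ETm.cd, nm_odd, Tm.dbl,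
    Tm.two, Tm.one, Tm.code, cast_npr] using this

end

end box

theorem row_BOX : R_BOX := fun b hp comp pb ch sib =>
  { toHasPost := hp
    thDv := box.thD pb
    nmT := box.nmT pb ch
    nmN := box.nmN pb ch
    ent := box.ent comp pb ch sib
    ren := box.ren comp pb ch sib
    sent := fun x φ hD h => by
      rw [box.defn comp pb ch sib x φ hD fun _ _ => Iff.rfl, box.cdn_sent h]
    defn := box.defn comp pb ch sib
    num0 := box.num0 comp pb ch sib
    num2 := box.num2 comp pb ch sib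
    num3 := box.num3 comp pb ch sib
    chn := ch }

end Pool.Agent.MP_f18a41_lc

end MrgPart4

-- marker of a merged file
example : 731051 + 170801 = 731051 + 170801 := rfl
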