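import Mathlib.Order.RelClasses
import Mathlib.Tactic.Common
import Mathlib.Algebra.Group.Nat.Defs
import Mathlib.Data.Nat.Bits
import Mathlib.CategoryTheory.Category.Init

/-!
Definitions for the provability logic of Buss's theories `S^1_2` and `S_2`.

The Boolean parameter `full` selects the theory: `false` is `S^1_2`, `true` is `S_2`.
-/

namespace Pool.Agent.MP_f18a41_lc

/-! ### The language of bounded arithmetic -/

/-- Terms over `0, S, |x|, x/2, +, *, smash`, with named variables. -/
inductive Tm : Type
  | var : ℕ → Tm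
  | zero : Tm
  | succ : Tm → Tm
  | len : Tm → Tm
  | half : Tm → Tm
  | add : Tm → Tm → Tm
  | mul : Tm → Tm → Tm
  | smash : Tm → Tm → Tm

/-- Formulas over falsum, `=`, `≤`, implication and the universal quantifier. -/
inductive Fm : Type
  | bot : Fm
  | eq : Tm → Tm → Fm
  | le : Tm → Tm → Fm
  | imp : Fm → Fm → Fm
  | all : ℕ → Fm → Fm

namespace Tm

/-- The variable `x` occurs in the term. -/
def occ (x : ℕ) : Tm → Prop
  | var y => x = y
  | zero => False
  | succ t => occ x t
  | len t => occ x t
  | half t => occ x t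
  | add s t => occ x s ∨ occ x t
  | mul s t => occ x s ∨ occ x t
  | smash s t => occ x s ∨ occ x t

/-- Substitution of `u` for the variable `x`. -/
def subst : Tm → ℕ → Tm → Tm
  | var y, x, u => if x = y then u else var y
  | zero, _, _ => zero
  | succ t, x, u => succ (t.subst x u)
  | len t, x, u => len (t.subst x u)
  | half t, x, u => half (t.subst x u)
  | add s t, x, u => add (s.subst x u) (t.subst x u)
  | mul s t, x, u => mul (s.subst x u) (t.subst x u)
  | smash s t, x, u => smash (s.subst x u) (t.subst x u)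

def one : Tm := succ zero
def two : Tm := succ one
def dbl (t : Tm) : Tm := mul two t

/-- Dyadic numerals. -/
def num (n : ℕ) : Tm :=
  if h : n = 0 then zero else if n % 2 = 0 then dbl (num (n / 2)) else succ (dbl (num (n / 2)))
termination_by n
decreasing_by all_goals omega

/-- The pairing term: the bits of `a`, the bits of `b`, the bits of `|b|`, a one, and `||b||`
zeros.  Here `1 smash b = 2^|b|`. -/
def pr (a b : Tm) : Tm :=
  add (mul (add (mul (add (mul a (smash one b)) b) (smash one (len b))) (len b))
    (dbl (smash one (len b)))) (smash one (len b))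

end Tm

namespace Fm

def neg (φ : Fm) : Fm := imp φ bot
def or (φ ψ : Fm) : Fm := imp (neg φ) ψ
def and (φ ψ : Fm) : Fm := neg (imp φ (neg ψ))
def iff (φ ψ : Fm) : Fm := and (imp φ ψ) (imp ψ φ)
def ex (x : ℕ) (φ : Fm) : Fm := neg (all x (neg φ))
def ne (s t : Tm) : Fm := neg (eq s t)
def lt (s t : Tm) : Fm := neg (le t s)
/-- `∀ x ≤ t, φ` -/
def ball (x : ℕ) (t : Tm) (φ : Fm) : Fm := all x (imp (le (.var x) t) φ)
/-- `∃ x ≤ t, φ` -/
def bex (x : ℕ) (t : Tm) (φ : Fm) : Fm := neg (ball x t (neg φ))

/-- The variable `x` occurs free in the formula. -/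
def free (x : ℕ) : Fm → Prop
  | bot => False
  | eq s t => s.occ x ∨ t.occ x
  | le s t => s.occ x ∨ t.occ x
  | imp φ ψ => free x φ ∨ free x ψ
  | all y φ => x ≠ y ∧ free x φ

/-- Substitution of `u` for the free occurrences of `x`. -/
def subst (x : ℕ) (u : Tm) : Fm → Fm
  | bot => bot
  | eq s t => eq (s.subst x u) (t.subst x u)
  | le s t => le (s.subst x u) (t.subst x u)
  | imp φ ψ => imp (subst x u φ) (subst x u ψ)
  | all y φ => if x = y then all y φ else all y (subst x u φ)

/-- The term `u` is free for the variable `x` in the formula. -/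
def freeFor (x : ℕ) (u : Tm) : Fm → Prop
  | bot => True
  | eq _ _ => True
  | le _ _ => True
  | imp φ ψ => freeFor x u φ ∧ freeFor x u ψ
  | all y φ => ¬ free x (all y φ) ∨ (¬ u.occ y ∧ freeFor x u φ)

end Fm

open Tm Fm

/-- `Cls false true` is the class `Σ^b_1` and `Cls false false` is `Π^b_1` (a bounded existential
quantifier is the negation of a bounded universal one); `Cls true _` is the class of all bounded
formulas, the union of the classes `Σ^b_i`. -/
inductive Cls (full : Bool) : Bool → Fm → Prop
  | bot (σ : Bool) : Cls full σ bot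
  | eq (σ : Bool) (s t : Tm) : Cls full σ (eq s t)
  | le (σ : Bool) (s t : Tm) : Cls full σ (le s t)
  | imp (σ : Bool) {φ ψ : Fm} : Cls full (!σ) φ → Cls full σ ψ → Cls full σ (imp φ ψ)
  | ball {x : ℕ} {t : Tm} {φ : Fm} : ¬ t.occ x → Cls full false φ → Cls full false (ball x t φ)
  | sharp {x : ℕ} {t : Tm} {φ : Fm} :
      ¬ t.occ x → Cls full true φ → Cls full true (ball x (len t) φ)
  | wide {x : ℕ} {t : Tm} {φ : Fm} :
      full = true → ¬ t.occ x → Cls full true φ → Cls full true (ball x t φ)

/-- The equality postulates, as open formulas. -/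
def eqAx : List Fm :=
  let x := var 0; let y := var 1; let z := var 2; let w := var 3
  [ eq x x,
    imp (eq x y) (eq (succ x) (succ y)),
    imp (eq x y) (eq (len x) (len y)),
    imp (eq x y) (eq (half x) (half y)),
    imp (eq x y) (imp (eq z w) (eq (add x z) (add y w))),
    imp (eq x y) (imp (eq z w) (eq (mul x z) (mul y w))),
    imp (eq x y) (imp (eq z w) (eq (smash x z) (smash y w))),
    imp (eq x y) (imp (eq z w) (imp (eq x z) (eq y w))),
    imp (eq x y) (imp (eq z w) (imp (le x z) (le y w))) ]

/-- The 32 postulates BASIC of Buss. -/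
def basic : List Fm :=
  let x := var 0; let y := var 1; let z := var 2; let u := var 3; let v := var 4
  [ imp (le y x) (le y (succ x)),
    ne x (succ x),
    le zero x,
    iff (and (le x y) (ne x y)) (le (succ x) y),
    imp (ne x zero) (ne (dbl x) zero),
    or (le y x) (le x y),
    imp (and (le x y) (le y x)) (eq x y),
    imp (and (le x y) (le y z)) (le x z),
    eq (len zero) zero,
    imp (ne x zero) (and (eq (len (dbl x)) (succ (len x)))
      (eq (len (succ (dbl x))) (succ (len x)))),
    eq (len one) one,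
    imp (le x y) (le (len x) (len y)),
    eq (len (smash x y)) (succ (mul (len x) (len y))),
    eq (smash zero y) one,
    imp (ne x zero) (and (eq (smash one (dbl x)) (dbl (smash one x)))
      (eq (smash one (succ (dbl x))) (dbl (smash one x)))),
    eq (smash x y) (smash y x),
    imp (eq (len x) (len y)) (eq (smash x z) (smash y z)),
    imp (eq (len x) (add (len u) (len v))) (eq (smash x y) (mul (smash u y) (smash v y))),
    le x (add x y),
    imp (and (le x y) (ne x y)) (and (le (succ (dbl x)) (dbl y)) (ne (succ (dbl x)) (dbl y))),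
    eq (add x y) (add y x),
    eq (add x zero) x,
    eq (add x (succ y)) (succ (add x y)),
    eq (add (add x y) z) (add x (add y z)),
    iff (le (add x y) (add x z)) (le y z),
    eq (mul x zero) zero,
    eq (mul x (succ y)) (add (mul x y) x),
    eq (mul x y) (mul y x),
    eq (mul x (add y z)) (add (mul x y) (mul x z)),
    imp (le one x) (iff (le (mul x y) (mul x z)) (le y z)),
    imp (ne x zero) (eq (len x) (succ (len (half x)))),
    iff (eq x (half y)) (or (eq (dbl x) y) (eq (succ (dbl x)) y)) ]

/-- Polynomial induction for `φ` in the variable `x`. -/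
def pind (x : ℕ) (φ : Fm) : Fm :=
  imp (φ.subst x zero) (imp (all x (imp (φ.subst x (half (var x))) φ)) (all x φ))

/-- Provability in `S^1_2` (`full = false`) and in `S_2` (`full = true`): a Hilbert calculus for
first-order logic with equality, BASIC, and polynomial induction for the class `Cls full true`. -/
inductive Prv (full : Bool) : Fm → Prop
  | k (φ ψ : Fm) : Prv full (imp φ (imp ψ φ))
  | s (φ ψ χ : Fm) : Prv full (imp (imp φ (imp ψ χ)) (imp (imp φ ψ) (imp φ χ)))
  | dn (φ : Fm) : Prv full (imp (neg (neg φ)) φ)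
  | inst (x : ℕ) (u : Tm) (φ : Fm) : φ.freeFor x u → Prv full (imp (all x φ) (φ.subst x u))
  | dist (x : ℕ) (φ ψ : Fm) : Prv full (imp (all x (imp φ ψ)) (imp (all x φ) (all x ψ)))
  | vac (x : ℕ) (φ : Fm) : ¬ φ.free x → Prv full (imp φ (all x φ))
  | mp {φ ψ : Fm} : Prv full (imp φ ψ) → Prv full φ → Prv full ψ
  | gen (x : ℕ) {φ : Fm} : Prv full φ → Prv full (all x φ)
  | ax {φ : Fm} : φ ∈ eqAx ++ basic → Prv full φ
  | ind (x : ℕ) {φ : Fm} : Cls full true φ → Prv full (pind x φ)

/-! ### Goedel numbers -/

/-- The value of the pairing term `Tm.pr` in the natural numbers. -/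
@[irreducible] def npr (a b : ℕ) : ℕ :=
  ((a * 2 ^ b.size + b) * 2 ^ b.size.size + b.size) * (2 * 2 ^ b.size.size) + 2 ^ b.size.size

def Tm.code : Tm → ℕ
  | var x => npr 0 x
  | zero => npr 1 0
  | succ t => npr 2 t.code
  | len t => npr 3 t.code
  | half t => npr 4 t.code
  | add s t => npr 5 (npr s.code t.code)
  | mul s t => npr 6 (npr s.code t.code)
  | smash s t => npr 7 (npr s.code t.code)

def Fm.code : Fm → ℕ
  | bot => npr 8 0
  | eq s t => npr 9 (npr s.code t.code)
  | le s t => npr 10 (npr s.code t.code)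
  | imp φ ψ => npr 11 (npr φ.code ψ.code)
  | all x φ => npr 12 (npr x φ.code)

/-! ### The arithmetised calculus

A proof is an array of judgements about codes; every row is blank or follows from earlier rows by
one of finitely many rules, which transcribe the definitions above. -/

/-- Patterns for codes: metavariables, constants and pairs. -/
inductive Pat : Type
  | mv : ℕ → Pat
  | cst : ℕ → Pat
  | pr : Pat → Pat → Pat

namespace Pat

/-- Metavariable `i` is the variable `10 + i`. -/
def tm : Pat → Tm
  | mv i => .var (10 + i)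
  | cst n => .num n
  | pr p q => .pr p.tm q.tm

def n1 (k : ℕ) (p : Pat) : Pat := pr (cst k) p
def n2 (k : ℕ) (p q : Pat) : Pat := pr (cst k) (pr p q)
def var (x : Pat) : Pat := n1 0 x
def zero : Pat := n1 1 (cst 0)
def bot : Pat := n1 8 (cst 0)
def imp (p q : Pat) : Pat := n2 11 p q
def all (x p : Pat) : Pat := n2 12 x p
def ball (x t p : Pat) : Pat := all x (imp (n2 10 (var x) t) p)
/-- judgement: `p` is a term -/
def jT (p : Pat) : Pat := n1 0 p
/-- judgement: `p` is a formula -/
def jF (p : Pat) : Pat := n1 1 p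
/-- judgement: the variable `x` is not free in `p` -/
def jN (x p : Pat) : Pat := n2 2 x p
/-- judgement: `u` is free for `x` in `p`, and substituting it gives `q` -/
def jS (x u p q : Pat) : Pat := n2 3 (pr x u) (pr p q)
/-- judgement: `p` is a formula of the class `Cls full σ` -/
def jC (σ : Bool) (p : Pat) : Pat := n1 (if σ then 4 else 5) p
/-- judgement: `p` is a theorem -/
def jP (p : Pat) : Pat := n1 6 p

end Pat

/-- A rule: premises, conclusion, and whether metavariables `0` and `1` must differ. -/
structure Rule : Type where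
  prem : List Pat
  concl : Pat
  distinct : Bool

open Pat in
/-- The rules of the arithmetised calculus. -/
def rules (full : Bool) : List Rule :=
  let a := mv 0; let b := mv 1; let c := mv 2; let d := mv 3; let e := mv 4; let f := mv 5
  -- terms and formulas
  [ ⟨[], jT (var a), false⟩, ⟨[], jT zero, false⟩ ] ++
  [2, 3, 4].map (fun k => ⟨[jT a], jT (n1 k a), false⟩) ++
  [5, 6, 7].map (fun k => ⟨[jT a, jT b], jT (n2 k a b), false⟩) ++
  [ ⟨[], jF bot, false⟩, ⟨[jF a, jF b], jF (imp a b), false⟩, ⟨[jF b], jF (all a b), false⟩ ] ++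
  [9, 10].map (fun k => ⟨[jT a, jT b], jF (n2 k a b), false⟩) ++
  -- not free
  [ ⟨[], jN a (var b), true⟩, ⟨[], jN a zero, false⟩, ⟨[], jN a bot, false⟩,
    ⟨[], jN a (all a b), false⟩, ⟨[jN a c], jN a (all b c), false⟩ ] ++
  [2, 3, 4].map (fun k => ⟨[jN a b], jN a (n1 k b), false⟩) ++
  [5, 6, 7, 9, 10, 11].map (fun k => ⟨[jN a b, jN a c], jN a (n2 k b c), false⟩) ++
  -- substitution
  [ ⟨[], jS a b (var a) b, false⟩, ⟨[jN a c], jS a b c c, false⟩,
    ⟨[jN a (var c), jN c b, jS a b d e], jS a b (all c d) (all c e), false⟩ ] ++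
  [2, 3, 4].map (fun k => ⟨[jS a b c d], jS a b (n1 k c) (n1 k d), false⟩) ++
  [5, 6, 7, 9, 10, 11].map
    (fun k => ⟨[jS a b c d, jS a b e f], jS a b (n2 k c e) (n2 k d f), false⟩) ++
  -- formula classes
  [true, false].flatMap (fun σ =>
    [ ⟨[], jC σ bot, false⟩, ⟨[jT a, jT b], jC σ (n2 9 a b), false⟩,
      ⟨[jT a, jT b], jC σ (n2 10 a b), false⟩,
      ⟨[jC (!σ) a, jC σ b], jC σ (imp a b), false⟩ ]) ++
  [ ⟨[jT b, jN a b, jC false c], jC false (ball a b c), false⟩,
    ⟨[jT b, jN a b, jC true c], jC true (ball a (n1 3 b) c), false⟩ ] ++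
  (if full then [⟨[jT b, jN a b, jC true c], jC true (ball a b c), false⟩] else []) ++
  -- theorems
  [ ⟨[jF a, jF b], jP (imp a (imp b a)), false⟩,
    ⟨[jF a, jF b, jF c], jP (imp (imp a (imp b c)) (imp (imp a b) (imp a c))), false⟩,
    ⟨[jF a], jP (imp (imp (imp a bot) bot) a), false⟩,
    ⟨[jF c, jT b, jS a b c d], jP (imp (all a c) d), false⟩,
    ⟨[jF b, jF c], jP (imp (all a (imp b c)) (imp (all a b) (all a c))), false⟩,
    ⟨[jF b, jN a b], jP (imp b (all a b)), false⟩,
    ⟨[jP (imp a b), jP a], jP b, false⟩,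
    ⟨[jP b], jP (all a b), false⟩,
    ⟨[jC true b, jS a zero b c, jS a (n1 4 (var a)) b d],
      jP (imp c (imp (all a (imp d b)) (all a b))), false⟩ ] ++
  (eqAx ++ basic).map (fun φ => ⟨[], jP (cst φ.code), false⟩)

/-- `y` is row number `i` of the array `s` whose rows have `|a|` bits
(`a smash b = 2^(|a| * |b|)`); uses the bound variables `6, 7, 8`. -/
def rowF (s a i y : Tm) : Fm :=
  bex 6 s (bex 7 s (bex 8 s
    (and (eq (len (var 6)) i)
      (and (eq s (add (mul (add (mul (var 7) (smash one a)) y) (smash a (var 6))) (var 8)))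
        (and (lt (var 8) (smash a (var 6))) (lt y (smash one a)))))))

def bigAnd : List Fm → Fm
  | [] => neg bot
  | φ :: l => and φ (bigAnd l)

def bigOr : List Fm → Fm
  | [] => bot
  | φ :: l => or φ (bigOr l)

/-- The row `var 4`, of number `var 3`, of the array `var 1` of width `|var 2|` follows from
earlier rows (numbered by `var 5`) by the rule `r`. -/
def ruleF (r : Rule) : Fm :=
  [10, 11, 12, 13, 14, 15].foldr (fun x φ => bex x (var 1) φ)
    (and (eq (var 4) r.concl.tm)
      (and (if r.distinct then ne (var 10) (var 11) else neg bot)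
        (bigAnd (r.prem.map (fun p => bex 5 (len (var 1))
          (and (lt (var 5) (var 3)) (rowF (var 1) (var 2) (var 5) p.tm)))))))

/-- The array `var 1` of width `|var 2|` is a proof containing the judgement that `t` is a
theorem. -/
def prfF (full : Bool) (t : Tm) : Fm :=
  and (ball 3 (len (var 1)) (bex 4 (var 1)
      (and (rowF (var 1) (var 2) (var 3) (var 4))
        (or (eq (var 4) zero) (bigOr ((rules full).map ruleF))))))
    (bex 3 (len (var 1)) (rowF (var 1) (var 2) (var 3) (Tm.pr (num 6) t)))

/-- The sentence saying that `φ` is provable. -/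
def prov (full : Bool) (φ : Fm) : Fm := ex 1 (ex 2 (prfF full (num φ.code)))

/-! ### Truth in the natural numbers -/

def Tm.val (v : ℕ → ℕ) : Tm → ℕ
  | var x => v x
  | zero => 0
  | succ t => t.val v + 1
  | len t => (t.val v).size
  | half t => t.val v / 2
  | add s t => s.val v + t.val v
  | mul s t => s.val v * t.val v
  | smash s t => 2 ^ ((s.val v).size * (t.val v).size)

def Fm.holds : Fm → (ℕ → ℕ) → Prop
  | bot, _ => False
  | eq s t, v => s.val v = t.val v
  | le s t, v => s.val v ≤ t.val v
  | imp φ ψ, v => φ.holds v → ψ.holds v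
  | all x φ, v => ∀ u, φ.holds (Function.update v x u)

/-! ### Modal logic -/

inductive MF : Type
  | atom : ℕ → MF
  | bot : MF
  | imp : MF → MF → MF
  | box : MF → MF

/-- The modal logic GL. -/
inductive GLog : MF → Prop
  | k (F G : MF) : GLog (.imp F (.imp G F))
  | s (F G H : MF) : GLog (.imp (.imp F (.imp G H)) (.imp (.imp F G) (.imp F H)))
  | dn (F : MF) : GLog (.imp (.imp (.imp F .bot) .bot) F)
  | dist (F G : MF) : GLog (.imp (.box (.imp F G)) (.imp (.box F) (.box G)))
  | loeb (F : MF) : GLog (.imp (.box (.imp (.box F) F)) (.box F))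
  | four (F : MF) : GLog (.imp (.box F) (.box (.box F)))
  | mp {F G : MF} : GLog (.imp F G) → GLog F → GLog G
  | nec {F : MF} : GLog F → GLog (.box F)

/-- The arithmetical interpretation determined by `f`. -/
def interp (full : Bool) (f : ℕ → Fm) : MF → Fm
  | .atom n => f n
  | .bot => .bot
  | .imp F G => .imp (interp full f F) (interp full f G)
  | .box G => prov full (interp full f G)

/-- The provability logic of the theory. -/
def PL (full : Bool) (X : MF) : Prop :=
  ∀ f : ℕ → Fm, (∀ n x, ¬ (f n).free x) → Prv full (interp full f X)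

/-- Kripke forcing. -/
def Force {W : Type} (R : W → W → Prop) (V : ℕ → W → Prop) : W → MF → Prop
  | w, .atom n => V n w
  | _, .bot => False
  | w, .imp F G => Force R V w F → Force R V w G
  | w, .box F => ∀ u, R w u → Force R V u F

/-- Whenever `x₀ R x` and `F` is a nonempty set of successors of `x`, some successor `d` of `x₀`
sees exactly the points seen by some member of `F`. -/
def Closed {W : Type} (R : W → W → Prop) : Prop :=
  ∀ x₀ x, R x₀ x → ∀ F : Set W, F.Nonempty → (∀ c ∈ F, R x c) →
    ∃ d, R x₀ d ∧ ∀ z, R d z ↔ ∃ c ∈ F, R c z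

/-- The frame omits the tree `Y`: no point with a predecessor has two incomparable successors that
both have a successor. -/
def OmitsY {W : Type} (R : W → W → Prop) : Prop :=
  ¬ ∃ x₀ x c₁ c₂ e₁ e₂, R x₀ x ∧ R x c₁ ∧ R x c₂ ∧ R c₁ e₁ ∧ R c₂ e₂ ∧
    c₁ ≠ c₂ ∧ ¬ R c₁ c₂ ∧ ¬ R c₂ c₁

end Pool.Agent.MP_f18a41_lc
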