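import Mathlib.Topology.Sheaves.Presheaf
import Mathlib.Tactic.Monotonicity.Lemmas
import Mathlib.Tactic.Bound
import Mathlib.Combinatorics.SimpleGraph.Basic
import Mathlib.Data.Nat.Size
import Mathlib.RingTheory.PiTensorProduct
import Mathlib.Tactic.Polynomial.Basic
import Pool.Agent.MP_f18a41_lc.Defs

-- ======== part 0: formerly Pool.Agent.MP_f18a41_lc.Zr
section MrgPart0

/-! The ring of differences of an ordered semiring (to use `linarith` after `zify`). -/

namespace Pool.Agent.MP_f18a41_lc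

variable (R : Type) [CommSemiring R] [LinearOrder R] [IsStrictOrderedRing R]

def zrSetoid : Setoid (R × R) where
  r x y := x.1 + y.2 = y.1 + x.2
  iseqv := ⟨fun _ => rfl, fun h => h.symm, fun {x y z} h1 h2 => by
    have : x.1 + z.2 + y.2 = z.1 + x.2 + y.2 := by
      calc x.1 + z.2 + y.2 = (x.1 + y.2) + z.2 := by ring
        _ = (y.1 + z.2) + x.2 := by rw [h1]; ring
        _ = z.1 + x.2 + y.2 := by rw [h2]; ring
    exact add_right_cancel this⟩

/-- formal differences -/
def Zr : Type := Quotient (zrSetoid R)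

namespace Zr

variable {R}

def mk (a b : R) : Zr R := Quotient.mk _ (a, b)

theorem mk_eq {a b c d : R} : mk a b = mk c d ↔ a + d = c + b :=
  ⟨fun h => Quotient.exact h, fun h => Quotient.sound h⟩

theorem ind {P : Zr R → Prop} (h : ∀ a b, P (mk a b)) (x : Zr R) : P x :=
  Quotient.inductionOn x fun p => h p.1 p.2

instance : Zero (Zr R) := ⟨mk 0 0⟩
instance : One (Zr R) := ⟨mk 1 0⟩
instance : Add (Zr R) := ⟨Quotient.map₂ (fun x y => (x.1 + y.1, x.2 + y.2)) (by
  rintro ⟨a, b⟩ ⟨c, d⟩ h1 ⟨e, f⟩ ⟨g, h⟩ h2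
  change a + d = c + b at h1
  change e + h = g + f at h2
  change a + e + (d + h) = c + g + (b + f)
  calc _ = (a + d) + (e + h) := by ring
    _ = _ := by rw [h1, h2]; ring)⟩
instance : Neg (Zr R) := ⟨Quotient.map (fun x => (x.2, x.1)) (by
  rintro ⟨a, b⟩ ⟨c, d⟩ h1
  change a + d = c + b at h1
  change b + c = d + a
  rw [add_comm, ← h1, add_comm])⟩
instance : Mul (Zr R) := ⟨Quotient.map₂
  (fun x y => (x.1 * y.1 + x.2 * y.2, x.1 * y.2 + x.2 * y.1)) (by
  rintro ⟨a, b⟩ ⟨c, d⟩ h1 ⟨e, f⟩ ⟨g, h⟩ h2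
  change a + d = c + b at h1
  change e + h = g + f at h2
  change a * e + b * f + (c * h + d * g) = c * g + d * h + (a * f + b * e)
  have : a * e + b * f + (c * h + d * g) + (d * e + c * f + c * e + d * f) =
      c * g + d * h + (a * f + b * e) + (d * e + c * f + c * e + d * f) := by
    calc _ = (a + d) * e + (c + b) * f + c * (e + h) + d * (g + f) := by ring
      _ = (c + b) * e + (a + d) * f + c * (g + f) + d * (e + h) := by rw [h1, h2]
      _ = _ := by ring
  exact add_right_cancel this)⟩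

theorem add_def (a b c d : R) : mk a b + mk c d = mk (a + c) (b + d) := rfl
theorem neg_def (a b : R) : -mk a b = mk b a := rfl
theorem mul_def (a b c d : R) : mk a b * mk c d = mk (a * c + b * d) (a * d + b * c) := rfl
theorem zero_def : (0 : Zr R) = mk 0 0 := rfl
theorem one_def : (1 : Zr R) = mk 1 0 := rfl

instance : CommRing (Zr R) where
  add_assoc := ind fun _ _ => ind fun _ _ => ind fun _ _ => by
    simp only [add_def, mk_eq]; ring
  zero_add := ind fun _ _ => by simp only [zero_def, add_def, mk_eq]; ring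
  add_zero := ind fun _ _ => by simp only [zero_def, add_def, mk_eq]; ring
  add_comm := ind fun _ _ => ind fun _ _ => by simp only [add_def, mk_eq]; ring
  neg_add_cancel := ind fun _ _ => by simp only [zero_def, neg_def, add_def, mk_eq]; ring
  mul_assoc := ind fun _ _ => ind fun _ _ => ind fun _ _ => by
    simp only [mul_def, mk_eq]; ring
  one_mul := ind fun _ _ => by simp only [one_def, mul_def, mk_eq]; ring
  mul_one := ind fun _ _ => by simp only [one_def, mul_def, mk_eq]; ring
  zero_mul := ind fun _ _ => by simp only [zero_def, mul_def, mk_eq]; ring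
  mul_zero := ind fun _ _ => by simp only [zero_def, mul_def, mk_eq]; ring
  mul_comm := ind fun _ _ => ind fun _ _ => by simp only [mul_def, mk_eq]; ring
  left_distrib := ind fun _ _ => ind fun _ _ => ind fun _ _ => by
    simp only [add_def, mul_def, mk_eq]; ring
  right_distrib := ind fun _ _ => ind fun _ _ => ind fun _ _ => by
    simp only [add_def, mul_def, mk_eq]; ring
  nsmul := nsmulRec
  zsmul := zsmulRec

theorem le_aux {a b c d e f g h : R} (h1 : a + d = c + b) (h2 : e + h = g + f)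
    (hh : a + f ≤ e + b) : c + h ≤ g + d := by
  have : c + h + (b + f) ≤ g + d + (b + f) := by
    calc c + h + (b + f) = (c + b) + f + h := by ring
      _ = (a + f) + (d + h) := by rw [← h1]; ring
      _ ≤ (e + b) + (d + h) := by gcongr
      _ = (e + h) + b + d := by ring
      _ = _ := by rw [h2]; ring
  exact le_of_add_le_add_right this

instance : LE (Zr R) := ⟨Quotient.lift₂ (fun x y => x.1 + y.2 ≤ y.1 + x.2) (by
  rintro ⟨a, b⟩ ⟨e, f⟩ ⟨c, d⟩ ⟨g, h⟩ h1 h2
  exact propext ⟨le_aux h1 h2, le_aux h1.symm h2.symm⟩)⟩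

theorem le_def (a b c d : R) : mk a b ≤ mk c d ↔ a + d ≤ c + b := Iff.rfl

noncomputable instance : LinearOrder (Zr R) where
  le_refl := ind fun _ _ => by rw [le_def]
  le_trans := ind fun a b => ind fun c d => ind fun e f => by
    simp only [le_def]
    intro h1 h2
    have : a + f + d ≤ e + b + d := by
      calc a + f + d = (a + d) + f := by ring
        _ ≤ (c + b) + f := by gcongr
        _ = (c + f) + b := by ring
        _ ≤ (e + d) + b := by gcongr
        _ = _ := by ring
    exact le_of_add_le_add_right this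
  le_antisymm := ind fun a b => ind fun c d => by
    simp only [le_def, mk_eq]
    exact fun h1 h2 => le_antisymm h1 h2
  le_total := ind fun a b => ind fun c d => by
    simp only [le_def]
    exact le_total _ _
  toDecidableLE := Classical.decRel _

theorem lt_def (a b c d : R) : mk a b < mk c d ↔ a + d < c + b := by
  rw [lt_iff_not_ge, le_def, not_le]

instance : IsOrderedAddMonoid (Zr R) where
  add_le_add_left := ind fun a b => ind fun c d => fun h => ind fun e f => by
    simp only [le_def, add_def] at h ⊢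
    calc a + e + (d + f) = (a + d) + (e + f) := by ring
      _ ≤ (c + b) + (e + f) := by gcongr
      _ = _ := by ring

instance : Nontrivial (Zr R) := ⟨0, 1, by simp [zero_def, one_def, mk_eq]⟩

instance : ZeroLEOneClass (Zr R) := ⟨by simp [zero_def, one_def, le_def]⟩

instance [ExistsAddOfLE R] : IsStrictOrderedRing (Zr R) := IsStrictOrderedRing.of_mul_pos (by
  refine ind fun a b => ind fun c d => ?_
  simp only [zero_def, mul_def, lt_def, zero_add, add_zero]
  intro h1 h2
  exact mul_add_mul_lt_mul_add_mul' h1 h2)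

/-- the embedding -/
@[coe] def of (a : R) : Zr R := mk a 0

instance : Coe R (Zr R) := ⟨of⟩

@[simp, norm_cast] theorem of_add (a b : R) : of (a + b) = of a + of b := by
  simp [of, add_def]
@[simp, norm_cast] theorem of_mul (a b : R) : of (a * b) = of a * of b := by
  simp [of, mul_def]
@[simp, norm_cast] theorem of_zero : of (0 : R) = 0 := rfl
@[simp, norm_cast] theorem of_one : of (1 : R) = 1 := rfl
@[simp, norm_cast] theorem of_natCast (n : ℕ) : of (n : R) = n := by
  induction n with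
  | zero => simp
  | succ n ih => simp [ih]
@[simp, norm_cast] theorem of_ofNat (n : ℕ) [n.AtLeastTwo] :
    of (ofNat(n) : R) = (ofNat(n) : Zr R) := of_natCast n
theorem of_le {a b : R} : a ≤ b ↔ of a ≤ of b := by simp [of, le_def]
theorem of_lt {a b : R} : a < b ↔ of a < of b := by simp [of, lt_def]
theorem of_eq {a b : R} : a = b ↔ of a = of b := by simp [of, mk_eq]
theorem of_ne {a b : R} : a ≠ b ↔ of a ≠ of b := by simp [of, mk_eq]

end Zr

end Pool.Agent.MP_f18a41_lc

end MrgPart0

-- ======== part 1: formerly Pool.Agent.MP_f18a41_lc.Model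
section MrgPart1

/-! Structures, models of the theory, and their elementary arithmetic. -/

namespace Pool.Agent.MP_f18a41_lc

open Function

/-- A structure for the language. -/
structure Str : Type 1 where
  α : Type
  z : α
  s : α → α
  l : α → α
  h : α → α
  a : α → α → α
  m : α → α → α
  sm : α → α → α
  le : α → α → Prop

def Tm.ev (S : Str) (v : ℕ → S.α) : Tm → S.α
  | var x => v x
  | zero => S.z
  | succ t => S.s (t.ev S v)
  | len t => S.l (t.ev S v)
  | half t => S.h (t.ev S v)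
  | add s t => S.a (s.ev S v) (t.ev S v)
  | mul s t => S.m (s.ev S v) (t.ev S v)
  | smash s t => S.sm (s.ev S v) (t.ev S v)

def Fm.ev (S : Str) : Fm → (ℕ → S.α) → Prop
  | bot, _ => False
  | eq s t, v => s.ev S v = t.ev S v
  | le s t, v => S.le (s.ev S v) (t.ev S v)
  | imp φ ψ, v => φ.ev S v → ψ.ev S v
  | all x φ, v => ∀ u, φ.ev S (update v x u)

section Raw
variable {S : Str}

theorem Tm.ev_congr {v w : ℕ → S.α} (t : Tm) (h : ∀ x, t.occ x → v x = w x) :
    t.ev S v = t.ev S w := by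
  induction t with
  | var y => exact h y rfl
  | zero => rfl
  | succ t ih | len t ih | half t ih => simp only [Tm.ev, ih h]
  | add s t i1 i2 | mul s t i1 i2 | smash s t i1 i2 =>
    simp only [Tm.ev, i1 fun x hx => h x (Or.inl hx), i2 fun x hx => h x (Or.inr hx)]

theorem Fm.ev_congr (φ : Fm) : ∀ {v w : ℕ → S.α}, (∀ x, φ.free x → v x = w x) →
    (φ.ev S v ↔ φ.ev S w) := by
  induction φ with
  | bot => intro _ _ _; rfl
  | eq s t | le s t =>
    intro v w h
    simp only [Fm.ev, s.ev_congr fun x hx => h x (Or.inl hx), t.ev_congr fun x hx => h x (Or.inr hx)]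
  | imp φ ψ i1 i2 =>
    intro v w h
    simp only [Fm.ev, i1 fun x hx => h x (Or.inl hx), i2 fun x hx => h x (Or.inr hx)]
  | all y φ ih =>
    intro v w h
    refine forall_congr' fun u => ih fun x hx => ?_
    by_cases hxy : x = y
    · subst hxy; simp
    · simp [update_of_ne hxy, h x ⟨hxy, hx⟩]

theorem Tm.ev_update {v : ℕ → S.α} {t : Tm} {x : ℕ} (h : ¬ t.occ x) (u : S.α) :
    t.ev S (update v x u) = t.ev S v :=
  t.ev_congr fun y hy => update_of_ne (by rintro rfl; exact h hy) _ _

theorem Fm.ev_update {v : ℕ → S.α} {φ : Fm} {x : ℕ} (h : ¬ φ.free x) (u : S.α) :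
    φ.ev S (update v x u) ↔ φ.ev S v :=
  φ.ev_congr fun y hy => update_of_ne (by rintro rfl; exact h hy) _ _

theorem Tm.ev_subst (v : ℕ → S.α) (x : ℕ) (u t : Tm) :
    (t.subst x u).ev S v = t.ev S (update v x (u.ev S v)) := by
  induction t with
  | var y =>
    by_cases h : x = y
    · subst h; simp [Tm.subst, Tm.ev]
    · simp [Tm.subst, Tm.ev, h, update_of_ne (Ne.symm h)]
  | zero => rfl
  | succ t ih | len t ih | half t ih => simp only [Tm.subst, Tm.ev, ih]
  | add s t i1 i2 | mul s t i1 i2 | smash s t i1 i2 => simp only [Tm.subst, Tm.ev, i1, i2]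

theorem Tm.subst_of_not_occ {x : ℕ} (u : Tm) {t : Tm} (h : ¬ t.occ x) : t.subst x u = t := by
  induction t with
  | var y => exact if_neg h
  | zero => rfl
  | succ t ih | len t ih | half t ih => simp only [Tm.subst, ih h]
  | add s t i1 i2 | mul s t i1 i2 | smash s t i1 i2 =>
    simp only [Tm.subst, i1 fun hx => h (Or.inl hx), i2 fun hx => h (Or.inr hx)]

theorem Fm.subst_of_not_free {x : ℕ} (u : Tm) {φ : Fm} (h : ¬ φ.free x) : φ.subst x u = φ := by
  induction φ with
  | bot => rfl
  | eq s t | le s t =>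
    simp only [Fm.subst, Tm.subst_of_not_occ u fun hx => h (Or.inl hx),
      Tm.subst_of_not_occ u fun hx => h (Or.inr hx)]
  | imp φ ψ i1 i2 => simp only [Fm.subst, i1 fun hx => h (Or.inl hx), i2 fun hx => h (Or.inr hx)]
  | all y φ ih =>
    by_cases hxy : x = y
    · simp [Fm.subst, hxy]
    · simp only [Fm.subst, if_neg hxy, ih fun hx => h ⟨hxy, hx⟩]

theorem Fm.ev_subst (x : ℕ) (u : Tm) (φ : Fm) : ∀ (v : ℕ → S.α), φ.freeFor x u →
    ((φ.subst x u).ev S v ↔ φ.ev S (update v x (u.ev S v))) := by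
  induction φ with
  | bot => intro _ _; rfl
  | eq s t | le s t => intro v _; simp only [Fm.subst, Fm.ev, Tm.ev_subst]
  | imp φ ψ i1 i2 => intro v h; simp only [Fm.subst, Fm.ev, i1 v h.1, i2 v h.2]
  | all y φ ih =>
    intro v h
    by_cases hf : (all y φ).free x
    · have h2 := h.resolve_left (not_not.2 hf)
      simp only [Fm.subst, if_neg hf.1, Fm.ev]
      refine forall_congr' fun w => ?_
      rw [ih _ h2.2, Tm.ev_update h2.1, update_comm (Ne.symm hf.1)]
    · rw [Fm.subst_of_not_free u hf, Fm.ev_update hf]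

theorem Fm.freeFor_of_occ {x : ℕ} {u : Tm} (hu : ∀ y, u.occ y → y = x) (φ : Fm) :
    φ.freeFor x u := by
  induction φ with
  | bot | eq | le => trivial
  | imp φ ψ i1 i2 => exact ⟨i1, i2⟩
  | all y φ ih =>
    by_cases h : (all y φ).free x
    · exact Or.inr ⟨fun hy => h.1 (hu y hy).symm, ih⟩
    · exact Or.inl h

@[simp] theorem Fm.ev_bot (v : ℕ → S.α) : Fm.bot.ev S v ↔ False := Iff.rfl
@[simp] theorem Fm.ev_eq (s t : Tm) (v : ℕ → S.α) :
    (Fm.eq s t).ev S v ↔ s.ev S v = t.ev S v := Iff.rfl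
@[simp] theorem Fm.ev_imp (φ ψ : Fm) (v : ℕ → S.α) :
    (φ.imp ψ).ev S v ↔ (φ.ev S v → ψ.ev S v) := Iff.rfl
@[simp] theorem Fm.ev_all (x : ℕ) (φ : Fm) (v : ℕ → S.α) :
    (Fm.all x φ).ev S v ↔ ∀ u, φ.ev S (update v x u) := Iff.rfl
@[simp] theorem Fm.ev_neg (φ : Fm) (v : ℕ → S.α) : φ.neg.ev S v ↔ ¬ φ.ev S v := Iff.rfl
@[simp] theorem Fm.ev_or (φ ψ : Fm) (v : ℕ → S.α) :
    (φ.or ψ).ev S v ↔ φ.ev S v ∨ ψ.ev S v := by
  simp only [Fm.or, Fm.ev_imp, Fm.ev_neg]; tauto
@[simp] theorem Fm.ev_and (φ ψ : Fm) (v : ℕ → S.α) :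
    (φ.and ψ).ev S v ↔ φ.ev S v ∧ ψ.ev S v := by
  simp only [Fm.and, Fm.ev_imp, Fm.ev_neg]; tauto
@[simp] theorem Fm.ev_iff (φ ψ : Fm) (v : ℕ → S.α) :
    (φ.iff ψ).ev S v ↔ (φ.ev S v ↔ ψ.ev S v) := by
  simp only [Fm.iff, Fm.ev_imp, Fm.ev_and]; tauto
@[simp] theorem Fm.ev_ex (x : ℕ) (φ : Fm) (v : ℕ → S.α) :
    (Fm.ex x φ).ev S v ↔ ∃ u, φ.ev S (update v x u) := by
  simp [Fm.ex]
@[simp] theorem Fm.ev_ne (s t : Tm) (v : ℕ → S.α) :
    (Fm.ne s t).ev S v ↔ s.ev S v ≠ t.ev S v := Iff.rfl
@[simp] theorem Tm.ev_var (x : ℕ) (v : ℕ → S.α) : (Tm.var x).ev S v = v x := rfl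

end Raw

/-- A model of the theory. -/
structure Mdl (b : Bool) : Type 1 extends Str where
  hax : ∀ φ ∈ basic, ∀ v, φ.ev toStr v
  hind : ∀ x φ, Cls b true φ → ∀ v, (pind x φ).ev toStr v

instance {b : Bool} : CoeSort (Mdl b) Type := ⟨fun M => M.toStr.α⟩

variable {b : Bool} {M : Mdl b}

instance : Zero M := ⟨M.z⟩
instance : One M := ⟨M.s M.z⟩
instance : Add M := ⟨M.a⟩
instance : Mul M := ⟨M.m⟩
instance : LE M := ⟨M.le⟩

/-- binary length -/
def len (x : M) : M := M.l x
/-- integer part of one half -/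
def half (x : M) : M := M.h x
/-- the smash function -/
def smash (x y : M) : M := M.sm x y

/-- the vector with the given first entries -/
def vec {α : Type} [Zero α] (l : List α) (i : ℕ) : α := l.getD i 0

namespace Boot

def S (x : M) : M := M.s x
def D (x : M) : M := S (S 0) * x

theorem bx (M : Mdl b) (n : ℕ) (h : n < basic.length) (x y z u v : M) :
    (basic[n]).ev M.toStr (vec [x, y, z, u, v]) := M.hax _ (List.getElem_mem h) _

theorem b1 (x y : M) : y ≤ x → y ≤ S x := bx M 0 (by decide) x y 0 0 0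
theorem b2 (x : M) : x ≠ S x := bx M 1 (by decide) x 0 0 0 0
theorem b3 (x : M) : 0 ≤ x := bx M 2 (by decide) x 0 0 0 0
theorem b4 (x y : M) : (x ≤ y ∧ x ≠ y) ↔ S x ≤ y := by
  have := (Fm.ev_iff _ _ _).1 (bx M 3 (by decide) x y 0 0 0)
  rwa [Fm.ev_and] at this
theorem b6 (x y : M) : y ≤ x ∨ x ≤ y := (Fm.ev_or _ _ _).1 (bx M 5 (by decide) x y 0 0 0)
theorem b7 (x y : M) (h1 : x ≤ y) (h2 : y ≤ x) : x = y :=
  bx M 6 (by decide) x y 0 0 0 ((Fm.ev_and _ _ _).2 ⟨h1, h2⟩)
theorem b8 (x y z : M) (h1 : x ≤ y) (h2 : y ≤ z) : x ≤ z :=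
  bx M 7 (by decide) x y z 0 0 ((Fm.ev_and _ _ _).2 ⟨h1, h2⟩)
theorem b9 : len (0 : M) = 0 := bx M 8 (by decide) 0 0 0 0 0
theorem b10 (x : M) (h : x ≠ 0) : len (D x) = S (len x) ∧ len (S (D x)) = S (len x) :=
  (Fm.ev_and _ _ _).1 (bx M 9 (by decide) x 0 0 0 0 h)
theorem b11 : len (1 : M) = 1 := bx M 10 (by decide) 0 0 0 0 0
theorem b12 (x y : M) : x ≤ y → len x ≤ len y := bx M 11 (by decide) x y 0 0 0
theorem b13 (x y : M) : len (smash x y) = S (len x * len y) := bx M 12 (by decide) x y 0 0 0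
theorem b14 (y : M) : smash 0 y = 1 := bx M 13 (by decide) 0 y 0 0 0
theorem b15 (x : M) (h : x ≠ 0) :
    smash 1 (D x) = D (smash 1 x) ∧ smash 1 (S (D x)) = D (smash 1 x) :=
  (Fm.ev_and _ _ _).1 (bx M 14 (by decide) x 0 0 0 0 h)
theorem b16 (x y : M) : smash x y = smash y x := bx M 15 (by decide) x y 0 0 0
theorem b17 (x y z : M) : len x = len y → smash x z = smash y z := bx M 16 (by decide) x y z 0 0
theorem b18 (x y u v : M) : len x = len u + len v → smash x y = smash u y * smash v y :=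
  bx M 17 (by decide) x y 0 u v
theorem b19 (x y : M) : x ≤ x + y := bx M 18 (by decide) x y 0 0 0
theorem b21 (x y : M) : x + y = y + x := bx M 20 (by decide) x y 0 0 0
theorem b22 (x : M) : x + 0 = x := bx M 21 (by decide) x 0 0 0 0
theorem b23 (x y : M) : x + S y = S (x + y) := bx M 22 (by decide) x y 0 0 0
theorem b24 (x y z : M) : x + y + z = x + (y + z) := bx M 23 (by decide) x y z 0 0
theorem b25 (x y z : M) : x + y ≤ x + z ↔ y ≤ z :=
  (Fm.ev_iff _ _ _).1 (bx M 24 (by decide) x y z 0 0)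
theorem b26 (x : M) : x * 0 = 0 := bx M 25 (by decide) x 0 0 0 0
theorem b27 (x y : M) : x * S y = x * y + x := bx M 26 (by decide) x y 0 0 0
theorem b28 (x y : M) : x * y = y * x := bx M 27 (by decide) x y 0 0 0
theorem b29 (x y z : M) : x * (y + z) = x * y + x * z := bx M 28 (by decide) x y z 0 0
theorem b30 (x y z : M) (h : 1 ≤ x) : x * y ≤ x * z ↔ y ≤ z :=
  (Fm.ev_iff _ _ _).1 (bx M 29 (by decide) x y z 0 0 h)
theorem b31 (x : M) (h : x ≠ 0) : len x = S (len (half x)) := bx M 30 (by decide) x 0 0 0 0 h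
theorem b32 (x y : M) : x = half y ↔ (D x = y ∨ S (D x) = y) := by
  have := (Fm.ev_iff _ _ _).1 (bx M 31 (by decide) x y 0 0 0)
  rwa [Fm.ev_or] at this

theorem S_eq (x : M) : S x = x + 1 := by
  show S x = x + S 0
  rw [b23, b22]

theorem D_eq (x : M) : D x = x + x := by
  rw [D, b28, b27, b27, b26, b21 0, b22]

/-- raw polynomial induction -/
theorem pind_raw {φ : Fm} (hφ : Cls b true φ) (x : ℕ) (v : ℕ → M)
    (h0 : φ.ev M.toStr (update v x 0))
    (hs : ∀ u : M, φ.ev M.toStr (update v x (half u)) → φ.ev M.toStr (update v x u)) (u : M) :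
    φ.ev M.toStr (update v x u) := by
  refine M.hind x φ hφ v ?_ ?_ u
  · exact (Fm.ev_subst x .zero φ v (Fm.freeFor_of_occ (u := .zero) (fun _ h => False.elim h) φ)).2 h0
  · intro w hw
    rw [Fm.ev_subst x (.half (.var x)) φ _
      (Fm.freeFor_of_occ (u := .half (.var x)) (fun _ h => h) φ), update_idem] at hw
    refine hs w ?_
    simpa [Tm.ev, half] using hw

theorem mul_assoc' (x y z : M) : x * y * z = x * (y * z) := by
  have := pind_raw (M := M) (Cls.eq true (.mul (.mul (.var 0) (.var 1)) (.var 2))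
    (.mul (.var 0) (.mul (.var 1) (.var 2)))) 2 (vec [x, y]) ?_ ?_ z
  · exact this
  · show x * y * 0 = x * (y * 0)
    rw [b26, b26, b26]
  · intro u hu
    change x * y * half u = x * (y * half u) at hu
    show x * y * u = x * (y * u)
    rcases (b32 (half u) u).1 rfl with h | h
    · rw [← h, D_eq, b29, b29, b29, hu]
    · rw [← h, D_eq, b27, b27, b29, b29, b29, b29, hu]

end Boot

open Boot

noncomputable instance : LinearOrder M where
  le_refl x := (b6 x x).elim id id
  le_trans := b8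
  le_antisymm := b7
  le_total x y := b6 y x
  toDecidableLE := Classical.decRel _

instance : CommSemiring M where
  add_assoc := b24
  zero_add x := by rw [b21, b22]
  add_zero := b22
  add_comm := b21
  nsmul := nsmulRec
  left_distrib := b29
  right_distrib x y z := by rw [b28, b29, b28 z, b28 z]
  zero_mul x := by rw [b28, b26]
  mul_zero := b26
  mul_assoc := mul_assoc'
  one_mul x := by
    rw [b28]
    show x * S 0 = x
    rw [b27, b26, b21, b22]
  mul_one x := by
    show x * S 0 = x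
    rw [b27, b26, b21, b22]
  mul_comm := b28

theorem succ_le_iff {x y : M} : x + 1 ≤ y ↔ x < y := by
  rw [← S_eq, ← b4, lt_iff_le_and_ne]

instance : IsOrderedCancelAddMonoid M where
  add_le_add_left x y h z := by rw [add_comm x, add_comm y]; exact (b25 z x y).2 h
  le_of_add_le_add_left x y z h := (b25 x y z).1 h

instance : OrderBot M where
  bot := 0
  bot_le := b3

instance : Nontrivial M := ⟨0, 1, b2 0⟩

instance : IsStrictOrderedRing M where
  zero_le_one := b3 1
  mul_lt_mul_of_pos_left x hx y z h := by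
    rw [← not_le] at h ⊢
    rwa [b30 x z y (by simpa using succ_le_iff.2 hx)]
  mul_lt_mul_of_pos_right x hx y z h := by
    rw [← not_le] at h ⊢
    rwa [mul_comm y, mul_comm z, b30 x z y (by simpa using succ_le_iff.2 hx)]

theorem zero_le' (x : M) : 0 ≤ x := b3 x

theorem lt_succ_iff {x y : M} : x < y + 1 ↔ x ≤ y := by
  rw [← not_le, succ_le_iff, not_lt]

theorem one_le_iff {x : M} : 1 ≤ x ↔ x ≠ 0 := by
  rw [← zero_add 1, succ_le_iff]
  exact ⟨fun h => h.ne', fun h => lt_of_le_of_ne (zero_le' x) (Ne.symm h)⟩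

theorem Boot.D_two (x : M) : D x = 2 * x := by rw [D_eq, two_mul]

@[simp] theorem len_zero : len (0 : M) = 0 := b9
@[simp] theorem len_one : len (1 : M) = 1 := b11
theorem len_two_mul {x : M} (h : x ≠ 0) : len (2 * x) = len x + 1 := by
  rw [← D_two, (b10 x h).1, S_eq]
theorem len_two_mul_add_one (x : M) : len (2 * x + 1) = len x + 1 := by
  by_cases h : x = 0
  · simp [h]
  · rw [← D_two, ← S_eq, (b10 x h).2, S_eq]
@[gcongr] theorem len_mono {x y : M} (h : x ≤ y) : len x ≤ len y := b12 x y h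
theorem len_smash (x y : M) : len (smash x y) = len x * len y + 1 := by rw [b13, S_eq]
@[simp] theorem zero_smash (y : M) : smash 0 y = 1 := b14 y
theorem smash_comm (x y : M) : smash x y = smash y x := b16 x y
@[simp] theorem smash_zero (y : M) : smash y 0 = 1 := by rw [smash_comm, zero_smash]
theorem smash_congr {x y : M} (z : M) (h : len x = len y) : smash x z = smash y z := b17 x y z h
theorem smash_add {x u v : M} (y : M) (h : len x = len u + len v) :
    smash x y = smash u y * smash v y := b18 x y u v h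
theorem len_half {x : M} (h : x ≠ 0) : len x = len (half x) + 1 := by rw [b31 x h, S_eq]
theorem half_iff {x y : M} : x = half y ↔ (2 * x = y ∨ 2 * x + 1 = y) := by
  rw [b32, S_eq, D_two]
theorem half_spec (y : M) : y = 2 * half y ∨ y = 2 * half y + 1 :=
  (half_iff.1 rfl).imp Eq.symm Eq.symm
@[simp] theorem half_two_mul (x : M) : half (2 * x) = x := (half_iff.2 (Or.inl rfl)).symm
@[simp] theorem half_two_mul_add_one (x : M) : half (2 * x + 1) = x :=
  (half_iff.2 (Or.inr rfl)).symm
@[simp] theorem half_zero : half (0 : M) = 0 := by simpa using half_two_mul (0 : M)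
@[simp] theorem half_one : half (1 : M) = 0 := by simpa using half_two_mul_add_one (0 : M)
@[simp] theorem len_eq_zero {x : M} : len x = 0 ↔ x = 0 := by
  refine ⟨fun h => ?_, fun h => by simp [h]⟩
  by_contra hx
  rw [len_half hx] at h
  exact absurd h (one_le_iff.1 (le_add_of_nonneg_left (zero_le' _)))
theorem smash_ne_zero (x y : M) : smash x y ≠ 0 := by
  rw [Ne, ← len_eq_zero, len_smash]
  exact one_le_iff.1 (le_add_of_nonneg_left (zero_le' _))
theorem smash_pos (x y : M) : 0 < smash x y :=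
  lt_of_le_of_ne (zero_le' _) (smash_ne_zero x y).symm
theorem half_le (x : M) : half x ≤ x := by
  rcases half_spec x with h | h
  · calc half x ≤ half x + half x := le_add_of_nonneg_right (zero_le' _)
      _ = x := by rw [← two_mul, ← h]
  · calc half x ≤ half x + (half x + 1) := le_add_of_nonneg_right (zero_le' _)
      _ = x := by rw [← add_assoc, ← two_mul, ← h]

/-- `pw a = 2 ^ |a|` -/
def pw (a : M) : M := smash 1 a

@[simp] theorem pw_zero : pw (0 : M) = 1 := smash_zero 1
theorem pw_pos (a : M) : 0 < pw a := smash_pos 1 a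
theorem len_pw (a : M) : len (pw a) = len a + 1 := by rw [pw, len_smash, len_one, one_mul]
theorem pw_congr {a c : M} (h : len a = len c) : pw a = pw c := by
  rw [pw, pw, smash_comm 1, smash_comm 1, smash_congr 1 h]
theorem pw_add {x u v : M} (h : len x = len u + len v) : pw x = pw u * pw v := by
  rw [pw, pw, pw, smash_comm 1, smash_comm 1, smash_comm 1 v, smash_add 1 h]
@[simp] theorem pw_one : pw (1 : M) = 2 := by
  have h1 : pw (2 * 1 : M) = pw 1 * pw 1 := pw_add (by rw [len_two_mul one_ne_zero, len_one])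
  have h2 : pw (2 * 1 : M) = 2 * pw 1 := by
    have := (b15 (1 : M) one_ne_zero).1
    rwa [D_two, D_two] at this
  have h3 := h1.symm.trans h2
  exact le_antisymm (le_of_mul_le_mul_right h3.le (pw_pos 1))
    (le_of_mul_le_mul_right h3.ge (pw_pos 1))
theorem pw_half {x : M} (h : x ≠ 0) : pw x = 2 * pw (half x) := by
  rw [pw_add (u := 1) (v := half x) (by rw [len_half h, len_one, add_comm]), pw_one]

section Ev
variable (v : ℕ → M)
@[simp] theorem Tm.ev_zero : Tm.zero.ev M.toStr v = 0 := rfl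
@[simp] theorem Tm.ev_succ (t : Tm) : t.succ.ev M.toStr v = t.ev M.toStr v + 1 := S_eq _
@[simp] theorem Tm.ev_len (t : Tm) : t.len.ev M.toStr v = _root_.Pool.Agent.MP_f18a41_lc.len
  (t.ev M.toStr v) := rfl
@[simp] theorem Tm.ev_half (t : Tm) : t.half.ev M.toStr v = _root_.Pool.Agent.MP_f18a41_lc.half
  (t.ev M.toStr v) := rfl
@[simp] theorem Tm.ev_add (s t : Tm) :
    (s.add t).ev M.toStr v = s.ev M.toStr v + t.ev M.toStr v := rfl
@[simp] theorem Tm.ev_mul (s t : Tm) :
    (s.mul t).ev M.toStr v = s.ev M.toStr v * t.ev M.toStr v := rfl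
@[simp] theorem Tm.ev_smash (s t : Tm) : (s.smash t).ev M.toStr v =
    _root_.Pool.Agent.MP_f18a41_lc.smash (s.ev M.toStr v) (t.ev M.toStr v) := rfl
@[simp] theorem Tm.ev_one : Tm.one.ev M.toStr v = 1 := rfl
@[simp] theorem Tm.ev_two : Tm.two.ev M.toStr v = 2 := by
  simp [Tm.two, one_add_one_eq_two]
@[simp] theorem Tm.ev_dbl (t : Tm) : t.dbl.ev M.toStr v = 2 * t.ev M.toStr v := by simp [Tm.dbl]
@[simp] theorem Tm.ev_num (n : ℕ) : (Tm.num n).ev M.toStr v = n := by
  induction n using Nat.strong_induction_on with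
  | _ n ih =>
    rw [Tm.num]
    split_ifs with h1 h2
    · simp [h1]
    · rw [Tm.ev_dbl, ih _ (by omega)]
      exact_mod_cast congrArg (Nat.cast : ℕ → M) (show 2 * (n / 2) = n by omega)
    · rw [Tm.ev_succ, Tm.ev_dbl, ih _ (by omega)]
      exact_mod_cast congrArg (Nat.cast : ℕ → M) (show 2 * (n / 2) + 1 = n by omega)
@[simp] theorem Fm.ev_le (s t : Tm) :
    (Fm.le s t).ev M.toStr v ↔ s.ev M.toStr v ≤ t.ev M.toStr v := Iff.rfl
@[simp] theorem Fm.ev_lt (s t : Tm) :
    (Fm.lt s t).ev M.toStr v ↔ s.ev M.toStr v < t.ev M.toStr v := by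
  simp [Fm.lt]
theorem Fm.ev_ball {x : ℕ} {t : Tm} (h : ¬ t.occ x) (φ : Fm) :
    (Fm.ball x t φ).ev M.toStr v ↔ ∀ u ≤ t.ev M.toStr v, φ.ev M.toStr (update v x u) := by
  simp [Fm.ball, Tm.ev_update h]
theorem Fm.ev_bex {x : ℕ} {t : Tm} (h : ¬ t.occ x) (φ : Fm) :
    (Fm.bex x t φ).ev M.toStr v ↔ ∃ u ≤ t.ev M.toStr v, φ.ev M.toStr (update v x u) := by
  simp [Fm.bex, Fm.ev_ball v h]
end Ev

theorem Tm.not_occ_num (x n : ℕ) : ¬ (Tm.num n).occ x := by
  induction n using Nat.strong_induction_on with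
  | _ n ih =>
    rw [Tm.num]
    split_ifs with h1 h2
    · exact id
    · simpa [Tm.dbl, Tm.two, Tm.one, Tm.occ] using ih _ (by omega)
    · simpa [Tm.dbl, Tm.two, Tm.one, Tm.occ] using ih _ (by omega)

namespace Cls
variable {c : Bool}
theorem neg {σ : Bool} {φ : Fm} (h : Cls c (!σ) φ) : Cls c σ φ.neg := .imp σ h (.bot σ)
theorem neg' {σ : Bool} {φ : Fm} (h : Cls c σ φ) : Cls c (!σ) φ.neg :=
  neg (by rwa [Bool.not_not])
theorem or {σ : Bool} {φ ψ : Fm} (h1 : Cls c σ φ) (h2 : Cls c σ ψ) : Cls c σ (φ.or ψ) :=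
  .imp σ h1.neg' h2
theorem and {σ : Bool} {φ ψ : Fm} (h1 : Cls c σ φ) (h2 : Cls c σ ψ) : Cls c σ (φ.and ψ) :=
  neg (.imp _ (by rwa [Bool.not_not]) h2.neg')
theorem lt (σ : Bool) (s t : Tm) : Cls c σ (Fm.lt s t) := neg (.le _ _ _)
theorem ne (σ : Bool) (s t : Tm) : Cls c σ (Fm.ne s t) := neg (.eq _ _ _)
theorem bex {x : ℕ} {t : Tm} {φ : Fm} (h : ¬ t.occ x) (h1 : Cls c true φ) :
    Cls c true (Fm.bex x t φ) := neg (.ball h h1.neg')
theorem mono {σ : Bool} {φ : Fm} (h : Cls false σ φ) : Cls c σ φ := by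
  induction h with
  | bot σ => exact .bot σ
  | eq σ s t => exact .eq σ s t
  | le σ s t => exact .le σ s t
  | imp σ _ _ i1 i2 => exact .imp σ i1 i2
  | ball h _ ih => exact .ball h ih
  | sharp h _ ih => exact .sharp h ih
  | wide h => exact absurd h (by decide)
/-- every formula of a class is a bounded formula -/
theorem bdd {σ : Bool} {φ : Fm} (h : Cls c σ φ) : ∀ τ, Cls true τ φ := by
  induction h with
  | bot σ => exact .bot
  | eq σ s t => exact fun τ => .eq τ s t
  | le σ s t => exact fun τ => .le τ s t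
  | imp σ _ _ i1 i2 => exact fun τ => .imp τ (i1 _) (i2 _)
  | ball h _ ih | wide _ h _ ih =>
    intro τ
    cases τ
    · exact .ball h (ih _)
    · exact .wide rfl h (ih _)
  | @sharp x t φ h _ ih =>
    intro τ
    cases τ
    · exact .ball (t := t.len) h (ih _)
    · exact .sharp h (ih _)
end Cls

theorem lt_pw (y : M) : y < pw y := by
  have := pind_raw (M := M) (Cls.lt true (.var 0) (.smash .one (.var 0))) 0 (vec []) ?_ ?_ y
  · simpa [pw] using this
  · simp
  · intro u hu
    simp only [Fm.ev_lt, Tm.ev_var, update_self, Tm.ev_smash, Tm.ev_one] at hu ⊢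
    by_cases h0 : u = 0
    · simp [h0]
    change half u < pw (half u) at hu
    change u < pw u
    rw [pw_half h0]
    have h2 : 2 * (half u + 1) ≤ 2 * pw (half u) := by
      gcongr; exact succ_le_iff.2 hu
    refine lt_of_lt_of_le ?_ h2
    rw [mul_add, mul_one, ← one_add_one_eq_two, ← add_assoc, one_add_one_eq_two, lt_succ_iff]
    rcases half_spec u with h | h
    · exact h.le.trans (le_add_of_nonneg_right zero_le_one)
    · exact h.le

theorem exists_sub_aux {x y : M} (hxy : x ≤ y) (c : M) (hc : y < pw c) (w : M) :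
    len w ≤ len c → ∃ z ≤ y, ∃ d ≤ c, len d + len w = len c ∧ x + z ≤ y ∧ y < x + z + pw d := by
  have := pind_raw (M := M) (φ := .imp (.le (.len (.var 0)) (.len (.var 3)))
    (.bex 4 (.var 2) (.bex 5 (.var 3) (.and (.eq (.add (.len (.var 5)) (.len (.var 0))) (.len (.var 3)))
      (.and (.le (.add (.var 1) (.var 4)) (.var 2))
        (.lt (.var 2) (.add (.add (.var 1) (.var 4)) (.smash .one (.var 5)))))))))
    (.imp _ (.le _ _ _) (.bex (by simp [Tm.occ]) (.bex (by simp [Tm.occ])
      (.and (.eq _ _ _) (.and (.le _ _ _) (.lt _ _ _)))))) 0 (vec [0, x, y, c]) ?_ ?_ w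
  · simpa [Fm.ev_bex, Tm.occ, vec, pw] using this
  · have : 0 ≤ len c → ∃ z ≤ y, ∃ d ≤ c, len d = len c ∧ x + z ≤ y ∧ y < x + z + pw d :=
      fun _ => ⟨0, zero_le' _, c, le_rfl, rfl, by simpa using hxy,
        hc.trans_le (le_add_of_nonneg_left (zero_le' _))⟩
    simpa [Fm.ev_bex, Tm.occ, vec, pw] using this
  · intro u hu
    have hu' : len (half u) ≤ len c → ∃ z ≤ y, ∃ d ≤ c, len d + len (half u) = len c ∧
        x + z ≤ y ∧ y < x + z + pw d := by
      simpa [Fm.ev_bex, Tm.occ, vec, pw] using hu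
    suffices len u ≤ len c → ∃ z ≤ y, ∃ d ≤ c, len d + len u = len c ∧
        x + z ≤ y ∧ y < x + z + pw d by
      simpa [Fm.ev_bex, Tm.occ, vec, pw] using this
    intro hl
    by_cases h0 : u = 0
    · subst h0
      exact hu' (by simpa using hl)|>.imp fun z hz => by simpa using hz
    obtain ⟨z, hz, d, hd, h1, h2, h3⟩ := hu' ((len_mono (half_le u)).trans hl)
    have hd0 : d ≠ 0 := by
      rintro rfl
      rw [len_half h0, ← h1, len_zero, zero_add, succ_le_iff] at hl
      exact lt_irrefl _ hl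
    have h4 : len (half d) + len u = len c := by
      rw [← h1, len_half h0, len_half hd0]; ring
    by_cases h5 : x + z + pw (half d) ≤ y
    · refine ⟨z + pw (half d), ?_, half d, (half_le d).trans hd, h4, by rwa [← add_assoc], ?_⟩
      · refine le_trans ?_ h5
        rw [add_assoc]
        exact le_add_of_nonneg_left (zero_le' _)
      · rw [pw_half hd0] at h3
        convert h3 using 1
        ring
    · exact ⟨z, hz, half d, (half_le d).trans hd, h4, h2, not_le.1 h5⟩

instance : CanonicallyOrderedAdd M where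
  exists_add_of_le {x y} h := by
    obtain ⟨z, _, d, _, h1, h2, h3⟩ := exists_sub_aux h y (lt_pw y) y le_rfl
    have hd : d = 0 := by
      rw [← len_eq_zero]
      exact add_right_cancel (h1.trans (zero_add _).symm)
    rw [hd, pw_zero, lt_succ_iff] at h3
    exact ⟨z, le_antisymm h3 h2⟩
  le_self_add := b19
  le_add_self x y := by rw [add_comm]; exact b19 x y

/-- subtraction of lengths -/
theorem exists_len_add {w c : M} (h : len w ≤ len c) : ∃ d ≤ c, len d + len w = len c := by
  obtain ⟨_, _, d, hd, h1, _⟩ := exists_sub_aux (le_refl (0 : M)) c (pw_pos c) w h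
  exact ⟨d, hd, h1⟩

@[zify_simps] theorem zr_le {x y : M} : x ≤ y ↔ (x : Zr M) ≤ y := Zr.of_le
@[zify_simps] theorem zr_lt {x y : M} : x < y ↔ (x : Zr M) + 1 ≤ y := by
  rw [← succ_le_iff, Zr.of_le]; simp
@[zify_simps] theorem zr_eq {x y : M} : x = y ↔ (x : Zr M) = y := Zr.of_eq
@[zify_simps] theorem zr_ne {x y : M} : x ≠ y ↔ (x : Zr M) ≠ y := Zr.of_ne
theorem zr_nonneg (x : M) : (0 : Zr M) ≤ x := zr_le.1 (zero_le' x)

@[gcongr] theorem half_mono {x y : M} (h : x ≤ y) : half x ≤ half y := by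
  by_contra hc
  rw [not_le] at hc
  rcases half_spec x with h1 | h1 <;> rcases half_spec y with h2 | h2 <;> zify at * <;> linarith

theorem smash_mono_left {x y : M} (z : M) (h : len x ≤ len y) : smash x z ≤ smash y z := by
  obtain ⟨d, _, hd⟩ := exists_len_add h
  rw [smash_add z hd.symm]
  exact le_mul_of_one_le_left (zero_le' _) (one_le_iff.2 (smash_ne_zero _ _))

theorem smash_mono_len {x y u w : M} (h : len x ≤ len y) (h' : len u ≤ len w) :
    smash x u ≤ smash y w :=
  (smash_mono_left u h).trans (by rw [smash_comm y, smash_comm y]; exact smash_mono_left y h')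

@[gcongr] theorem smash_mono {x y u w : M} (h : x ≤ y) (h' : u ≤ w) : smash x u ≤ smash y w :=
  smash_mono_len (len_mono h) (len_mono h')

theorem pw_mono_len {x y : M} (h : len x ≤ len y) : pw x ≤ pw y := smash_mono_len le_rfl h

@[gcongr] theorem pw_mono {x y : M} (h : x ≤ y) : pw x ≤ pw y := pw_mono_len (len_mono h)

theorem Tm.ev_mono {v w : ℕ → M} (t : Tm) (h : ∀ x, t.occ x → v x ≤ w x) :
    t.ev M.toStr v ≤ t.ev M.toStr w := by
  induction t with
  | var y => exact h y rfl
  | zero => exact le_rfl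
  | succ t ih => simpa using ih h
  | len t ih => exact len_mono (ih h)
  | half t ih => exact half_mono (ih h)
  | add s t i1 i2 =>
    exact add_le_add (i1 fun x hx => h x (Or.inl hx)) (i2 fun x hx => h x (Or.inr hx))
  | mul s t i1 i2 =>
    exact mul_le_mul' (i1 fun x hx => h x (Or.inl hx)) (i2 fun x hx => h x (Or.inr hx))
  | smash s t i1 i2 =>
    exact smash_mono (i1 fun x hx => h x (Or.inl hx)) (i2 fun x hx => h x (Or.inr hx))

/-- Soundness of the calculus. -/
theorem Prv.sound {φ : Fm} (h : Prv b φ) (M : Mdl b) : ∀ v, φ.ev M.toStr v := by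
  induction h with
  | k => exact fun _ h _ => h
  | s => exact fun _ h1 h2 h3 => h1 h3 (h2 h3)
  | dn => exact fun _ h => not_not.1 h
  | inst x u φ h => exact fun v h1 => (Fm.ev_subst x u φ v h).2 (h1 _)
  | dist => exact fun _ h1 h2 u => h1 u (h2 u)
  | vac x φ h => exact fun v h1 u => (Fm.ev_update h u).2 h1
  | mp _ _ i1 i2 => exact fun v => i1 v (i2 v)
  | gen _ _ ih => exact fun v u => ih _
  | ax h =>
    rcases List.mem_append.1 h with h | h
    · intro v
      simp only [eqAx, List.mem_cons, List.not_mem_nil, or_false] at h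
      rcases h with h | h | h | h | h | h | h | h | h <;> subst h <;> simp +contextual
    · exact M.hax _ h
  | ind x h => exact M.hind x _ h

end Pool.Agent.MP_f18a41_lc

end MrgPart1

-- ======== part 2: formerly Pool.Agent.MP_f18a41_lc.Defin
section MrgPart2

/-! Uniform definability: the classes `USig`, `UPi`, `UFn`, `UB`; induction principles. -/

namespace Pool.Agent.MP_f18a41_lc

open Function

/-- put a value in front of an assignment -/
def cons {α : Type*} (x : α) (v : ℕ → α) : ℕ → α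
  | 0 => x
  | n + 1 => v n

@[simp] theorem cons_zero {α : Type*} (x : α) (v : ℕ → α) : cons x v 0 = x := rfl
@[simp] theorem cons_succ {α : Type*} (x : α) (v : ℕ → α) (n : ℕ) : cons x v (n + 1) = v n := rfl
@[simp] theorem cons_tail {α : Type*} (v : ℕ → α) : cons (v 0) (fun i => v (i + 1)) = v := by
  funext i; cases i <;> rfl

theorem consInj (k : ℕ) : Injective (cons 0 fun i => i + (k + 1)) := by
  intro i j e
  rcases i with _ | i <;> rcases j with _ | j <;> simp only [cons_zero, cons_succ] at e <;> omega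

/-! ### Renaming -/

def Tm.ren (g : ℕ → ℕ) : Tm → Tm
  | var x => var (g x)
  | zero => zero
  | succ t => succ (t.ren g)
  | len t => len (t.ren g)
  | half t => half (t.ren g)
  | add s t => add (s.ren g) (t.ren g)
  | mul s t => mul (s.ren g) (t.ren g)
  | smash s t => smash (s.ren g) (t.ren g)

def Fm.ren (g : ℕ → ℕ) : Fm → Fm
  | bot => bot
  | eq s t => eq (s.ren g) (t.ren g)
  | le s t => le (s.ren g) (t.ren g)
  | imp φ ψ => imp (φ.ren g) (ψ.ren g)
  | all x φ => all (g x) (φ.ren g)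

theorem Tm.ev_ren {S : Str} (g : ℕ → ℕ) (v : ℕ → S.α) (t : Tm) :
    (t.ren g).ev S v = t.ev S (fun i => v (g i)) := by
  induction t with
  | var y => rfl
  | zero => rfl
  | succ t ih | len t ih | half t ih => simp only [Tm.ren, Tm.ev, ih]
  | add s t i1 i2 | mul s t i1 i2 | smash s t i1 i2 => simp only [Tm.ren, Tm.ev, i1, i2]

theorem Fm.ev_ren {S : Str} {g : ℕ → ℕ} (hg : Injective g) (φ : Fm) : ∀ v : ℕ → S.α,
    ((φ.ren g).ev S v ↔ φ.ev S (fun i => v (g i))) := by
  induction φ with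
  | bot => intro _; rfl
  | eq s t | le s t => intro v; simp only [Fm.ren, Fm.ev, Tm.ev_ren]
  | imp φ ψ i1 i2 => intro v; simp only [Fm.ren, Fm.ev, i1, i2]
  | all y φ ih =>
    intro v
    simp only [Fm.ren, Fm.ev, ih]
    refine forall_congr' fun u => ?_
    rw [show (fun i => update v (g y) u (g i)) = update (fun i => v (g i)) y u from
      update_comp_eq_of_injective v hg y u]

theorem Tm.occ_ren {g : ℕ → ℕ} (hg : Injective g) (x : ℕ) (t : Tm) :
    (t.ren g).occ (g x) ↔ t.occ x := by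
  induction t with
  | var y => exact hg.eq_iff
  | zero => rfl
  | succ t ih | len t ih | half t ih => exact ih
  | add s t i1 i2 | mul s t i1 i2 | smash s t i1 i2 => exact or_congr i1 i2

theorem Cls.ren {c σ : Bool} {φ : Fm} {g : ℕ → ℕ} (hg : Injective g) (h : Cls c σ φ) :
    Cls c σ (φ.ren g) := by
  induction h with
  | bot σ => exact .bot σ
  | eq σ s t => exact .eq σ _ _
  | le σ s t => exact .le σ _ _
  | imp σ _ _ i1 i2 => exact .imp σ i1 i2
  | ball h _ ih => exact .ball (mt (Tm.occ_ren hg _ _).1 h) ih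
  | sharp h _ ih => exact .sharp (mt (Tm.occ_ren hg _ _).1 h) ih
  | wide h0 h _ ih => exact .wide h0 (mt (Tm.occ_ren hg _ _).1 h) ih

theorem Tm.exists_bound (t : Tm) : ∃ m, ∀ x, t.occ x → x < m := by
  induction t with
  | var y => exact ⟨y + 1, fun x h => by cases h; omega⟩
  | zero => exact ⟨0, fun _ h => h.elim⟩
  | succ t ih | len t ih | half t ih => exact ih
  | add s t i1 i2 | mul s t i1 i2 | smash s t i1 i2 =>
    obtain ⟨m, hm⟩ := i1
    obtain ⟨n, hn⟩ := i2
    exact ⟨m + n, fun x h => h.elim (fun h => by have := hm x h; omega)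
      (fun h => by have := hn x h; omega)⟩

theorem Fm.exists_bound (φ : Fm) : ∃ m, ∀ x, φ.free x → x < m := by
  induction φ with
  | bot => exact ⟨0, fun _ h => h.elim⟩
  | eq s t | le s t => exact (Tm.add s t).exists_bound
  | imp φ ψ i1 i2 =>
    obtain ⟨m, hm⟩ := i1
    obtain ⟨n, hn⟩ := i2
    exact ⟨m + n, fun x h => h.elim (fun h => by have := hm x h; omega)
      (fun h => by have := hn x h; omega)⟩
  | all y φ ih =>
    obtain ⟨m, hm⟩ := ih
    exact ⟨m, fun x h => hm x h.2⟩

/-- the renaming that sends `0` to `m` and shifts the other variables down -/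
def bindF (m : ℕ) : ℕ → ℕ
  | 0 => m
  | i + 1 => if i < m then i else i + 1

theorem bindF_inj (m : ℕ) : Injective (bindF m) := by
  intro i j h
  rcases i with _ | i <;> rcases j with _ | j <;> simp only [bindF] at h <;>
    (try split_ifs at h) <;> omega

theorem Fm.bind (φ : Fm) (t : Tm) : ∃ m φ', ¬ t.occ m ∧ (∀ c σ, Cls c σ φ → Cls c σ φ') ∧
    ∀ (S : Str) (v : ℕ → S.α) (x : S.α), Fm.ev S φ' (update v m x) ↔ φ.ev S (cons x v) := by
  obtain ⟨m, hm⟩ := φ.exists_bound
  obtain ⟨n, hn⟩ := t.exists_bound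
  refine ⟨m + n, φ.ren (bindF (m + n)), fun h => by have := hn _ h; omega,
    fun _ _ h => h.ren (bindF_inj _), fun S v x => ?_⟩
  rw [Fm.ev_ren (bindF_inj _)]
  refine φ.ev_congr fun y hy => ?_
  have := hm y hy
  rcases y with _ | y
  · simp [bindF]
  · have h1 : y < m + n := by omega
    simp [bindF, h1, update_of_ne h1.ne]

/-! ### The classes -/

abbrev UPred (b : Bool) : Type 1 := ∀ M : Mdl b, (ℕ → M) → Prop
abbrev UFun (b : Bool) : Type 1 := ∀ M : Mdl b, (ℕ → M) → M

variable {b : Bool}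

/-- defined in all models by one formula of the class `Cls c σ` -/
def UC (c σ : Bool) (P : UPred b) : Prop :=
  ∃ φ, Cls c σ φ ∧ ∀ (M : Mdl b) (v : ℕ → M), φ.ev M.toStr v ↔ P M v

/-- uniformly `Σ^b_1` -/
class USig (P : UPred b) : Prop where
  out : UC false true P
/-- uniformly `Π^b_1` -/
class UPi (P : UPred b) : Prop where
  out : UC false false P
/-- uniformly bounded -/
class UB (P : UPred b) : Prop where
  out : UC true true P
/-- uniformly `Σ^b_1` total function bounded by a term -/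
class UFn (f : UFun b) : Prop where
  gr : UC false true (fun M v => v 0 = f M (fun i => v (i + 1)))
  bd : ∃ t : Tm, ∀ (M : Mdl b) (v : ℕ → M), f M v ≤ t.ev M.toStr v

namespace UC
variable {c σ : Bool} {P Q : UPred b}

theorem congr (h : UC c σ P) (e : ∀ M v, P M v ↔ Q M v) : UC c σ Q := by
  obtain ⟨φ, h1, h2⟩ := h
  exact ⟨φ, h1, fun M v => (h2 M v).trans (e M v)⟩

theorem ren (h : UC c σ P) {g : ℕ → ℕ} (hg : Injective g) :
    UC c σ (fun M v => P M (fun i => v (g i))) := by
  obtain ⟨φ, h1, h2⟩ := h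
  exact ⟨φ.ren g, h1.ren hg, fun M v => by rw [Fm.ev_ren hg, h2]⟩

theorem tail (h : UC c σ P) : UC c σ (fun M v => P M (fun i => v (i + 1))) :=
  h.ren (g := fun i => i + 1) (add_left_injective 1)

theorem bot : UC c σ (fun (_ : Mdl b) _ => False) := ⟨.bot, .bot _, fun _ _ => Iff.rfl⟩
theorem not (h : UC c (!σ) P) : UC c σ (fun M v => ¬ P M v) := by
  obtain ⟨φ, h1, h2⟩ := h
  exact ⟨φ.neg, h1.neg, fun M v => by rw [Fm.ev_neg, h2]⟩
theorem imp (h : UC c (!σ) P) (h' : UC c σ Q) : UC c σ (fun M v => P M v → Q M v) := by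
  obtain ⟨φ, h1, h2⟩ := h
  obtain ⟨ψ, h3, h4⟩ := h'
  exact ⟨φ.imp ψ, .imp _ h1 h3, fun M v => by rw [Fm.ev_imp, h2, h4]⟩
theorem and (h : UC c σ P) (h' : UC c σ Q) : UC c σ (fun M v => P M v ∧ Q M v) := by
  obtain ⟨φ, h1, h2⟩ := h
  obtain ⟨ψ, h3, h4⟩ := h'
  exact ⟨φ.and ψ, h1.and h3, fun M v => by rw [Fm.ev_and, h2, h4]⟩
theorem or (h : UC c σ P) (h' : UC c σ Q) : UC c σ (fun M v => P M v ∨ Q M v) := by
  obtain ⟨φ, h1, h2⟩ := h
  obtain ⟨ψ, h3, h4⟩ := h'
  exact ⟨φ.or ψ, h1.or h3, fun M v => by rw [Fm.ev_or, h2, h4]⟩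
theorem eqT (s t : Tm) : UC c σ (fun (M : Mdl b) v => s.ev M.toStr v = t.ev M.toStr v) :=
  ⟨.eq s t, .eq _ _ _, fun _ _ => Iff.rfl⟩
theorem leT (s t : Tm) : UC c σ (fun (M : Mdl b) v => s.ev M.toStr v ≤ t.ev M.toStr v) :=
  ⟨.le s t, .le _ _ _, fun _ _ => Iff.rfl⟩
theorem ballT (t : Tm) (h : UC c false P) :
    UC c false (fun M v => ∀ x ≤ t.ev M.toStr v, P M (cons x v)) := by
  obtain ⟨φ, h1, h2⟩ := h
  obtain ⟨m, φ', h3, h4, h5⟩ := φ.bind t
  exact ⟨.ball m t φ', .ball h3 (h4 _ _ h1), fun M v => by simp only [Fm.ev_ball v h3, h5, h2]⟩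
theorem sharpT (t : Tm) (h : UC c true P) :
    UC c true (fun M v => ∀ x ≤ len (t.ev M.toStr v), P M (cons x v)) := by
  obtain ⟨φ, h1, h2⟩ := h
  obtain ⟨m, φ', h3, h4, h5⟩ := φ.bind t
  exact ⟨.ball m t.len φ', .sharp h3 (h4 _ _ h1), fun M v => by
    simp only [Fm.ev_ball v (t := t.len) h3, h5, h2, Tm.ev_len]⟩
theorem bexT (t : Tm) (h : UC c true P) :
    UC c true (fun M v => ∃ x ≤ t.ev M.toStr v, P M (cons x v)) :=
  (not (σ := true) (ballT t (not (σ := false) h))).congr fun M v => by simp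
theorem mono (h : UC false σ P) : UC c σ P := by
  obtain ⟨φ, h1, h2⟩ := h
  exact ⟨φ, h1.mono, h2⟩
theorem bdd (h : UC c σ P) (τ : Bool) : UC true τ P := by
  obtain ⟨φ, h1, h2⟩ := h
  exact ⟨φ, h1.bdd τ, h2⟩
theorem support (h : UC c σ P) : ∃ m, ∀ M v w, (∀ i < m, v i = w i) → (P M v ↔ P M w) := by
  obtain ⟨φ, _, h2⟩ := h
  obtain ⟨m, hm⟩ := φ.exists_bound
  exact ⟨m, fun M v w h => by rw [← h2, ← h2]; exact φ.ev_congr fun x hx => h x (hm x hx)⟩

/-- substitute a definable function for variable `0` -/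
theorem sub1 {f : UFun b} (hf : UFn f) (h : UC c σ P) :
    UC c σ (fun M v => P M (cons (f M v) v)) := by
  obtain ⟨t, ht⟩ := hf.bd
  cases σ
  · exact (ballT t (imp hf.gr.mono h)).congr fun M v =>
      ⟨fun h => h _ (ht M v) rfl, fun h x _ e => by
        simp only [cons_zero, cons_succ] at e
        exact e ▸ h⟩
  · exact (bexT t (and hf.gr.mono h)).congr fun M v =>
      ⟨fun ⟨x, _, e, h⟩ => by
        simp only [cons_zero, cons_succ] at e
        exact e ▸ h, fun h => ⟨_, ht M v, rfl, h⟩⟩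

end UC

theorem UFn.ren {f : UFun b} (hf : UFn f) {g : ℕ → ℕ} (hg : Injective g) :
    UFn (fun M v => f M (fun i => v (g i))) := by
  obtain ⟨t, ht⟩ := hf.bd
  refine ⟨?_, t.ren g, fun M v => by rw [Tm.ev_ren]; exact ht M _⟩
  refine hf.gr.ren (g := cons 0 fun i => g i + 1) ?_
  intro i j h
  rcases i with _ | i <;> rcases j with _ | j <;> simp only [cons_zero, cons_succ] at h
  · rfl
  · omega
  · omega
  · rw [hg (Nat.succ_injective h)]

theorem UFn.tail {f : UFun b} (hf : UFn f) : UFn (fun M v => f M (fun i => v (i + 1))) :=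
  hf.ren (g := fun i => i + 1) (add_left_injective 1)

theorem UC.compN {c σ : Bool} (N : ℕ) : ∀ {P : UPred b} (g : ℕ → UFun b), UC c σ P →
    (∀ i, UFn (g i)) → UC c σ (fun M v => P M (fun i => if i < N then g i M v else v (i - N))) := by
  induction N with
  | zero => intro P g h _; simpa using h
  | succ N ih =>
    intro P g h hg
    have h1 := ih (fun i M v => g i M (fun j => v (j + 1))) h (fun i => (hg i).tail)
    refine (UC.sub1 (hg N) h1).congr fun M v => ?_
    refine iff_of_eq (congrArg _ (funext fun i => ?_))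
    rcases lt_trichotomy i N with h | h | h
    · simp [h, Nat.lt_succ_of_lt h]
    · simp [h]
    · have : i - N = (i - (N + 1)) + 1 := by omega
      rw [if_neg (by omega), if_neg (by omega), this, cons_succ]

/-- substitute definable functions for all variables -/
theorem UC.comp {c σ : Bool} {P : UPred b} (h : UC c σ P) (g : ℕ → UFun b) (hg : ∀ i, UFn (g i)) :
    UC c σ (fun M v => P M (fun i => g i M v)) := by
  obtain ⟨m, hm⟩ := h.support
  exact (UC.compN m g h hg).congr fun M v => hm M _ _ fun i hi => if_pos hi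

theorem UFn.ofTm (t : Tm) : UFn (fun (M : Mdl b) v => t.ev M.toStr v) :=
  ⟨(UC.eqT (.var 0) (t.ren (· + 1))).congr fun M v => by rw [Tm.ev_ren]; rfl, t, fun _ _ => le_rfl⟩

instance UFn.var (i : ℕ) : UFn (fun (_ : Mdl b) v => v i) := UFn.ofTm (.var i)

def Tm.ssub (σ : ℕ → Tm) : Tm → Tm
  | var x => σ x
  | zero => zero
  | succ t => succ (t.ssub σ)
  | len t => len (t.ssub σ)
  | half t => half (t.ssub σ)
  | add s t => add (s.ssub σ) (t.ssub σ)
  | mul s t => mul (s.ssub σ) (t.ssub σ)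
  | smash s t => smash (s.ssub σ) (t.ssub σ)

theorem Tm.ev_ssub {S : Str} (σ : ℕ → Tm) (v : ℕ → S.α) (t : Tm) :
    (t.ssub σ).ev S v = t.ev S (fun i => (σ i).ev S v) := by
  induction t with
  | var y => rfl
  | zero => rfl
  | succ t ih | len t ih | half t ih => simp only [Tm.ssub, Tm.ev, ih]
  | add s t i1 i2 | mul s t i1 i2 | smash s t i1 i2 => simp only [Tm.ssub, Tm.ev, i1, i2]

theorem UFn.comp {f : UFun b} (hf : UFn f) (g : ℕ → UFun b) (hg : ∀ i, UFn (g i)) :
    UFn (fun M v => f M (fun i => g i M v)) := by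
  obtain ⟨t, ht⟩ := hf.bd
  choose s hs using fun i => (hg i).bd
  refine ⟨?_, t.ssub s, fun M v => ?_⟩
  · refine (hf.gr.comp (fun i => Nat.casesOn i (fun _ v => v 0)
      fun j M v => g j M (fun k => v (k + 1))) ?_).congr fun M v => Iff.rfl
    rintro (_ | j)
    · exact UFn.var 0
    · exact (hg j).tail
  · rw [Tm.ev_ssub]
    exact (ht M _).trans (t.ev_mono fun x _ => hs x M v)

theorem UFn.congr {f g : UFun b} (hf : UFn f) (e : ∀ M v, f M v = g M v) : UFn g := by
  rwa [← show f = g from funext fun M => funext (e M)]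

/-- the list of arguments as a family of functions -/
def args (l : List (UFun b)) (i : ℕ) : UFun b := l.getD i (fun _ v => v 0)

theorem args_UFn (l : List (UFun b)) (h : ∀ f ∈ l, UFn f) (i : ℕ) : UFn (args l i) := by
  unfold args
  rw [List.getD_eq_getElem?_getD]
  cases hi : l[i]? with
  | none => exact UFn.var 0
  | some f => exact h f (List.mem_of_getElem? hi)

section App
variable {c σ : Bool} {f g h k j : UFun b}
theorem UC.app1 {P : ∀ M : Mdl b, M → Prop} (hP : UC c σ fun M v => P M (v 0)) (hf : UFn f) :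
    UC c σ fun M v => P M (f M v) :=
  hP.comp (args [f]) (args_UFn _ (by simpa using hf))
theorem UC.app2 {P : ∀ M : Mdl b, M → M → Prop} (hP : UC c σ fun M v => P M (v 0) (v 1))
    (hf : UFn f) (hg : UFn g) : UC c σ fun M v => P M (f M v) (g M v) :=
  hP.comp (args [f, g]) (args_UFn _ (by simpa using ⟨hf, hg⟩))
theorem UC.app3 {P : ∀ M : Mdl b, M → M → M → Prop}
    (hP : UC c σ fun M v => P M (v 0) (v 1) (v 2)) (hf : UFn f) (hg : UFn g) (hh : UFn h) :
    UC c σ fun M v => P M (f M v) (g M v) (h M v) :=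
  hP.comp (args [f, g, h]) (args_UFn _ (by simpa using ⟨hf, hg, hh⟩))
theorem UC.app4 {P : ∀ M : Mdl b, M → M → M → M → Prop}
    (hP : UC c σ fun M v => P M (v 0) (v 1) (v 2) (v 3)) (hf : UFn f) (hg : UFn g) (hh : UFn h)
    (hk : UFn k) : UC c σ fun M v => P M (f M v) (g M v) (h M v) (k M v) :=
  hP.comp (args [f, g, h, k]) (args_UFn _ (by simpa using ⟨hf, hg, hh, hk⟩))
theorem UC.app5 {P : ∀ M : Mdl b, M → M → M → M → M → Prop}
    (hP : UC c σ fun M v => P M (v 0) (v 1) (v 2) (v 3) (v 4)) (hf : UFn f) (hg : UFn g)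
    (hh : UFn h) (hk : UFn k) (hj : UFn j) :
    UC c σ fun M v => P M (f M v) (g M v) (h M v) (k M v) (j M v) :=
  hP.comp (args [f, g, h, k, j]) (args_UFn _ (by simpa using ⟨hf, hg, hh, hk, hj⟩))
theorem UFn.app1 {F : ∀ M : Mdl b, M → M} (hF : UFn fun M v => F M (v 0)) (hf : UFn f) :
    UFn fun M v => F M (f M v) :=
  hF.comp (args [f]) (args_UFn _ (by simpa using hf))
theorem UFn.app2 {F : ∀ M : Mdl b, M → M → M} (hF : UFn fun M v => F M (v 0) (v 1))
    (hf : UFn f) (hg : UFn g) : UFn fun M v => F M (f M v) (g M v) :=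
  hF.comp (args [f, g]) (args_UFn _ (by simpa using ⟨hf, hg⟩))
theorem UFn.app3 {F : ∀ M : Mdl b, M → M → M → M} (hF : UFn fun M v => F M (v 0) (v 1) (v 2))
    (hf : UFn f) (hg : UFn g) (hh : UFn h) : UFn fun M v => F M (f M v) (g M v) (h M v) :=
  hF.comp (args [f, g, h]) (args_UFn _ (by simpa using ⟨hf, hg, hh⟩))
theorem UFn.app4 {F : ∀ M : Mdl b, M → M → M → M → M}
    (hF : UFn fun M v => F M (v 0) (v 1) (v 2) (v 3)) (hf : UFn f) (hg : UFn g) (hh : UFn h)
    (hk : UFn k) : UFn fun M v => F M (f M v) (g M v) (h M v) (k M v) :=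
  hF.comp (args [f, g, h, k]) (args_UFn _ (by simpa using ⟨hf, hg, hh, hk⟩))
end App

section Inst
variable {P Q : UPred b} {f g : UFun b} {B : ∀ M : Mdl b, (ℕ → M) → M → Prop}

instance UFn.zero : UFn (fun (M : Mdl b) _ => (0 : M)) := UFn.ofTm .zero
instance UFn.one : UFn (fun (M : Mdl b) _ => (1 : M)) := UFn.ofTm .one
instance UFn.nat (n : ℕ) : UFn (fun (M : Mdl b) _ => (n : M)) :=
  (UFn.ofTm (.num n)).congr fun _ v => Tm.ev_num v n
instance UFn.ofNat (n : ℕ) [n.AtLeastTwo] : UFn (fun (M : Mdl b) _ => (OfNat.ofNat n : M)) :=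
  UFn.nat n
instance UFn.add [hf : UFn f] [hg : UFn g] : UFn (fun M v => f M v + g M v) :=
  UFn.app2 (F := fun _ x y => x + y) (UFn.ofTm (.add (.var 0) (.var 1))) hf hg
instance UFn.mul [hf : UFn f] [hg : UFn g] : UFn (fun M v => f M v * g M v) :=
  UFn.app2 (F := fun _ x y => x * y) (UFn.ofTm (.mul (.var 0) (.var 1))) hf hg
instance UFn.smash [hf : UFn f] [hg : UFn g] : UFn (fun M v => smash (f M v) (g M v)) :=
  UFn.app2 (F := fun _ x y => MP_f18a41_lc.smash x y) (UFn.ofTm (.smash (.var 0) (.var 1))) hf hg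
instance UFn.len [hf : UFn f] : UFn (fun M v => len (f M v)) :=
  UFn.app1 (F := fun _ x => MP_f18a41_lc.len x) (UFn.ofTm (.len (.var 0))) hf
instance UFn.half [hf : UFn f] : UFn (fun M v => half (f M v)) :=
  UFn.app1 (F := fun _ x => MP_f18a41_lc.half x) (UFn.ofTm (.half (.var 0))) hf
instance UFn.pw [hf : UFn f] : UFn (fun M v => pw (f M v)) :=
  UFn.app1 (F := fun _ x => MP_f18a41_lc.pw x) (UFn.ofTm (.smash .one (.var 0))) hf

theorem UC.eq {c σ : Bool} (hf : UFn f) (hg : UFn g) : UC c σ (fun M v => f M v = g M v) :=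
  UC.app2 (P := fun _ x y => x = y) (UC.eqT (.var 0) (.var 1)) hf hg
theorem UC.le {c σ : Bool} (hf : UFn f) (hg : UFn g) : UC c σ (fun M v => f M v ≤ g M v) :=
  UC.app2 (P := fun _ x y => x ≤ y) (UC.leT (.var 0) (.var 1)) hf hg
theorem UC.lt {c σ : Bool} (hf : UFn f) (hg : UFn g) : UC c σ (fun M v => f M v < g M v) :=
  (UC.not (UC.le hg hf)).congr fun _ _ => not_le
theorem UC.bex {c : Bool} (hf : UFn f) (h : UC c true fun M v => B M (fun i => v (i + 1)) (v 0)) :
    UC c true (fun M v => ∃ x ≤ f M v, B M v x) := by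
  obtain ⟨t, ht⟩ := hf.bd
  exact (UC.bexT t (UC.and (UC.le (UFn.var 0) hf.tail) h)).congr fun M v =>
    ⟨fun ⟨x, _, h1, h2⟩ => ⟨x, h1, h2⟩, fun ⟨x, h1, h2⟩ => ⟨x, h1.trans (ht M v), h1, h2⟩⟩
theorem UC.ball {c : Bool} (hf : UFn f)
    (h : UC c false fun M v => B M (fun i => v (i + 1)) (v 0)) :
    UC c false (fun M v => ∀ x ≤ f M v, B M v x) :=
  (UC.not (σ := false) (UC.bex (B := fun M v x => ¬ B M v x) hf (UC.not (σ := true) h))).congr
    fun M v => by simp
theorem UC.sall {c : Bool} (hf : UFn f)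
    (h : UC c true fun M v => B M (fun i => v (i + 1)) (v 0)) :
    UC c true (fun M v => ∀ x ≤ len (f M v), B M v x) := by
  obtain ⟨t, ht⟩ := hf.bd
  exact (UC.sharpT t (UC.imp (UC.le (UFn.var 0) (@UFn.len _ _ hf.tail)) h)).congr fun M v =>
    ⟨fun h x hx => h x (hx.trans (len_mono (ht M v))) hx, fun h x _ hx => h x hx⟩
theorem UC.sex {c : Bool} (hf : UFn f)
    (h : UC c false fun M v => B M (fun i => v (i + 1)) (v 0)) :
    UC c false (fun M v => ∃ x ≤ len (f M v), B M v x) :=
  (UC.not (σ := false) (UC.sall (B := fun M v x => ¬ B M v x) hf (UC.not (σ := true) h))).congr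
    fun M v => by simp
theorem UC.listEx {c σ : Bool} {ι : Type} (l : List ι) {R : ι → UPred b}
    (h : ∀ r, UC c σ (R r)) : UC c σ (fun M v => ∃ r ∈ l, R r M v) := by
  induction l with
  | nil => exact UC.bot.congr fun _ _ => by simp
  | cons a l ih => exact ((h a).or ih).congr fun _ _ => by simp
theorem UC.listAll {c σ : Bool} {ι : Type} (l : List ι) {R : ι → UPred b}
    (h : ∀ r, UC c σ (R r)) : UC c σ (fun M v => ∀ r ∈ l, R r M v) := by
  induction l with
  | nil => exact (UC.not UC.bot).congr fun _ _ => by simp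
  | cons a l ih => exact ((h a).and ih).congr fun _ _ => by simp
theorem UC.const {c σ : Bool} (p : Prop) : UC c σ (fun (_ : Mdl b) _ => p) := by
  by_cases h : p
  · exact (UC.not UC.bot).congr fun _ _ => by simp [h]
  · exact UC.bot.congr fun _ _ => by simp [h]
theorem UC.finEx {c σ : Bool} {ι : Type} [Finite ι] {R : ι → UPred b}
    (h : ∀ r, UC c σ (R r)) : UC c σ (fun M v => ∃ r, R r M v) := by
  have := Fintype.ofFinite ι
  exact (UC.listEx (Finset.univ : Finset ι).toList h).congr fun _ _ => by simp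
theorem UC.finAll {c σ : Bool} {ι : Type} [Finite ι] {R : ι → UPred b}
    (h : ∀ r, UC c σ (R r)) : UC c σ (fun M v => ∀ r, R r M v) := by
  have := Fintype.ofFinite ι
  exact (UC.listAll (Finset.univ : Finset ι).toList h).congr fun _ _ => by simp

instance (priority := 50) USig.const (p : Prop) : USig (fun (_ : Mdl b) _ => p) := ⟨UC.const p⟩
instance (priority := 50) UPi.const (p : Prop) : UPi (fun (_ : Mdl b) _ => p) := ⟨UC.const p⟩
instance USig.eq [hf : UFn f] [hg : UFn g] : USig (fun M v => f M v = g M v) := ⟨UC.eq hf hg⟩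
instance UPi.eq [hf : UFn f] [hg : UFn g] : UPi (fun M v => f M v = g M v) := ⟨UC.eq hf hg⟩
instance USig.le [hf : UFn f] [hg : UFn g] : USig (fun M v => f M v ≤ g M v) := ⟨UC.le hf hg⟩
instance UPi.le [hf : UFn f] [hg : UFn g] : UPi (fun M v => f M v ≤ g M v) := ⟨UC.le hf hg⟩
instance USig.lt [hf : UFn f] [hg : UFn g] : USig (fun M v => f M v < g M v) := ⟨UC.lt hf hg⟩
instance UPi.lt [hf : UFn f] [hg : UFn g] : UPi (fun M v => f M v < g M v) := ⟨UC.lt hf hg⟩
instance USig.not [h : UPi P] : USig (fun M v => ¬ P M v) := ⟨UC.not h.out⟩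
instance UPi.not [h : USig P] : UPi (fun M v => ¬ P M v) := ⟨UC.not h.out⟩
instance USig.and [h : USig P] [h' : USig Q] : USig (fun M v => P M v ∧ Q M v) :=
  ⟨h.out.and h'.out⟩
instance UPi.and [h : UPi P] [h' : UPi Q] : UPi (fun M v => P M v ∧ Q M v) := ⟨h.out.and h'.out⟩
instance USig.or [h : USig P] [h' : USig Q] : USig (fun M v => P M v ∨ Q M v) := ⟨h.out.or h'.out⟩
instance UPi.or [h : UPi P] [h' : UPi Q] : UPi (fun M v => P M v ∨ Q M v) := ⟨h.out.or h'.out⟩
instance USig.imp [h : UPi P] [h' : USig Q] : USig (fun M v => P M v → Q M v) :=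
  ⟨UC.imp h.out h'.out⟩
instance UPi.imp [h : USig P] [h' : UPi Q] : UPi (fun M v => P M v → Q M v) :=
  ⟨UC.imp h.out h'.out⟩
instance USig.iff [USig P] [UPi P] [USig Q] [UPi Q] : USig (fun M v => P M v ↔ Q M v) :=
  ⟨(inferInstance : USig fun M v => (P M v → Q M v) ∧ (Q M v → P M v)).out.congr
    fun _ _ => iff_iff_implies_and_implies.symm⟩
instance UPi.iff [USig P] [UPi P] [USig Q] [UPi Q] : UPi (fun M v => P M v ↔ Q M v) :=
  ⟨(inferInstance : UPi fun M v => (P M v → Q M v) ∧ (Q M v → P M v)).out.congr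
    fun _ _ => iff_iff_implies_and_implies.symm⟩
instance USig.bex [hf : UFn f] [h : USig fun M v => B M (fun i => v (i + 1)) (v 0)] :
    USig (fun M v => ∃ x ≤ f M v, B M v x) := ⟨UC.bex hf h.out⟩
instance UPi.ball [hf : UFn f] [h : UPi fun M v => B M (fun i => v (i + 1)) (v 0)] :
    UPi (fun M v => ∀ x ≤ f M v, B M v x) := ⟨UC.ball hf h.out⟩
instance USig.sall [hf : UFn f] [h : USig fun M v => B M (fun i => v (i + 1)) (v 0)] :
    USig (fun M v => ∀ x ≤ len (f M v), B M v x) := ⟨UC.sall hf h.out⟩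
instance UPi.sex [hf : UFn f] [h : UPi fun M v => B M (fun i => v (i + 1)) (v 0)] :
    UPi (fun M v => ∃ x ≤ len (f M v), B M v x) := ⟨UC.sex hf h.out⟩
instance USig.bex' [hf : UFn f] [h : USig fun M v => B M (fun i => v (i + 1)) (v 0)] :
    USig (fun M v => ∃ x < f M v, B M v x) :=
  ⟨(UC.bex (B := fun M v x => x < f M v ∧ B M v x) hf
    ((UC.lt (UFn.var 0) hf.tail).and h.out)).congr fun _ _ =>
    ⟨fun ⟨x, _, h⟩ => ⟨x, h⟩, fun ⟨x, h⟩ => ⟨x, h.1.le, h⟩⟩⟩
instance UPi.ball' [hf : UFn f] [h : UPi fun M v => B M (fun i => v (i + 1)) (v 0)] :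
    UPi (fun M v => ∀ x < f M v, B M v x) :=
  ⟨(UC.ball (B := fun M v x => x < f M v → B M v x) hf
    (UC.imp (UC.lt (UFn.var 0) hf.tail) h.out)).congr fun _ _ =>
    ⟨fun h x hx => h x hx.le hx, fun h x _ hx => h x hx⟩⟩
instance USig.sall' [hf : UFn f] [h : USig fun M v => B M (fun i => v (i + 1)) (v 0)] :
    USig (fun M v => ∀ x < len (f M v), B M v x) :=
  ⟨(UC.sall (B := fun M v x => x < len (f M v) → B M v x) hf
    (UC.imp (UC.lt (UFn.var 0) (@UFn.len _ _ hf.tail)) h.out)).congr fun _ _ =>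
    ⟨fun h x hx => h x hx.le hx, fun h x _ hx => h x hx⟩⟩
instance UPi.sex' [hf : UFn f] [h : UPi fun M v => B M (fun i => v (i + 1)) (v 0)] :
    UPi (fun M v => ∃ x < len (f M v), B M v x) :=
  ⟨(UC.sex (B := fun M v x => x < len (f M v) ∧ B M v x) hf
    ((UC.lt (UFn.var 0) (@UFn.len _ _ hf.tail)).and h.out)).congr fun _ _ =>
    ⟨fun ⟨x, _, h⟩ => ⟨x, h⟩, fun ⟨x, h⟩ => ⟨x, h.1.le, h⟩⟩⟩
instance USig.listEx {ι : Type} (l : List ι) {R : ι → UPred b} [h : ∀ r, USig (R r)] :
    USig (fun M v => ∃ r ∈ l, R r M v) := ⟨UC.listEx l fun r => (h r).out⟩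
instance USig.listAll {ι : Type} (l : List ι) {R : ι → UPred b} [h : ∀ r, USig (R r)] :
    USig (fun M v => ∀ r ∈ l, R r M v) := ⟨UC.listAll l fun r => (h r).out⟩
instance UPi.listEx {ι : Type} (l : List ι) {R : ι → UPred b} [h : ∀ r, UPi (R r)] :
    UPi (fun M v => ∃ r ∈ l, R r M v) := ⟨UC.listEx l fun r => (h r).out⟩
instance UPi.listAll {ι : Type} (l : List ι) {R : ι → UPred b} [h : ∀ r, UPi (R r)] :
    UPi (fun M v => ∀ r ∈ l, R r M v) := ⟨UC.listAll l fun r => (h r).out⟩
instance (priority := 100) USig.finEx {ι : Type} [Finite ι] {R : ι → UPred b}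
    [h : ∀ r, USig (R r)] : USig (fun M v => ∃ r, R r M v) := ⟨UC.finEx fun r => (h r).out⟩
instance (priority := 100) USig.finAll {ι : Type} [Finite ι] {R : ι → UPred b}
    [h : ∀ r, USig (R r)] : USig (fun M v => ∀ r, R r M v) := ⟨UC.finAll fun r => (h r).out⟩
instance (priority := 100) UPi.finEx {ι : Type} [Finite ι] {R : ι → UPred b}
    [h : ∀ r, UPi (R r)] : UPi (fun M v => ∃ r, R r M v) := ⟨UC.finEx fun r => (h r).out⟩
instance (priority := 100) UPi.finAll {ι : Type} [Finite ι] {R : ι → UPred b}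
    [h : ∀ r, UPi (R r)] : UPi (fun M v => ∀ r, R r M v) := ⟨UC.finAll fun r => (h r).out⟩

instance (priority := 100) UB.sig [h : USig P] : UB P := ⟨h.out.bdd _⟩
instance (priority := 90) UB.pi [h : UPi P] : UB P := ⟨h.out.bdd _⟩
instance UB.not [h : UB P] : UB (fun M v => ¬ P M v) := ⟨UC.not (h.out.bdd _)⟩
instance UB.and [h : UB P] [h' : UB Q] : UB (fun M v => P M v ∧ Q M v) := ⟨h.out.and h'.out⟩
instance UB.or [h : UB P] [h' : UB Q] : UB (fun M v => P M v ∨ Q M v) := ⟨h.out.or h'.out⟩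
instance UB.imp [h : UB P] [h' : UB Q] : UB (fun M v => P M v → Q M v) :=
  ⟨UC.imp (h.out.bdd _) h'.out⟩
instance UB.bex [hf : UFn f] [h : UB fun M v => B M (fun i => v (i + 1)) (v 0)] :
    UB (fun M v => ∃ x ≤ f M v, B M v x) := ⟨UC.bex hf h.out⟩
instance UB.ball [hf : UFn f] [h : UB fun M v => B M (fun i => v (i + 1)) (v 0)] :
    UB (fun M v => ∀ x ≤ f M v, B M v x) := ⟨(UC.ball hf (h.out.bdd _)).bdd _⟩
instance UB.ball' [hf : UFn f] [h : UB fun M v => B M (fun i => v (i + 1)) (v 0)] :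
    UB (fun M v => ∀ x < f M v, B M v x) :=
  ⟨((UC.ball (B := fun M v x => x < f M v → B M v x) hf
    (UC.imp (UC.lt (UFn.var 0) hf.tail) (h.out.bdd _))).bdd _).congr fun _ _ =>
    ⟨fun h x hx => h x hx.le hx, fun h x _ hx => h x hx⟩⟩
instance (priority := 95) UB.finEx {ι : Type} [Finite ι] {R : ι → UPred b}
    [h : ∀ r, UB (R r)] : UB (fun M v => ∃ r, R r M v) := ⟨UC.finEx fun r => (h r).out⟩
instance (priority := 95) UB.finAll {ι : Type} [Finite ι] {R : ι → UPred b}
    [h : ∀ r, UB (R r)] : UB (fun M v => ∀ r, R r M v) := ⟨UC.finAll fun r => (h r).out⟩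

/-- a function with a `Σ^b_1` graph and a definable bound -/
theorem UFn.of_graph (f : UFun b) (R : ∀ M : Mdl b, M → (ℕ → M) → Prop) (g : UFun b)
    [h : USig fun M v => R M (v 0) (fun i => v (i + 1))] [hg : UFn g]
    (h1 : ∀ M v y, R M y v ↔ y = f M v) (h2 : ∀ M v, f M v ≤ g M v) : UFn f := by
  obtain ⟨t, ht⟩ := hg.bd
  exact ⟨h.out.congr fun M v => h1 M _ _, t, fun M v => (h2 M v).trans (ht M v)⟩

instance UFn.ite [USig P] [UPi P] [hf : UFn f] [hg : UFn g] [∀ M v, Decidable (P M v)] :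
    UFn (fun M v => if P M v then f M v else g M v) := by
  have := hf.tail
  have := hg.tail
  have : USig fun M v => P M (fun i => v (i + 1)) := ⟨(USig.out (P := P)).tail⟩
  have : UPi fun M v => P M (fun i => v (i + 1)) := ⟨(UPi.out (P := P)).tail⟩
  refine UFn.of_graph _ (fun M y v => (P M v ∧ y = f M v) ∨ (¬ P M v ∧ y = g M v))
    (fun M v => f M v + g M v) (fun M v y => ?_) (fun M v => ?_)
  · by_cases h : P M v <;> simp [h]
  · by_cases h : P M v <;> simp [h]

instance UFn.max [UFn f] [UFn g] : UFn (fun M v => max (f M v) (g M v)) :=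
  (inferInstance : UFn fun M v => if f M v ≤ g M v then g M v else f M v).congr
    fun _ _ => (max_def _ _).symm

end Inst

/-! ### Induction -/

section Ind
variable (Q : ∀ M : Mdl b, M → (ℕ → M) → Prop)

/-- polynomial induction for the induction class of the theory -/
theorem pind_cls (h : UC b true fun M v => Q M (v 0) (fun i => v (i + 1))) {M : Mdl b}
    (v : ℕ → M) (h0 : Q M 0 v) (hs : ∀ u, u ≠ 0 → Q M (half u) v → Q M u v) (u : M) : Q M u v := by
  obtain ⟨φ, h1, h2⟩ := h
  have key : ∀ x : M, φ.ev M.toStr (update (cons 0 v) 0 x) ↔ Q M x v := fun x => by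
    rw [h2]; simp
  rw [← key]
  refine Boot.pind_raw h1 0 _ ((key _).2 h0) (fun u hu => ?_) u
  rw [key] at hu ⊢
  by_cases h : u = 0
  · rwa [h]
  · exact hs u h hu

/-- `Σ^b_1` polynomial induction -/
theorem pind_sig [h : USig fun M v => Q M (v 0) (fun i => v (i + 1))] {M : Mdl b} (v : ℕ → M)
    (h0 : Q M 0 v) (hs : ∀ u, u ≠ 0 → Q M (half u) v → Q M u v) (u : M) : Q M u v :=
  pind_cls Q h.out.mono v h0 hs u

/-- `Σ^b_1` length induction -/
theorem lind_sig [h : USig fun M v => Q M (v 0) (fun i => v (i + 1))] {M : Mdl b} (v : ℕ → M)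
    (c : M) (h0 : Q M 0 v) (hs : ∀ i < len c, Q M i v → Q M (i + 1) v) :
    ∀ i ≤ len c, Q M i v := by
  have h1 : USig fun M v => Q M (v 0) (fun i => v (i + 3)) :=
    ⟨h.out.ren (consInj 2)⟩
  have := pind_sig (fun M u v => ∀ i ≤ len u, i ≤ len (v 0) → Q M i (fun j => v (j + 1)))
    (cons c v) ?_ ?_ c
  · exact fun i hi => this i hi hi
  · intro i hi _
    rw [len_zero, nonpos_iff_eq_zero] at hi
    rwa [hi]
  · intro u hu ih i hi hc
    rw [len_half hu] at hi
    rcases hi.lt_or_eq with hi | rfl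
    · exact ih i (lt_succ_iff.1 hi) hc
    · exact hs _ (succ_le_iff.1 hc) (ih _ le_rfl (le_self_add.trans hc))

/-- `Π^b_1` length induction -/
theorem lind_pi [h : UPi fun M v => Q M (v 0) (fun i => v (i + 1))] {M : Mdl b} (v : ℕ → M)
    (c : M) (h0 : Q M 0 v) (hs : ∀ i < len c, Q M i v → Q M (i + 1) v) :
    ∀ i ≤ len c, Q M i v := by
  intro i hi
  by_contra hn
  have h1 : UPi fun M v => Q M (v 0) (fun i => v (i + 3)) :=
    ⟨h.out.ren (consInj 2)⟩
  have := lind_sig (fun M k v => k ≤ v 0 → ∃ j ≤ v 0, j + k = v 0 ∧ ¬ Q M j (fun j => v (j + 1)))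
    (cons i v) c (fun _ => ⟨i, le_rfl, add_zero i, hn⟩) ?_ i hi le_rfl
  · obtain ⟨j, _, h2, h3⟩ := this
    have : j = 0 := add_right_cancel (h2.trans (zero_add _).symm)
    exact h3 (this ▸ h0)
  · intro k _ ih hk
    obtain ⟨j, hj, h2, h3⟩ := ih (le_self_add.trans hk)
    simp only [cons_zero, cons_succ] at hk hj h2 h3 ⊢
    have hj0 : 1 ≤ j := one_le_iff.2 (by
      rintro rfl
      rw [← h2, zero_add, succ_le_iff] at hk
      exact lt_irrefl _ hk)
    obtain ⟨j', rfl⟩ := exists_add_of_le hj0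
    refine ⟨j', le_add_self.trans hj, by rw [← h2]; ring, fun hq => h3 ?_⟩
    rw [add_comm]
    refine hs j' ?_ hq
    rw [← succ_le_iff, add_comm]
    exact hj.trans hi

/-- least element of a `Σ^b_1` set of lengths -/
theorem lmin_sig [h : USig fun M v => Q M (v 0) (fun i => v (i + 1))] {M : Mdl b} (v : ℕ → M)
    {c i : M} (hi : i ≤ len c) (hq : Q M i v) : ∃ j ≤ i, Q M j v ∧ ∀ k < j, ¬ Q M k v := by
  by_contra hn
  push Not at hn
  have h1 : USig fun M v => Q M (v 0) (fun i => v (i + 3)) :=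
    ⟨h.out.ren (consInj 2)⟩
  have := lind_pi (fun M k v => ∀ j ≤ k, j ≤ v 0 → ¬ Q M j (fun j => v (j + 1)))
    (cons i v) c ?_ ?_ i hi i le_rfl le_rfl
  · exact this hq
  · intro j hj hji hqj
    obtain ⟨k, hk, _⟩ := hn j hji hqj
    exact absurd (hk.trans_le hj) (not_lt.2 (zero_le' k))
  · intro k _ ih j hj hji hqj
    obtain ⟨k', hk', hq'⟩ := hn j hji hqj
    exact ih k' (lt_succ_iff.1 (hk'.trans_le hj)) (hk'.le.trans hji) hq'

end Ind

end Pool.Agent.MP_f18a41_lc

end MrgPart2

-- ======== part 3: formerly Pool.Agent.MP_f18a41_lc.Arr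
section MrgPart3

/-! Division by powers of two, lengths, arrays. -/

namespace Pool.Agent.MP_f18a41_lc

open Function

variable {b : Bool} {M : Mdl b}

theorem div_unique {w u r u' r' : M} (h : u * w + r = u' * w + r') (hr : r < w) (hr' : r' < w) :
    u = u' ∧ r = r' := by
  have key : ∀ {u r u' r' : M}, u * w + r = u' * w + r' → r < w → ¬ u < u' := by
    intro u r u' r' h hr hlt
    have h1 : (u + 1) * w ≤ u' * w := by gcongr; exact succ_le_iff.2 hlt
    have := zr_nonneg r'
    zify at h hr h1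
    linarith
  have hu : u = u' := le_antisymm (not_lt.1 (key h.symm hr')) (not_lt.1 (key h hr))
  subst hu
  exact ⟨rfl, add_left_cancel h⟩

theorem exists_div_pw (x c : M) : ∃ u ≤ x, ∃ r ≤ x, r < pw c ∧ x = u * pw c + r := by
  refine pind_sig (fun M c v => ∃ u ≤ v 0, ∃ r ≤ v 0, r < pw c ∧ v 0 = u * pw c + r)
    (vec [x]) ⟨x, le_rfl, 0, zero_le' _, by simp, by simp [vec]⟩ ?_ c
  rintro c hc ⟨u, hu, r, -, h1, h2⟩
  change u ≤ x at hu
  change x = _ at h2
  show ∃ u ≤ x, ∃ r ≤ x, r < pw c ∧ x = u * pw c + r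
  rw [pw_half hc]
  have := zr_nonneg (pw (half c))
  rcases half_spec u with h | h
  · refine ⟨half u, (half_le u).trans hu, r, h2 ▸ le_add_self, ?_, ?_⟩
    · zify at h1 ⊢; linarith
    · rw [h2]; nth_rewrite 1 [h]; ring
  · have e : x = half u * (2 * pw (half c)) + (pw (half c) + r) := by
      rw [h2]; nth_rewrite 1 [h]; ring
    refine ⟨half u, (half_le u).trans hu, pw (half c) + r, e ▸ le_add_self, ?_, e⟩
    zify at h1 ⊢; linarith

/-- `x` without its last `|c|` bits -/
noncomputable def msp (x c : M) : M := (exists_div_pw x c).choose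
/-- the last `|c|` bits of `x` -/
noncomputable def lsp (x c : M) : M := (exists_div_pw x c).choose_spec.2.choose

theorem msp_le (x c : M) : msp x c ≤ x := (exists_div_pw x c).choose_spec.1
theorem lsp_le (x c : M) : lsp x c ≤ x := (exists_div_pw x c).choose_spec.2.choose_spec.1
theorem lsp_lt (x c : M) : lsp x c < pw c := (exists_div_pw x c).choose_spec.2.choose_spec.2.1
theorem msp_add_lsp (x c : M) : msp x c * pw c + lsp x c = x :=
  (exists_div_pw x c).choose_spec.2.choose_spec.2.2.symm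
theorem msp_lsp_eq {x c u r : M} (h : x = u * pw c + r) (hr : r < pw c) :
    msp x c = u ∧ lsp x c = r := div_unique ((msp_add_lsp x c).trans h) (lsp_lt x c) hr

instance fnMsp {f g : UFun b} [hf : UFn f] [hg : UFn g] : UFn fun M v => msp (f M v) (g M v) :=
  UFn.app2 (F := fun _ x c => msp x c)
    (UFn.of_graph _ (fun M y v => ∃ r ≤ v 0, r < pw (v 1) ∧ v 0 = y * pw (v 1) + r)
      (fun _ v => v 0)
      (fun _ v y => ⟨fun ⟨_, _, h1, h2⟩ => (msp_lsp_eq h2 h1).1.symm, fun h =>
        ⟨_, lsp_le _ _, lsp_lt _ _, by rw [h, msp_add_lsp]⟩⟩)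
      (fun _ _ => msp_le _ _)) hf hg

instance fnLsp {f g : UFun b} [hf : UFn f] [hg : UFn g] : UFn fun M v => lsp (f M v) (g M v) :=
  UFn.app2 (F := fun _ x c => lsp x c)
    (UFn.of_graph _ (fun M y v => y < pw (v 1) ∧ v 0 = msp (v 0) (v 1) * pw (v 1) + y)
      (fun _ v => v 0)
      (fun _ v y => ⟨fun ⟨h1, h2⟩ => (msp_lsp_eq h2 h1).2.symm, fun h =>
        ⟨h ▸ lsp_lt _ _, by rw [h, msp_add_lsp]⟩⟩)
      (fun _ _ => lsp_le _ _)) hf hg

/-! ### Lengths -/

theorem len_le (x : M) : len x ≤ x := by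
  refine pind_sig (fun M x _ => len x ≤ x) (vec []) (by simp) ?_ x
  intro u hu ih
  rw [len_half hu]
  by_cases h0 : half u = 0
  · rw [h0, len_zero, zero_add]; exact one_le_iff.2 hu
  · have h1 := one_le_iff.2 h0
    rcases half_spec u with h | h <;> zify at * <;> linarith

theorem len_mul_pw {x : M} (hx : x ≠ 0) (c : M) : len (x * pw c) = len x + len c := by
  refine pind_sig (fun M c v => len (v 0 * pw c) = len (v 0) + len c) (vec [x]) (by simp) ?_ c
  intro u hu ih
  change len (x * pw (half u)) = len x + len (half u) at ih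
  show len (x * pw u) = len x + len u
  rw [pw_half hu, mul_left_comm, len_two_mul (mul_ne_zero hx (pw_pos _).ne'), ih, len_half hu,
    add_assoc]

theorem pw_half_le {y : M} (hy : y ≠ 0) : pw (half y) ≤ y := by
  refine pind_sig (fun M y _ => y ≠ 0 → pw (half y) ≤ y) (vec []) (by simp) ?_ y hy
  intro u hu ih _
  by_cases h0 : half u = 0
  · rw [h0, pw_zero]; exact one_le_iff.2 hu
  · rw [pw_half h0]
    have := ih h0
    rcases half_spec u with h | h <;> zify at * <;> linarith

theorem lt_pw_iff {y a : M} : y < pw a ↔ len y ≤ len a := by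
  refine ⟨fun h => ?_, fun h => (lt_pw y).trans_le (pw_mono_len h)⟩
  by_contra hc
  rw [not_le] at hc
  have hy : y ≠ 0 := by rintro rfl; simp at hc
  rw [len_half hy, lt_succ_iff] at hc
  exact absurd ((pw_mono_len hc).trans (pw_half_le hy)) (not_le.2 h)

theorem lt_of_len_lt {x y : M} (h : len x < len y) : x < y :=
  lt_of_not_ge fun h' => absurd (len_mono h') (not_le.2 h)

theorem len_half_smash (a c : M) : len (half (smash a c)) = len a * len c :=
  add_right_cancel ((len_half (smash_ne_zero a c)).symm.trans (len_smash a c))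

theorem smash_eq_pw (a c : M) : smash a c = pw (half (smash a c)) := by
  refine pind_sig (fun M c v => smash (v 0) c = pw (half (smash (v 0) c))) (vec [a])
    (by simp) ?_ c
  intro u hu ih
  change smash a (half u) = pw (half (smash a (half u))) at ih
  show smash a u = pw (half (smash a u))
  rw [pw_add (u := half (smash a (half u))) (v := a)
    (by rw [len_half_smash, len_half_smash, len_half hu]; ring), ← ih, smash_comm a u,
    smash_add (u := half u) (v := 1) a (by rw [len_half hu, len_one]), smash_comm a]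
  rfl

theorem smash_eq_pw' {a c h : M} (e : len h = len a * len c) : smash a c = pw h := by
  rw [smash_eq_pw, pw_congr ((len_half_smash a c).trans e.symm)]

theorem lt_smash_iff {y a c : M} : y < smash a c ↔ len y ≤ len a * len c := by
  rw [smash_eq_pw, lt_pw_iff, len_half_smash]

theorem smash_add_right {x u v : M} (y : M) (h : len x = len u + len v) :
    smash y x = smash y u * smash y v := by
  rw [smash_comm y, smash_comm y, smash_comm y v, smash_add y h]

theorem smash_one (a : M) : smash a 1 = pw a := smash_comm a 1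

theorem smash_half {a c : M} (hc : c ≠ 0) : smash a c = smash a (half c) * pw a := by
  rw [smash_add_right (u := half c) (v := 1) a (by rw [len_half hc, len_one]), smash_one]

/-- a number whose length is the sum of two lengths -/
theorem len_cat (x y : M) : len (half (pw x * pw y)) = len x + len y := by
  have h : pw x * pw y ≠ 0 := mul_ne_zero (pw_pos x).ne' (pw_pos y).ne'
  have h1 := len_half h
  rw [len_mul_pw (pw_pos x).ne', len_pw] at h1
  zify at h1 ⊢; linarith

theorem len_mul_le (x y : M) : len (x * y) ≤ len x + len y := by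
  rw [← len_cat, ← lt_pw_iff, pw_add (len_cat x y)]
  exact mul_lt_mul'' (lt_pw x) (lt_pw y) (zero_le' _) (zero_le' _)

theorem len_add_le (x y : M) : len (x + y) ≤ max (len x) (len y) + 1 := by
  wlog h : x ≤ y generalizing x y
  · rw [add_comm x, max_comm]; exact this y x (not_le.1 h).le
  rw [max_eq_right (len_mono h), ← len_two_mul_add_one]
  refine len_mono ?_
  zify at h ⊢; linarith

theorem exists_len {i c : M} (h : i ≤ len c) : ∃ d ≤ c, len d = i := by
  refine pind_sig (fun M c v => v 0 ≤ len c → ∃ d ≤ c, len d = v 0) (vec [i]) ?_ ?_ c h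
  · intro h
    change i ≤ len 0 at h
    exact ⟨0, le_rfl, le_antisymm (by simp) h⟩
  · intro u hu ih h
    change i ≤ len u at h
    rcases h.lt_or_eq with h | h
    · rw [len_half hu, lt_succ_iff] at h
      obtain ⟨d, hd, e⟩ := ih h
      exact ⟨d, hd.trans (half_le u), e⟩
    · exact ⟨u, le_rfl, h.symm⟩

theorem cast_len (n : ℕ) : len (n : M) = (n.size : ℕ) := by
  induction n using Nat.binaryRec with
  | zero => simp
  | bit c n ih =>
    by_cases h : Nat.bit c n = 0
    · simp [h]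
    rw [Nat.size_bit h]
    cases c
    · have hn : n ≠ 0 := by rintro rfl; simp at h
      simp [Nat.bit, len_two_mul (Nat.cast_ne_zero.2 hn : (n : M) ≠ 0), ih]
    · simp [Nat.bit, len_two_mul_add_one, ih]

theorem cast_half (n : ℕ) : half (n : M) = (n / 2 : ℕ) := by
  symm
  rw [half_iff]
  rcases Nat.mod_two_eq_zero_or_one n with h | h
  · left; exact_mod_cast (by omega : 2 * (n / 2) = n)
  · right; exact_mod_cast (by omega : 2 * (n / 2) + 1 = n)

theorem cast_pw (n : ℕ) : pw (n : M) = (2 ^ n.size : ℕ) := by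
  induction n using Nat.binaryRec with
  | zero => simp
  | bit c n ih =>
    by_cases h : Nat.bit c n = 0
    · simp [h]
    rw [Nat.size_bit h, pw_half (Nat.cast_ne_zero.2 h), cast_half,
      show Nat.bit c n / 2 = n by cases c <;> simp [Nat.bit] <;> omega, ih]
    rw [Nat.succ_eq_add_one]; push_cast; ring

theorem le_natCast {x : M} {n : ℕ} (h : x ≤ n) : ∃ k ≤ n, x = (k : ℕ) := by
  induction n with
  | zero => exact ⟨0, le_rfl, by simpa using h⟩
  | succ n ih =>
    rcases h.lt_or_eq with h | h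
    · push_cast at h
      obtain ⟨k, hk, e⟩ := ih (lt_succ_iff.1 h)
      exact ⟨k, by omega, e⟩
    · exact ⟨n + 1, le_rfl, h⟩

/-! ### Arrays -/

/-- the meaning of `rowF` -/
def Row (s a i y : M) : Prop :=
  ∃ d ≤ s, ∃ u ≤ s, ∃ r ≤ s, len d = i ∧ s = (u * pw a + y) * smash a d + r ∧
    r < smash a d ∧ y < pw a

open Classical in
/-- row number `i` of the array `s` of width `|a|` -/
noncomputable def row (s a i : M) : M := if h : ∃ y, Row s a i y then h.choose else 0

theorem Row.unique {s a i y y' : M} (h : Row s a i y) (h' : Row s a i y') : y = y' := by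
  obtain ⟨d, _, u, _, r, _, h1, h2, h3, h4⟩ := h
  obtain ⟨d', _, u', _, r', _, h1', h2', h3', h4'⟩ := h'
  have e : smash a d' = smash a d := by
    rw [smash_comm a, smash_comm a, smash_congr a (h1'.trans h1.symm)]
  rw [e] at h2' h3'
  exact (div_unique (div_unique (h2.symm.trans h2') h3 h3').1 h4 h4').2

theorem Row.exists {s i : M} (a : M) (h : i ≤ len s) : ∃ y, Row s a i y := by
  obtain ⟨d, hd, e⟩ := exists_len h
  refine ⟨lsp (msp s (half (smash a d))) a, d, hd, msp (msp s (half (smash a d))) a,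
    (msp_le _ _).trans (msp_le _ _), lsp s (half (smash a d)), lsp_le _ _, e, ?_, ?_, lsp_lt _ _⟩
  · rw [msp_add_lsp]
    nth_rewrite 2 [smash_eq_pw a d]
    rw [msp_add_lsp]
  · nth_rewrite 2 [smash_eq_pw a d]
    exact lsp_lt _ _

theorem Row.le_len {s a i y : M} (h : Row s a i y) : i ≤ len s := by
  obtain ⟨d, hd, _, _, _, _, h1, _⟩ := h
  exact h1 ▸ len_mono hd

theorem row_iff {s a i y : M} : Row s a i y ↔ i ≤ len s ∧ row s a i = y := by
  constructor
  · intro h
    have h' : ∃ y, Row s a i y := ⟨y, h⟩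
    exact ⟨h.le_len, by rw [row, dif_pos h']; exact h'.choose_spec.unique h⟩
  · rintro ⟨h, rfl⟩
    have h' := Row.exists a h
    rw [row, dif_pos h']
    exact h'.choose_spec

theorem row_big {s i : M} (a : M) (h : len s < i) : row s a i = 0 :=
  dif_neg fun ⟨_, hy⟩ => absurd hy.le_len (not_le.2 h)

theorem le_len_of_row {s a i : M} (h : row s a i ≠ 0) : i ≤ len s :=
  not_lt.1 fun h' => h (row_big a h')

theorem row_lt (s a i : M) : row s a i < pw a := by
  rcases le_or_gt i (len s) with h | h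
  · obtain ⟨_, _, _, _, _, _, _, _, _, h4⟩ := row_iff.2 ⟨h, rfl⟩
    exact h4
  · rw [row_big a h]; exact pw_pos a

theorem row_le (s a i : M) : row s a i ≤ s := by
  rcases le_or_gt i (len s) with h | h
  · obtain ⟨d, _, u, _, r, _, _, h2, _, _⟩ := row_iff.2 ⟨h, (rfl : row s a i = _)⟩
    calc row s a i ≤ u * pw a + row s a i := le_add_self
      _ ≤ (u * pw a + row s a i) * smash a d :=
        le_mul_of_one_le_right (zero_le' _) (one_le_iff.2 (smash_ne_zero _ _))
      _ ≤ _ := le_self_add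
      _ = s := h2.symm
  · rw [row_big a h]; exact zero_le' _

theorem row_eq {s a i y d u r : M} (h1 : len d = i) (h2 : s = (u * pw a + y) * smash a d + r)
    (h3 : r < smash a d) (h4 : y < pw a) : row s a i = y := by
  rcases le_or_gt i (len s) with h | h
  · obtain ⟨d', _, u', _, r', _, h1', h2', h3', h4'⟩ := row_iff.2 ⟨h, (rfl : row s a i = _)⟩
    have e : smash a d' = smash a d := by
      rw [smash_comm a, smash_comm a, smash_congr a (h1'.trans h1.symm)]
    rw [e] at h2' h3'
    exact (div_unique (div_unique (h2'.symm.trans h2) h3' h3).1 h4' h4).2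
  · rw [row_big a h]
    by_contra hy
    have hy1 : 1 ≤ y := one_le_iff.2 (Ne.symm hy)
    have ha : 1 ≤ len a := by
      rw [one_le_iff, Ne, len_eq_zero]
      rintro rfl
      rw [pw_zero] at h4
      exact absurd hy1 (not_le.2 h4)
    have h5 : smash a d ≤ s := by
      rw [h2]
      exact (le_mul_of_one_le_left (zero_le' _) (hy1.trans le_add_self)).trans le_self_add
    have h6 := len_mono h5
    rw [len_smash, h1] at h6
    have h7 : i ≤ len a * i := le_mul_of_one_le_left (zero_le' _) ha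
    zify at h h6 h7
    linarith

theorem row_zero_of_lt {s a c i : M} (h : s < smash a c) (hi : len c ≤ i) : row s a i = 0 := by
  rcases le_or_gt i (len s) with h' | h'
  · obtain ⟨d, _, e⟩ := exists_len h'
    exact row_eq (u := 0) (r := s) e (by simp)
      (h.trans_le (smash_mono_len le_rfl (e ▸ hi))) (pw_pos a)
  · exact row_big a h'

@[simp] theorem row_zero (a i : M) : row 0 a i = 0 := le_antisymm (row_le _ _ _) (zero_le' _)

/-- put a new row on top of an array -/
theorem row_push {s a c y : M} (h : s < smash a c) (hy : y < pw a) :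
    row (y * smash a c + s) a (len c) = y ∧
      ∀ j < len c, row (y * smash a c + s) a j = row s a j := by
  refine ⟨row_eq (u := 0) rfl (by simp) h hy, fun j hj => ?_⟩
  obtain ⟨d, _, e⟩ := exists_len hj.le
  obtain ⟨d', _, e'⟩ := exists_len_add (w := 2 * d + 1) (c := c)
    (by rw [len_two_mul_add_one, e]; exact succ_le_iff.2 hj)
  have e1 : smash a c = smash a d' * pw a * smash a d := by
    rw [smash_add_right a e'.symm, smash_half (c := 2 * d + 1) (one_le_iff.1 le_add_self),
      half_two_mul_add_one]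
    ring
  have e2 := msp_add_lsp s (half (smash a d))
  have e3 := msp_add_lsp (msp s (half (smash a d))) a
  have e4 := lsp_lt s (half (smash a d))
  rw [← smash_eq_pw] at e2 e4
  rw [row_eq (s := s) e (by rw [e3, e2]) e4 (lsp_lt _ _)]
  refine row_eq (u := y * smash a d' + msp (msp s (half (smash a d))) a) e ?_ e4 (lsp_lt _ _)
  rw [e1]
  nth_rewrite 1 [← e2, ← e3]
  ring

instance sigRow {f g h k : UFun b} [hf : UFn f] [hg : UFn g] [hh : UFn h] [hk : UFn k] :
    USig fun M v => Row (f M v) (g M v) (h M v) (k M v) :=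
  ⟨UC.app4 (P := fun _ s a i y => Row s a i y)
    (by unfold Row; exact USig.out) hf hg hh hk⟩

instance fnRow {f g h : UFun b} [hf : UFn f] [hg : UFn g] [hh : UFn h] :
    UFn fun M v => row (f M v) (g M v) (h M v) :=
  UFn.app3 (F := fun _ s a i => row s a i)
    (UFn.of_graph _ (fun M y v => Row (v 0) (v 1) (v 2) y ∨ (len (v 0) < v 2 ∧ y = 0))
      (fun _ v => v 0)
      (fun _ v y => by
        rw [row_iff]
        rcases le_or_gt (v 2) (len (v 0)) with h | h
        · simp [h, eq_comm]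
        · simp [h, row_big _ h])
      (fun _ _ => row_le _ _ _)) hf hg hh

/-- comprehension for arrays -/
theorem arr_comp (Q : ∀ M : Mdl b, M → M → (ℕ → M) → Prop)
    [h : USig fun M v => Q M (v 0) (v 1) (fun i => v (i + 2))] {M : Mdl b} (v : ℕ → M) (a c : M)
    (hQ : ∀ i < len c, ∃ y < pw a, Q M i y v) :
    ∃ s < smash a c, ∀ i < len c, Q M i (row s a i) v := by
  have h1 : USig fun M v => Q M (v 0) (row (v 1) (v 3) (v 0)) (fun i => v (i + 5)) :=
    ⟨h.out.comp (cons (fun _ v => v 0) (cons (fun _ v => row (v 1) (v 3) (v 0))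
      fun i _ v => v (i + 5))) (by
        rintro (_ | _ | i) <;> simp only [cons_zero, cons_succ] <;> infer_instance)⟩
  refine pind_sig (fun M d v => len d ≤ len (v 1) → ∃ s < smash (v 0) d, ∀ i < len d,
    Q M i (row s (v 0) i) (fun j => v (j + 2))) (cons a (cons c v)) ?_ ?_ c le_rfl
  · exact fun _ => ⟨0, smash_pos _ _, fun i hi => by simp at hi⟩
  · intro d hd ih hl
    change len d ≤ len c at hl
    obtain ⟨s, hs, h2⟩ := ih ((len_mono (half_le d)).trans hl)
    change s < smash a (half d) at hs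
    change ∀ i < len (half d), Q M i (row s a i) v at h2
    show ∃ s < smash a d, ∀ i < len d, Q M i (row s a i) v
    rw [len_half hd] at hl ⊢
    obtain ⟨y, hy, hq⟩ := hQ _ (succ_le_iff.1 hl)
    obtain ⟨p1, p2⟩ := row_push hs hy
    refine ⟨y * smash a (half d) + s, ?_, fun i hi => ?_⟩
    · rw [smash_half hd]
      have h3 : (y + 1) * smash a (half d) ≤ pw a * smash a (half d) := by
        gcongr; exact succ_le_iff.2 hy
      zify at hs h3 ⊢
      linarith
    · rcases (lt_succ_iff.1 hi).lt_or_eq with hi | rfl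
      · rw [p2 i hi]; exact h2 i hi
      · rwa [p1]

/-- the array of values of a definable function -/
theorem arr_fn (f : ∀ M : Mdl b, M → (ℕ → M) → M)
    [h : UFn fun M v => f M (v 0) (fun i => v (i + 1))] {M : Mdl b} (v : ℕ → M) (a c : M)
    (hf : ∀ i < len c, len (f M i v) ≤ len a) :
    ∃ s < smash a c, ∀ i < len c, row s a i = f M i v := by
  have h1 : UFn fun M v => f M (v 0) (fun i => v (i + 2)) :=
    h.ren (consInj 1)
  exact arr_comp (fun M i y v => y = f M i v) v a c fun i hi => ⟨_, lt_pw_iff.2 (hf i hi), rfl⟩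

attribute [irreducible] row msp lsp

end Pool.Agent.MP_f18a41_lc

end MrgPart3

-- marker of a merged file
example : 731051 + 342946 = 731051 + 342946 := rfl
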