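import Mathlib.Data.Set.Card
import Mathlib.Data.Finite.Sum
import Mathlib.Order.CompletePartialOrder
import Mathlib.SetTheory.ZFC.PSet
import Pool.Agent.MP_f18a41_lc.Defs

-- ======== part 0: formerly Pool.Agent.MP_f18a41_lc.DefsC
section MrgPart0

/-! The modal logic GL + Cl. -/

namespace Pool.Agent.MP_f18a41_lc

/-- Finite disjunction of modal formulas. -/
def MF.bigOr : List MF → MF
  | [] => .bot
  | F :: l => .imp (.imp F .bot) (MF.bigOr l)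

/-- GL extended by the scheme
`□(□A → □B₁ ∨ ⋯ ∨ □Bₙ) → □(□(□A → □B₁) ∨ ⋯ ∨ □(□A → □Bₙ))`. -/
inductive GLC : MF → Prop
  | gl {F : MF} : GLog F → GLC F
  | cl (A : MF) (l : List MF) :
      GLC (.imp (.box (.imp (.box A) (MF.bigOr (l.map .box))))
        (.box (MF.bigOr (l.map fun B => .box (.imp (.box A) (.box B))))))
  | mp {F G : MF} : GLC (.imp F G) → GLC F → GLC G
  | nec {F : MF} : GLC F → GLC (.box F)

end Pool.Agent.MP_f18a41_lc

end MrgPart0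

-- ======== part 1: formerly Pool.Agent.MP_f18a41_lc.Canon
section MrgPart1

/-! GL + Cl is complete for finite transitive irreflexive closed frames. -/

namespace Pool.Agent.MP_f18a41_lc.Canon

open MF

inductive Der (Γ : Set MF) : MF → Prop
  | thm {F : MF} : GLC F → Der Γ F
  | hyp {F : MF} : F ∈ Γ → Der Γ F
  | mp {F G : MF} : Der Γ (imp F G) → Der Γ F → Der Γ G

theorem Der.mono {Γ Δ : Set MF} {F : MF} (h : Der Γ F) (e : Γ ⊆ Δ) : Der Δ F := by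
  induction h with
  | thm h => exact .thm h
  | hyp h => exact .hyp (e h)
  | mp _ _ i1 i2 => exact .mp i1 i2

theorem Der.ded {Γ : Set MF} {F G : MF} (h : Der (insert F Γ) G) : Der Γ (imp F G) := by
  induction h with
  | thm h => exact .mp (.thm (.gl (.k _ _))) (.thm h)
  | @hyp G h =>
    rcases h with rfl | h
    · exact .mp (.mp (.thm (.gl (.s G (imp G G) G))) (.thm (.gl (.k _ _)))) (.thm (.gl (.k _ _)))
    · exact .mp (.thm (.gl (.k _ _))) (.hyp h)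
  | mp _ _ i1 i2 => exact .mp (.mp (.thm (.gl (.s _ _ _))) i1) i2

theorem Der.fin {Γ : Set MF} {F : MF} (h : Der Γ F) :
    ∃ l : List MF, (∀ G ∈ l, G ∈ Γ) ∧ Der {G | G ∈ l} F := by
  induction h with
  | thm h => exact ⟨[], by simp, .thm h⟩
  | @hyp F h => exact ⟨[F], by simpa, .hyp (by simp)⟩
  | mp _ _ i1 i2 =>
    obtain ⟨l, h1, h2⟩ := i1
    obtain ⟨l', h3, h4⟩ := i2
    exact ⟨l ++ l', fun G h => (List.mem_append.1 h).elim (h1 G) (h3 G),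
      .mp (h2.mono fun _ h => List.mem_append_left _ h)
        (h4.mono fun _ h => List.mem_append_right _ h)⟩

theorem Der.glc {F : MF} (h : Der ∅ F) : GLC F := by
  induction h with
  | thm h => exact h
  | hyp h => exact h.elim
  | mp _ _ i1 i2 => exact .mp i1 i2

/-- maximal consistent sets -/
def MCS (Γ : Set MF) : Prop := Maximal (fun Δ => ¬ Der Δ bot) Γ

theorem lindenbaum {Γ : Set MF} (h : ¬ Der Γ bot) : ∃ Δ, Γ ⊆ Δ ∧ MCS Δ := by
  refine zorn_subset_nonempty {Δ | ¬ Der Δ bot} (fun c hc hch hne => ⟨⋃₀ c, fun hd => ?_,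
    fun s hs => Set.subset_sUnion_of_mem hs⟩) Γ h
  obtain ⟨l, h1, h2⟩ := hd.fin
  suffices h3 : ∃ Δ ∈ c, ∀ G ∈ l, G ∈ Δ from
    let ⟨Δ, h4, h5⟩ := h3; hc h4 (h2.mono h5)
  clear h2
  induction l with
  | nil => exact hne.imp fun Δ h => ⟨h, by simp⟩
  | cons G l ih =>
    obtain ⟨Δ, h4, h5⟩ := ih fun G h => h1 G (List.mem_cons_of_mem _ h)
    obtain ⟨Δ', h6, h7⟩ := h1 G List.mem_cons_self
    rcases hch.total h4 h6 with e | e
    · exact ⟨Δ', h6, List.forall_mem_cons.2 ⟨h7, fun G h => e (h5 G h)⟩⟩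
    · exact ⟨Δ, h4, List.forall_mem_cons.2 ⟨e h7, h5⟩⟩

namespace MCS
variable {Γ : Set MF} (h : MCS Γ) {F G : MF}
include h

theorem neg_der (hF : F ∉ Γ) : Der Γ (imp F bot) := by
  by_contra hn
  exact hF (h.2 (fun hd => hn hd.ded) (Set.subset_insert F Γ) (Set.mem_insert F Γ))
theorem closed (hF : Der Γ F) : F ∈ Γ := by_contra fun hn => h.1 ((h.neg_der hn).mp hF)
theorem thm (hF : GLC F) : F ∈ Γ := h.closed (.thm hF)
theorem mp (h1 : imp F G ∈ Γ) (h2 : F ∈ Γ) : G ∈ Γ := h.closed (.mp (.hyp h1) (.hyp h2))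
theorem bot : bot ∉ Γ := fun hb => h.1 (.hyp hb)
theorem imp_iff : imp F G ∈ Γ ↔ (F ∈ Γ → G ∈ Γ) := by
  refine ⟨h.mp, fun e => ?_⟩
  by_cases hF : F ∈ Γ
  · exact h.mp (h.thm (.gl (.k _ _))) (e hF)
  · refine h.closed (Der.ded (.mp (.thm (.gl (.dn G))) (.mp (.thm (.gl (.k _ _))) ?_)))
    exact .mp ((h.neg_der hF).mono (Set.subset_insert _ _)) (.hyp (Set.mem_insert _ _))
theorem neg_iff : imp F .bot ∈ Γ ↔ F ∉ Γ := h.imp_iff.trans (imp_congr_right fun _ => by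
  simpa using h.bot)
theorem bigOr_iff {l : List MF} : MF.bigOr l ∈ Γ ↔ ∃ F ∈ l, F ∈ Γ := by
  induction l with
  | nil => simpa [MF.bigOr] using h.bot
  | cons F l ih => rw [MF.bigOr, h.imp_iff, h.neg_iff, ih]; simp only [List.mem_cons, exists_eq_or_imp]; tauto
theorem box_der (hF : Der {G | box G ∈ Γ} F) : box F ∈ Γ := by
  induction hF with
  | thm hF => exact h.thm hF.nec
  | hyp hF => exact hF
  | mp _ _ i1 i2 => exact h.mp (h.mp (h.thm (.gl (.dist _ _))) i1) i2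

end MCS

theorem der_of_mcs {Γ : Set MF} {F : MF} (h : ∀ Δ, MCS Δ → Γ ⊆ Δ → F ∈ Δ) : Der Γ F := by
  by_contra hn
  obtain ⟨Δ, h1, h2⟩ := lindenbaum (Γ := insert (imp F bot) Γ)
    fun hd => hn (.mp (.thm (.gl (.dn F))) hd.ded)
  exact h2.neg_iff.1 (h1 (Set.mem_insert _ _)) (h Δ h2 ((Set.subset_insert _ _).trans h1))

/-- the canonical relation -/
def RC (Γ Δ : Set MF) : Prop := ∀ F, box F ∈ Γ → F ∈ Δ

theorem RC.box {Γ Δ : Set MF} (hΓ : MCS Γ) (h : RC Γ Δ) {F : MF} (hF : box F ∈ Γ) : box F ∈ Δ :=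
  h _ (hΓ.mp (hΓ.thm (.gl (.four F))) hF)

theorem RC.trans {Γ Δ Θ : Set MF} (hΓ : MCS Γ) (h : RC Γ Δ) (h' : RC Δ Θ) : RC Γ Θ :=
  fun F hF => h' F (h.box hΓ hF)

theorem exists_loeb {Γ : Set MF} (hΓ : MCS Γ) {F : MF} (h : box F ∉ Γ) :
    ∃ Δ, MCS Δ ∧ RC Γ Δ ∧ box F ∈ Δ ∧ F ∉ Δ := by
  by_contra hn
  refine h (hΓ.mp (hΓ.thm (.gl (.loeb F))) (hΓ.box_der (der_of_mcs fun Δ h1 h2 => ?_)))
  exact h1.imp_iff.2 fun h3 => by_contra fun h4 => hn ⟨Δ, h1, fun _ h => h2 h, h3, h4⟩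

theorem exists_join {Γ₀ Γ : Set MF} (h0 : MCS Γ₀) (h1 : MCS Γ) (h : RC Γ₀ Γ) {C : Set (Set MF)}
    (hC : ∀ c ∈ C, MCS c ∧ RC Γ c) :
    ∃ Δ, MCS Δ ∧ RC Γ₀ Δ ∧ ∀ B, box B ∈ Δ ↔ ∀ c ∈ C, box B ∈ c := by
  suffices hs : ¬ Der ({G | box G ∈ Γ₀} ∪ ({G | ∃ A, G = box A ∧ ∀ c ∈ C, G ∈ c} ∪
      {G | ∃ B, G = imp (box B) bot ∧ ∃ c ∈ C, box B ∉ c})) bot by
    obtain ⟨Δ, h2, h3⟩ := lindenbaum hs
    refine ⟨Δ, h3, fun G hG => h2 (Or.inl hG), fun B => ⟨fun hB c hc => by_contra fun hn => ?_,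
      fun hB => h2 (Or.inr (Or.inl ⟨B, rfl, hB⟩))⟩⟩
    exact h3.neg_iff.1 (h2 (Or.inr (Or.inr ⟨B, rfl, c, hc, hn⟩))) hB
  intro hd
  obtain ⟨l, h2, h3⟩ := hd.fin
  obtain ⟨A, lb, a1, a2, a3⟩ : ∃ A, ∃ lb : List MF, (∀ c ∈ C, box A ∈ c) ∧
      (∀ B ∈ lb, ∃ c ∈ C, box B ∉ c) ∧ ∀ Δ, MCS Δ → {G | box G ∈ Γ₀} ⊆ Δ → box A ∈ Δ →
        (∀ B ∈ lb, box B ∉ Δ) → ∀ G ∈ l, G ∈ Δ := by
    clear h3
    induction l with
    | nil => exact ⟨imp bot bot, [], fun c hc => (hC c hc).1.box_der (Der.ded (.hyp (Or.inl rfl))),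
        by simp, by simp⟩
    | cons G l ih =>
      obtain ⟨A, lb, a1, a2, a3⟩ := ih fun G h => h2 G (List.mem_cons_of_mem _ h)
      rcases h2 G List.mem_cons_self with e | ⟨A', rfl, e⟩ | ⟨B, rfl, e⟩
      · exact ⟨A, lb, a1, a2, fun Δ b1 b2 b3 b4 =>
          List.forall_mem_cons.2 ⟨b2 e, a3 Δ b1 b2 b3 b4⟩⟩
      · have key : ∀ Δ, MCS Δ → (box (imp (imp A (imp A' bot)) bot) ∈ Δ ↔
            box A ∈ Δ ∧ box A' ∈ Δ) := fun Δ hΔ => by
          have k : ∀ Θ, MCS Θ → (imp (imp A (imp A' bot)) bot ∈ Θ ↔ A ∈ Θ ∧ A' ∈ Θ) :=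
            fun Θ hΘ => by rw [hΘ.neg_iff, hΘ.imp_iff, hΘ.neg_iff]; tauto
          exact ⟨fun e => ⟨hΔ.box_der (der_of_mcs fun Θ hΘ s => ((k Θ hΘ).1 (s e)).1),
            hΔ.box_der (der_of_mcs fun Θ hΘ s => ((k Θ hΘ).1 (s e)).2)⟩,
            fun e => hΔ.box_der (der_of_mcs fun Θ hΘ s => (k Θ hΘ).2 ⟨s e.1, s e.2⟩)⟩
        exact ⟨_, lb, fun c hc => (key c (hC c hc).1).2 ⟨a1 c hc, e c hc⟩, a2,
          fun Δ b1 b2 b3 b4 => List.forall_mem_cons.2 ⟨((key Δ b1).1 b3).2,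
            a3 Δ b1 b2 ((key Δ b1).1 b3).1 b4⟩⟩
      · exact ⟨A, B :: lb, a1, List.forall_mem_cons.2 ⟨e, a2⟩, fun Δ b1 b2 b3 b4 =>
          List.forall_mem_cons.2 ⟨b1.neg_iff.2 (b4 B List.mem_cons_self),
            a3 Δ b1 b2 b3 fun B h => b4 B (List.mem_cons_of_mem _ h)⟩⟩
  have h4 : box (imp (box A) (MF.bigOr (lb.map box))) ∈ Γ₀ :=
    h0.box_der (der_of_mcs fun Δ b1 b2 => b1.imp_iff.2 fun b3 => by_contra fun b4 =>
      b1.1 (h3.mono (a3 Δ b1 b2 b3 fun B hB hb =>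
        b4 (b1.bigOr_iff.2 ⟨_, List.mem_map_of_mem hB, hb⟩))))
  obtain ⟨_, h5, h6⟩ := h1.bigOr_iff.1 (h _ (h0.mp (h0.thm (.cl A lb)) h4))
  obtain ⟨B, hB, rfl⟩ := List.mem_map.1 h5
  obtain ⟨c, hc, hn⟩ := a2 B hB
  exact hn ((hC c hc).1.mp ((hC c hc).2 _ h6) (a1 c hc))

/-- finite closed frames labelled by maximal consistent sets -/
structure GM (Φ : List MF) where
  W : Type
  fin : Finite W
  R : W → W → Prop
  L : W → Set MF
  tr : ∀ x y z, R x y → R y z → R x z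
  ir : ∀ x, ¬ R x x
  cl : Closed R
  mcs : ∀ x, MCS (L x)
  rc : ∀ x y, R x y → RC (L x) (L y)
  wit : ∀ x, ∀ F ∈ Φ, box F ∉ L x → ∃ y, R x y ∧ F ∉ L y

variable {Φ : List MF}

instance (G : GM Φ) : Finite G.W := G.fin

def GM.empty : GM Φ :=
  ⟨Empty, inferInstance, fun _ _ => False, fun x => x.elim, fun x => x.elim, fun x => x.elim,
    fun x => x.elim, fun x => x.elim, fun x => x.elim, fun x => x.elim⟩

def GM.sum (G H : GM Φ) : GM Φ where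
  W := G.W ⊕ H.W
  fin := inferInstance
  R := Sum.LiftRel G.R H.R
  L := Sum.elim G.L H.L
  tr := by
    rintro _ _ _ (h | h) h' <;> cases h'
    exacts [.inl (G.tr _ _ _ h ‹_›), .inr (H.tr _ _ _ h ‹_›)]
  ir := by
    rintro (x | x) h <;> cases h
    exacts [G.ir x ‹_›, H.ir x ‹_›]
  cl := by
    rintro _ _ (@⟨x₀, x, h⟩ | @⟨x₀, x, h⟩) F ⟨c, hc⟩ hF
    · obtain ⟨d, h1, h2⟩ := G.cl x₀ x h (Sum.inl ⁻¹' F)
        (by cases hF c hc; exact ⟨_, hc⟩) fun c hc => by cases hF _ hc; assumption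
      refine ⟨.inl d, .inl h1, fun z => ⟨fun h3 => ?_, fun ⟨c, hc, h3⟩ => ?_⟩⟩
      · cases h3
        obtain ⟨c, h4, h5⟩ := (h2 _).1 ‹_›
        exact ⟨_, h4, .inl h5⟩
      · cases hF c hc; cases h3
        exact .inl ((h2 _).2 ⟨_, hc, ‹_›⟩)
    · obtain ⟨d, h1, h2⟩ := H.cl x₀ x h (Sum.inr ⁻¹' F)
        (by cases hF c hc; exact ⟨_, hc⟩) fun c hc => by cases hF _ hc; assumption
      refine ⟨.inr d, .inr h1, fun z => ⟨fun h3 => ?_, fun ⟨c, hc, h3⟩ => ?_⟩⟩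
      · cases h3
        obtain ⟨c, h4, h5⟩ := (h2 _).1 ‹_›
        exact ⟨_, h4, .inr h5⟩
      · cases hF c hc; cases h3
        exact .inr ((h2 _).2 ⟨_, hc, ‹_›⟩)
  mcs := by rintro (x | x); exacts [G.mcs x, H.mcs x]
  rc := by rintro _ _ (h | h); exacts [G.rc _ _ h, H.rc _ _ h]
  wit := by
    rintro (x | x) F hF h
    · obtain ⟨y, h1, h2⟩ := G.wit x F hF h
      exact ⟨.inl y, .inl h1, h2⟩
    · obtain ⟨y, h1, h2⟩ := H.wit x F hF h
      exact ⟨.inr y, .inr h1, h2⟩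

/-- `U` is a union of successor sets that can be seen from a successor of `Γ` -/
def Real (G : GM Φ) (Γ : Set MF) (U : Set G.W) (Δ : Set MF) : Prop :=
  (∀ u ∈ U, ∃ c, G.R c u ∧ ∀ z, G.R c z → z ∈ U) ∧ MCS Δ ∧ RC Γ Δ ∧ (∀ u ∈ U, RC Δ (G.L u)) ∧
    ∀ F ∈ Φ, box F ∉ Δ → ∃ u ∈ U, F ∉ G.L u

/-- old points, new points for the unions, and the root -/
inductive Pt (G : GM Φ) (Γ : Set MF) : Type
  | old : G.W → Pt G Γ
  | new : {U : Set G.W // ∃ Δ, Real G Γ U Δ} → Pt G Γ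
  | root : Pt G Γ

def Pt.R {G : GM Φ} {Γ : Set MF} : Pt G Γ → Pt G Γ → Prop
  | old a, old c => G.R a c
  | new U, old c => c ∈ U.1
  | root, old _ => True
  | root, new _ => True
  | _, _ => False

noncomputable def Pt.L {G : GM Φ} {Γ : Set MF} : Pt G Γ → Set MF
  | old a => G.L a
  | new U => U.2.choose
  | root => Γ

instance (G : GM Φ) (Γ : Set MF) : Finite (Pt G Γ) :=
  Finite.of_surjective (fun x : Option (G.W ⊕ {U : Set G.W // ∃ Δ, Real G Γ U Δ}) =>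
    x.elim Pt.root (Sum.elim Pt.old Pt.new)) (by
      rintro (a | U | _)
      exacts [⟨some (.inl a), rfl⟩, ⟨some (.inr U), rfl⟩, ⟨none, rfl⟩])

noncomputable def GM.top (G : GM Φ) {Γ : Set MF} (hΓ : MCS Γ) (ha : ∀ x, RC Γ (G.L x))
    (hw : ∀ F ∈ Φ, box F ∉ Γ → ∃ x, F ∉ G.L x) : GM Φ := by
  have mcs : ∀ x : Pt G Γ, MCS x.L := by
    rintro (a | U | _)
    exacts [G.mcs a, U.2.choose_spec.2.1, hΓ]
  have rc : ∀ x y : Pt G Γ, x.R y → RC x.L y.L := by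
    rintro (a | U | _) (c | V | _) h <;> try exact False.elim h
    exacts [G.rc _ _ h, U.2.choose_spec.2.2.2.1 c h, ha c, V.2.choose_spec.2.2.1]
  have old : ∀ x₀ x c : Pt G Γ, x₀.R x → x.R c → ∃ c', c = .old c' := by
    rintro (_ | _ | _) (_ | _ | _) (c | _ | _) h h' <;>
      first | exact ⟨_, rfl⟩ | exact False.elim h | exact False.elim h'
  have lift : ∀ (F : Set (Pt G Γ)) (d : Pt G Γ), (∀ c ∈ F, ∃ c', c = .old c') → d ≠ .root →
      (∀ z, d.R (.old z) ↔ ∃ c ∈ Pt.old ⁻¹' F, G.R c z) → ∀ z, d.R z ↔ ∃ c ∈ F, c.R z := by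
    intro F d hF hd h z
    constructor
    · intro h1
      rcases d with d | d | _ <;> rcases z with z | z | _ <;>
        first | exact False.elim h1 | exact (hd rfl).elim | skip
      all_goals
        obtain ⟨c, h2, h3⟩ := (h z).1 h1
        exact ⟨_, h2, h3⟩
    · rintro ⟨c, h1, h2⟩
      obtain ⟨c, rfl⟩ := hF c h1
      rcases z with z | z | _ <;> try exact False.elim h2
      exact (h z).2 ⟨c, h1, h2⟩
  refine ⟨Pt G Γ, inferInstance, Pt.R, Pt.L, ?_, ?_, ?_, mcs, rc, ?_⟩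
  · rintro (a | U | _) (c | V | _) (f | Z | _) h h' <;>
      first | exact False.elim h | exact False.elim h' | trivial | skip
    · exact G.tr _ _ _ h h'
    · obtain ⟨d, h1, h2⟩ := U.2.choose_spec.1 c h
      exact h2 _ (G.tr _ _ _ h1 h')
  · rintro (a | U | _) h
    exacts [G.ir a h, h, h]
  · intro x₀ x h F ⟨c, hc⟩ hF
    have ho : ∀ c ∈ F, ∃ c', c = .old c' := fun c hc => old _ _ _ h (hF c hc)
    have hne : (Pt.old ⁻¹' F).Nonempty := by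
      obtain ⟨c, rfl⟩ := ho c hc
      exact ⟨c, hc⟩
    rcases x₀ with a | U | _
    · rcases x with x | _ | _ <;> try exact False.elim h
      obtain ⟨d, h1, h2⟩ := G.cl a x h _ hne fun c hc => hF _ hc
      exact ⟨.old d, h1, lift F _ ho nofun h2⟩
    · rcases x with x | _ | _ <;> try exact False.elim h
      obtain ⟨a, h3, h4⟩ := U.2.choose_spec.1 x h
      obtain ⟨d, h1, h2⟩ := G.cl a x h3 _ hne fun c hc => hF _ hc
      exact ⟨.old d, h4 d h1, lift F _ ho nofun h2⟩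
    · obtain ⟨Δ, h1, h2, h3⟩ := exists_join hΓ (mcs x) (rc _ _ h) (C := G.L '' (Pt.old ⁻¹' F))
        (by rintro _ ⟨c, hc, rfl⟩; exact ⟨G.mcs c, rc _ _ (hF _ hc)⟩)
      refine ⟨.new ⟨{z | ∃ c ∈ Pt.old ⁻¹' F, G.R c z}, Δ, ?_, h1, h2, ?_, ?_⟩, trivial,
        lift F _ ho nofun fun _ => Iff.rfl⟩
      · exact fun u ⟨c, h4, h5⟩ => ⟨c, h5, fun z hz => ⟨c, h4, hz⟩⟩
      · exact fun u ⟨c, h4, h5⟩ B hB => G.rc _ _ h5 B ((h3 B).1 hB _ ⟨c, h4, rfl⟩)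
      · intro B hB hn
        rw [h3] at hn
        push Not at hn
        obtain ⟨_, ⟨c, h4, rfl⟩, h5⟩ := hn
        obtain ⟨u, h6, h7⟩ := G.wit c B hB h5
        exact ⟨u, ⟨c, h4, h6⟩, h7⟩
  · rintro (a | U | _) F hF h
    · obtain ⟨y, h1, h2⟩ := G.wit a F hF h
      exact ⟨.old y, h1, h2⟩
    · obtain ⟨y, h1, h2⟩ := U.2.choose_spec.2.2.2.2 F hF h
      exact ⟨.old y, h1, h2⟩
    · obtain ⟨y, h2⟩ := hw F hF h
      exact ⟨.old y, trivial, h2⟩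

theorem exists_model (n : ℕ) : ∀ Γ, MCS Γ → {F | F ∈ Φ ∧ box F ∉ Γ}.ncard < n →
    ∃ (G : GM Φ) (r : G.W), G.L r = Γ ∧ ∀ x, x = r ∨ G.R r x := by
  induction n with
  | zero => exact fun _ _ h => absurd h (Nat.not_lt_zero _)
  | succ n ih =>
    intro Γ hΓ hn
    have key : ∀ l : List MF, ∃ G : GM Φ, (∀ x, RC Γ (G.L x)) ∧
        ∀ F ∈ l, F ∈ Φ → box F ∉ Γ → ∃ x, F ∉ G.L x := by
      intro l
      induction l with
      | nil => exact ⟨.empty, fun x => x.elim, by simp⟩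
      | cons F l ihl =>
        obtain ⟨G, h1, h2⟩ := ihl
        by_cases hF : F ∈ Φ ∧ box F ∉ Γ
        · obtain ⟨Δ, h3, h4, h5, h6⟩ := exists_loeb hΓ hF.2
          obtain ⟨H, r, h7, h8⟩ := ih Δ h3 (lt_of_lt_of_le (Set.ncard_lt_ncard
            (Set.ssubset_def ▸ And.intro (fun B hB => And.intro hB.1 fun h => hB.2 (h4.box hΓ h))
              fun h => (h hF).2 h5)
            ((List.finite_toSet Φ).subset fun _ h => h.1)) (Nat.lt_succ_iff.1 hn))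
          refine ⟨G.sum H, ?_, List.forall_mem_cons.2 ⟨fun _ _ => ⟨.inr r, ?_⟩, fun B b1 b2 b3 => ?_⟩⟩
          · rintro (x | x)
            · exact h1 x
            · rcases h8 x with rfl | h9
              · exact h7 ▸ h4
              · exact h4.trans hΓ (h7 ▸ H.rc _ _ h9)
          · exact h7 ▸ h6
          · obtain ⟨x, hx⟩ := h2 B b1 b2 b3
            exact ⟨.inl x, hx⟩
        · exact ⟨G, h1, List.forall_mem_cons.2 ⟨fun a b => (hF ⟨a, b⟩).elim, h2⟩⟩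
    obtain ⟨G, h1, h2⟩ := key Φ
    refine ⟨G.top hΓ h1 fun F hF => h2 F hF hF, Pt.root, rfl, ?_⟩
    rintro (a | U | _)
    exacts [Or.inr trivial, Or.inr trivial, Or.inl rfl]

/-- the formulas that occur under a box -/
def bx : MF → List MF
  | atom _ => []
  | bot => []
  | imp F G => bx F ++ bx G
  | box F => F :: bx F

theorem truth (G : GM Φ) (F : MF) : (∀ B ∈ bx F, B ∈ Φ) →
    ∀ x, Force G.R (fun n x => atom n ∈ G.L x) x F ↔ F ∈ G.L x := by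
  induction F with
  | atom n => exact fun _ _ => Iff.rfl
  | bot => exact fun _ x => ⟨False.elim, (G.mcs x).bot⟩
  | imp F H i1 i2 =>
    intro h x
    rw [(G.mcs x).imp_iff, Force, i1 fun B hB => h B (List.mem_append_left _ hB),
      i2 fun B hB => h B (List.mem_append_right _ hB)]
  | box F ih =>
    intro h x
    have ih := ih fun B hB => h B (List.mem_cons_of_mem _ hB)
    refine ⟨fun h1 => by_contra fun hn => ?_, fun h1 y hy => (ih y).2 (G.rc _ _ hy F h1)⟩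
    obtain ⟨y, h2, h3⟩ := G.wit x F (h F List.mem_cons_self) hn
    exact h3 ((ih y).1 (h1 y h2))

theorem complete (X : MF) (h : ∀ (W : Type) [Finite W] (R : W → W → Prop),
    (∀ x y z, R x y → R y z → R x z) → (∀ x, ¬ R x x) → Closed R → ∀ V w, Force R V w X) :
    GLC X := by
  refine Der.glc (der_of_mcs fun Γ hΓ _ => ?_)
  obtain ⟨G, r, rfl, -⟩ := exists_model (Φ := bx X) _ Γ hΓ (Nat.lt_succ_self _)
  exact (truth G X (fun _ h => h) r).1 (h G.W G.R G.tr G.ir G.cl _ r)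

end Pool.Agent.MP_f18a41_lc.Canon

end MrgPart1

-- marker of a merged file
example : 731051 + 791312 = 731051 + 791312 := rfl
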