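import Mathlib.Data.Set.BooleanAlgebra
import Mathlib.Order.CompletePartialOrder
import Pool.Agent.MP_f18a41_lc.Defs

/-! Frames with a system of chains. -/

namespace Pool.Agent.MP_f18a41_lc

/-- The chain `M` lies inside the union of the chain `L`, and every union of a member of `L` and a
member of `M` is the set of successors of a point of `A`. -/
def Near {W : Type} (R : W → W → Prop) (A : Set W) (L M : ℕ → Set W) : Prop :=
  (⋃ j, M j) ⊆ (⋃ i, L i) ∧ ∀ i j, ∃ d ∈ A, {z | R d z} = L i ∪ M j

/-- There is a family `G` of pairs (set of points, increasing chain of sets that starts with the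
empty set) such that: every successor `u` of `w` has a chain with union `R(u)` that is paired with
`R(w)`; and whenever `(A, L)` is in the family and `u` enters `L` at stage `j + 1`, the chain `L`
stopped at stage `j` is paired with `A` and is joined, by `Near` steps through chains paired with
`A`, to a chain with union `R(u)` that is paired with `L (j + 1)`. -/
def Chained {W : Type} (R : W → W → Prop) (w : W) : Prop :=
  ∃ G : Set W → (ℕ → Set W) → Prop,
    (∀ u, R w u → ∃ M, G {z | R w z} M ∧ ⋃ i, M i = {z | R u z}) ∧
    ∀ A L, G A L → L 0 = ∅ ∧ Monotone L ∧ ∀ j, ∀ u ∈ L (j + 1) \ L j,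
      G A (fun i => L (min i j)) ∧ ∃ L' M,
        Relation.ReflTransGen (fun X Y => G A Y ∧ Near R A X Y) (fun i => L (min i j)) L' ∧
        Near R A L' M ∧ G (L (j + 1)) M ∧ ⋃ i, M i = {z | R u z}

end Pool.Agent.MP_f18a41_lc
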