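import Mathlib.Algebra.Order.Ring.Star
import Pool.Agent.MP_f18a41_lc.Arr

-- ======== part 0: formerly Pool.Agent.MP_f18a41_lc.Pair
section MrgPart0

/-! Pairing, recursion on the binary expansion, codes of numerals. -/

namespace Pool.Agent.MP_f18a41_lc

open Function

variable {b : Bool} {M : Mdl b}

/-- the value of the pairing term -/
def pr (x y : M) : M :=
  ((x * pw y + y) * pw (len y) + len y) * (2 * pw (len y)) + pw (len y)

@[simp] theorem Tm.ev_pr (v : ℕ → M) (s t : Tm) :
    (s.pr t).ev M.toStr v = MP_f18a41_lc.pr (s.ev M.toStr v) (t.ev M.toStr v) := by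
  simp [Tm.pr, MP_f18a41_lc.pr, pw]

instance fnPr {f g : UFun b} [hf : UFn f] [hg : UFn g] : UFn fun M v => pr (f M v) (g M v) := by
  unfold pr; infer_instance

theorem cast_npr (x y : ℕ) : ((npr x y : ℕ) : M) = pr (x : M) y := by
  rw [pr, cast_len, cast_pw, cast_pw, npr]; push_cast; ring

theorem pr_ge (x y : M) : 2 * (x + y) + 1 ≤ pr x y := by
  have h1 : 1 ≤ pw y := one_le_iff.2 (pw_pos y).ne'
  have h2 : 1 ≤ pw (len y) := one_le_iff.2 (pw_pos _).ne'
  calc 2 * (x + y) + 1 = ((x * 1 + y) * 1 + 0) * (2 * 1) + 1 := by ring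
    _ ≤ _ := by unfold pr; gcongr; exact zero_le' _

theorem len_lt_pr_left (x y : M) : len x < len (pr x y) := by
  rw [← succ_le_iff, ← len_two_mul_add_one]
  refine len_mono (le_trans ?_ (pr_ge x y))
  gcongr; exact le_self_add

theorem len_lt_pr_right (x y : M) : len y < len (pr x y) := by
  rw [← succ_le_iff, ← len_two_mul_add_one]
  refine len_mono (le_trans ?_ (pr_ge x y))
  gcongr; exact le_add_self

theorem lt_pr_left (x y : M) : x < pr x y := lt_of_len_lt (len_lt_pr_left x y)
theorem lt_pr_right (x y : M) : y < pr x y := lt_of_len_lt (len_lt_pr_right x y)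
theorem le_pr_left (x y : M) : x ≤ pr x y := (lt_pr_left x y).le
theorem le_pr_right (x y : M) : y ≤ pr x y := (lt_pr_right x y).le
@[simp] theorem pr_ne_zero (x y : M) : pr x y ≠ 0 :=
  ((zero_le' x).trans_lt (lt_pr_left x y)).ne'
@[simp] theorem zero_ne_pr (x y : M) : 0 ≠ pr x y := (pr_ne_zero x y).symm

@[gcongr] theorem pr_mono {x y u w : M} (h : x ≤ u) (h' : y ≤ w) : pr x y ≤ pr u w := by
  unfold pr; gcongr

theorem len_cat_le {x y c : M} (h : y < pw c) : len (x * pw c + y) ≤ len x + len c := by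
  rw [← len_cat, ← lt_pw_iff, pw_add (len_cat x c)]
  have h1 : (x + 1) * pw c ≤ pw x * pw c := by gcongr; exact succ_le_iff.2 (lt_pw x)
  zify at h h1 ⊢
  linarith

theorem len_pr_le (x y : M) : len (pr x y) ≤ len x + len y + 2 * len (len y) + 1 := by
  have e : 2 * pw (len y) = pw (2 * len y + 1) := by
    rw [pw_half (x := 2 * len y + 1) (one_le_iff.1 le_add_self), half_two_mul_add_one]
  have h1 := len_cat_le (x := x) (lt_pw y)
  have h2 := len_cat_le (x := x * pw y + y) (lt_pw (len y))
  have h3 := len_cat_le (x := (x * pw y + y) * pw (len y) + len y) (y := pw (len y))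
    (c := 2 * len y + 1) (by
      rw [← e]
      have := pw_pos (len y)
      zify at this ⊢; linarith)
  rw [← e, len_two_mul_add_one] at h3
  unfold pr
  zify at h1 h2 h3 ⊢
  linarith

theorem exists_ones {p i : M} (h : i ≤ len p) : ∃ y ≤ 2 * p, len y = i ∧ y + 1 = pw y := by
  obtain ⟨d, hd, e⟩ := exists_len h
  obtain ⟨y, hy⟩ := exists_add_of_le (one_le_iff.2 (pw_pos d).ne')
  have h1 : y < pw d := by rw [hy, add_comm, lt_succ_iff]
  have h2 : d ≤ y := by rw [← lt_succ_iff, add_comm, ← hy]; exact lt_pw d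
  have h3 : len y = len d := le_antisymm (lt_pw_iff.1 h1) (len_mono h2)
  refine ⟨y, ?_, h3.trans e, by rw [pw_congr h3, hy, add_comm]⟩
  by_cases h0 : d = 0
  · rw [h0, pw_zero, ← zero_add 1, lt_succ_iff] at h1
    exact h1.trans (zero_le' _)
  · have := pw_half_le h0
    rw [pw_half h0] at h1
    zify at h1 this hd ⊢
    linarith

open Classical in
/-- `2 ^ i - 1` if `i ≤ |p|` -/
noncomputable def ones (p i : M) : M := if h : i ≤ len p then (exists_ones h).choose else 0

theorem len_ones {p i : M} (h : i ≤ len p) : len (ones p i) = i := by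
  rw [ones, dif_pos h]; exact (exists_ones h).choose_spec.2.1

theorem ones_succ (p i : M) : ones p i + 1 = pw (ones p i) := by
  unfold ones
  split_ifs with h
  · exact (exists_ones h).choose_spec.2.2
  · simp

theorem ones_le (p i : M) : ones p i ≤ 2 * p := by
  unfold ones
  split_ifs with h
  · exact (exists_ones h).choose_spec.1
  · exact zero_le' _

instance fnOnes {f g : UFun b} [hf : UFn f] [hg : UFn g] : UFn fun M v => ones (f M v) (g M v) :=
  UFn.app2 (F := fun _ p i => ones p i)
    (UFn.of_graph _ (fun M y v => (v 1 ≤ len (v 0) ∧ len y = v 1 ∧ y + 1 = pw y) ∨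
        (len (v 0) < v 1 ∧ y = 0)) (fun _ v => 2 * v 0)
      (fun _ v y => by
        rcases le_or_gt (v 1) (len (v 0)) with h | h
        · simp only [h, true_and, not_lt.2 h, false_and, or_false]
          refine ⟨fun ⟨h1, h2⟩ => ?_, fun e => e ▸ ⟨len_ones h, ones_succ _ _⟩⟩
          refine add_right_cancel (h2.trans ((ones_succ _ _).trans ?_).symm)
          exact pw_congr ((len_ones h).trans h1.symm)
        · simp [h, not_le.2 h, ones])
      (fun _ _ => ones_le _ _)) hf hg

theorem tz_unique {p d d' x x' : M} (h : p = (2 * x + 1) * pw d) (h' : p = (2 * x' + 1) * pw d') :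
    len d = len d' := by
  have key : ∀ {d d' x x' : M}, (2 * x + 1) * pw d = (2 * x' + 1) * pw d' → ¬ len d < len d' := by
    intro d d' x x' e hlt
    obtain ⟨c, _, hc⟩ := exists_len_add hlt.le
    have hc0 : c ≠ 0 := by
      rintro rfl
      rw [len_zero, zero_add] at hc
      exact hlt.ne hc
    rw [pw_add hc.symm, pw_half hc0, ← mul_assoc] at e
    have e1 := mul_right_cancel₀ (pw_pos d).ne' e
    have e2 : 2 * x + 1 = 2 * ((2 * x' + 1) * pw (half c)) := by rw [e1]; ring
    have e3 := congrArg half e2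
    rw [half_two_mul_add_one, half_two_mul] at e3
    rw [← e3] at e2
    simp at e2
  exact le_antisymm (not_lt.1 (key (h'.symm.trans h))) (not_lt.1 (key (h.symm.trans h')))

theorem exists_tz {p : M} (hp : p ≠ 0) :
    ∃ d ≤ 2 * p, d + 1 = pw d ∧ ∃ x ≤ p, p = (2 * x + 1) * pw d := by
  refine pind_sig (fun M p _ => p ≠ 0 → ∃ d ≤ 2 * p, d + 1 = pw d ∧ ∃ x ≤ p, p = (2 * x + 1) * pw d)
    (vec []) (by simp) ?_ p hp
  intro u hu ih _
  rcases half_spec u with h | h
  · obtain ⟨d, _, h1, x, hx, h2⟩ := ih (by rintro h0; rw [h0] at h; simp [hu] at h)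
    have e : pw (2 * d + 1) = 2 * pw d := by
      rw [pw_half (x := 2 * d + 1) (one_le_iff.1 le_add_self), half_two_mul_add_one]
    refine ⟨2 * d + 1, ?_, by rw [e, ← h1]; ring, x, hx.trans (half_le u), ?_⟩
    · have h3 : pw d ≤ half u := h2 ▸ le_mul_of_one_le_left (zero_le' _) le_add_self
      have := zr_nonneg (half u)
      zify at h h1 h3 ⊢
      linarith
    · rw [e, h, h2]; ring
  · exact ⟨0, zero_le' _, by simp, half u, half_le u, by simpa using h⟩

open Classical in
/-- `2 ^ k - 1`, where `k` is the number of trailing zeros -/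
noncomputable def tzd (p : M) : M := if h : p ≠ 0 then (exists_tz h).choose else 0

theorem tzd_eq {p d x : M} (h : p = (2 * x + 1) * pw d) : pw (tzd p) = pw d ∧
    tzd p + 1 = pw (tzd p) := by
  have hp : p ≠ 0 := h ▸ mul_ne_zero (one_le_iff.1 le_add_self) (pw_pos d).ne'
  obtain ⟨_, h1, x', _, h2⟩ := (exists_tz hp).choose_spec
  rw [tzd, dif_pos hp]
  exact ⟨pw_congr (tz_unique h2 h), h1⟩

instance fnTzd {f : UFun b} [hf : UFn f] : UFn fun M v => tzd (f M v) :=
  UFn.app1 (F := fun _ p => tzd p)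
    (UFn.of_graph _ (fun M y v => (y + 1 = pw y ∧ ∃ x ≤ v 0, v 0 = (2 * x + 1) * pw y) ∨
        (v 0 = 0 ∧ y = 0)) (fun _ v => 2 * v 0)
      (fun _ v y => by
        constructor
        · rintro (⟨h1, x, _, h2⟩ | ⟨h1, h2⟩)
          · obtain ⟨h3, h4⟩ := tzd_eq h2
            exact add_right_cancel (h1.trans (h4.trans h3).symm)
          · simp [tzd, h1, h2]
        · rintro rfl
          by_cases hp : v 0 = 0
          · simp [tzd, hp]
          · left
            rw [tzd, dif_pos hp]
            exact (exists_tz hp).choose_spec.2)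
      (fun _ v => by
        unfold tzd
        split_ifs with h
        · exact (exists_tz h).choose_spec.1
        · exact zero_le' _)) hf

/-- first component -/
noncomputable def fst (p : M) : M :=
  msp (msp (msp p (2 * tzd p + 1)) (tzd p)) (ones p (lsp (msp p (2 * tzd p + 1)) (tzd p)))
/-- second component -/
noncomputable def snd (p : M) : M :=
  lsp (msp (msp p (2 * tzd p + 1)) (tzd p)) (ones p (lsp (msp p (2 * tzd p + 1)) (tzd p)))

instance fnFst {f : UFun b} [hf : UFn f] : UFn fun M v => fst (f M v) :=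
  UFn.app1 (F := fun _ p => fst p) (by unfold fst; infer_instance) hf
instance fnSnd {f : UFun b} [hf : UFn f] : UFn fun M v => snd (f M v) :=
  UFn.app1 (F := fun _ p => snd p) (by unfold snd; infer_instance) hf

theorem fst_le (p : M) : fst p ≤ p := (msp_le _ _).trans ((msp_le _ _).trans (msp_le _ _))
theorem snd_le (p : M) : snd p ≤ p := (lsp_le _ _).trans ((msp_le _ _).trans (msp_le _ _))

theorem fst_snd_pr (x y : M) : fst (pr x y) = x ∧ snd (pr x y) = y := by
  obtain ⟨h1, -⟩ := tzd_eq (p := pr x y) (d := len y) (x := (x * pw y + y) * pw (len y) + len y)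
    (by unfold pr; ring)
  have e : pw (2 * tzd (pr x y) + 1) = 2 * pw (len y) := by
    rw [pw_half (one_le_iff.1 le_add_self), half_two_mul_add_one, h1]
  have h2 : msp (pr x y) (2 * tzd (pr x y) + 1) = (x * pw y + y) * pw (len y) + len y :=
    (msp_lsp_eq (r := pw (len y)) (by rw [e]; rfl) (by
      rw [e]
      have := pw_pos (len y)
      zify at this ⊢; linarith)).1
  obtain ⟨h3, h4⟩ := msp_lsp_eq (c := tzd (pr x y)) (u := x * pw y + y) (r := len y)
    (h2.trans (by rw [h1])) (h1 ▸ lt_pw _)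
  have h5 : pw (ones (pr x y) (len y)) = pw y := pw_congr (len_ones (len_lt_pr_right x y).le)
  unfold fst snd
  rw [h3, h4]
  exact msp_lsp_eq (by rw [h5]) (h5 ▸ lt_pw y)

@[simp] theorem fst_pr (x y : M) : fst (pr x y) = x := (fst_snd_pr x y).1
@[simp] theorem snd_pr (x y : M) : snd (pr x y) = y := (fst_snd_pr x y).2
@[simp] theorem pr_inj {x y u w : M} : pr x y = pr u w ↔ x = u ∧ y = w :=
  ⟨fun h => ⟨by simpa using congrArg fst h, by simpa using congrArg snd h⟩,
    fun ⟨h1, h2⟩ => by rw [h1, h2]⟩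

/-! ### Recursion on the binary expansion -/

/-- `f` adds only logarithmically many bits -/
def Tame (f : ∀ M : Mdl b, M → M → (ℕ → M) → M) : Prop :=
  ∃ c : ℕ, ∀ M x z v, len (f M x z v) ≤ len z + c * (len (len z) + 1)

theorem tame_id : Tame (fun (_ : Mdl b) _ z _ => z) := ⟨0, fun _ _ _ _ => le_self_add⟩

theorem Tame.pr_left {f : ∀ M : Mdl b, M → M → (ℕ → M) → M} (h : Tame f) (n : ℕ) :
    Tame fun M x z v => pr (f M x z v) n := by
  obtain ⟨c, hc⟩ := h
  refine ⟨c + (n.size + 2 * n.size.size + 1), fun M x z v => (len_pr_le _ _).trans ?_⟩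
  have h1 := hc M x z v
  rw [cast_len, cast_len]
  have := zr_nonneg (len (len z))
  have h2 : (0 : Zr M) ≤ (n.size : ℕ) := Nat.cast_nonneg _
  have h3 : (0 : Zr M) ≤ (n.size.size : ℕ) := Nat.cast_nonneg _
  zify at h1 ⊢
  nlinarith

theorem Tame.pr_right {f : ∀ M : Mdl b, M → M → (ℕ → M) → M} (h : Tame f) (n : ℕ) :
    Tame fun M x z v => pr (n : M) (f M x z v) := by
  obtain ⟨c, hc⟩ := h
  refine ⟨c + (n.size + 2 * (c + 2) + 1), fun M x z v => (len_pr_le _ _).trans ?_⟩
  have h1 := hc M x z v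
  have h4 : len (len (f M x z v)) ≤ len (len z) + (c + 2) := by
    refine (len_mono h1).trans ?_
    have h5 : len z + c * (len (len z) + 1) ≤ (len z + 1) * (c + 1) := by
      have := len_le (len z)
      have h2 : (0 : Zr M) ≤ (c : ℕ) := Nat.cast_nonneg _
      zify at this ⊢
      nlinarith
    refine (len_mono h5).trans ((len_mul_le _ _).trans ?_)
    have h6 : len (len z + 1) ≤ len (len z) + 1 := by
      rw [← len_two_mul_add_one (len z)]
      refine len_mono ?_
      have := zr_nonneg (len z)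
      zify; linarith
    have h7 := len_le ((c : M) + 1)
    zify at h6 h7 ⊢
    linarith
  rw [cast_len]
  have := zr_nonneg (len (len z))
  have h2 : (0 : Zr M) ≤ (n.size : ℕ) := Nat.cast_nonneg _
  have h3 : (0 : Zr M) ≤ (c : ℕ) := Nat.cast_nonneg _
  zify at h1 h4 ⊢
  nlinarith

theorem Tame.ite {f g : ∀ M : Mdl b, M → M → (ℕ → M) → M} (h : Tame f) (h' : Tame g)
    (P : ∀ M : Mdl b, M → M → (ℕ → M) → Prop) [∀ M x z v, Decidable (P M x z v)] :
    Tame fun M x z v => if P M x z v then f M x z v else g M x z v := by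
  obtain ⟨c, hc⟩ := h
  obtain ⟨c', hc'⟩ := h'
  refine ⟨c + c', fun M x z v => ?_⟩
  push_cast
  split_ifs
  · refine (hc M x z v).trans ?_
    gcongr; exact le_self_add
  · refine (hc' M x z v).trans ?_
    gcongr; exact le_add_self

/-- a width that is enough for `|x|` tame steps starting from `z` -/
def wid (c : ℕ) (z x : M) : M :=
  smash (smash ((2 ^ (c + 10) : ℕ) * pw z * pw x) ((2 ^ (c + 10) : ℕ) * pw z * pw x))
    (smash ((2 ^ (c + 10) : ℕ) * pw z * pw x) ((2 ^ (c + 10) : ℕ) * pw z * pw x))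

instance fnWid (c : ℕ) {f g : UFun b} [UFn f] [UFn g] : UFn fun M v => wid c (f M v) (g M v) := by
  unfold wid; infer_instance

theorem wid_spec (c : ℕ) (z x : M) : len x ≤ len (wid c z x) ∧
    len z + len x * (c * (len (len (wid c z x)) + 1)) ≤ len (wid c z x) := by
  have h0 : ((2 ^ (c + 10) : ℕ) : M) ≠ 0 := Nat.cast_ne_zero.2 (by positivity)
  obtain ⟨m, hm⟩ : ∃ m, m = len (((2 ^ (c + 10) : ℕ) : M) * pw z * pw x) := ⟨_, rfl⟩
  have h1 : m = c + 11 + len z + len x := by
    rw [hm, len_mul_pw (mul_ne_zero h0 (pw_pos z).ne'), len_mul_pw h0, cast_len, Nat.size_pow]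
    push_cast; ring
  have h2 : len (wid c z x) = (m * m + 1) * (m * m + 1) + 1 := by
    rw [wid, len_smash, len_smash, ← hm]
  have hz := zr_nonneg (len z)
  have hx := zr_nonneg (len x)
  have hc : (0 : Zr M) ≤ (c : ℕ) := Nat.cast_nonneg _
  have h3 : len (wid c z x) ≤ (m + 1) * (m + 1) * ((m + 1) * (m + 1)) := by
    rw [h2]
    have h11 : (11 : Zr M) ≤ m := by zify at h1; linarith
    zify
    nlinarith [mul_nonneg (zr_nonneg m) (zr_nonneg m), mul_nonneg (zr_nonneg m)
      (mul_nonneg (zr_nonneg m) (zr_nonneg m))]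
  have h4 : len (len (wid c z x)) ≤ 4 * (m + 1) := by
    have a1 := len_mono h3
    have a2 := len_mul_le ((m + 1) * (m + 1)) ((m + 1) * (m + 1))
    have a3 := len_mul_le (m + 1) (m + 1)
    have a4 := len_le (m + 1)
    zify at a1 a2 a3 a4 ⊢
    linarith
  have h5 : len z + len x * (c * (len (len (wid c z x)) + 1)) ≤ m + m * (m * (4 * (m + 1) + 1)) := by
    gcongr
    · rw [h1]; exact le_add_self.trans le_self_add
    · rw [h1]; exact le_add_self
    · rw [h1, add_assoc, add_assoc]; exact le_self_add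
  have h11 : 11 ≤ m := by rw [h1]; exact le_add_self.trans (le_self_add.trans le_self_add)
  have h6 : m + m * (m * (4 * (m + 1) + 1)) ≤ len (wid c z x) := by
    rw [h2]
    obtain ⟨k, rfl⟩ := exists_add_of_le h11
    refine le_of_le_of_eq (le_self_add (b := k * k * k * k + 40 * (k * k * k) + 591 * (k * k) +
      3805 * k + 8945)) (by ring)
  refine ⟨le_trans ?_ h6, h5.trans h6⟩
  rw [h1]; exact le_add_self.trans le_self_add

namespace Rec
variable (z₀ : UFun b) (f : ∀ M : Mdl b, M → M → (ℕ → M) → M)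

def Valid (M : Mdl b) (s t W c : M) (v : ℕ → M) : Prop :=
  row t W 0 = 0 ∧ row s W 0 = z₀ M v ∧ ∀ i < len c, row t W (i + 1) ≠ 0 ∧
    half (row t W (i + 1)) = row t W i ∧ row s W (i + 1) = f M (row t W (i + 1)) (row s W i) v

variable {z₀ f}

theorem cases_idx {c i : M} (h : i ≤ len c) : i = 0 ∨ ∃ j < len c, i = j + 1 := by
  by_cases h0 : i = 0
  · exact Or.inl h0
  · obtain ⟨j, rfl⟩ := exists_add_of_le (one_le_iff.2 h0)
    exact Or.inr ⟨j, by rwa [← succ_le_iff, add_comm], add_comm _ _⟩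

theorem uniq {s t W c s' t' W' c' : M} {v : ℕ → M} (h : Valid z₀ f M s t W c v)
    (h' : Valid z₀ f M s' t' W' c' v) (x : M) : ∀ i ≤ len c, row t W i = x → ∀ i' ≤ len c',
      row t' W' i' = x → row s W i = row s' W' i' := by
  refine pind_sig (fun M x v => ∀ i ≤ len (v 3), row (v 1) (v 2) i = x → ∀ i' ≤ len (v 7),
    row (v 5) (v 6) i' = x → row (v 0) (v 2) i = row (v 4) (v 6) i')
    (vec [s, t, W, c, s', t', W', c']) ?_ ?_ x
  · intro i hi e i' hi' e'
    change row t W i = 0 at e
    change row t' W' i' = 0 at e'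
    show row s W i = row s' W' i'
    rcases cases_idx hi with rfl | ⟨j, hj, rfl⟩
    · rcases cases_idx hi' with rfl | ⟨j, hj, rfl⟩
      · rw [h.2.1, h'.2.1]
      · exact absurd e' (h'.2.2 j hj).1
    · exact absurd e (h.2.2 j hj).1
  · intro u hu ih i hi e i' hi' e'
    change row t W i = u at e
    change row t' W' i' = u at e'
    show row s W i = row s' W' i'
    rcases cases_idx hi with rfl | ⟨j, hj, rfl⟩
    · exact absurd (e.symm.trans h.1) hu
    rcases cases_idx hi' with rfl | ⟨j', hj', rfl⟩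
    · exact absurd (e'.symm.trans h'.1) hu
    obtain ⟨-, a1, a2⟩ := h.2.2 j hj
    obtain ⟨-, b1, b2⟩ := h'.2.2 j' hj'
    have := ih j hj.le (by rw [← e]; exact a1.symm) j' hj'.le (by rw [← e']; exact b1.symm)
    change row s W j = row s' W' j' at this
    rw [a2, b2, e, e', this]

end Rec

/-- recursion on the binary expansion -/
theorem rec_exists (z₀ : UFun b) (f : ∀ M : Mdl b, M → M → (ℕ → M) → M) [h0 : UFn z₀]
    [hf : UFn fun M v => f M (v 0) (v 1) (fun i => v (i + 2))] (ht : Tame f) :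
    ∃ g : ∀ M : Mdl b, M → (ℕ → M) → M, (UFn fun M v => g M (v 0) (fun i => v (i + 1))) ∧
      (∀ M v, g M 0 v = z₀ M v) ∧ ∀ M v x, x ≠ 0 → g M x v = f M x (g M (half x) v) v := by
  obtain ⟨c, hc⟩ := ht
  have hF : ∀ (k : ℕ) (p q : UFun b) [UFn p] [UFn q],
      UFn fun M v => f M (p M v) (q M v) (fun i => v (i + k)) := fun k p q _ _ =>
    hf.comp (cons p (cons q fun i _ v => v (i + k))) (by
      rintro (_ | _ | i) <;> simp only [cons_zero, cons_succ] <;> infer_instance)
  have hZ : ∀ k : ℕ, UFn fun M v => z₀ M (fun i => v (i + k)) := fun k =>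
    h0.ren (g := fun i => i + k) (add_left_injective k)
  have hV : ∀ (k : ℕ) (p q r w : UFun b) [UFn p] [UFn q] [UFn r] [UFn w],
      USig fun M v => Rec.Valid z₀ f M (p M v) (q M v) (r M v) (w M v) (fun i => v (i + k)) := by
    intro k p q r w hp hq hr hw
    have := hZ k
    have := hp.tail
    have := hq.tail
    have := hr.tail
    have := hF (k + 1) (fun M v => row (q M fun i => v (i + 1)) (r M fun i => v (i + 1)) (v 0 + 1))
      (fun M v => row (p M fun i => v (i + 1)) (r M fun i => v (i + 1)) (v 0))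
    unfold Rec.Valid
    infer_instance
  have ex : ∀ (M : Mdl b) (v : ℕ → M) (W x : M), len x ≤ len W →
      len (z₀ M v) + len x * (c * (len (len W) + 1)) ≤ len W →
      ∃ s < smash W (2 * x + 1), ∃ t < smash W (2 * x + 1), Rec.Valid z₀ f M s t W x v ∧
        row t W (len x) = x ∧
        len (row s W (len x)) ≤ len (z₀ M v) + len x * (c * (len (len W) + 1)) := by
    intro M v W x
    have := hV 4 (fun _ v => v 1) (fun _ v => v 0) (fun _ v => v 3) (fun _ v => v 2)
    have := hZ 2
    have := hZ 4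
    refine pind_sig (fun M x v => len x ≤ len (v 0) →
      len (z₀ M fun i => v (i + 1)) + len x * (c * (len (len (v 0)) + 1)) ≤ len (v 0) →
      ∃ s < smash (v 0) (2 * x + 1), ∃ t < smash (v 0) (2 * x + 1),
        Rec.Valid z₀ f M s t (v 0) x (fun i => v (i + 1)) ∧ row t (v 0) (len x) = x ∧
        len (row s (v 0) (len x)) ≤ len (z₀ M fun i => v (i + 1)) +
          len x * (c * (len (len (v 0)) + 1))) (cons W v) ?_ ?_ x
    · intro _ h2
      simp only [cons_zero, cons_succ, len_zero, zero_mul, add_zero, mul_zero, zero_add,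
        smash_one] at h2 ⊢
      have e : row (z₀ M v) W 0 = z₀ M v :=
        row_eq (d := 0) (u := 0) (r := 0) len_zero (by simp) (by simp) (lt_pw_iff.2 h2)
      exact ⟨z₀ M v, lt_pw_iff.2 h2, 0, pw_pos _, ⟨by simp, e, fun i hi => by simp at hi⟩,
        by simp, by rw [e]⟩
    · intro u hu ih h1 h2
      simp only [cons_zero, cons_succ] at ih h1 h2 ⊢
      have hl := len_half hu
      obtain ⟨s, hs, t, ht, hv, e1, e2⟩ := ih ((len_mono (half_le u)).trans h1)
        (le_trans (by gcongr; exact half_le u) h2)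
      have e3 : len (f M u (row s W (len (half u))) v) ≤
          len (z₀ M v) + len u * (c * (len (len W) + 1)) := by
        refine (hc M _ _ _).trans ?_
        have a1 : len (len (row s W (len (half u)))) ≤ len (len W) :=
          len_mono (lt_pw_iff.1 (row_lt _ _ _))
        calc _ ≤ len (z₀ M v) + len (half u) * (c * (len (len W) + 1)) +
              c * (len (len W) + 1) := by gcongr
          _ = _ := by rw [hl]; ring
      obtain ⟨p1, p2⟩ := row_push hs (lt_pw_iff.2 (e3.trans h2))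
      obtain ⟨q1, q2⟩ := row_push ht (lt_pw_iff.2 h1)
      rw [len_two_mul_add_one, ← hl] at p1 p2 q1 q2
      have top : ∀ y r : M, y < pw W → r < smash W (2 * half u + 1) →
          y * smash W (2 * half u + 1) + r < smash W (2 * u + 1) := by
        intro y r hy hr
        rw [smash_half (c := 2 * u + 1) (one_le_iff.1 le_add_self), half_two_mul_add_one,
          smash_comm W u, smash_congr (y := 2 * half u + 1) W (by rw [len_two_mul_add_one, hl]),
          smash_comm _ W]
        have h3 : (y + 1) * smash W (2 * half u + 1) ≤ pw W * smash W (2 * half u + 1) := by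
          gcongr; exact succ_le_iff.2 hy
        zify at hr h3 ⊢
        linarith
      have hpos : (0 : M) < len u := by rw [hl, lt_succ_iff]; exact zero_le' _
      refine ⟨_, top _ _ (lt_pw_iff.2 (e3.trans h2)) hs, _, top _ _ (lt_pw_iff.2 h1) ht,
        ⟨by rw [q2 0 hpos, hv.1], by rw [p2 0 hpos, hv.2.1], fun i hi => ?_⟩, q1, by rwa [p1]⟩
      rw [p2 i hi, q2 i hi]
      rcases (succ_le_iff.2 hi).lt_or_eq with h | h
      · rw [p2 _ h, q2 _ h]
        exact hv.2.2 i (by rwa [hl, lt_succ_iff, succ_le_iff] at h)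
      · have : i = len (half u) := add_right_cancel (h.trans hl)
        rw [h, p1, q1, this, e1]
        exact ⟨hu, rfl, rfl⟩
  have ex' := fun (M : Mdl b) (x : M) (v : ℕ → M) => ex M v (wid c (z₀ M v) x) x
    (wid_spec c _ x).1 (wid_spec c _ x).2
  choose s hs t ht hv e1 _ using ex'
  refine ⟨fun M x v => row (s M x v) (wid c (z₀ M v) x) (len x), ?_, fun M v => ?_,
    fun M v x hx => ?_⟩
  · have := hZ 1
    have := hZ 2
    have := hZ 3
    have := hZ 4
    have := hV 4 (fun _ v => v 1) (fun _ v => v 0) (fun M v => wid c (z₀ M fun i => v (i + 4)) (v 3))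
      (fun _ v => v 3)
    refine UFn.of_graph _ (fun M y v =>
      ∃ s < smash (wid c (z₀ M fun i => v (i + 1)) (v 0)) (2 * v 0 + 1),
      ∃ t < smash (wid c (z₀ M fun i => v (i + 1)) (v 0)) (2 * v 0 + 1),
        Rec.Valid z₀ f M s t (wid c (z₀ M fun i => v (i + 1)) (v 0)) (v 0) (fun i => v (i + 1)) ∧
        row t (wid c (z₀ M fun i => v (i + 1)) (v 0)) (len (v 0)) = v 0 ∧
        y = row s (wid c (z₀ M fun i => v (i + 1)) (v 0)) (len (v 0)))
      (fun M v => pw (wid c (z₀ M fun i => v (i + 1)) (v 0))) (fun M v y => ?_)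
      (fun M v => (row_lt _ _ _).le)
    constructor
    · rintro ⟨s', -, t', -, h1, h2, rfl⟩
      exact Rec.uniq h1 (hv M _ _) _ _ le_rfl h2 _ le_rfl (e1 M _ _)
    · rintro rfl
      exact ⟨_, hs M _ _, _, ht M _ _, hv M _ _, e1 M _ _, rfl⟩
  · simpa using (hv M 0 v).2.1
  · obtain ⟨-, a1, a2⟩ := (hv M x v).2.2 (len (half x)) (by rw [len_half hx, lt_succ_iff])
    rw [← len_half hx, e1] at a1 a2
    simp only
    rw [a2, Rec.uniq (hv M x v) (hv M (half x) v) _ _ (len_mono (half_le x)) a1.symm _ le_rfl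
      (e1 M _ _)]

/-! ### Codes of numerals -/

theorem nm_exists (b : Bool) : ∃ g : ∀ M : Mdl b, M → (ℕ → M) → M,
    (UFn fun M v => g M (v 0) (fun i => v (i + 1))) ∧ (∀ M v, g M 0 v = (Tm.zero.code : ℕ)) ∧
    ∀ M v x, x ≠ 0 → g M x v = if x = 2 * half x then
      pr (6 : ℕ) (pr (Tm.two.code : ℕ) (g M (half x) v)) else
      pr (2 : ℕ) (pr (6 : ℕ) (pr (Tm.two.code : ℕ) (g M (half x) v))) :=
  rec_exists (fun _ _ => (Tm.zero.code : ℕ)) (fun _ x z _ => if x = 2 * half x then
      pr (6 : ℕ) (pr (Tm.two.code : ℕ) z) else pr (2 : ℕ) (pr (6 : ℕ) (pr (Tm.two.code : ℕ) z)))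
    (Tame.ite ((tame_id.pr_right _).pr_right _) (((tame_id.pr_right _).pr_right _).pr_right _) _)

/-- the code of the dyadic numeral of `x` -/
noncomputable def nm (x : M) : M := (nm_exists b).choose M x (fun _ => 0)

instance fnNm {f : UFun b} [hf : UFn f] : UFn fun M v => nm (f M v) :=
  UFn.app1 (F := fun _ x => nm x) ((nm_exists b).choose_spec.1.comp
    (cons (fun _ v => v 0) fun _ _ _ => 0) (by
      rintro (_ | i) <;> simp only [cons_zero, cons_succ] <;> infer_instance)) hf

theorem nm_zero : nm (0 : M) = pr 1 0 := by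
  rw [nm, (nm_exists b).choose_spec.2.1, Tm.code, cast_npr]; simp

theorem nm_even {x : M} (hx : x ≠ 0) : nm (2 * x) = pr 6 (pr (Tm.two.code : ℕ) (nm x)) := by
  rw [nm, (nm_exists b).choose_spec.2.2 _ _ _ (mul_ne_zero two_ne_zero hx)]
  simp [nm]

theorem nm_odd (x : M) : nm (2 * x + 1) = pr 2 (pr 6 (pr (Tm.two.code : ℕ) (nm x))) := by
  rw [nm, (nm_exists b).choose_spec.2.2 _ _ _ (one_le_iff.1 le_add_self)]
  simp [nm]

theorem nm_cast (n : ℕ) : nm (n : M) = ((Tm.num n).code : ℕ) := by
  induction n using Nat.strong_induction_on with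
  | _ n ih =>
    rw [Tm.num]
    split_ifs with h1 h2
    · simp [h1, nm_zero, Tm.code, cast_npr]
    · have e : (n : M) = 2 * (n / 2 : ℕ) := by exact_mod_cast (by omega : n = 2 * (n / 2))
      rw [e, nm_even (Nat.cast_ne_zero.2 (by omega)), ih _ (by omega), Tm.dbl, Tm.code, cast_npr,
        cast_npr]
      rfl
    · have e : (n : M) = 2 * (n / 2 : ℕ) + 1 := by exact_mod_cast (by omega : n = 2 * (n / 2) + 1)
      rw [e, nm_odd, ih _ (by omega), Tm.dbl, Tm.code, Tm.code, cast_npr, cast_npr, cast_npr]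
      rfl

attribute [irreducible] pr fst snd nm

end Pool.Agent.MP_f18a41_lc

end MrgPart0

-- ======== part 1: formerly Pool.Agent.MP_f18a41_lc.Ext
section MrgPart1

/-! The language extended by constants and unary predicate letters; first-order definability. -/

namespace Pool.Agent.MP_f18a41_lc

open Function

inductive ETm : Type
  | var : ℕ → ETm
  | cst : ℕ → ETm
  | zero : ETm
  | succ : ETm → ETm
  | len : ETm → ETm
  | half : ETm → ETm
  | add : ETm → ETm → ETm
  | mul : ETm → ETm → ETm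
  | smash : ETm → ETm → ETm

inductive EFm : Type
  | bot : EFm
  | eq : ETm → ETm → EFm
  | le : ETm → ETm → EFm
  | imp : EFm → EFm → EFm
  | all : ℕ → EFm → EFm
  | prd : ℕ → ETm → EFm

namespace ETm

def ev (S : Str) (c v : ℕ → S.α) : ETm → S.α
  | var x => v x
  | cst k => c k
  | zero => S.z
  | succ t => S.s (t.ev S c v)
  | len t => S.l (t.ev S c v)
  | half t => S.h (t.ev S c v)
  | add s t => S.a (s.ev S c v) (t.ev S c v)
  | mul s t => S.m (s.ev S c v) (t.ev S c v)
  | smash s t => S.sm (s.ev S c v) (t.ev S c v)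

def occ (x : ℕ) : ETm → Prop
  | var y => x = y
  | cst _ => False
  | zero => False
  | succ t => occ x t
  | len t => occ x t
  | half t => occ x t
  | add s t => occ x s ∨ occ x t
  | mul s t => occ x s ∨ occ x t
  | smash s t => occ x s ∨ occ x t

def subst : ETm → ℕ → ETm → ETm
  | var y, x, u => if x = y then u else var y
  | cst k, _, _ => cst k
  | zero, _, _ => zero
  | succ t, x, u => succ (t.subst x u)
  | len t, x, u => len (t.subst x u)
  | half t, x, u => half (t.subst x u)
  | add s t, x, u => add (s.subst x u) (t.subst x u)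
  | mul s t, x, u => mul (s.subst x u) (t.subst x u)
  | smash s t, x, u => smash (s.subst x u) (t.subst x u)

/-- a strict bound for the indices of all variables and constants -/
def mx : ETm → ℕ
  | var x => x + 1
  | cst k => k + 1
  | zero => 0
  | succ t => t.mx
  | len t => t.mx
  | half t => t.mx
  | add s t => max s.mx t.mx
  | mul s t => max s.mx t.mx
  | smash s t => max s.mx t.mx

def ren (g : ℕ → ℕ) : ETm → ETm
  | var x => var (g x)
  | cst k => cst k
  | zero => zero
  | succ t => succ (t.ren g)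
  | len t => len (t.ren g)
  | half t => half (t.ren g)
  | add s t => add (s.ren g) (t.ren g)
  | mul s t => mul (s.ren g) (t.ren g)
  | smash s t => smash (s.ren g) (t.ren g)

/-- the variables outside `B` become constants (old constants become zero) -/
def cl (B : List ℕ) : ETm → ETm
  | var x => if x ∈ B then var x else cst x
  | cst _ => zero
  | zero => zero
  | succ t => succ (t.cl B)
  | len t => len (t.cl B)
  | half t => half (t.cl B)
  | add s t => add (s.cl B) (t.cl B)
  | mul s t => mul (s.cl B) (t.cl B)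
  | smash s t => smash (s.cl B) (t.cl B)

/-- erase the constants -/
def er : ETm → Tm
  | var x => .var x
  | cst _ => .zero
  | zero => .zero
  | succ t => .succ t.er
  | len t => .len t.er
  | half t => .half t.er
  | add s t => .add s.er t.er
  | mul s t => .mul s.er t.er
  | smash s t => .smash s.er t.er

end ETm

namespace EFm

def ev (S : Str) (c : ℕ → S.α) (X : ℕ → S.α → Prop) : EFm → (ℕ → S.α) → Prop
  | bot, _ => False
  | eq s t, v => s.ev S c v = t.ev S c v
  | le s t, v => S.le (s.ev S c v) (t.ev S c v)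
  | imp φ ψ, v => φ.ev S c X v → ψ.ev S c X v
  | all x φ, v => ∀ u, φ.ev S c X (update v x u)
  | prd k t, v => X k (t.ev S c v)

def neg (φ : EFm) : EFm := imp φ bot
def ball (x : ℕ) (t : ETm) (φ : EFm) : EFm := all x (imp (le (.var x) t) φ)

def free (x : ℕ) : EFm → Prop
  | bot => False
  | eq s t => s.occ x ∨ t.occ x
  | le s t => s.occ x ∨ t.occ x
  | imp φ ψ => free x φ ∨ free x ψ
  | all y φ => x ≠ y ∧ free x φ
  | prd _ t => t.occ x

def subst (x : ℕ) (u : ETm) : EFm → EFm
  | bot => bot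
  | eq s t => eq (s.subst x u) (t.subst x u)
  | le s t => le (s.subst x u) (t.subst x u)
  | imp φ ψ => imp (subst x u φ) (subst x u ψ)
  | all y φ => if x = y then all y φ else all y (subst x u φ)
  | prd k t => prd k (t.subst x u)

def freeFor (x : ℕ) (u : ETm) : EFm → Prop
  | bot => True
  | eq _ _ => True
  | le _ _ => True
  | imp φ ψ => freeFor x u φ ∧ freeFor x u ψ
  | all y φ => ¬ free x (all y φ) ∨ (¬ u.occ y ∧ freeFor x u φ)
  | prd _ _ => True

/-- a strict bound for the indices of all variables, constants and predicate letters -/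
def mx : EFm → ℕ
  | bot => 0
  | eq s t => max s.mx t.mx
  | le s t => max s.mx t.mx
  | imp φ ψ => max φ.mx ψ.mx
  | all x φ => max (x + 1) φ.mx
  | prd k t => max (k + 1) t.mx

def ren (g : ℕ → ℕ) : EFm → EFm
  | bot => bot
  | eq s t => eq (s.ren g) (t.ren g)
  | le s t => le (s.ren g) (t.ren g)
  | imp φ ψ => imp (φ.ren g) (ψ.ren g)
  | all x φ => all (g x) (φ.ren g)
  | prd k t => prd k (t.ren g)

/-- the free variables outside `B` become constants -/
def cl : EFm → List ℕ → EFm
  | bot, _ => bot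
  | eq s t, B => eq (s.cl B) (t.cl B)
  | le s t, B => le (s.cl B) (t.cl B)
  | imp φ ψ, B => imp (φ.cl B) (ψ.cl B)
  | all x φ, B => all x (φ.cl (x :: B))
  | prd k t, B => prd k (t.cl B)

/-- erase constants and predicate letters -/
def er : EFm → Fm
  | bot => .bot
  | eq s t => .eq s.er t.er
  | le s t => .le s.er t.er
  | imp φ ψ => .imp φ.er ψ.er
  | all x φ => .all x φ.er
  | prd _ _ => .bot

end EFm

def Tm.e : Tm → ETm
  | var x => .var x
  | zero => .zero
  | succ t => .succ t.e
  | len t => .len t.e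
  | half t => .half t.e
  | add s t => .add s.e t.e
  | mul s t => .mul s.e t.e
  | smash s t => .smash s.e t.e

def Fm.e : Fm → EFm
  | bot => .bot
  | eq s t => .eq s.e t.e
  | le s t => .le s.e t.e
  | imp φ ψ => .imp φ.e ψ.e
  | all x φ => .all x φ.e

/-- the classes for extended formulas: predicate letters count as `Σ` -/
inductive ECls (full : Bool) : Bool → EFm → Prop
  | bot (σ : Bool) : ECls full σ .bot
  | eq (σ : Bool) (s t : ETm) : ECls full σ (.eq s t)
  | le (σ : Bool) (s t : ETm) : ECls full σ (.le s t)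
  | prd (k : ℕ) (t : ETm) : ECls full true (.prd k t)
  | imp (σ : Bool) {φ ψ : EFm} : ECls full (!σ) φ → ECls full σ ψ → ECls full σ (.imp φ ψ)
  | ball {x : ℕ} {t : ETm} {φ : EFm} :
      ¬ t.occ x → ECls full false φ → ECls full false (.ball x t φ)
  | sharp {x : ℕ} {t : ETm} {φ : EFm} :
      ¬ t.occ x → ECls full true φ → ECls full true (.ball x (.len t) φ)
  | wide {x : ℕ} {t : ETm} {φ : EFm} :
      full = true → ¬ t.occ x → ECls full true φ → ECls full true (.ball x t φ)

/-- derivations in the extended language from global hypotheses -/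
inductive EPrv (b : Bool) (Γ : Set EFm) : EFm → Prop
  | hyp {φ : EFm} : φ ∈ Γ → EPrv b Γ φ
  | k (φ ψ : EFm) : EPrv b Γ (.imp φ (.imp ψ φ))
  | s (φ ψ χ : EFm) : EPrv b Γ (.imp (.imp φ (.imp ψ χ)) (.imp (.imp φ ψ) (.imp φ χ)))
  | dn (φ : EFm) : EPrv b Γ (.imp φ.neg.neg φ)
  | inst (x : ℕ) (u : ETm) (φ : EFm) : φ.freeFor x u → EPrv b Γ (.imp (.all x φ) (φ.subst x u))
  | dist (x : ℕ) (φ ψ : EFm) : EPrv b Γ (.imp (.all x (.imp φ ψ)) (.imp (.all x φ) (.all x ψ)))
  | vac (x : ℕ) (φ : EFm) : ¬ φ.free x → EPrv b Γ (.imp φ (.all x φ))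
  | mp {φ ψ : EFm} : EPrv b Γ (.imp φ ψ) → EPrv b Γ φ → EPrv b Γ ψ
  | gen (x : ℕ) {φ : EFm} : EPrv b Γ φ → EPrv b Γ (.all x φ)
  | ax {φ : Fm} : φ ∈ eqAx ++ basic → EPrv b Γ φ.e
  | ind (x : ℕ) {φ : Fm} : Cls b true φ → EPrv b Γ (pind x φ).e
  | cong (k : ℕ) :
      EPrv b Γ (.imp (.eq (.var 0) (.var 1)) (.imp (.prd k (.var 0)) (.prd k (.var 1))))

section Raw
variable {S : Str} {c : ℕ → S.α} {X : ℕ → S.α → Prop}

@[simp] theorem Tm.ev_e (v : ℕ → S.α) (t : Tm) : t.e.ev S c v = t.ev S v := by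
  induction t with
  | var y => rfl
  | zero => rfl
  | succ t ih | len t ih | half t ih => simp only [Tm.e, Tm.ev, ETm.ev, ih]
  | add s t i1 i2 | mul s t i1 i2 | smash s t i1 i2 => simp only [Tm.e, Tm.ev, ETm.ev, i1, i2]

@[simp] theorem Fm.ev_e (φ : Fm) : ∀ v : ℕ → S.α, φ.e.ev S c X v ↔ φ.ev S v := by
  induction φ with
  | bot => intro _; rfl
  | eq s t | le s t => intro v; simp only [Fm.e, Fm.ev, EFm.ev, Tm.ev_e]
  | imp φ ψ i1 i2 => intro v; simp only [Fm.e, Fm.ev, EFm.ev, i1, i2]
  | all y φ ih => intro v; simp only [Fm.e, Fm.ev, EFm.ev, ih]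

theorem ETm.ev_er (v : ℕ → S.α) (t : ETm) : t.er.ev S v = t.ev S (fun _ => S.z) v := by
  induction t with
  | var y | cst k => rfl
  | zero => rfl
  | succ t ih | len t ih | half t ih => simp only [ETm.er, Tm.ev, ETm.ev, ih]
  | add s t i1 i2 | mul s t i1 i2 | smash s t i1 i2 => simp only [ETm.er, Tm.ev, ETm.ev, i1, i2]

theorem EFm.ev_er (φ : EFm) : ∀ v : ℕ → S.α,
    φ.er.ev S v ↔ φ.ev S (fun _ => S.z) (fun _ _ => False) v := by
  induction φ with
  | bot | prd => intro _; rfl
  | eq s t | le s t => intro v; simp only [EFm.er, Fm.ev, EFm.ev, ETm.ev_er]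
  | imp φ ψ i1 i2 => intro v; simp only [EFm.er, Fm.ev, EFm.ev, i1, i2]
  | all y φ ih => intro v; simp only [EFm.er, Fm.ev, EFm.ev, ih]

theorem ETm.ev_congr {v w : ℕ → S.α} (t : ETm) (h : ∀ x, t.occ x → v x = w x) :
    t.ev S c v = t.ev S c w := by
  induction t with
  | var y => exact h y rfl
  | cst k => rfl
  | zero => rfl
  | succ t ih | len t ih | half t ih => simp only [ETm.ev, ih h]
  | add s t i1 i2 | mul s t i1 i2 | smash s t i1 i2 =>
    simp only [ETm.ev, i1 fun x hx => h x (Or.inl hx), i2 fun x hx => h x (Or.inr hx)]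

theorem EFm.ev_congr (φ : EFm) : ∀ {v w : ℕ → S.α}, (∀ x, φ.free x → v x = w x) →
    (φ.ev S c X v ↔ φ.ev S c X w) := by
  induction φ with
  | bot => intro _ _ _; rfl
  | eq s t | le s t =>
    intro v w h
    simp only [EFm.ev, s.ev_congr fun x hx => h x (Or.inl hx),
      t.ev_congr fun x hx => h x (Or.inr hx)]
  | imp φ ψ i1 i2 =>
    intro v w h
    simp only [EFm.ev, i1 fun x hx => h x (Or.inl hx), i2 fun x hx => h x (Or.inr hx)]
  | all y φ ih =>
    intro v w h
    refine forall_congr' fun u => ih fun x hx => ?_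
    by_cases hxy : x = y
    · subst hxy; simp
    · simp [update_of_ne hxy, h x ⟨hxy, hx⟩]
  | prd k t => intro v w h; simp only [EFm.ev, t.ev_congr h]

theorem ETm.ev_update {v : ℕ → S.α} {t : ETm} {x : ℕ} (h : ¬ t.occ x) (u : S.α) :
    t.ev S c (update v x u) = t.ev S c v :=
  t.ev_congr fun y hy => update_of_ne (by rintro rfl; exact h hy) _ _

theorem EFm.ev_update {v : ℕ → S.α} {φ : EFm} {x : ℕ} (h : ¬ φ.free x) (u : S.α) :
    φ.ev S c X (update v x u) ↔ φ.ev S c X v :=
  φ.ev_congr fun y hy => update_of_ne (by rintro rfl; exact h hy) _ _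

theorem ETm.ev_subst (v : ℕ → S.α) (x : ℕ) (u t : ETm) :
    (t.subst x u).ev S c v = t.ev S c (update v x (u.ev S c v)) := by
  induction t with
  | var y =>
    by_cases h : x = y
    · subst h; simp [ETm.subst, ETm.ev]
    · simp [ETm.subst, ETm.ev, h, update_of_ne (Ne.symm h)]
  | cst k => rfl
  | zero => rfl
  | succ t ih | len t ih | half t ih => simp only [ETm.subst, ETm.ev, ih]
  | add s t i1 i2 | mul s t i1 i2 | smash s t i1 i2 => simp only [ETm.subst, ETm.ev, i1, i2]

theorem ETm.subst_of_not_occ {x : ℕ} (u : ETm) {t : ETm} (h : ¬ t.occ x) : t.subst x u = t := by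
  induction t with
  | var y => exact if_neg h
  | cst k => rfl
  | zero => rfl
  | succ t ih | len t ih | half t ih => simp only [ETm.subst, ih h]
  | add s t i1 i2 | mul s t i1 i2 | smash s t i1 i2 =>
    simp only [ETm.subst, i1 fun hx => h (Or.inl hx), i2 fun hx => h (Or.inr hx)]

theorem EFm.subst_of_not_free {x : ℕ} (u : ETm) {φ : EFm} (h : ¬ φ.free x) :
    φ.subst x u = φ := by
  induction φ with
  | bot => rfl
  | eq s t | le s t =>
    simp only [EFm.subst, ETm.subst_of_not_occ u fun hx => h (Or.inl hx),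
      ETm.subst_of_not_occ u fun hx => h (Or.inr hx)]
  | imp φ ψ i1 i2 => simp only [EFm.subst, i1 fun hx => h (Or.inl hx), i2 fun hx => h (Or.inr hx)]
  | all y φ ih =>
    by_cases hxy : x = y
    · simp [EFm.subst, hxy]
    · simp only [EFm.subst, if_neg hxy, ih fun hx => h ⟨hxy, hx⟩]
  | prd k t => simp only [EFm.subst, ETm.subst_of_not_occ u h]

theorem EFm.ev_subst (x : ℕ) (u : ETm) (φ : EFm) : ∀ (v : ℕ → S.α), φ.freeFor x u →
    ((φ.subst x u).ev S c X v ↔ φ.ev S c X (update v x (u.ev S c v))) := by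
  induction φ with
  | bot => intro _ _; rfl
  | eq s t | le s t | prd k t => intro v _; simp only [EFm.subst, EFm.ev, ETm.ev_subst]
  | imp φ ψ i1 i2 => intro v h; simp only [EFm.subst, EFm.ev, i1 v h.1, i2 v h.2]
  | all y φ ih =>
    intro v h
    by_cases hf : (all y φ).free x
    · have h2 := h.resolve_left (not_not.2 hf)
      simp only [EFm.subst, if_neg hf.1, EFm.ev]
      refine forall_congr' fun w => ?_
      rw [ih _ h2.2, ETm.ev_update h2.1, update_comm (Ne.symm hf.1)]
    · rw [EFm.subst_of_not_free u hf, EFm.ev_update hf]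

theorem ETm.ev_ren (g : ℕ → ℕ) (v : ℕ → S.α) (t : ETm) :
    (t.ren g).ev S c v = t.ev S c (fun i => v (g i)) := by
  induction t with
  | var y | cst k => rfl
  | zero => rfl
  | succ t ih | len t ih | half t ih => simp only [ETm.ren, ETm.ev, ih]
  | add s t i1 i2 | mul s t i1 i2 | smash s t i1 i2 => simp only [ETm.ren, ETm.ev, i1, i2]

theorem EFm.ev_ren {g : ℕ → ℕ} (hg : Injective g) (φ : EFm) : ∀ v : ℕ → S.α,
    ((φ.ren g).ev S c X v ↔ φ.ev S c X (fun i => v (g i))) := by
  induction φ with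
  | bot => intro _; rfl
  | eq s t | le s t | prd k t => intro v; simp only [EFm.ren, EFm.ev, ETm.ev_ren]
  | imp φ ψ i1 i2 => intro v; simp only [EFm.ren, EFm.ev, i1, i2]
  | all y φ ih =>
    intro v
    simp only [EFm.ren, EFm.ev, ih]
    refine forall_congr' fun u => ?_
    rw [show (fun i => update v (g y) u (g i)) = update (fun i => v (g i)) y u from
      update_comp_eq_of_injective v hg y u]

theorem ETm.ev_cl (B : List ℕ) (v : ℕ → S.α) (t : ETm) :
    (t.cl B).ev S c v = t.ev S (fun _ => S.z) (fun i => if i ∈ B then v i else c i) := by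
  induction t with
  | var y => by_cases h : y ∈ B <;> simp [ETm.cl, ETm.ev, h]
  | cst k => rfl
  | zero => rfl
  | succ t ih | len t ih | half t ih => simp only [ETm.cl, ETm.ev, ih]
  | add s t i1 i2 | mul s t i1 i2 | smash s t i1 i2 => simp only [ETm.cl, ETm.ev, i1, i2]

theorem EFm.ev_cl (φ : EFm) : ∀ (B : List ℕ) (v : ℕ → S.α),
    (φ.cl B).ev S c X v ↔ φ.ev S (fun _ => S.z) X (fun i => if i ∈ B then v i else c i) := by
  induction φ with
  | bot => intro _ _; rfl
  | eq s t | le s t | prd k t => intro B v; simp only [EFm.cl, EFm.ev, ETm.ev_cl]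
  | imp φ ψ i1 i2 => intro B v; simp only [EFm.cl, EFm.ev, i1, i2]
  | all y φ ih =>
    intro B v
    simp only [EFm.cl, EFm.ev, ih]
    refine forall_congr' fun u => iff_of_eq (congrArg _ (funext fun i => ?_))
    by_cases h : i = y
    · subst h; simp
    · simp [h, update_of_ne h]

theorem EFm.ev_cl_nil (φ : EFm) (v : ℕ → S.α) :
    (φ.cl []).ev S c X v ↔ φ.ev S (fun _ => S.z) X c := by
  simp [EFm.ev_cl]

theorem ETm.occ_cl {B : List ℕ} {x : ℕ} {t : ETm} (h : (t.cl B).occ x) : x ∈ B := by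
  induction t with
  | var y =>
    by_cases hy : y ∈ B
    · simp only [ETm.cl, hy, if_true, ETm.occ] at h; rwa [h]
    · simp [ETm.cl, hy, ETm.occ] at h
  | cst k => exact h.elim
  | zero => exact h.elim
  | succ t ih | len t ih | half t ih => exact ih h
  | add s t i1 i2 | mul s t i1 i2 | smash s t i1 i2 => exact h.elim i1 i2

theorem EFm.free_cl {x : ℕ} {φ : EFm} : ∀ {B : List ℕ}, (φ.cl B).free x → x ∈ B := by
  induction φ with
  | bot => exact fun h => h.elim
  | eq s t | le s t => exact fun h => h.elim ETm.occ_cl ETm.occ_cl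
  | imp φ ψ i1 i2 => exact fun h => h.elim i1 i2
  | all y φ ih => exact fun h => (List.mem_cons.1 (ih h.2)).resolve_left h.1
  | prd k t => exact fun h => ETm.occ_cl h

theorem ETm.lt_mx {x : ℕ} {t : ETm} (h : t.occ x) : x < t.mx := by
  induction t with
  | var y => cases h; exact Nat.lt_succ_self _
  | cst k => exact h.elim
  | zero => exact h.elim
  | succ t ih | len t ih | half t ih => exact ih h
  | add s t i1 i2 | mul s t i1 i2 | smash s t i1 i2 =>
    exact h.elim (fun h => lt_max_of_lt_left (i1 h)) (fun h => lt_max_of_lt_right (i2 h))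

theorem EFm.lt_mx {x : ℕ} {φ : EFm} (h : φ.free x) : x < φ.mx := by
  induction φ with
  | bot => exact h.elim
  | eq s t | le s t =>
    exact h.elim (fun h => lt_max_of_lt_left (ETm.lt_mx h))
      (fun h => lt_max_of_lt_right (ETm.lt_mx h))
  | imp φ ψ i1 i2 =>
    exact h.elim (fun h => lt_max_of_lt_left (i1 h)) (fun h => lt_max_of_lt_right (i2 h))
  | all y φ ih => exact lt_max_of_lt_right (ih h.2)
  | prd k t => exact lt_max_of_lt_right (ETm.lt_mx h)

end Raw

theorem Tm.occ_e (x : ℕ) (t : Tm) : t.e.occ x ↔ t.occ x := by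
  induction t with
  | var y => rfl
  | zero => rfl
  | succ t ih | len t ih | half t ih => exact ih
  | add s t i1 i2 | mul s t i1 i2 | smash s t i1 i2 => exact or_congr i1 i2

theorem Fm.free_e (x : ℕ) (φ : Fm) : φ.e.free x ↔ φ.free x := by
  induction φ with
  | bot => rfl
  | eq s t | le s t => exact or_congr (s.occ_e x) (t.occ_e x)
  | imp φ ψ i1 i2 => exact or_congr i1 i2
  | all y φ ih => exact and_congr_right fun _ => ih

theorem Tm.subst_e (x : ℕ) (u t : Tm) : (t.subst x u).e = t.e.subst x u.e := by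
  induction t with
  | var y => by_cases h : x = y <;> simp [Tm.subst, ETm.subst, Tm.e, h]
  | zero => rfl
  | succ t ih | len t ih | half t ih => simp only [Tm.subst, Tm.e, ETm.subst, ih]
  | add s t i1 i2 | mul s t i1 i2 | smash s t i1 i2 =>
    simp only [Tm.subst, Tm.e, ETm.subst, i1, i2]

theorem Fm.subst_e (x : ℕ) (u : Tm) (φ : Fm) : (φ.subst x u).e = φ.e.subst x u.e := by
  induction φ with
  | bot => rfl
  | eq s t | le s t => simp only [Fm.subst, Fm.e, EFm.subst, Tm.subst_e]
  | imp φ ψ i1 i2 => simp only [Fm.subst, Fm.e, EFm.subst, i1, i2]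
  | all y φ ih => by_cases h : x = y <;> simp [Fm.subst, Fm.e, EFm.subst, h, ih]

theorem Cls.e {c σ : Bool} {φ : Fm} (h : Cls c σ φ) : ECls c σ φ.e := by
  induction h with
  | bot σ => exact .bot σ
  | eq σ s t => exact .eq σ _ _
  | le σ s t => exact .le σ _ _
  | imp σ _ _ i1 i2 => exact .imp σ i1 i2
  | ball h _ ih => exact .ball (mt (Tm.occ_e _ _).1 h) ih
  | sharp h _ ih => exact .sharp (mt (Tm.occ_e _ _).1 h) ih
  | wide h0 h _ ih => exact .wide h0 (mt (Tm.occ_e _ _).1 h) ih

variable {b : Bool}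

theorem EPrv.mono {Γ Δ : Set EFm} {φ : EFm} (h : EPrv b Γ φ) (hs : Γ ⊆ Δ) : EPrv b Δ φ := by
  induction h with
  | hyp h => exact .hyp (hs h)
  | k => exact .k ..
  | s => exact .s ..
  | dn => exact .dn ..
  | inst x u φ h => exact .inst x u φ h
  | dist => exact .dist ..
  | vac x φ h => exact .vac x φ h
  | mp _ _ i1 i2 => exact .mp i1 i2
  | gen x _ ih => exact .gen x ih
  | ax h => exact .ax h
  | ind x h => exact .ind x h
  | cong k => exact .cong k

/-- Soundness of the extended calculus. -/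
theorem EPrv.sound {Γ : Set EFm} {φ : EFm} (h : EPrv b Γ φ) (M : Mdl b) (c : ℕ → M)
    (X : ℕ → M → Prop) (hΓ : ∀ ψ ∈ Γ, ∀ v, ψ.ev M.toStr c X v) : ∀ v, φ.ev M.toStr c X v := by
  induction h with
  | hyp h => exact hΓ _ h
  | k => exact fun _ h _ => h
  | s => exact fun _ h1 h2 h3 => h1 h3 (h2 h3)
  | dn => exact fun _ h => not_not.1 h
  | inst x u φ h => exact fun v h1 => (EFm.ev_subst x u φ v h).2 (h1 _)
  | dist => exact fun _ h1 h2 u => h1 u (h2 u)
  | vac x φ h => exact fun v h1 u => (EFm.ev_update h u).2 h1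
  | mp _ _ i1 i2 => exact fun v => i1 v (i2 v)
  | gen _ _ ih => exact fun v u => ih _
  | ax h => exact fun v => (Fm.ev_e _ v).2 ((Prv.ax h).sound M v)
  | ind x h => exact fun v => (Fm.ev_e _ v).2 (M.hind x _ h v)
  | cong k =>
    intro v h1 h2
    change v 0 = v 1 at h1
    change X k (v 0) at h2
    exact (h1 ▸ h2 : X k (v 1))

/-! ### First-order definability -/

abbrev XPred (b : Bool) : Type 1 := ∀ M : Mdl b, (ℕ → M → Prop) → (ℕ → M) → Prop

/-- defined by a formula with predicate letters -/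
class UF (P : XPred b) : Prop where
  out : ∃ φ : EFm, ∀ (M : Mdl b) (c : ℕ → M) (X : ℕ → M → Prop) (v : ℕ → M),
    φ.ev M.toStr c X v ↔ P M X v

/-- defined by a formula -/
class UP (P : UPred b) : Prop where
  out : ∃ φ : Fm, ∀ (M : Mdl b) (v : ℕ → M), φ.ev M.toStr v ↔ P M v

section
variable {P Q : XPred b} {R : UPred b} {f : UFun b}
  {B : ∀ M : Mdl b, (ℕ → M → Prop) → (ℕ → M) → M → Prop}

instance UP.ofUF [h : UF fun M _ v => R M v] : UP R := by
  obtain ⟨φ, h⟩ := h.out
  exact ⟨φ.er, fun M v => by rw [EFm.ev_er, h]⟩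

/-- not an instance; use it to register a definable predicate -/
theorem UP.uf (h : UP R) : UF fun M _ v => R M v := by
  obtain ⟨φ, h⟩ := h.out
  exact ⟨φ.e, fun M c X v => by rw [Fm.ev_e, h]⟩

theorem UC.up {c σ : Bool} (h : UC c σ R) : UP R := by
  obtain ⟨φ, _, h⟩ := h
  exact ⟨φ, h⟩

theorem UF.congr (h : UF P) (e : ∀ M X v, P M X v ↔ Q M X v) : UF Q := by
  obtain ⟨φ, h⟩ := h.out
  exact ⟨φ, fun M c X v => (h M c X v).trans (e M X v)⟩

theorem UP.congr {R' : UPred b} (h : UP R) (e : ∀ M v, R M v ↔ R' M v) : UP R' := by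
  obtain ⟨φ, h⟩ := h.out
  exact ⟨φ, fun M v => (h M v).trans (e M v)⟩

theorem UF.ren (h : UF P) {g : ℕ → ℕ} (hg : Injective g) :
    UF fun M X v => P M X (fun i => v (g i)) := by
  obtain ⟨φ, h⟩ := h.out
  exact ⟨φ.ren g, fun M c X v => by rw [EFm.ev_ren hg, h]⟩

instance (priority := 100) UF.sig [h : USig R] : UF fun M _ v => R M v := h.out.up.uf
instance (priority := 90) UF.pi [h : UPi R] : UF fun M _ v => R M v := h.out.up.uf
instance UF.imp [h : UF P] [h' : UF Q] : UF fun M X v => P M X v → Q M X v := by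
  obtain ⟨φ, h⟩ := h.out
  obtain ⟨ψ, h'⟩ := h'.out
  exact ⟨φ.imp ψ, fun M c X v => by rw [EFm.ev, h, h']⟩
instance UF.not [h : UF P] : UF fun M X v => ¬ P M X v :=
  (inferInstance : UF fun M X v => P M X v → False)
instance UF.and [UF P] [UF Q] : UF fun M X v => P M X v ∧ Q M X v :=
  (inferInstance : UF fun M X v => ¬ (P M X v → ¬ Q M X v)).congr fun _ _ _ => by tauto
instance UF.or [UF P] [UF Q] : UF fun M X v => P M X v ∨ Q M X v :=
  (inferInstance : UF fun M X v => ¬ P M X v → Q M X v).congr fun _ _ _ => by tauto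
instance UF.iff [UF P] [UF Q] : UF fun M X v => P M X v ↔ Q M X v :=
  (inferInstance : UF fun M X v => (P M X v → Q M X v) ∧ (Q M X v → P M X v)).congr
    fun _ _ _ => by tauto

theorem UF.allC (h : UF P) : UF fun M X v => ∀ x, P M X (cons x v) := by
  obtain ⟨φ, h⟩ := h.out
  refine ⟨.all φ.mx (φ.ren (bindF φ.mx)), fun M c X v => forall_congr' fun x => ?_⟩
  rw [EFm.ev_ren (bindF_inj _), ← h M c]
  refine φ.ev_congr fun y hy => ?_
  have := EFm.lt_mx hy
  rcases y with _ | y
  · simp [bindF]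
  · have h1 : y < φ.mx := by omega
    simp [bindF, h1, update_of_ne h1.ne]

instance UF.all [h : UF fun M X v => B M X (fun i => v (i + 1)) (v 0)] :
    UF fun M X v => ∀ x, B M X v x := h.allC
instance UF.ex [h : UF fun M X v => B M X (fun i => v (i + 1)) (v 0)] :
    UF fun M X v => ∃ x, B M X v x :=
  (inferInstance : UF fun M X v => ¬ ∀ x, ¬ B M X v x).congr fun _ _ _ => by simp

theorem UF.sub1 (hf : UFn f) (h : UF P) : UF fun M X v => P M X (cons (f M v) v) := by
  have := hf.gr.up.uf
  exact (UF.allC (P := fun M X v => v 0 = f M (fun i => v (i + 1)) → P M X v)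
    inferInstance).congr fun M X v => by simp

theorem UF.compN (N : ℕ) : ∀ {P : XPred b} (g : ℕ → UFun b), UF P → (∀ i, UFn (g i)) →
    UF fun M X v => P M X (fun i => if i < N then g i M v else v (i - N)) := by
  induction N with
  | zero => intro P g h _; simpa using h
  | succ N ih =>
    intro P g h hg
    have h1 := ih (fun i M v => g i M (fun j => v (j + 1))) h (fun i => (hg i).tail)
    refine (UF.sub1 (hg N) h1).congr fun M X v => ?_
    refine iff_of_eq (congrArg _ (funext fun i => ?_))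
    rcases lt_trichotomy i N with h | h | h
    · simp [h, Nat.lt_succ_of_lt h]
    · simp [h]
    · have : i - N = (i - (N + 1)) + 1 := by omega
      rw [if_neg (by omega), if_neg (by omega), this, cons_succ]

theorem UF.comp (h : UF P) (g : ℕ → UFun b) (hg : ∀ i, UFn (g i)) :
    UF fun M X v => P M X (fun i => g i M v) := by
  obtain ⟨φ, hφ⟩ := h.out
  refine (UF.compN φ.mx g h hg).congr fun M X v => ?_
  rw [← hφ M v, ← hφ M v]
  exact φ.ev_congr fun i hi => if_pos (EFm.lt_mx hi)

theorem UP.comp (h : UP R) (g : ℕ → UFun b) (hg : ∀ i, UFn (g i)) :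
    UP fun M v => R M (fun i => g i M v) := @UP.ofUF _ _ (h.uf.comp g hg)

instance UF.prd (k : ℕ) [hf : UFn f] : UF fun M X v => X k (f M v) :=
  UF.comp (P := fun _ X v => X k (v 0)) ⟨.prd k (.var 0), fun _ _ _ _ => Iff.rfl⟩
    (fun _ => f) fun _ => hf

theorem UF.app1 {T : ∀ M : Mdl b, (ℕ → M → Prop) → M → Prop} (h : UF fun M X v => T M X (v 0))
    (hf : UFn f) : UF fun M X v => T M X (f M v) :=
  h.comp (args [f]) (args_UFn _ (by simpa using hf))
theorem UF.app2 {T : ∀ M : Mdl b, (ℕ → M → Prop) → M → M → Prop} {g : UFun b}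
    (h : UF fun M X v => T M X (v 0) (v 1)) (hf : UFn f) (hg : UFn g) :
    UF fun M X v => T M X (f M v) (g M v) :=
  h.comp (args [f, g]) (args_UFn _ (by simpa using ⟨hf, hg⟩))
theorem UF.app3 {T : ∀ M : Mdl b, (ℕ → M → Prop) → M → M → M → Prop} {g k : UFun b}
    (h : UF fun M X v => T M X (v 0) (v 1) (v 2)) (hf : UFn f) (hg : UFn g) (hk : UFn k) :
    UF fun M X v => T M X (f M v) (g M v) (k M v) :=
  h.comp (args [f, g, k]) (args_UFn _ (by simpa using ⟨hf, hg, hk⟩))
theorem UF.app4 {T : ∀ M : Mdl b, (ℕ → M → Prop) → M → M → M → M → Prop} {g k j : UFun b}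
    (h : UF fun M X v => T M X (v 0) (v 1) (v 2) (v 3)) (hf : UFn f) (hg : UFn g) (hk : UFn k)
    (hj : UFn j) : UF fun M X v => T M X (f M v) (g M v) (k M v) (j M v) :=
  h.comp (args [f, g, k, j]) (args_UFn _ (by simpa using ⟨hf, hg, hk, hj⟩))

instance UF.listAll {ι : Type} (l : List ι) {T : ι → XPred b} [h : ∀ r, UF (T r)] :
    UF fun M X v => ∀ r ∈ l, T r M X v := by
  induction l with
  | nil => exact (inferInstance : UF fun (_ : Mdl b) _ _ => True).congr fun _ _ _ => by simp
  | cons a l ih =>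
    exact (inferInstance : UF fun M X v => T a M X v ∧ ∀ r ∈ l, T r M X v).congr
      fun _ _ _ => by simp
instance UF.listEx {ι : Type} (l : List ι) {T : ι → XPred b} [h : ∀ r, UF (T r)] :
    UF fun M X v => ∃ r ∈ l, T r M X v :=
  (inferInstance : UF fun M X v => ¬ ∀ r ∈ l, ¬ T r M X v).congr fun _ _ _ => by simp
instance (priority := 110) UF.finAll {ι : Type} [Finite ι] {T : ι → XPred b} [h : ∀ r, UF (T r)] :
    UF fun M X v => ∀ r, T r M X v := by
  have := Fintype.ofFinite ι
  exact (UF.listAll (T := T) (Finset.univ : Finset ι).toList).congr fun _ _ _ => by simp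
instance (priority := 110) UF.finEx {ι : Type} [Finite ι] {T : ι → XPred b} [h : ∀ r, UF (T r)] :
    UF fun M X v => ∃ r, T r M X v :=
  (inferInstance : UF fun M X v => ¬ ∀ r, ¬ T r M X v).congr fun _ _ _ => by simp

end

end Pool.Agent.MP_f18a41_lc

end MrgPart1

-- marker of a merged file
example : 731051 + 561986 = 731051 + 561986 := rfl
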