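import Pool.Agent.MP_f18a41_lc.Canon

/-! Soundness of GL + Cl on closed frames, and a formula that separates GL + Cl from the logic of
the frames that omit `Y`. -/

namespace Pool.Agent.MP_f18a41_lc.Wit

open MF

variable {W : Type} {R : W → W → Prop} {V : ℕ → W → Prop}

theorem force_bigOr {w : W} {l : List MF} :
    Force R V w (MF.bigOr l) ↔ ∃ F ∈ l, Force R V w F := by
  induction l with
  | nil => simp [MF.bigOr, Force]
  | cons F l ih =>
    simp only [MF.bigOr, Force, ih, List.mem_cons, exists_eq_or_imp]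
    tauto

theorem gl_valid [Finite W] (tr : ∀ x y z, R x y → R y z → R x z) (ir : ∀ x, ¬ R x x) {X : MF}
    (h : GLog X) : ∀ w, Force R V w X := by
  have wf : WellFounded fun x y => R y x :=
    @Finite.wellFounded_of_trans_of_irrefl W _ _ ⟨fun a b c h h' => tr _ _ _ h' h⟩ ⟨ir⟩
  induction h with
  | k => exact fun _ h _ => h
  | s => exact fun _ h h' x => h x (h' x)
  | dn => exact fun _ h => by_contra h
  | dist => exact fun _ h h' u hu => h u hu (h' u hu)
  | loeb F =>
    intro w h u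
    induction u using wf.induction with
    | _ u ih => exact fun hu => h u hu fun z hz => ih z hz (tr _ _ _ hu hz)
  | four => exact fun _ h u hu z hz => h z (tr _ _ _ hu hz)
  | mp _ _ i1 i2 => exact fun w => i1 w (i2 w)
  | nec _ ih => exact fun _ u _ => ih u

theorem glc_valid [Finite W] (tr : ∀ x y z, R x y → R y z → R x z) (ir : ∀ x, ¬ R x x)
    (cl : Closed R) {X : MF} (h : GLC X) : ∀ w, Force R V w X := by
  induction h with
  | gl h => exact gl_valid tr ir h
  | cl A l =>
    intro w h x hx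
    rw [force_bigOr]
    by_contra hn
    have h1 : ∀ B ∈ l, ∃ c, R x c ∧ Force R V c (box A) ∧ ¬ Force R V c (box B) := by
      intro B hB
      by_contra h2
      exact hn ⟨_, List.mem_map_of_mem hB, fun c hc h3 => by_contra fun h4 => h2 ⟨c, hc, h3, h4⟩⟩
    have wf : WellFounded fun x y => R y x :=
      @Finite.wellFounded_of_trans_of_irrefl W _ _ ⟨fun a b c h h' => tr _ _ _ h' h⟩ ⟨ir⟩
    rcases l with _ | ⟨B₀, l⟩
    · obtain ⟨m, h2, h3⟩ := wf.has_min {y | R w y} ⟨x, hx⟩
      exact h m h2 fun u hu => (h3 u (tr _ _ _ h2 hu) hu).elim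
    · obtain ⟨d, h2, h3⟩ := cl w x hx {c | R x c ∧ Force R V c (box A)}
        ((h1 B₀ List.mem_cons_self).imp fun c h => ⟨h.1, h.2.1⟩) fun c h => h.1
      obtain ⟨_, h4, h5⟩ := force_bigOr.1 (h d h2 fun u hu =>
        let ⟨c, h4, h5⟩ := (h3 u).1 hu; h4.2 u h5)
      obtain ⟨B, hB, rfl⟩ := List.mem_map.1 h4
      obtain ⟨c, h6, h7, h8⟩ := h1 B hB
      exact h8 fun u hu => h5 u ((h3 u).2 ⟨c, ⟨h6, h7⟩, hu⟩)
  | mp _ _ i1 i2 => exact fun w => i1 w (i2 w)
  | nec _ ih => exact fun _ u _ => ih u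

/-- `□□(□p ∨ □¬p) → □(□□p ∨ □□¬p)` -/
def phi : MF :=
  imp (box (box (MF.bigOr [box (atom 0), box (imp (atom 0) bot)])))
    (box (MF.bigOr [box (box (atom 0)), box (box (imp (atom 0) bot))]))

theorem phi_valid (tr : ∀ x y z, R x y → R y z → R x z) (hY : OmitsY R) (w : W) :
    Force R V w phi := by
  intro h x hx
  rw [force_bigOr]
  by_contra hn
  simp only [List.mem_cons, List.not_mem_nil, or_false, exists_eq_or_imp, exists_eq_left, Force,
    not_or, not_forall] at hn
  obtain ⟨⟨c₁, h1, e₁, h2, h3⟩, c₂, h4, e₂, h5, h6, -⟩ := hn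
  have key : ∀ c, R x c → R c e₁ → R c e₂ → False := fun c hc a b => by
    have := force_bigOr.1 (h x hx c hc)
    simp only [List.mem_cons, List.not_mem_nil, or_false, exists_eq_or_imp, exists_eq_left,
      Force] at this
    exact this.elim (fun t => h3 (t _ a)) fun t => t _ b h6
  exact hY ⟨w, x, c₁, c₂, e₁, e₂, hx, h1, h4, h2, h5, fun e => key c₁ h1 h2 (e ▸ h5),
    fun e => key c₁ h1 h2 (tr _ _ _ e h5), fun e => key c₂ h4 (tr _ _ _ e h2) h5⟩

/-- The tree `Y` (points 0 to 5) with one more point 6 that is seen by the root only and sees both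
leaves. -/
def R7 (a c : Fin 7) : Prop :=
  (a = 0 ∧ c ≠ 0) ∨ (a = 1 ∧ 2 ≤ c ∧ c ≤ 5) ∨ (c = 4 ∧ (a = 2 ∨ a = 6)) ∨ (c = 5 ∧ (a = 3 ∨ a = 6))

instance : DecidableRel R7 := fun _ _ => by unfold R7; infer_instance

theorem closed7 : Closed R7 := by
  have h : ∀ x₀ x, R7 x₀ x → ∀ F : Finset (Fin 7), F.Nonempty → (∀ c ∈ F, R7 x c) →
      ∃ d, R7 x₀ d ∧ ∀ z, R7 d z ↔ ∃ c ∈ F, R7 c z := by decide +kernel
  intro x₀ x hx F h1 h2
  classical
  simpa using h x₀ x hx F.toFinset (by simpa using h1) (by simpa using h2)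

set_option synthInstance.maxSize 4096 in
theorem not_glc_phi : ¬ GLC phi := fun h => by
  have := glc_valid (V := fun _ x => x = 4) (by decide +kernel) (by decide +kernel) closed7 h 0
  simp only [phi, MF.bigOr, Force] at this
  revert this
  decide +kernel

end Pool.Agent.MP_f18a41_lc.Wit
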